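import Pool.Agent.Work.MP_02f065_gt.HS.Stmts

/-!
MP_02f065_gt, block HS, item Alg (helper30): algebra of `J` and `rot J`.
-/

set_option autoImplicit false

open MeasureTheory Set Filter Topology

noncomputable section

namespace Pool.Agent.Work.MP_02f065_gt.HS

open Pool.Agent.Work.MP_02f065_gt.RPn Pool.Agent.Work.MP_02f065_gt.Cvx
open Pool.Agent.Work.MP_02f065_gt.FR

namespace XAlg

variable {ι : Type} [Fintype ι] {J : E ι → E ι}

theorem skew (h : IsCpx J) (x y : E ι) : (inner ℝ (J x) y : ℝ) = -inner ℝ x (J y) := by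
  have h1 := h.tangent (x + y)
  rw [h.linear.map_add, inner_add_left, inner_add_right, inner_add_right, h.tangent, h.tangent,
    zero_add, add_zero] at h1
  rw [real_inner_comm]
  linarith

theorem isom (h : IsCpx J) (x y : E ι) : (inner ℝ (J x) (J y) : ℝ) = inner ℝ x y := by
  have h1 : ‖J (x + y)‖ ^ 2 = ‖x + y‖ ^ 2 := by rw [h.norm]
  rw [h.linear.map_add, norm_add_sq_real, norm_add_sq_real, h.norm, h.norm] at h1
  linarith

theorem JJ (h : IsCpx J) (x : E ι) : J (J x) = -x := by
  apply ext_inner_right ℝ
  intro y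
  rw [skew h, isom h, inner_neg_left]

theorem Jneg (h : IsCpx J) (x : E ι) : J (-x) = -J x := h.linear.map_neg x

theorem Jsmul (h : IsCpx J) (c : ℝ) (x : E ι) : J (c • x) = c • J x := h.linear.map_smul c x

theorem cont (h : IsCpx J) : Continuous J :=
  (IsLinearMap.mk' J h.linear).continuous_of_finiteDimensional

theorem Jrot (h : IsCpx J) (t : ℝ) (x : E ι) : J (rot J t x) = rot J t (J x) := by
  unfold rot
  rw [h.linear.map_add, Jsmul h, Jsmul h]

theorem rot_add (h : IsCpx J) (s t : ℝ) (x : E ι) : rot J s (rot J t x) = rot J (s + t) x := by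
  unfold rot
  rw [h.linear.map_add, Jsmul h, Jsmul h, JJ h, Real.cos_add, Real.sin_add]
  module

theorem rot_inner (h : IsCpx J) (t : ℝ) (x y : E ι) :
    (inner ℝ (rot J t x) (rot J t y) : ℝ) = inner ℝ x y := by
  unfold rot
  rw [inner_add_left, inner_add_right, inner_add_right, real_inner_smul_left,
    real_inner_smul_left, real_inner_smul_left, real_inner_smul_left, real_inner_smul_right,
    real_inner_smul_right, real_inner_smul_right, real_inner_smul_right, isom h, skew h]
  have h1 := Real.sin_sq_add_cos_sq t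
  linear_combination (inner ℝ x y : ℝ) * h1

theorem rot_norm (h : IsCpx J) (t : ℝ) (x : E ι) : ‖rot J t x‖ = ‖x‖ := by
  have h1 := rot_inner h t x x
  rw [real_inner_self_eq_norm_sq, real_inner_self_eq_norm_sq] at h1
  have h2 := norm_nonneg (rot J t x)
  have h3 := norm_nonneg x
  nlinarith [sq_nonneg (‖rot J t x‖ - ‖x‖), abs_eq_abs.1 ((sq_eq_sq_iff_abs_eq_abs _ _).1 h1)]

end XAlg

open XAlg in
theorem hs_Alg : StAlg := by
  intro ι _ J h
  refine ⟨cont h, ⟨fun _ => h.linear, fun _ => h.tangent, ?_⟩, ?_, isom h,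
    fun x => ⟨JJ h x, Jneg h x⟩, ?_, rot_add h, ?_, rot_inner h,
    fun t x => ⟨rot_norm h t x, Jrot h t x⟩, ?_, ?_⟩
  · intro i j x
    rw [if_pos (Subsingleton.elim i j), isom h]
  · intro x y
    exact skew h x y
  · intro t
    constructor
    · intro x y
      unfold rot
      rw [h.linear.map_add]
      module
    · intro c x
      unfold rot
      rw [Jsmul h]
      module
  · intro x
    unfold rot
    rw [Real.cos_zero, Real.sin_zero, Real.cos_pi, Real.sin_pi]
    constructor
    · module
    · module
  · intro t x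
    rw [Jrot h]
    have h1 : HasDerivAt (fun s => Real.cos s • x) ((-Real.sin t) • x) t :=
      (Real.hasDerivAt_cos t).smul_const x
    have h2 : HasDerivAt (fun s => Real.sin s • J x) (Real.cos t • J x) t :=
      (Real.hasDerivAt_sin t).smul_const (J x)
    have h3 := h1.add h2
    have h4 : rot J t (J x) = (-Real.sin t) • x + Real.cos t • J x := by
      unfold rot
      rw [JJ h]
      module
    rw [h4]
    exact h3
  · have hc := cont h
    unfold rot
    fun_prop

end Pool.Agent.Work.MP_02f065_gt.HS
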