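import Pool.Agent.Work.MP_02f065_gt.HS.StmtsK

/-!
MP_02f065_gt, block HS, item Blk: the determinant at a unit vector.
-/

open MeasureTheory Set Filter Topology Complex

noncomputable section

namespace Pool.Agent.Work.MP_02f065_gt.HS

open Pool.Agent.Work.MP_02f065_gt.RPn Pool.Agent.Work.MP_02f065_gt.Cvx
open Pool.Agent.Work.MP_02f065_gt.FR

namespace XBlk

variable {ι : Type} [Fintype ι]

theorem inner_ei' [DecidableEq ι] (x : E ι) (i : ι) : (inner ℝ x (ei i) : ℝ) = x i := by
  unfold ei
  rw [EuclideanSpace.inner_single_right]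
  simp

/-- linear functionals -/
theorem lin_sum [DecidableEq ι] {ℓ : E ι → ℝ} (h : IsLinearMap ℝ ℓ) (y : E ι) :
    ∑ j, ℓ (ei j) * y j = ℓ y := by
  have e : y = ∑ j, y j • ei j := by
    have := (EuclideanSpace.basisFun ι ℝ).sum_repr y
    simp only [EuclideanSpace.basisFun_apply, EuclideanSpace.basisFun_repr] at this
    exact this.symm
  have e2 : ℓ y = (IsLinearMap.mk' ℓ h) (∑ j, y j • ei j) := by
    rw [← e]
    rfl
  rw [e2, map_sum]
  refine Finset.sum_congr rfl fun j _ => ?_
  rw [map_smul, smul_eq_mul, mul_comm]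
  rfl

theorem inner_sum [DecidableEq ι] (x y : E ι) : ∑ j, x j * y j = (inner ℝ x y : ℝ) := by
  have h : IsLinearMap ℝ fun v : E ι => (inner ℝ x v : ℝ) :=
    { map_add := fun a b => inner_add_right x a b
      map_smul := fun r a => by rw [real_inner_smul_right, smul_eq_mul] }
  rw [← lin_sum h y]
  refine Finset.sum_congr rfl fun j _ => ?_
  rw [inner_ei']

variable {J : E ι → E ι}

theorem lev_add (hl : IsLinearMap ℝ J) (u : E ι → ℝ) (x v v' w : E ι) :
    lev J u x (v + v') w = lev J u x v w + lev J u x v' w := by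
  unfold lev hess
  rw [hl.map_add]
  simp only [map_add, ContinuousLinearMap.add_apply]
  ring

theorem lev_smul (hl : IsLinearMap ℝ J) (u : E ι → ℝ) (r : ℝ) (x v w : E ι) :
    lev J u x (r • v) w = r * lev J u x v w := by
  unfold lev hess
  rw [hl.map_smul]
  simp only [map_smul, ContinuousLinearMap.smul_apply, smul_eq_mul]
  ring

theorem lev_symm (u : E ι → ℝ) (x v w : E ι) : lev J u x v w = lev J u x w v := by
  unfold lev
  ring

theorem lev_J (hJJ : ∀ v, J (J v) = -v) (u : E ι → ℝ) (x v w : E ι) :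
    lev J u x (J v) (J w) = lev J u x v w := by
  unfold lev hess
  rw [hJJ, hJJ]
  simp only [map_neg, ContinuousLinearMap.neg_apply, neg_neg]
  ring

theorem lev_zero (hl : IsLinearMap ℝ J) (u : E ι → ℝ) (x w : E ι) : lev J u x 0 w = 0 := by
  have := lev_smul hl u 0 x 0 w
  rwa [zero_smul, zero_mul] at this

theorem inner_hor {x : E ι} (hx : (inner ℝ x x : ℝ) = 1) (hJx : (inner ℝ (J x) (J x) : ℝ) = 1)
    (hxJ : (inner ℝ x (J x) : ℝ) = 0) (v w : E ι) :
    (inner ℝ (hor J x v) (hor J x w) : ℝ) =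
      inner ℝ v w - inner ℝ x v * inner ℝ x w - inner ℝ (J x) v * inner ℝ (J x) w := by
  have e1 : (inner ℝ v x : ℝ) = inner ℝ x v := real_inner_comm x v
  have e2 : (inner ℝ v (J x) : ℝ) = inner ℝ (J x) v := real_inner_comm (J x) v
  have e3 : (inner ℝ (J x) x : ℝ) = 0 := by rw [real_inner_comm]; exact hxJ
  unfold hor
  simp only [inner_sub_left, inner_sub_right, real_inner_smul_left, real_inner_smul_right]
  rw [e1, e2, e3, hx, hJx, hxJ]
  ring

theorem hor_lin (x : E ι) : IsLinearMap ℝ (hor J x) where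
  map_add a b := by
    unfold hor
    rw [inner_add_right, inner_add_right, add_smul, add_smul]
    abel
  map_smul r a := by
    unfold hor
    rw [real_inner_smul_right, real_inner_smul_right, smul_sub, smul_sub, mul_smul, mul_smul]

theorem inner_x_hor {x : E ι} (hx : (inner ℝ x x : ℝ) = 1) (hxJ : (inner ℝ x (J x) : ℝ) = 0)
    (v : E ι) : (inner ℝ x (hor J x v) : ℝ) = 0 := by
  unfold hor
  simp only [inner_sub_right, real_inner_smul_right]
  rw [hx, hxJ]
  ring

theorem inner_Jx_hor {x : E ι} (hJx : (inner ℝ (J x) (J x) : ℝ) = 1)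
    (hxJ : (inner ℝ x (J x) : ℝ) = 0) (v : E ι) : (inner ℝ (J x) (hor J x v) : ℝ) = 0 := by
  have e3 : (inner ℝ (J x) x : ℝ) = 0 := by rw [real_inner_comm]; exact hxJ
  unfold hor
  simp only [inner_sub_right, real_inner_smul_right]
  rw [hJx, e3]
  ring

theorem hor_x {x : E ι} (hx : (inner ℝ x x : ℝ) = 1) (hxJ : (inner ℝ x (J x) : ℝ) = 0) :
    hor J x x = 0 := by
  have e3 : (inner ℝ (J x) x : ℝ) = 0 := by rw [real_inner_comm]; exact hxJ
  unfold hor
  rw [hx, e3, one_smul, zero_smul]
  simp

theorem hor_Jx {x : E ι} (hJx : (inner ℝ (J x) (J x) : ℝ) = 1)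
    (hxJ : (inner ℝ x (J x) : ℝ) = 0) : hor J x (J x) = 0 := by
  unfold hor
  rw [hJx, hxJ, one_smul, zero_smul]
  simp

theorem kf_zero (hl : IsLinearMap ℝ J) (a : ℝ) (φ : E ι → ℝ) (s : ℝ) {x w : E ι}
    (h : hor J x w = 0) (v : E ι) : kf J a φ s x v w = 0 := by
  unfold kf
  rw [h, inner_zero_right, lev_symm, lev_zero hl]
  ring

theorem kf_lin (hl : IsLinearMap ℝ J) (a : ℝ) (φ : E ι → ℝ) (s : ℝ) (x v : E ι) :
    IsLinearMap ℝ (kf J a φ s x v) where
  map_add w w' := by
    unfold kf
    rw [(hor_lin x).map_add, inner_add_right, lev_symm, lev_add hl, lev_symm φ x (hor J x w),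
      lev_symm φ x (hor J x w')]
    ring
  map_smul r w := by
    unfold kf
    rw [(hor_lin x).map_smul, real_inner_smul_right, lev_symm, lev_smul hl,
      lev_symm φ x (hor J x w), smul_eq_mul]
    ring

/-- the two determinants -/
theorem dets [DecidableEq ι] (hl : IsLinearMap ℝ J) (a : ℝ) (φ : E ι → ℝ) (s c : ℝ) {x : E ι}
    (hx : (inner ℝ x x : ℝ) = 1) (hJx : (inner ℝ (J x) (J x) : ℝ) = 1)
    (hxJ : (inner ℝ x (J x) : ℝ) = 0) :
    (Matrix.of fun i j : ι => kf J a φ s x (ei i) (ei j) +
      c * (x i * x j + J x i * J x j)).det =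
    c ^ 2 * (Matrix.of fun i j : ι => x i * x j + J x i * J x j +
      kf J a φ s x (ei i) (ei j)).det := by
  have e3 : (inner ℝ (J x) x : ℝ) = 0 := by rw [real_inner_comm]; exact hxJ
  set U : Matrix ι (Fin 2) ℝ := Matrix.of fun i t => if t = 0 then x i else (J x) i with hU
  set M : Matrix ι ι ℝ := Matrix.of fun i j : ι => x i * x j + J x i * J x j +
    kf J a φ s x (ei i) (ei j) with hM
  -- `M U = U`
  have hMU : M * U = U := by
    ext i t
    rw [Matrix.mul_apply]
    have key : ∀ y : E ι, hor J x y = 0 →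
        ∑ j, M i j * y j = x i * inner ℝ x y + J x i * inner ℝ (J x) y := by
      intro y hy
      have h1 : ∑ j, kf J a φ s x (ei i) (ei j) * y j = 0 := by
        rw [lin_sum (kf_lin hl a φ s x (ei i)) y]
        exact kf_zero hl a φ s hy (ei i)
      calc ∑ j, M i j * y j = ∑ j, (x i * (x j * y j) + J x i * (J x j * y j) +
            kf J a φ s x (ei i) (ei j) * y j) := by
            refine Finset.sum_congr rfl fun j _ => ?_
            rw [hM, Matrix.of_apply]
            ring
        _ = x i * ∑ j, x j * y j + J x i * ∑ j, J x j * y j := by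
            rw [Finset.sum_add_distrib, Finset.sum_add_distrib, h1, Finset.mul_sum,
              Finset.mul_sum, add_zero]
        _ = _ := by rw [inner_sum, inner_sum]
    by_cases ht : t = 0
    · have h1 : ∀ j, U j t = x j := fun j => by rw [hU, Matrix.of_apply, if_pos ht]
      rw [h1 i, Finset.sum_congr rfl fun j _ => by rw [h1 j], key x (hor_x hx hxJ), hx, e3]
      ring
    · have h1 : ∀ j, U j t = (J x) j := fun j => by rw [hU, Matrix.of_apply, if_neg ht]
      rw [h1 i, Finset.sum_congr rfl fun j _ => by rw [h1 j], key (J x) (hor_Jx hJx hxJ), hJx,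
        hxJ]
      ring
  -- `U^T U = 1`
  have hUU : U.transpose * U = 1 := by
    ext s' t
    rw [Matrix.mul_apply]
    fin_cases s' <;> fin_cases t
    · show ∑ j, x j * x j = _
      rw [inner_sum, hx]
      rfl
    · show ∑ j, x j * (J x) j = _
      rw [inner_sum, hxJ]
      rfl
    · show ∑ j, (J x) j * x j = _
      rw [inner_sum, e3]
      rfl
    · show ∑ j, (J x) j * (J x) j = _
      rw [inner_sum, hJx]
      rfl
  have hB : (Matrix.of fun i j : ι => kf J a φ s x (ei i) (ei j) +
      c * (x i * x j + J x i * J x j)) = M * (1 + ((c - 1) • U) * U.transpose) := by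
    rw [mul_add, mul_one, Matrix.smul_mul, Matrix.mul_smul, ← Matrix.mul_assoc, hMU]
    ext i j
    rw [Matrix.add_apply, Matrix.smul_apply, Matrix.mul_apply, Fin.sum_univ_two, hM,
      Matrix.of_apply, Matrix.of_apply, smul_eq_mul]
    show _ = _ + (c - 1) * (x i * x j + J x i * J x j)
    ring
  rw [hB, Matrix.det_mul, Matrix.det_one_add_mul_comm, Matrix.mul_smul, hUU]
  have h2 : (1 + (c - 1) • (1 : Matrix (Fin 2) (Fin 2) ℝ)) = c • 1 := by
    rw [sub_smul, one_smul]
    abel
  rw [h2, Matrix.det_smul, Matrix.det_one, Fintype.card_fin]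
  ring

end XBlk

open XBlk in
theorem hs_Blk (hAlg : StAlg) (hPot : StPot) (hLg : StLg) (hRc : StRc) : StBlk := by
  intro ι _ _ J k e a lam φ hJ he hφ hlam x hx
  obtain ⟨-, -, -, hJin, hJJ, -⟩ := hAlg ι J hJ
  obtain ⟨-, -, -, -, -, -, -, hPh⟩ := hPot ι J a φ hJ hφ
  obtain ⟨-, -, hLh, -⟩ := hLg ι J hJ
  have hx0 : x ≠ 0 := by
    intro h
    rw [h, norm_zero] at hx
    exact zero_ne_one hx
  have hxx : (inner ℝ x x : ℝ) = 1 := by rw [real_inner_self_eq_norm_sq, hx]; norm_num
  have hJx : (inner ℝ (J x) (J x) : ℝ) = 1 := by rw [hJin, hxx]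
  have hxJ : (inner ℝ x (J x) : ℝ) = 0 := hJ.tangent x
  have hJJ' : ∀ v, J (J v) = -v := fun v => (hJJ v).1
  -- the form
  set B : E ι → E ι → ℝ := fun v w =>
    a * lev J lg x v w + lev J φ x v w + 2 * lam * inner ℝ v w with hB
  have hBk : ∀ v w, B v w = kf J a φ (2 * lam) x v w +
      2 * lam * (inner ℝ x v * inner ℝ x w + inner ℝ (J x) v * inner ℝ (J x) w) := by
    intro v w
    rw [hB]
    show a * lev J lg x v w + lev J φ x v w + 2 * lam * inner ℝ v w = _
    unfold kf
    rw [hLh x v w hx, hPh x v w hx0, inner_hor hxx hJx hxJ]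
    ring
  have h1 : ∀ v v' w, B (v + v') w = B v w + B v' w := by
    intro v v' w
    simp only [hB]
    rw [lev_add hJ.linear, lev_add hJ.linear, inner_add_left]
    ring
  have h2 : ∀ (r : ℝ) v w, B (r • v) w = r * B v w := by
    intro r v w
    simp only [hB]
    rw [lev_smul hJ.linear, lev_smul hJ.linear, real_inner_smul_left]
    ring
  have h3 : ∀ v w, B v w = B w v := by
    intro v w
    simp only [hB]
    rw [lev_symm lg x v w, lev_symm φ x v w, real_inner_comm]
  have h4 : ∀ v w, B (J v) (J w) = B v w := by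
    intro v w
    simp only [hB]
    rw [lev_J hJJ', lev_J hJJ', hJin]
  have h5 : ∀ v, v ≠ 0 → 0 < B v v := by
    intro v hv
    simp only [hB]
    rw [hLh x v v hx, hPh x v v hx0]
    have hvv : (0 : ℝ) < inner ℝ v v := by
      rw [real_inner_self_eq_norm_sq]
      have : 0 < ‖v‖ := norm_pos_iff.mpr hv
      positivity
    by_cases h0 : hor J x v = 0
    · rw [h0, inner_zero_left, lev_zero hJ.linear]
      have : 0 < 2 * lam * inner ℝ v v := by positivity
      linarith
    · have := hφ.pos x (hor J x v) hx (inner_x_hor hxx hxJ v) (inner_Jx_hor hJx hxJ v) h0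
      have h6 : 0 < 2 * lam * inner ℝ v v := by positivity
      linarith
  -- the complex matrix
  have hM : (2 : ℂ) • ((a : ℂ) • Hm J e lg x + Hm J e φ x +
      (lam : ℂ) • (1 : Matrix (Fin k) (Fin k) ℂ)) =
      Matrix.of fun i j : Fin k => ((B (e i) (e j) : ℝ) : ℂ) +
        Complex.I * (B (e i) (J (e j)) : ℝ) := by
    ext i j
    have hon := he.on i j
    have honJ : (inner ℝ (e i) (J (e j)) : ℝ) = 0 := by
      rw [real_inner_comm]
      exact he.onJ j i
    have hb1 : B (e i) (e j) = a * lev J lg x (e i) (e j) + lev J φ x (e i) (e j) +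
        2 * lam * (if i = j then 1 else 0) := by
      simp only [hB]
      rw [hon]
    have hb2 : B (e i) (J (e j)) =
        a * lev J lg x (e i) (J (e j)) + lev J φ x (e i) (J (e j)) := by
      simp only [hB]
      rw [honJ]
      ring
    rw [Matrix.smul_apply, Matrix.add_apply, Matrix.add_apply, Matrix.smul_apply,
      Matrix.smul_apply, Matrix.one_apply, Matrix.of_apply, hb1, hb2]
    unfold Hm
    rw [Matrix.of_apply, Matrix.of_apply]
    simp only [smul_eq_mul]
    by_cases hij : i = j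
    · rw [if_pos hij, if_pos hij]
      push_cast
      ring
    · rw [if_neg hij, if_neg hij]
      push_cast
      ring
  have hdet := congrArg Matrix.det hM
  rw [Matrix.det_smul, Fintype.card_fin] at hdet
  rw [hdet, hRc ι J k e B hJ he h1 h2 h3 h4 h5]
  congr 1
  -- the real determinants
  have hmat : (Matrix.of fun i j : ι => B (ei i) (ei j)) =
      (Matrix.of fun i j : ι => kf J a φ (2 * lam) x (ei i) (ei j) +
        (2 * lam) * (x i * x j + J x i * J x j)) := by
    ext i j
    rw [Matrix.of_apply, Matrix.of_apply, hBk, inner_ei', inner_ei', inner_ei', inner_ei']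
  rw [hmat, dets hJ.linear a φ (2 * lam) (2 * lam) hxx hJx hxJ]
  unfold kd
  rw [Real.sqrt_mul (by positivity), Real.sqrt_sq (by positivity)]

end Pool.Agent.Work.MP_02f065_gt.HS
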