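import Pool.Agent.Work.MP_02f065_gt.HS.StmtsK

/-!
MP_02f065_gt, block HS, item Con (helper30): the mass is constant.
-/

set_option autoImplicit false

open MeasureTheory Set Filter Topology Complex

noncomputable section

namespace Pool.Agent.Work.MP_02f065_gt.HS

open Pool.Agent.Work.MP_02f065_gt.RPn Pool.Agent.Work.MP_02f065_gt.Cvx
open Pool.Agent.Work.MP_02f065_gt.FR

namespace XCon

variable {ι : Type} [Fintype ι] {k : ℕ}

theorem cont_mul {Y : Type} [TopologicalSpace Y] (χ : E ι → ℝ) (hχ : Continuous χ)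
    (h0 : (0 : E ι) ∉ tsupport χ) (g : Y × E ι → ℂ) (hg : ContinuousOn g {z | z.2 ≠ 0}) :
    Continuous (fun z : Y × E ι => (χ z.2 : ℂ) * g z) := by
  rw [continuous_iff_continuousAt]
  rintro ⟨y, x⟩
  by_cases hx : x = 0
  · subst hx
    have hev : ∀ᶠ x : E ι in 𝓝 0, χ x = 0 := by
      have : (tsupport χ)ᶜ ∈ 𝓝 (0 : E ι) := (isClosed_tsupport χ).isOpen_compl.mem_nhds h0
      filter_upwards [this] with x hx
      exact image_eq_zero_of_notMem_tsupport hx
    have hev2 : ∀ᶠ z : Y × E ι in 𝓝 (y, 0), (χ z.2 : ℂ) * g z = 0 := by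
      have := (continuous_snd.tendsto (y, (0 : E ι))).eventually hev
      filter_upwards [this] with z hz
      rw [hz]
      simp
    have h1 : ContinuousAt (fun _ : Y × E ι => (0 : ℂ)) (y, 0) := continuousAt_const
    exact h1.congr (hev2.mono fun z hz => hz.symm)
  · have h1 : {z : Y × E ι | z.2 ≠ 0} ∈ 𝓝 (y, x) :=
      (isOpen_ne.preimage continuous_snd).mem_nhds hx
    exact ((Complex.continuous_ofReal.comp (hχ.comp continuous_snd)).continuousAt).mul
      (hg.continuousAt h1)

theorem cont_mul1 (χ : E ι → ℝ) (hχ : Continuous χ) (h0 : (0 : E ι) ∉ tsupport χ)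
    (g : E ι → ℂ) (hg : ContinuousOn g {0}ᶜ) : Continuous (fun x : E ι => (χ x : ℂ) * g x) := by
  have h := cont_mul (Y := Unit) χ hχ h0 (fun z => g z.2)
    (hg.comp continuous_snd.continuousOn (fun z hz => hz))
  exact h.comp (continuous_const.prodMk continuous_id : Continuous fun x : E ι => (((), x) : Unit × E ι))

theorem supp_mul (χ : E ι → ℝ) (hc : HasCompactSupport χ) (g : E ι → ℂ) :
    HasCompactSupport (fun x : E ι => (χ x : ℂ) * g x) := by
  have h1 : HasCompactSupport (fun x : E ι => (χ x : ℂ)) :=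
    hc.comp_left (g := fun r : ℝ => (r : ℂ)) Complex.ofReal_zero
  exact h1.mul_right

theorem int_mul (χ : E ι → ℝ) (hχ : Continuous χ) (hc : HasCompactSupport χ)
    (h0 : (0 : E ι) ∉ tsupport χ) (g : E ι → ℂ) (hg : ContinuousOn g {0}ᶜ) :
    Integrable (fun x : E ι => (χ x : ℂ) * g x) :=
  (cont_mul1 χ hχ h0 g hg).integrable_of_hasCompactSupport (supp_mul χ hc g)

/-- the cut off functions -/
theorem cut {H : ℝ → ℝ} (hH : HasCompactSupport H) (h0 : (0 : ℝ) ∉ tsupport H) :
    HasCompactSupport (fun x : E ι => H (inner ℝ x x)) ∧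
    (0 : E ι) ∉ tsupport (fun x : E ι => H (inner ℝ x x)) := by
  have hcont : Continuous (fun x : E ι => (inner ℝ x x : ℝ)) := continuous_id.inner continuous_id
  have hsub : tsupport (fun x : E ι => H (inner ℝ x x)) ⊆
      (fun x : E ι => (inner ℝ x x : ℝ)) ⁻¹' tsupport H := by
    apply closure_minimal _ ((isClosed_tsupport H).preimage hcont)
    intro x hx
    exact subset_tsupport H hx
  constructor
  · obtain ⟨R, hR⟩ := hH.isBounded.subset_closedBall (0 : ℝ)
    have hb : tsupport (fun x : E ι => H (inner ℝ x x)) ⊆ Metric.closedBall 0 (R + 1) := by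
      intro x hx
      have h1 : (inner ℝ x x : ℝ) ∈ Metric.closedBall 0 R := hR (hsub hx)
      rw [Metric.mem_closedBall, dist_zero_right, real_inner_self_eq_norm_sq, Real.norm_eq_abs,
        abs_of_nonneg (sq_nonneg _)] at h1
      rw [Metric.mem_closedBall, dist_zero_right]
      nlinarith [norm_nonneg x, sq_nonneg (‖x‖ - 1)]
    exact IsCompact.of_isClosed_subset (isCompact_closedBall _ _) (isClosed_tsupport _) hb
  · intro h
    have h1 := hsub h
    rw [mem_preimage, inner_zero_left] at h1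
    exact h0 h1

theorem hess_lin (u v : E ι → ℝ) (c d : ℝ) (x : E ι) (hu : ContDiffAt ℝ 2 u x)
    (hv : ContDiffAt ℝ 2 v x) (w z : E ι) :
    hess (fun y => c * u y + d * v y) x w z = c * hess u x w z + d * hess v x w z := by
  have hu1 : ∀ᶠ y in 𝓝 x, DifferentiableAt ℝ u y :=
    (hu.eventually (by simp)).mono fun y hy => hy.differentiableAt (by norm_num)
  have hv1 : ∀ᶠ y in 𝓝 x, DifferentiableAt ℝ v y :=
    (hv.eventually (by simp)).mono fun y hy => hy.differentiableAt (by norm_num)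
  have hu2 : DifferentiableAt ℝ (fderiv ℝ u) x :=
    (hu.fderiv_right (m := 1) (by norm_num)).differentiableAt (by norm_num)
  have hv2 : DifferentiableAt ℝ (fderiv ℝ v) x :=
    (hv.fderiv_right (m := 1) (by norm_num)).differentiableAt (by norm_num)
  have heq : fderiv ℝ (fun y => c * u y + d * v y) =ᶠ[𝓝 x]
      fun y => c • fderiv ℝ u y + d • fderiv ℝ v y := by
    filter_upwards [hu1, hv1] with y h1 h2
    exact ((h1.hasFDerivAt.const_mul c).add (h2.hasFDerivAt.const_mul d)).fderiv
  unfold hess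
  rw [heq.fderiv_eq]
  have h3 : fderiv ℝ (fun y => c • fderiv ℝ u y + d • fderiv ℝ v y) x =
      c • fderiv ℝ (fderiv ℝ u) x + d • fderiv ℝ (fderiv ℝ v) x :=
    ((hu2.hasFDerivAt.const_smul c).add (hv2.hasFDerivAt.const_smul d)).fderiv
  rw [h3]
  simp

theorem lev_lin (J : E ι → E ι) (u v : E ι → ℝ) (c d : ℝ) (x : E ι) (hu : ContDiffAt ℝ 2 u x)
    (hv : ContDiffAt ℝ 2 v x) (w z : E ι) :
    lev J (fun y => c * u y + d * v y) x w z = c * lev J u x w z + d * lev J v x w z := by
  unfold lev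
  rw [hess_lin u v c d x hu hv, hess_lin u v c d x hu hv, hess_lin u v c d x hu hv,
    hess_lin u v c d x hu hv]
  ring

theorem Hm_lin (J : E ι → E ι) (e : Fin k → E ι) (u v : E ι → ℝ) (c d : ℝ) (x : E ι)
    (hu : ContDiffAt ℝ 2 u x) (hv : ContDiffAt ℝ 2 v x) :
    Hm J e (fun y => c * u y + d * v y) x = (c : ℂ) • Hm J e u x + (d : ℂ) • Hm J e v x := by
  apply Matrix.ext
  intro i j
  simp only [Hm, Matrix.of_apply, Matrix.add_apply, Matrix.smul_apply, smul_eq_mul]
  rw [lev_lin J u v c d x hu hv, lev_lin J u v c d x hu hv]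
  push_cast
  ring

theorem open0 : IsOpen ({0}ᶜ : Set (E ι)) := isOpen_compl_singleton

theorem lev_cont (J : E ι → E ι) (u : E ι → ℝ) (hu : ContDiffOn ℝ 3 u {0}ᶜ) (v w : E ι) :
    ContinuousOn (fun x => lev J u x v w) {0}ᶜ := by
  have h1 : ContDiffOn ℝ 2 (fderiv ℝ u) {0}ᶜ := hu.fderiv_of_isOpen open0 (by norm_num)
  have h2 : ContDiffOn ℝ 1 (fderiv ℝ (fderiv ℝ u)) {0}ᶜ :=
    h1.fderiv_of_isOpen open0 (by norm_num)
  have h3 : ∀ v w : E ι, ContinuousOn (fun x => hess u x v w) {0}ᶜ := fun v w =>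
    (h2.continuousOn.clm_apply continuousOn_const).clm_apply continuousOn_const
  unfold lev
  exact ((((h3 v w).add (h3 w v)).add (h3 (J v) (J w))).add (h3 (J w) (J v))).div_const 4

theorem Hm_cont (J : E ι → E ι) (e : Fin k → E ι) (u : E ι → ℝ) (hu : ContDiffOn ℝ 3 u {0}ᶜ)
    (i j : Fin k) : ContinuousOn (fun x => Hm J e u x i j) {0}ᶜ := by
  have h1 := lev_cont J u hu (e i) (e j)
  have h2 := lev_cont J u hu (e i) (J (e j))
  have h3 : ContinuousOn (fun x => ((lev J u x (e i) (e j) : ℝ) : ℂ)) {0}ᶜ :=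
    Complex.continuous_ofReal.comp_continuousOn h1
  have h4 : ContinuousOn (fun x => ((lev J u x (e i) (J (e j)) : ℝ) : ℂ)) {0}ᶜ :=
    Complex.continuous_ofReal.comp_continuousOn h2
  exact continuousOn_const.mul (h3.add (continuousOn_const.mul h4))

theorem det_cont {Y : Type} [TopologicalSpace Y] (s : Set Y) (M : Y → Matrix (Fin k) (Fin k) ℂ)
    (h : ∀ i j, ContinuousOn (fun y => M y i j) s) : ContinuousOn (fun y => (M y).det) s := by
  have h1 : ContinuousOn M s := continuousOn_pi.2 fun i => continuousOn_pi.2 fun j => h i j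
  exact (continuous_id.matrix_det : Continuous fun A : Matrix (Fin k) (Fin k) ℂ => A.det).comp_continuousOn h1

/-- the matrix `A_t` -/
def Am (J : E ι → E ι) (e : Fin k → E ι) (a lam : ℝ) (φ : E ι → ℝ) (t : ℝ) (x : E ι) :
    Matrix (Fin k) (Fin k) ℂ :=
  ((a : ℂ) • Hm J e lg x + (lam : ℂ) • (1 : Matrix (Fin k) (Fin k) ℂ)) + (t : ℂ) • Hm J e φ x

theorem Am_cont (J : E ι → E ι) (e : Fin k → E ι) (a lam : ℝ) (φ : E ι → ℝ)
    (hl : ContDiffOn ℝ 3 (lg : E ι → ℝ) {0}ᶜ) (hφ : ContDiffOn ℝ 3 φ {0}ᶜ) (i j : Fin k) :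
    ContinuousOn (fun z : ℝ × E ι => Am J e a lam φ z.1 z.2 i j) {z | z.2 ≠ 0} := by
  have h1 : ContinuousOn (fun z : ℝ × E ι => Hm J e lg z.2 i j) {z | z.2 ≠ 0} :=
    (Hm_cont J e lg hl i j).comp continuous_snd.continuousOn (fun z hz => hz)
  have h2 : ContinuousOn (fun z : ℝ × E ι => Hm J e φ z.2 i j) {z | z.2 ≠ 0} :=
    (Hm_cont J e φ hφ i j).comp continuous_snd.continuousOn (fun z hz => hz)
  have h3 : ContinuousOn (fun z : ℝ × E ι => ((z.1 : ℝ) : ℂ)) {z | z.2 ≠ 0} :=
    (Complex.continuous_ofReal.comp continuous_fst).continuousOn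
  exact ((continuousOn_const.mul h1).add continuousOn_const).add (h3.mul h2)

theorem upd_cont {Y : Type} [TopologicalSpace Y] (s : Set Y) (M : Y → Matrix (Fin k) (Fin k) ℂ)
    (c : Y → Fin k → ℂ) (j₀ : Fin k)
    (h : ∀ i j, ContinuousOn (fun y => M y i j) s) (hc : ∀ i, ContinuousOn (fun y => c y i) s) :
    ContinuousOn (fun y => ((M y).updateCol j₀ (c y)).det) s := by
  apply det_cont
  intro i j
  by_cases hj : j = j₀
  · have : (fun y => (M y).updateCol j₀ (c y) i j) = fun y => c y i := by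
      funext y
      rw [hj, Matrix.updateCol_self]
    rw [this]
    exact hc i
  · have : (fun y => (M y).updateCol j₀ (c y) i j) = fun y => M y i j := by
      funext y
      rw [Matrix.updateCol_ne hj]
    rw [this]
    exact h i j

/-- the potential `U_t` -/
def Ut (a lam : ℝ) (φ : E ι → ℝ) (t : ℝ) : E ι → ℝ :=
  fun y => 1 * (a * lg y + t * φ y) + lam * (inner ℝ y y : ℝ)

theorem sq_smooth : ContDiff ℝ 3 (fun y : E ι => (inner ℝ y y : ℝ)) :=
  contDiff_id.inner ℝ contDiff_id

theorem Ut_smooth (a lam : ℝ) (φ : E ι → ℝ) (t : ℝ)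
    (hl : ContDiffOn ℝ 3 (lg : E ι → ℝ) {0}ᶜ) (hφ : ContDiffOn ℝ 3 φ {0}ᶜ) :
    ContDiffOn ℝ 3 (Ut a lam φ t) {0}ᶜ :=
  (contDiffOn_const.mul ((contDiffOn_const.mul hl).add (contDiffOn_const.mul hφ))).add
    (contDiffOn_const.mul sq_smooth.contDiffOn)

theorem Ut_Hm (hLg : StLg) (J : E ι → E ι) (hJ : IsCpx J) (e : Fin k → E ι)
    (he : IsUni J e) (a lam : ℝ) (φ : E ι → ℝ) (t : ℝ) (hφ : ContDiffOn ℝ 3 φ {0}ᶜ) (x : E ι)
    (hx : x ≠ 0) : Hm J e (Ut a lam φ t) x = Am J e a lam φ t x := by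
  obtain ⟨hl, -, -, hsq⟩ := hLg ι J hJ
  have hnx : ({0}ᶜ : Set (E ι)) ∈ 𝓝 x := open0.mem_nhds hx
  have h1 : ContDiffAt ℝ 2 (lg : E ι → ℝ) x := (hl.contDiffAt hnx).of_le (by norm_num)
  have h2 : ContDiffAt ℝ 2 φ x := (hφ.contDiffAt hnx).of_le (by norm_num)
  have h3 : ContDiffAt ℝ 2 (fun y : E ι => (inner ℝ y y : ℝ)) x :=
    sq_smooth.contDiffAt.of_le (by norm_num)
  have h4 : ContDiffAt ℝ 2 (fun y : E ι => a * lg y + t * φ y) x :=
    (contDiffAt_const.mul h1).add (contDiffAt_const.mul h2)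
  have h5 : Hm J e (fun y : E ι => (inner ℝ y y : ℝ)) x = 1 := by
    apply Matrix.ext
    intro i j
    have h6 : (inner ℝ (e i) (J (e j)) : ℝ) = 0 := by
      rw [real_inner_comm]
      exact he.onJ j i
    simp only [Hm, Matrix.of_apply]
    rw [hsq x _ _ hx, hsq x _ _ hx, h6, he.on, Matrix.one_apply]
    by_cases hij : i = j
    · rw [if_pos hij, if_pos hij]
      push_cast
      ring
    · rw [if_neg hij, if_neg hij]
      push_cast
      ring
  unfold Ut
  rw [Hm_lin J e (fun y : E ι => a * lg y + t * φ y) (fun y : E ι => (inner ℝ y y : ℝ)) 1 lam x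
    h4 h3, Hm_lin J e lg φ a t x h1 h2, h5]
  unfold Am
  rw [Complex.ofReal_one, one_smul]
  abel

theorem deriv_supp {F : ℝ → ℝ} (h0 : (0 : ℝ) ∉ tsupport F) : (0 : ℝ) ∉ tsupport (deriv F) :=
  fun h => h0 (closure_minimal support_deriv_subset (isClosed_tsupport F) h)

end XCon

open XCon in
theorem hs_Con (hLg : StLg) (hCx : StCx) (hKer : StKer) (hNl : StNl)
    (hDd : StDd) (hCr : StCr) : StCon := by
  intro ι _ _ J k e a lam φ F hJ he hφ hlam hF hFc hF0
  obtain ⟨hl, -, -, -⟩ := hLg ι J hJ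
  have hφs := hφ.smooth
  obtain ⟨hCx1, hCx2⟩ := hCx ι J k e hJ he
  have hFd : Differentiable ℝ F := hF.differentiable (by norm_num)
  have hF'c : Continuous (deriv F) := hF.continuous_deriv (by norm_num)
  have hsqc : Continuous (fun x : E ι => (inner ℝ x x : ℝ)) := continuous_id.inner continuous_id
  obtain ⟨hχc, hχ0⟩ := cut (ι := ι) hFc hF0
  obtain ⟨hχ'c, hχ'0⟩ := cut (ι := ι) hFc.deriv (deriv_supp hF0)
  have hχcont : Continuous (fun x : E ι => F (inner ℝ x x)) := hF.continuous.comp hsqc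
  have hχ'cont : Continuous (fun x : E ι => deriv F (inner ℝ x x)) := hF'c.comp hsqc
  have hχC1 : ContDiff ℝ 1 (fun x : E ι => F (inner ℝ x x)) :=
    hF.comp (sq_smooth.of_le (by norm_num))
  -- continuity
  have hAc := fun i j => Am_cont J e a lam φ hl hφs i j
  have hφc : ∀ i j, ContinuousOn (fun z : ℝ × E ι => Hm J e φ z.2 i j) {z | z.2 ≠ 0} := fun i j =>
    (Hm_cont J e φ hφs i j).comp continuous_snd.continuousOn (fun z hz => hz)
  have hslice : ∀ (t : ℝ) (g : ℝ × E ι → ℂ), ContinuousOn g {z | z.2 ≠ 0} →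
      ContinuousOn (fun x : E ι => g (t, x)) {0}ᶜ := fun t g hg =>
    hg.comp (continuous_const.prodMk continuous_id).continuousOn (fun x hx => hx)
  have hD : ∀ j, ContinuousOn (fun z : ℝ × E ι =>
      ((Am J e a lam φ z.1 z.2).updateCol j (fun i => Hm J e φ z.2 i j)).det) {z | z.2 ≠ 0} :=
    fun j => upd_cont _ _ _ j hAc (fun i => hφc i j)
  have hDs : ContinuousOn (fun z : ℝ × E ι => ∑ j,
      ((Am J e a lam φ z.1 z.2).updateCol j (fun i => Hm J e φ z.2 i j)).det) {z | z.2 ≠ 0} :=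
    continuousOn_finsetSum _ fun j _ => hD j
  have hdet : ContinuousOn (fun z : ℝ × E ι => (Am J e a lam φ z.1 z.2).det) {z | z.2 ≠ 0} :=
    det_cont _ _ hAc
  -- the derivative
  have hder : ∀ t : ℝ, HasDerivAt (fun t : ℝ => ∫ x : E ι, ((F (inner ℝ x x) : ℝ) : ℂ) *
      (Am J e a lam φ t x).det) (∫ x : E ι, ((F (inner ℝ x x) : ℝ) : ℂ) * ∑ j,
      ((Am J e a lam φ t x).updateCol j (fun i => Hm J e φ x i j)).det) t := by
    intro t
    have hG := cont_mul (fun x : E ι => F (inner ℝ x x)) hχcont hχ0 _ hDs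
    have hGd := cont_mul (fun x : E ι => F (inner ℝ x x)) hχcont hχ0 _ hdet
    obtain ⟨C, hC⟩ := ((isCompact_closedBall t 1).prod hχc.isCompact).exists_bound_of_continuousOn
      hG.continuousOn
    have hres := hasDerivAt_integral_of_dominated_loc_of_deriv_le
      (μ := (volume : Measure (E ι)))
      (F := fun (t : ℝ) (x : E ι) => ((F (inner ℝ x x) : ℝ) : ℂ) * (Am J e a lam φ t x).det)
      (F' := fun (t : ℝ) (x : E ι) => ((F (inner ℝ x x) : ℝ) : ℂ) * ∑ j,
        ((Am J e a lam φ t x).updateCol j (fun i => Hm J e φ x i j)).det)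
      (x₀ := t) (s := Metric.closedBall t 1)
      (bound := (tsupport (fun x : E ι => F (inner ℝ x x))).indicator (fun _ => C))
      (Metric.closedBall_mem_nhds t one_pos)
      (Filter.Eventually.of_forall fun s =>
        (hGd.comp (continuous_const.prodMk continuous_id :
          Continuous fun x : E ι => ((s, x) : ℝ × E ι))).aestronglyMeasurable)
      (int_mul _ hχcont hχc hχ0 _ (hslice t _ hdet))
      (hG.comp (continuous_const.prodMk continuous_id :
          Continuous fun x : E ι => ((t, x) : ℝ × E ι))).aestronglyMeasurable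
      (Filter.Eventually.of_forall ?_) ?_ (Filter.Eventually.of_forall ?_)
    · exact hres.2
    · intro x s hs
      by_cases hx : x ∈ tsupport (fun x : E ι => F (inner ℝ x x))
      · rw [indicator_of_mem hx]
        exact hC (s, x) ⟨hs, hx⟩
      · rw [indicator_of_notMem hx]
        have h0 : F (inner ℝ x x) = 0 :=
          image_eq_zero_of_notMem_tsupport (f := fun x : E ι => F (inner ℝ x x)) hx
        rw [h0]
        simp
    · rw [integrable_indicator_iff (isClosed_tsupport _).measurableSet]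
      exact integrableOn_const hχc.isCompact.measure_lt_top.ne
    · intro x s _
      exact (hDd k ((a : ℂ) • Hm J e lg x + (lam : ℂ) • (1 : Matrix (Fin k) (Fin k) ℂ))
        (Hm J e φ x) s).const_mul _
  -- it vanishes
  have hzero : ∀ t : ℝ, ∫ x : E ι, ((F (inner ℝ x x) : ℝ) : ℂ) * ∑ j,
      ((Am J e a lam φ t x).updateCol j (fun i => Hm J e φ x i j)).det = 0 := by
    intro t
    have hsm := Ut_smooth a lam φ t hl hφs
    have hT : ∀ j : Fin k, ∫ x : E ι, ((F (inner ℝ x x) : ℝ) : ℂ) *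
        ((Am J e a lam φ t x).updateCol j (fun i => Hm J e φ x i j)).det =
        -∫ x : E ι, ((deriv F (inner ℝ x x) : ℝ) : ℂ) * (dzb J e j (fun y => (φ y : ℂ)) x *
          ((Am J e a lam φ t x).updateCol j (zb J e x)).det) := by
      intro j
      have hu : ∀ l, ContDiffOn ℝ 3 (if l = j then φ else Ut a lam φ t) {0}ᶜ := by
        intro l
        by_cases hlj : l = j
        · rw [if_pos hlj]
          exact hφs
        · rw [if_neg hlj]
          exact hsm
      have hM : ∀ x : E ι, x ≠ 0 → (Matrix.of fun i l => Pd ((1 / 2 : ℝ) • e i)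
          (-(1 / 2 : ℝ) • J (e i)) (dzb J e l (fun y => (((if l = j then φ else Ut a lam φ t) y : ℝ) : ℂ))) x) =
          (Am J e a lam φ t x).updateCol j (fun i => Hm J e φ x i j) := by
        intro x hx
        apply Matrix.ext
        intro i l
        have h1 := (hCx1 _ (hu l)).2 x hx i l
        rw [Matrix.of_apply]
        refine h1.trans ?_
        by_cases hlj : l = j
        · rw [if_pos hlj, hlj, Matrix.updateCol_self]
        · rw [if_neg hlj, Matrix.updateCol_ne hlj, Ut_Hm hLg J hJ e he a lam φ t hφs x hx]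
      have hnl := hNl ι k (fun i => (1 / 2 : ℝ) • e i) (fun i => -(1 / 2 : ℝ) • J (e i))
        (fun l => dzb J e l (fun y => (((if l = j then φ else Ut a lam φ t) y : ℝ) : ℂ)))
        (fun x : E ι => F (inner ℝ x x)) j (fun l => (hCx1 _ (hu l)).1 l) hχC1 hχc hχ0
      have e1 : ∀ x : E ι, ((F (inner ℝ x x) : ℝ) : ℂ) *
          ((Am J e a lam φ t x).updateCol j (fun i => Hm J e φ x i j)).det =
          ((F (inner ℝ x x) : ℝ) : ℂ) * (Matrix.of fun i l => Pd ((1 / 2 : ℝ) • e i)
          (-(1 / 2 : ℝ) • J (e i)) (dzb J e l (fun y => (((if l = j then φ else Ut a lam φ t) y : ℝ) : ℂ))) x).det := by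
        intro x
        by_cases hx : x = 0
        · have h0 : F (inner ℝ x x) = 0 := by
            rw [hx, inner_zero_left]
            exact image_eq_zero_of_notMem_tsupport hF0
          rw [h0]
          simp
        · rw [hM x hx]
      rw [integral_congr_ae (Filter.Eventually.of_forall e1)]
      refine hnl.trans ?_
      congr 1
      refine integral_congr_ae (Filter.Eventually.of_forall fun x => ?_)
      show dzb J e j (fun y => (((if j = j then φ else Ut a lam φ t) y : ℝ) : ℂ)) x *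
        ((Matrix.of fun i l => Pd ((1 / 2 : ℝ) • e i)
          (-(1 / 2 : ℝ) • J (e i)) (dzb J e l (fun y => (((if l = j then φ else Ut a lam φ t) y : ℝ) : ℂ))) x).updateCol j
          (fun i => dz J e i (fun y => ((F (inner ℝ y y) : ℝ) : ℂ)) x)).det =
        ((deriv F (inner ℝ x x) : ℝ) : ℂ) * (dzb J e j (fun y => (φ y : ℂ)) x *
          ((Am J e a lam φ t x).updateCol j (zb J e x)).det)
      have hcol : (fun i => dz J e i (fun y => ((F (inner ℝ y y) : ℝ) : ℂ)) x) =
          ((deriv F (inner ℝ x x) : ℝ) : ℂ) • zb J e x := by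
        funext i
        rw [hCx2 F x i (hFd _)]
        rfl
      rw [if_pos rfl, hcol, Matrix.det_updateCol_smul]
      by_cases hx : x = 0
      · have h0 : deriv F (inner ℝ x x) = 0 := by
          rw [hx, inner_zero_left]
          exact image_eq_zero_of_notMem_tsupport (deriv_supp hF0)
        rw [h0]
        simp
      · rw [hM x hx, Matrix.updateCol_idem]
        ring
    have hint1 : ∀ j ∈ (Finset.univ : Finset (Fin k)), Integrable (fun x : E ι =>
        ((F (inner ℝ x x) : ℝ) : ℂ) *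
        ((Am J e a lam φ t x).updateCol j (fun i => Hm J e φ x i j)).det) := fun j _ =>
      int_mul _ hχcont hχc hχ0 _ (hslice t _ (hD j))
    have hzbc : ∀ i, ContinuousOn (fun x : E ι => zb J e x i) {0}ᶜ := by
      intro i
      unfold zb
      exact ((Complex.continuous_ofReal.comp (continuous_const.inner continuous_id)).sub
        (continuous_const.mul (Complex.continuous_ofReal.comp
          (continuous_const.inner continuous_id)))).continuousOn
    have hint2 : ∀ j ∈ (Finset.univ : Finset (Fin k)), Integrable (fun x : E ι =>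
        ((deriv F (inner ℝ x x) : ℝ) : ℂ) * (dzb J e j (fun y => (φ y : ℂ)) x *
          ((Am J e a lam φ t x).updateCol j (zb J e x)).det)) := fun j _ =>
      int_mul _ hχ'cont hχ'c hχ'0 _ ((((hCx1 φ hφs).1 j).continuousOn).mul
        (upd_cont _ _ _ j (fun i l => hslice t _ (hAc i l)) hzbc))
    have e2 : ∀ x : E ι, ((F (inner ℝ x x) : ℝ) : ℂ) * ∑ j,
        ((Am J e a lam φ t x).updateCol j (fun i => Hm J e φ x i j)).det =
        ∑ j, ((F (inner ℝ x x) : ℝ) : ℂ) *
        ((Am J e a lam φ t x).updateCol j (fun i => Hm J e φ x i j)).det := fun x =>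
      Finset.mul_sum _ _ _
    rw [integral_congr_ae (Filter.Eventually.of_forall e2), integral_finsetSum _ hint1,
      Finset.sum_congr rfl fun j _ => hT j, Finset.sum_neg_distrib,
      ← integral_finsetSum _ hint2, neg_eq_zero]
    have e3 : ∀ x : E ι, ∑ j, ((deriv F (inner ℝ x x) : ℝ) : ℂ) *
        (dzb J e j (fun y => (φ y : ℂ)) x *
          ((Am J e a lam φ t x).updateCol j (zb J e x)).det) = 0 := by
      intro x
      rw [← Finset.mul_sum]
      by_cases hx : x = 0
      · have h0 : deriv F (inner ℝ x x) = 0 := by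
          rw [hx, inner_zero_left]
          exact image_eq_zero_of_notMem_tsupport (deriv_supp hF0)
        rw [h0]
        simp
      · obtain ⟨k1, k2, k3⟩ := hKer ι J k e a φ hJ he hφ x hx
        rw [hCr k (Am J e a lam φ t x) (zb J e x) (fun j => dzb J e j (fun y => (φ y : ℂ)) x)
          (lam : ℂ) (by exact_mod_cast hlam.ne') ?_ k3, mul_zero]
        unfold Am
        rw [Matrix.add_mulVec, Matrix.add_mulVec, Matrix.smul_mulVec, Matrix.smul_mulVec,
          Matrix.smul_mulVec, k1, k2, Matrix.one_mulVec, smul_zero, smul_zero, zero_add, add_zero]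
    rw [integral_congr_ae (Filter.Eventually.of_forall e3)]
    simp
  have hdiff : Differentiable ℝ (fun t : ℝ => ∫ x : E ι, ((F (inner ℝ x x) : ℝ) : ℂ) *
      (Am J e a lam φ t x).det) := fun t => (hder t).differentiableAt
  have hconst := is_const_of_deriv_eq_zero hdiff (fun t => by rw [(hder t).deriv, hzero t]) 1 0
  have f1 : ∀ x : E ι, Am J e a lam φ 1 x = (a : ℂ) • Hm J e lg x + Hm J e φ x +
      (lam : ℂ) • (1 : Matrix (Fin k) (Fin k) ℂ) := by
    intro x
    unfold Am
    rw [Complex.ofReal_one, one_smul]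
    abel
  have f0 : ∀ x : E ι, Am J e a lam φ 0 x = (a : ℂ) • Hm J e lg x +
      (lam : ℂ) • (1 : Matrix (Fin k) (Fin k) ℂ) := by
    intro x
    unfold Am
    rw [Complex.ofReal_zero, zero_smul, add_zero]
  simp only [f1, f0] at hconst
  exact hconst

end Pool.Agent.Work.MP_02f065_gt.HS
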