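import Pool.Agent.Work.MP_02f065_gt.HS.StmtsK

set_option autoImplicit false

/-!
# MP_02f065_gt, block HS, item Cr: Cramer's rule
-/

namespace Pool.Agent.Work.MP_02f065_gt.HS

theorem hs_Cr : StCr := by
  intro k A z w lam hlam hA hw
  have h1 : ∀ j, (A.updateCol j z).det = (A.adjugate.mulVec z) j := by
    intro j
    rw [← Matrix.cramer_eq_adjugate_mulVec, Matrix.cramer_apply]
  have h2 : lam • (A.adjugate.mulVec z) = A.det • z := by
    rw [← Matrix.mulVec_smul, ← hA, Matrix.mulVec_mulVec, Matrix.adjugate_mul, Matrix.smul_mulVec,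
      Matrix.one_mulVec]
  have h3 : lam * ∑ j, w j * (A.updateCol j z).det = 0 := by
    rw [Finset.mul_sum]
    have h4 : ∀ j, lam * (w j * (A.updateCol j z).det) = A.det * (w j * z j) := by
      intro j
      have h5 : lam * (A.adjugate.mulVec z) j = A.det * z j := congrFun h2 j
      rw [h1]
      linear_combination w j * h5
    rw [Finset.sum_congr rfl fun j _ => h4 j, ← Finset.mul_sum, hw, mul_zero]
  exact (mul_eq_zero.1 h3).resolve_left hlam

end Pool.Agent.Work.MP_02f065_gt.HS
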