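import Pool.Agent.Work.MP_02f065_gt.HS.StmtsK

/-!
MP_02f065_gt, block HS, item Cx: the complex operators on real functions.
-/

open MeasureTheory Set Filter Topology Complex

noncomputable section

namespace Pool.Agent.Work.MP_02f065_gt.HS

open Pool.Agent.Work.MP_02f065_gt.RPn Pool.Agent.Work.MP_02f065_gt.Cvx
open Pool.Agent.Work.MP_02f065_gt.FR

namespace XCx

variable {ι : Type} [Fintype ι]

theorem open0 : IsOpen ({0}ᶜ : Set (E ι)) := isOpen_compl_singleton

/-- `Pd` of a C^3 function is C^2. -/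
theorem pd_c2 {g : E ι → ℂ} (hg : ContDiffOn ℝ 3 g {0}ᶜ) (p q : E ι) :
    ContDiffOn ℝ 2 (Pd p q g) {0}ᶜ := by
  have h1 : ContDiffOn ℝ 2 (fderiv ℝ g) {0}ᶜ :=
    hg.fderiv_of_isOpen open0 (by norm_num)
  unfold Pd
  exact (h1.clm_apply contDiffOn_const).add (contDiffOn_const.mul (h1.clm_apply contDiffOn_const))

/-- The derivative of a real function viewed as a complex function. -/
theorem fd_ofReal {u : E ι → ℝ} {x : E ι} (hu : DifferentiableAt ℝ u x) (v : E ι) :
    fderiv ℝ (fun y => ((u y : ℝ) : ℂ)) x v = ((fderiv ℝ u x v : ℝ) : ℂ) := by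
  have h : HasFDerivAt (fun y => ((u y : ℝ) : ℂ)) (Complex.ofRealCLM.comp (fderiv ℝ u x)) x :=
    Complex.ofRealCLM.hasFDerivAt.comp x hu.hasFDerivAt
  rw [h.fderiv]
  rfl

/-- The derivative of `Pd` of a real function. -/
theorem fd_pd {u : E ι → ℝ} (hu : ContDiffOn ℝ 3 u {0}ᶜ) {x : E ι} (hx : x ≠ 0) (p q v : E ι) :
    fderiv ℝ (Pd p q (fun y => ((u y : ℝ) : ℂ))) x v =
      ((hess u x v p : ℝ) : ℂ) + I * ((hess u x v q : ℝ) : ℂ) := by
  have hat : ContDiffAt ℝ 3 u x := hu.contDiffAt (open0.mem_nhds hx)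
  have hd : DifferentiableAt ℝ (fderiv ℝ u) x :=
    (hat.fderiv_right (m := 2) (by norm_num)).differentiableAt (by norm_num)
  have heq : Pd p q (fun y => ((u y : ℝ) : ℂ)) =ᶠ[𝓝 x] fun y =>
      ((fderiv ℝ u y p : ℝ) : ℂ) + I * ((fderiv ℝ u y q : ℝ) : ℂ) := by
    filter_upwards [open0.mem_nhds hx] with y hy
    have hdy : DifferentiableAt ℝ u y :=
      (hu.contDiffAt (open0.mem_nhds hy)).differentiableAt (by norm_num)
    unfold Pd
    rw [fd_ofReal hdy, fd_ofReal hdy]
  have h1 : ∀ a : E ι, HasFDerivAt (fun y => ((fderiv ℝ u y a : ℝ) : ℂ))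
      (Complex.ofRealCLM.comp ((ContinuousLinearMap.apply ℝ ℝ a).comp
        (fderiv ℝ (fderiv ℝ u) x))) x := fun a =>
    Complex.ofRealCLM.hasFDerivAt.comp x
      ((ContinuousLinearMap.apply ℝ ℝ a).hasFDerivAt.comp x hd.hasFDerivAt)
  have h2 := ((h1 p).add ((h1 q).const_mul I)).congr_of_eventuallyEq heq
  rw [h2.fderiv]
  simp [hess]

end XCx

open XCx in
theorem hs_Cx (hAlg : StAlg) : StCx := by
  intro ι _ J k e hJ he
  obtain ⟨-, -, -, -, hJJ, -⟩ := hAlg ι J hJ
  refine ⟨fun u hu => ⟨fun j => ?_, fun x hx i j => ?_⟩, fun F x i hF => ?_⟩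
  · exact pd_c2 (Complex.ofRealCLM.contDiff.comp_contDiffOn hu) _ _
  · have hat : ContDiffAt ℝ 3 u x := hu.contDiffAt (open0.mem_nhds hx)
    have hsym : ∀ v w : E ι, hess u x v w = hess u x w v := fun v w =>
      (hat.isSymmSndFDerivAt (by simp; norm_num)) v w
    have hsm : ∀ (r : ℝ) (v w : E ι), hess u x (r • v) w = r * hess u x v w := by
      intro r v w
      simp [hess]
    have hsm' : ∀ (r : ℝ) (v w : E ι), hess u x v (r • w) = r * hess u x v w := by
      intro r v w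
      simp [hess]
    have hneg : ∀ v w : E ι, hess u x v (-w) = -hess u x v w := by
      intro v w
      simp [hess]
    have e1 : dz J e i (dzb J e j (fun x => (u x : ℂ))) x =
        fderiv ℝ (Pd ((1 / 2 : ℝ) • e j) ((1 / 2 : ℝ) • J (e j)) (fun y => ((u y : ℝ) : ℂ))) x
          ((1 / 2 : ℝ) • e i) + I *
        fderiv ℝ (Pd ((1 / 2 : ℝ) • e j) ((1 / 2 : ℝ) • J (e j)) (fun y => ((u y : ℝ) : ℂ))) x
          (-(1 / 2 : ℝ) • J (e i)) := rfl
    rw [e1, fd_pd hu hx, fd_pd hu hx]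
    unfold Hm lev
    rw [Matrix.of_apply]
    simp only [hsm, hsm', (hJJ _).1, hneg]
    rw [hsym (e j) (e i), hsym (J (e j)) (J (e i)), hsym (J (e j)) (e i)]
    have h3 : hess u x (-e j) (J (e i)) = -hess u x (J (e i)) (e j) := by
      rw [hsym, hneg]
    rw [h3]
    push_cast
    linear_combination (-(1 / 4 : ℂ) * ((hess u x (J (e i)) (J (e j)) : ℝ) : ℂ)) * Complex.I_sq
  · have h1 : HasFDerivAt (fun y : E ι => (inner ℝ y y : ℝ))
        ((fderivInnerCLM ℝ (x, x)).comp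
          ((ContinuousLinearMap.id ℝ (E ι)).prod (ContinuousLinearMap.id ℝ (E ι)))) x :=
      (hasFDerivAt_id x).inner ℝ (hasFDerivAt_id x)
    have hFd : HasDerivAt F (deriv F (inner ℝ x x)) ((fun y : E ι => (inner ℝ y y : ℝ)) x) :=
      hF.hasDerivAt
    have h2 : HasFDerivAt (fun y : E ι => F (inner ℝ y y)) _ x :=
      HasDerivAt.comp_hasFDerivAt (f := fun y : E ι => (inner ℝ y y : ℝ)) x hFd h1
    have h3 : ∀ v : E ι, fderiv ℝ (fun y : E ι => ((F (inner ℝ y y) : ℝ) : ℂ)) x v =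
        ((deriv F (inner ℝ x x) * (2 * inner ℝ x v) : ℝ) : ℂ) := by
      intro v
      rw [fd_ofReal h2.differentiableAt, h2.fderiv]
      congr 1
      simp only [ContinuousLinearMap.smul_apply, ContinuousLinearMap.comp_apply,
        ContinuousLinearMap.prod_apply, ContinuousLinearMap.id_apply, fderivInnerCLM_apply,
        smul_eq_mul]
      rw [real_inner_comm x v]
      ring
    unfold dz Pd
    rw [h3, h3]
    unfold zb
    rw [inner_smul_right, inner_smul_right, real_inner_comm x (e i), real_inner_comm x (J (e i))]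
    push_cast
    ring

end Pool.Agent.Work.MP_02f065_gt.HS
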