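import Pool.Agent.Work.MP_02f065_gt.HS.StmtsK

/-!
MP_02f065_gt, block HS, item Dd: derivative of a determinant along a line.
-/

open MeasureTheory Set Filter Topology Complex

noncomputable section

namespace Pool.Agent.Work.MP_02f065_gt.HS

namespace XDd

/-- the determinant with one column replaced -/
theorem det_upd {k : ℕ} (M K : Matrix (Fin k) (Fin k) ℂ) (j : Fin k) :
    (M.updateCol j (fun i => K i j)).det = ∑ σ : Equiv.Perm (Fin k),
      ((Equiv.Perm.sign σ : ℤ) : ℂ) *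
        ((∏ i ∈ Finset.univ.erase j, M (σ i) i) * K (σ j) j) := by
  rw [Matrix.det_apply']
  refine Finset.sum_congr rfl fun σ _ => ?_
  rw [← Finset.prod_erase_mul Finset.univ _ (Finset.mem_univ j)]
  congr 2
  · refine Finset.prod_congr rfl fun i hi => ?_
    rw [Matrix.updateCol_ne (Finset.ne_of_mem_erase hi)]
  · rw [Matrix.updateCol_self]

/-- derivative of an entry -/
theorem entry {k : ℕ} (A K : Matrix (Fin k) (Fin k) ℂ) (t : ℝ) (i j : Fin k) :
    HasDerivAt (fun s : ℝ => (A + (s : ℂ) • K) i j) (K i j) t := by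
  have h1 : HasDerivAt (fun s : ℝ => (s : ℂ)) 1 t := Complex.ofRealCLM.hasDerivAt
  have h2 : HasDerivAt (fun s : ℝ => A i j + (s : ℂ) * K i j) (1 * K i j) t :=
    (h1.mul_const (K i j)).const_add (A i j)
  rw [one_mul] at h2
  refine h2.congr_of_eventuallyEq (Filter.Eventually.of_forall fun s => ?_)
  simp [Matrix.add_apply, Matrix.smul_apply]

end XDd

theorem hs_Dd : StDd := by
  intro k A K t
  have h1 : ∀ σ : Equiv.Perm (Fin k), HasDerivAt
      (fun s : ℝ => ((Equiv.Perm.sign σ : ℤ) : ℂ) * ∏ i, (A + (s : ℂ) • K) (σ i) i)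
      (((Equiv.Perm.sign σ : ℤ) : ℂ) * ∑ j, (∏ i ∈ Finset.univ.erase j,
        (A + (t : ℂ) • K) (σ i) i) • K (σ j) j) t := fun σ =>
    (HasDerivAt.fun_finsetProd fun i _ => XDd.entry A K t (σ i) i).const_mul _
  have h2 := HasDerivAt.fun_sum (u := Finset.univ) fun σ _ => h1 σ
  have e1 : (fun s : ℝ => (A + (s : ℂ) • K).det) = fun s : ℝ => ∑ σ : Equiv.Perm (Fin k),
      ((Equiv.Perm.sign σ : ℤ) : ℂ) * ∏ i, (A + (s : ℂ) • K) (σ i) i := by
    funext s
    rw [Matrix.det_apply']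
  have e2 : ∑ j, ((A + (t : ℂ) • K).updateCol j (fun i => K i j)).det =
      ∑ σ : Equiv.Perm (Fin k), ((Equiv.Perm.sign σ : ℤ) : ℂ) * ∑ j,
        (∏ i ∈ Finset.univ.erase j, (A + (t : ℂ) • K) (σ i) i) • K (σ j) j := by
    simp only [XDd.det_upd, Finset.mul_sum, smul_eq_mul]
    exact Finset.sum_comm
  rw [e1, e2]
  exact h2

end Pool.Agent.Work.MP_02f065_gt.HS
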