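import Pool.Agent.Work.MP_02f065_gt.HS.Stmts

/-!
MP_02f065_gt, block HS, item Disp: the displacement of the horizontal lifts.
-/

open MeasureTheory Set Filter Topology

noncomputable section

namespace Pool.Agent.Work.MP_02f065_gt.HS

open Pool.Agent.Work.MP_02f065_gt.RPn Pool.Agent.Work.MP_02f065_gt.Cvx
open Pool.Agent.Work.MP_02f065_gt.FR

namespace XDisp

variable {ι : Type} [Fintype ι]

/-- The right side of the equation of the horizontal lift. -/
def F (g : RPn.Field ι) (J : E ι → E ι) (x y : E ι) (t s : ℝ) : ℝ :=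
  -theta g J (rot J s (gcr x y t)) (rot J s (gcv x y t))

/-- `rot` is Lipschitz in the angle. -/
lemma rot_lip (J : E ι → E ι)
    (hd : ∀ (t : ℝ) (x : E ι), HasDerivAt (fun s => rot J s x) (J (rot J t x)) t)
    (hn : ∀ (t : ℝ) (x : E ι), ‖J (rot J t x)‖ = ‖x‖) (x : E ι) (hx : ‖x‖ = 1) (s s' : ℝ) :
    ‖rot J s x - rot J s' x‖ ≤ |s - s'| := by
  have h := Convex.norm_image_sub_le_of_norm_hasDerivWithin_le (f := fun s => rot J s x)
    (f' := fun s => J (rot J s x)) (s := Set.univ) (x := s') (y := s) (C := 1)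
    (fun t _ => (hd t x).hasDerivWithinAt) (fun t _ => by rw [hn, hx]) convex_univ
    (Set.mem_univ _) (Set.mem_univ _)
  rw [one_mul, Real.norm_eq_abs] at h
  exact h

/-- The difference of two great circles. -/
lemma gcr_sub (x y x' y' : E ι) (t : ℝ) :
    ‖gcr x y t - gcr x' y' t‖ ≤ ‖x - x'‖ + ‖y - y'‖ := by
  have e : gcr x y t - gcr x' y' t = Real.cos t • (x - x') + Real.sin t • (y - y') := by
    unfold gcr
    rw [smul_sub, smul_sub]
    abel
  rw [e]
  refine (norm_add_le _ _).trans (add_le_add ?_ ?_)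
  · rw [norm_smul, Real.norm_eq_abs]
    exact mul_le_of_le_one_left (norm_nonneg _) (Real.abs_cos_le_one t)
  · rw [norm_smul, Real.norm_eq_abs]
    exact mul_le_of_le_one_left (norm_nonneg _) (Real.abs_sin_le_one t)

lemma gcv_sub (x y x' y' : E ι) (t : ℝ) :
    ‖gcv x y t - gcv x' y' t‖ ≤ ‖x - x'‖ + ‖y - y'‖ := by
  have e : gcv x y t - gcv x' y' t = (-Real.sin t) • (x - x') + Real.cos t • (y - y') := by
    unfold gcv
    rw [smul_sub, smul_sub]
    abel
  rw [e]
  refine (norm_add_le _ _).trans (add_le_add ?_ ?_)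
  · rw [norm_smul, Real.norm_eq_abs, abs_neg]
    exact mul_le_of_le_one_left (norm_nonneg _) (Real.abs_sin_le_one t)
  · rw [norm_smul, Real.norm_eq_abs]
    exact mul_le_of_le_one_left (norm_nonneg _) (Real.abs_cos_le_one t)

end XDisp

open XDisp in
theorem hs_Disp (hAlg : StAlg) (hGc : StGc) (hPt : StPt) (hLip : StLip) (hOdeEx : StOdeEx)
    (hOdeDe : StOdeDe) : StDisp := by
  classical
  intro ι _ J g hJ hg hgL
  obtain ⟨hJc, -, -, -, -, hRl, -, hR0, hRi, hRn, hRd, hRc⟩ := hAlg ι J hJ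
  obtain ⟨hG1, hG2, -, -, -, -, -⟩ := hGc ι J hJ
  obtain ⟨-, -, -, -, -, hthc, -, C, hC0, -, hthb⟩ := hPt ι J g hJ hg
  obtain ⟨K, hK0, hK⟩ := hLip ι J g hJ hg hgL
  -- elementary facts
  have hnr : ∀ (t : ℝ) (x : E ι), ‖J (rot J t x)‖ = ‖x‖ := fun t x => by
    rw [hJ.norm, (hRn t x).1]
  have hrl := rot_lip J hRd hnr
  have hrs : ∀ (s : ℝ) (x y : E ι), ‖rot J s x - rot J s y‖ = ‖x - y‖ := fun s x y => by
    rw [← (hRl s).map_sub, (hRn s _).1]
  have hN1 : ∀ (x y : E ι), ON x y → ∀ t s : ℝ, ‖rot J s (gcr x y t)‖ = 1 :=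
    fun x y h t s => by rw [(hRn s _).1]; exact ((hG2 x y h t).1).1
  have hN2 : ∀ (x y : E ι), ON x y → ∀ t s : ℝ, ‖rot J s (gcv x y t)‖ = 1 :=
    fun x y h t s => by rw [(hRn s _).1]; exact ((hG2 x y h t).1).2.1
  have hgcr : ∀ x y : E ι, Continuous (gcr x y) := fun x y =>
    continuous_iff_continuousAt.2 fun t => (hG1 x y t).continuousAt
  have hgcv : ∀ x y : E ι, Continuous (gcv x y) := fun x y => by
    unfold gcv
    fun_prop
  have hFc : ∀ x y : E ι, ON x y → Continuous (fun z : ℝ × ℝ => F g J x y z.1 z.2) := by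
    intro x y h
    unfold F
    refine Continuous.neg ?_
    have a1 : Continuous fun z : ℝ × ℝ => ((z.2, gcr x y z.1) : ℝ × E ι) :=
      continuous_snd.prodMk ((hgcr x y).comp continuous_fst)
    have a2 : Continuous fun z : ℝ × ℝ => ((z.2, gcv x y z.1) : ℝ × E ι) :=
      continuous_snd.prodMk ((hgcv x y).comp continuous_fst)
    have b1 := hRc.comp a1
    have b2 := hRc.comp a2
    simp only [Function.comp_def] at b1 b2
    have h1 : Continuous fun z : ℝ × ℝ =>
        ((rot J z.2 (gcr x y z.1), rot J z.2 (gcv x y z.1)) : E ι × E ι) := b1.prodMk b2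
    have h2 : ∀ z : ℝ × ℝ,
        ((rot J z.2 (gcr x y z.1), rot J z.2 (gcv x y z.1)) : E ι × E ι) ∈
          {z : E ι × E ι | ‖z.1‖ = 1} := fun z => hN1 x y h z.1 z.2
    exact hthc.comp_continuous h1 h2
  have hFb : ∀ x y : E ι, ON x y → ∀ t s : ℝ, |F g J x y t s| ≤ C := by
    intro x y h t s
    unfold F
    rw [abs_neg]
    have := hthb (rot J s (gcr x y t)) (rot J s (gcv x y t)) (hN1 x y h t s)
    rwa [hN2 x y h t s, mul_one] at this
  have hFl : ∀ x y : E ι, ON x y → ∀ t s s' : ℝ,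
      |F g J x y t s - F g J x y t s'| ≤ (2 * K) * |s - s'| := by
    intro x y h t s s'
    unfold F
    have h1 := hK (rot J s (gcr x y t)) (rot J s' (gcr x y t)) (rot J s (gcv x y t))
      (rot J s' (gcv x y t)) (hN1 x y h t s) (hN1 x y h t s') (hN2 x y h t s).le
      (hN2 x y h t s').le
    have h2 := hrl (gcr x y t) ((hG2 x y h t).1).1 s s'
    have h3 := hrl (gcv x y t) ((hG2 x y h t).1).2.1 s s'
    rw [show ∀ a b : ℝ, -a - -b = -(a - b) from fun a b => by ring, abs_neg]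
    calc _ ≤ K * (‖rot J s (gcr x y t) - rot J s' (gcr x y t)‖ +
          ‖rot J s (gcv x y t) - rot J s' (gcv x y t)‖) := h1
      _ ≤ K * (|s - s'| + |s - s'|) := mul_le_mul_of_nonneg_left (add_le_add h2 h3) hK0
      _ = (2 * K) * |s - s'| := by ring
  have hFd : ∀ x y x' y' : E ι, ON x y → ON x' y' → ∀ t s : ℝ,
      |F g J x y t s - F g J x' y' t s| ≤ 2 * K * (‖x - x'‖ + ‖y - y'‖) := by
    intro x y x' y' h h' t s
    unfold F
    have h1 := hK (rot J s (gcr x y t)) (rot J s (gcr x' y' t)) (rot J s (gcv x y t))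
      (rot J s (gcv x' y' t)) (hN1 x y h t s) (hN1 x' y' h' t s) (hN2 x y h t s).le
      (hN2 x' y' h' t s).le
    rw [hrs, hrs] at h1
    rw [show ∀ a b : ℝ, -a - -b = -(a - b) from fun a b => by ring, abs_neg]
    refine h1.trans ?_
    calc K * (‖gcr x y t - gcr x' y' t‖ + ‖gcv x y t - gcv x' y' t‖)
        ≤ K * ((‖x - x'‖ + ‖y - y'‖) + (‖x - x'‖ + ‖y - y'‖)) :=
          mul_le_mul_of_nonneg_left (add_le_add (gcr_sub x y x' y' t) (gcv_sub x y x' y' t)) hK0
      _ = 2 * K * (‖x - x'‖ + ‖y - y'‖) := by ring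
  have hK2 : 0 ≤ 2 * K := by positivity
  -- comparison of two lifts
  have hcmp : ∀ (x y x' y' : E ι) (τ σ : ℝ → ℝ), ON x y → ON x' y' → IsLift g J x y τ →
      IsLift g J x' y' σ → |τ Real.pi - σ Real.pi| ≤
        2 * K * (‖x - x'‖ + ‖y - y'‖) * Real.pi * Real.exp (2 * K * Real.pi) := by
    intro x y x' y' τ σ h h' hτ hσ
    exact hOdeDe (F g J x y) (F g J x' y') C (2 * K) (2 * K * (‖x - x'‖ + ‖y - y'‖)) hC0.le hK2
      (by positivity) (hFb x' y' h') (hFl x y h) (fun t _ s _ => hFd x y x' y' h h' t s) τ σ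
      hτ.zero hσ.zero hτ.deriv hσ.deriv
  have hex : ∀ x y : E ι, ON x y → ∃ τ, IsLift g J x y τ := by
    intro x y h
    obtain ⟨τ, h0, h1⟩ := hOdeEx (F g J x y) C (2 * K) (hFc x y h) (hFb x y h) (hFl x y h)
    exact ⟨τ, h0, h1⟩
  have huni : ∀ (x y : E ι) (τ σ : ℝ → ℝ), ON x y → IsLift g J x y τ → IsLift g J x y σ →
      τ Real.pi = σ Real.pi := by
    intro x y τ σ h hτ hσ
    have := hcmp x y x y τ σ h h hτ hσ
    rw [sub_self, sub_self, norm_zero, add_zero, mul_zero, zero_mul, zero_mul] at this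
    exact sub_eq_zero.1 (abs_nonpos_iff.1 this)
  refine ⟨fun x y => if h : ∃ τ, IsLift g J x y τ then (Classical.choose h) Real.pi else 0,
    ?_, ?_, ?_⟩
  · set M : ℝ := 4 * K * Real.pi * Real.exp (2 * K * Real.pi) with hM
    have hM0 : 0 ≤ M := by have := Real.pi_pos; positivity
    refine LipschitzOnWith.continuousOn (K := ⟨M, hM0⟩) ?_
    refine LipschitzOnWith.of_dist_le_mul ?_
    rintro ⟨x, y⟩ h ⟨x', y'⟩ h'
    have h1 : ON x y := h
    have h1' : ON x' y' := h'
    have h2 := hex x y h1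
    have h2' := hex x' y' h1'
    simp only [dif_pos h2, dif_pos h2']
    rw [Real.dist_eq]
    refine (hcmp x y x' y' _ _ h1 h1' (Classical.choose_spec h2)
      (Classical.choose_spec h2')).trans ?_
    have h3 : ‖x - x'‖ ≤ dist (x, y) (x', y') := by
      rw [← dist_eq_norm, Prod.dist_eq]
      exact le_max_left _ _
    have h4 : ‖y - y'‖ ≤ dist (x, y) (x', y') := by
      rw [← dist_eq_norm, Prod.dist_eq]
      exact le_max_right _ _
    have hp := Real.pi_pos
    have he := Real.exp_pos (2 * K * Real.pi)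
    calc 2 * K * (‖x - x'‖ + ‖y - y'‖) * Real.pi * Real.exp (2 * K * Real.pi)
        = 2 * K * Real.pi * Real.exp (2 * K * Real.pi) * (‖x - x'‖ + ‖y - y'‖) := by ring
      _ ≤ 2 * K * Real.pi * Real.exp (2 * K * Real.pi) *
          (dist (x, y) (x', y') + dist (x, y) (x', y')) :=
          mul_le_mul_of_nonneg_left (add_le_add h3 h4) (by positivity)
      _ = M * dist (x, y) (x', y') := by rw [hM]; ring
  · intro x y h
    have h2 := hex x y h
    refine ⟨Classical.choose h2, Classical.choose_spec h2, ?_⟩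
    simp only [dif_pos h2]
  · intro x y τ h hτ
    have h2 : ∃ τ, IsLift g J x y τ := ⟨τ, hτ⟩
    simp only [dif_pos h2]
    exact huni x y _ _ h hτ (Classical.choose_spec h2)

end Pool.Agent.Work.MP_02f065_gt.HS
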