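import Pool.Agent.Work.MP_02f065_gt.HS.Stmts

/-!
MP_02f065_gt, block HS, item ExP: conformally round quotients in dimension four.
-/

open MeasureTheory Set Filter Topology

noncomputable section

namespace Pool.Agent.Work.MP_02f065_gt.HS

open Pool.Agent.Work.MP_02f065_gt.RPn Pool.Agent.Work.MP_02f065_gt.Cvx
open Pool.Agent.Work.MP_02f065_gt.FR

theorem hs_ExP (hAlg : StAlg) (hQr : StQr) : StExP := by
  intro ι _ _ J g u hJ hcard hg hLip hu hupos huinv hq
  obtain ⟨-, -, -, -, -, aLin, -, -, aIn, aNorm, -, -⟩ := hAlg ι J hJ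
  constructor
  · refine ⟨hg, hLip, ?_⟩
    intro x v t hx hv
    have hRx : ‖rot J t x‖ = 1 := by rw [(aNorm t x).1, hx]
    have hRv : (inner ℝ (rot J t x) (rot J t v) : ℝ) = 0 := by rw [aIn, hv]
    rw [hq _ _ hRx hRv, hq x v hx hv, huinv x t hx]
    have hh : hor J (rot J t x) (rot J t v) = rot J t (hor J x v) := by
      unfold hor
      rw [(aNorm t x).2, aIn, aIn, (aLin t).map_sub, (aLin t).map_sub, (aLin t).map_smul,
        (aLin t).map_smul]
    rw [hh, (aNorm t _).1]
  · have h4 : ((Fintype.card ι : ℝ) - 2) = 2 := by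
      rw [hcard]
      norm_num
    have hpt : ∀ x : Metric.sphere (0 : E ι) 1, tr g J x = 2 * dens g J x := by
      intro x
      have hx : ‖(x : E ι)‖ = 1 := by
        have := x.2
        rwa [mem_sphere_zero_iff_norm] at this
      obtain ⟨h1, h2⟩ := hQr ι J g x (u x) hJ hg hx (hupos x hx) (fun v hv => hq x v hx hv)
      rw [h1, h2, h4, hcard]
      ring
    have hT : sInt (tr g J) = 2 * sInt (dens g J) := by
      unfold sInt
      rw [← integral_const_mul]
      exact integral_congr_ae (Filter.Eventually.of_forall hpt)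
    have hE : energy g J = ratio g J := by
      unfold energy ratio
      rw [hT, h4]
      exact mul_div_mul_left _ _ two_ne_zero
    rw [hE, hcard]

end Pool.Agent.Work.MP_02f065_gt.HS
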