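import Pool.Agent.Work.MP_02f065_gt.HS.Stmts

/-!
MP_02f065_gt, block HS, item ExR: round quotient
-/

set_option autoImplicit false

open MeasureTheory Set Filter Topology

noncomputable section

namespace Pool.Agent.Work.MP_02f065_gt.HS

open Pool.Agent.Work.MP_02f065_gt.RPn Pool.Agent.Work.MP_02f065_gt.Cvx
open Pool.Agent.Work.MP_02f065_gt.FR

namespace XExR

variable {ι : Type} [Fintype ι]

theorem one_pos [Nonempty ι] : 0 < sInt (ι := ι) (fun _ => 1) := by
  classical
  obtain ⟨i⟩ := ‹Nonempty ι›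
  have : Nontrivial (E ι) := by
    refine ⟨⟨EuclideanSpace.single i 1, 0, ?_⟩⟩
    intro h
    have := congrArg (fun z : E ι => ‖z‖) h
    simp at this
  unfold sInt
  rw [integral_const, smul_eq_mul, mul_one]
  rw [Measure.real, ENNReal.toReal_pos_iff]
  constructor
  · rw [Measure.toSphere_apply_univ]
    refine ENNReal.mul_pos ?_ ?_
    · rw [finrank_euclideanSpace]
      have : Nonempty ι := ⟨i⟩
      simp
    · exact (Metric.measure_ball_pos volume (0 : E ι) _root_.one_pos).ne'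
  · exact measure_lt_top _ _

/-- The integral of a function which is constant on the sphere. -/
theorem sInt_of_const {a : E ι → ℝ} {c : ℝ} (h : ∀ x : E ι, ‖x‖ = 1 → a x = c) :
    sInt a = c * sInt (ι := ι) (fun _ => 1) := by
  unfold sInt
  rw [← integral_const_mul]
  refine integral_congr_ae (Eventually.of_forall fun x => ?_)
  show a x = c * 1
  rw [h x (mem_sphere_zero_iff_norm.1 x.2), mul_one]

/-- There is a unit vector orthogonal to two given vectors. -/
theorem exists_orth (hc : 2 < Fintype.card ι) (u v : E ι) :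
    ∃ y : E ι, ‖y‖ = 1 ∧ (inner ℝ u y : ℝ) = 0 ∧ (inner ℝ v y : ℝ) = 0 := by
  have h1 : Module.finrank ℝ (ℝ × ℝ) < Module.finrank ℝ (E ι) := by
    rw [Module.finrank_prod, Module.finrank_self, finrank_euclideanSpace]
    exact hc
  have h2 := LinearMap.ker_ne_bot_of_finrank_lt
    (f := (innerₛₗ ℝ u).prod (innerₛₗ ℝ v)) h1
  obtain ⟨w, hw, hw0⟩ := Submodule.exists_mem_ne_zero_of_ne_bot h2
  rw [LinearMap.mem_ker] at hw
  have h3 : (inner ℝ u w : ℝ) = 0 := congrArg Prod.fst hw
  have h4 : (inner ℝ v w : ℝ) = 0 := congrArg Prod.snd hw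
  have h5 : ‖w‖ ≠ 0 := norm_ne_zero_iff.2 hw0
  refine ⟨‖w‖⁻¹ • w, ?_, ?_, ?_⟩
  · rw [norm_smul, norm_inv, norm_norm, inv_mul_cancel₀ h5]
  · rw [real_inner_smul_right, h3, mul_zero]
  · rw [real_inner_smul_right, h4, mul_zero]

end XExR

open XExR in
/-- Item ExR. -/
theorem hs_ExR (hAlg : StAlg) (hGc : StGc) (hQr : StQr) : StExR := by
  intro ι _ _ J g ρ hJ hcard hg hLip hρ hq
  obtain ⟨-, -, -, -, -, hlin, -, -, hrin, hrn, -, -⟩ := hAlg ι J hJ
  obtain ⟨-, -, -, hHor, -, -, -⟩ := hGc ι J hJ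
  have hhor : ∀ (x v : E ι) (t : ℝ), hor J (rot J t x) (rot J t v) = rot J t (hor J x v) := by
    intro x v t
    unfold hor
    rw [hrin, (hrn t x).2, hrin, (hlin t).map_sub, (hlin t).map_sub, (hlin t).map_smul,
      (hlin t).map_smul]
  refine ⟨⟨hg, hLip, fun x v t hx hxv => ?_⟩, ?_⟩
  · rw [hq (rot J t x) (rot J t v) (by rw [(hrn t x).1]; exact hx) (by rw [hrin]; exact hxv),
      hq x v hx hxv, hhor, (hrn t _).1]
  · have hne : Nonempty ι := Fintype.card_pos_iff.1 (by omega)
    obtain ⟨i⟩ := hne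
    obtain ⟨x, hx⟩ : ∃ x : E ι, ‖x‖ = 1 := ⟨EuclideanSpace.single i 1, by simp⟩
    obtain ⟨y, hy, hxy, hJxy⟩ := exists_orth hcard x (J x)
    have hH : IsHor J x y := ⟨hx, hy, hxy, hJxy⟩
    refine ⟨x, y, hH, fun a b => ?_⟩
    have hH' := (hHor x y hH).2.1 a b
    have hcirc := (hHor _ _ hH').2.2
    have hquo : ∀ t, quo g J (gcr (rot J a x) (rot J b y) t) (gcv (rot J a x) (rot J b y) t) =
        ρ ^ 2 := by
      intro t
      have h1 := hcirc t
      rw [hq _ _ h1.normx h1.ortho]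
      unfold hor
      rw [h1.ortho, h1.orthoJ, zero_smul, zero_smul, sub_zero, sub_zero, h1.normy, one_pow, mul_one]
    have hlen' : hlen g J (rot J a x) (rot J b y) = Real.pi * ρ := by
      unfold hlen
      have h2 : (fun t => Real.sqrt (quo g J (gcr (rot J a x) (rot J b y) t)
          (gcv (rot J a x) (rot J b y) t))) = fun _ => ρ := by
        funext t
        rw [hquo t, Real.sqrt_sq hρ.le]
      rw [h2, intervalIntegral.integral_const, sub_zero, smul_eq_mul]
    have hdens : ∀ x : E ι, ‖x‖ = 1 → dens g J x = ρ ^ (Fintype.card ι - 2) :=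
      fun x hx => (hQr ι J g x ρ hJ hg hx hρ fun v hv => hq x v hx hv).1
    have hne : Nonempty ι := ⟨i⟩
    have hratio : ratio g J = ρ ^ (Fintype.card ι - 2) := by
      unfold ratio
      rw [sInt_of_const hdens]
      exact mul_div_cancel_right₀ _ one_pos.ne'
    rw [hlen', hratio, mul_div_cancel_left₀ ρ Real.pi_ne_zero]

end Pool.Agent.Work.MP_02f065_gt.HS
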