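import Pool.Agent.Work.MP_02f065_gt.HS.Stmts

/-!
MP_02f065_gt, block HS, item Gc: great circles
-/

set_option autoImplicit false

open MeasureTheory Set Filter Topology

noncomputable section

namespace Pool.Agent.Work.MP_02f065_gt.HS

open Pool.Agent.Work.MP_02f065_gt.RPn Pool.Agent.Work.MP_02f065_gt.Cvx
open Pool.Agent.Work.MP_02f065_gt.FR

namespace XGc

variable {ι : Type} [Fintype ι]

/-- Scalar product of two combinations. -/
theorem inner_comb (a b c d : ℝ) (x y u v : E ι) :
    (inner ℝ (a • x + b • y) (c • u + d • v) : ℝ) =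
      a * c * inner ℝ x u + a * d * inner ℝ x v + b * c * inner ℝ y u + b * d * inner ℝ y v := by
  rw [inner_add_left, inner_add_right, inner_add_right, real_inner_smul_left, real_inner_smul_left,
    real_inner_smul_left, real_inner_smul_left, real_inner_smul_right, real_inner_smul_right,
    real_inner_smul_right, real_inner_smul_right]
  ring

theorem norm_one {x : E ι} (h : (inner ℝ x x : ℝ) = 1) : ‖x‖ = 1 := by
  rw [real_inner_self_eq_norm_sq] at h
  have h0 := norm_nonneg x
  nlinarith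

theorem inner_one {x : E ι} (h : ‖x‖ = 1) : (inner ℝ x x : ℝ) = 1 := by
  rw [real_inner_self_eq_norm_sq, h, one_pow]

theorem on_gc {x y : E ι} (h : ON x y) (t : ℝ) : ON (gcr x y t) (gcv x y t) := by
  obtain ⟨hx, hy, hxy⟩ := h
  have hx1 := inner_one hx
  have hy1 := inner_one hy
  have hyx : (inner ℝ y x : ℝ) = 0 := by rw [real_inner_comm]; exact hxy
  have hs := Real.sin_sq_add_cos_sq t
  refine ⟨norm_one ?_, norm_one ?_, ?_⟩
  · unfold gcr
    rw [inner_comb, hx1, hy1, hxy, hyx]
    linear_combination hs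
  · unfold gcv
    rw [inner_comb, hx1, hy1, hxy, hyx]
    linear_combination hs
  · unfold gcr gcv
    rw [inner_comb, hx1, hy1, hxy, hyx]
    ring

end XGc

open XGc in
/-- Item Gc. -/
theorem hs_Gc (hAlg : StAlg) : StGc := by
  intro ι _ J hJ
  obtain ⟨-, -, hskew, hiso, hJJ, hlin, -, -, hrin, hrn, -, -⟩ := hAlg ι J hJ
  have hJl := hJ.linear
  have hself : ∀ x : E ι, (inner ℝ (J x) x : ℝ) = 0 := fun x => by
    rw [real_inner_comm]; exact hJ.tangent x
  have hJinner : ∀ (x y : E ι) (t : ℝ),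
      (inner ℝ (J (gcr x y t)) (gcv x y t) : ℝ) = inner ℝ (J x) y := by
    intro x y t
    have h1 : J (gcr x y t) = Real.cos t • J x + Real.sin t • J y := by
      unfold gcr
      rw [hJl.map_add, hJl.map_smul, hJl.map_smul]
    have h2 : (inner ℝ (J y) x : ℝ) = - inner ℝ (J x) y := by
      rw [hskew y x, real_inner_comm y (J x)]
    rw [h1]
    unfold gcv
    rw [inner_comb, hself x, hself y, h2]
    linear_combination (inner ℝ (J x) y : ℝ) * Real.sin_sq_add_cos_sq t
  have hon : ∀ x y : E ι, ON x y → ∀ t, ON (gcr x y t) (gcv x y t) ∧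
      (inner ℝ (J (gcr x y t)) (gcv x y t) : ℝ) = inner ℝ (J x) y :=
    fun x y h t => ⟨on_gc h t, hJinner x y t⟩
  refine ⟨fun x y t => ?_, hon, fun x y => ⟨?_, ?_, fun t => ⟨?_, ?_⟩⟩, fun x y h => ?_,
    fun x y c t => ⟨?_, ?_⟩, fun x y c t => ⟨?_, ?_⟩, fun x y c h => ?_⟩
  · exact ((Real.hasDerivAt_cos t).smul_const x).add ((Real.hasDerivAt_sin t).smul_const y)
  · unfold gcr
    rw [Real.cos_zero, Real.sin_zero, one_smul, zero_smul, add_zero]
  · unfold gcr
    rw [Real.cos_pi, Real.sin_pi, zero_smul, add_zero, neg_smul, one_smul]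
  · unfold gcr gcv
    rw [Real.cos_add_pi_div_two, Real.sin_add_pi_div_two]
  · unfold gcr gcv
    rw [Real.cos_add_pi_div_two, Real.sin_add_pi_div_two, neg_smul, neg_smul, neg_add]
  · have hON : ON x y := ⟨h.normx, h.normy, h.ortho⟩
    have hJxy : (inner ℝ (J x) y : ℝ) = 0 := h.orthoJ
    have hxJy : (inner ℝ x (J y) : ℝ) = 0 := by
      have := hskew x y
      linarith
    have hJJxy : (inner ℝ (J x) (J y) : ℝ) = 0 := by
      rw [hiso, h.ortho]
    refine ⟨hON, fun a b => ⟨?_, ?_, ?_, ?_⟩, fun t => ⟨(on_gc hON t).1, (on_gc hON t).2.1,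
      (on_gc hON t).2.2, ?_⟩⟩
    · rw [(hrn a x).1]; exact h.normx
    · rw [(hrn b y).1]; exact h.normy
    · unfold rot
      rw [inner_comb, h.ortho, hxJy, hJxy, hJJxy]
      ring
    · rw [(hrn a x).2]
      unfold rot
      rw [inner_comb, hJxy, hJJxy, (hJJ x).1, inner_neg_left, inner_neg_left, h.ortho, hxJy]
      ring
    · rw [hJinner]; exact hJxy
  · unfold gcr
    rw [(hlin c).map_add, (hlin c).map_smul, (hlin c).map_smul]
  · unfold gcv
    rw [(hlin c).map_add, (hlin c).map_smul, (hlin c).map_smul]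
  · unfold gcr
    rw [(hlin c).map_add, (hlin c).map_smul, (hlin c).map_smul, Real.cos_pi_sub, Real.sin_pi_sub,
      smul_neg, neg_smul]
  · unfold gcv
    rw [(hlin c).map_add, (hlin c).map_smul, (hlin c).map_smul, Real.cos_pi_sub, Real.sin_pi_sub,
      smul_neg, neg_smul, neg_smul, neg_neg, neg_add, neg_neg, neg_neg]
  · obtain ⟨hx, hy, hxy⟩ := h
    refine ⟨?_, ?_, ?_⟩
    · rw [norm_neg, (hrn c x).1]; exact hx
    · rw [(hrn c y).1]; exact hy
    · rw [inner_neg_left, hrin, hxy, neg_zero]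

end Pool.Agent.Work.MP_02f065_gt.HS
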