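import Pool.Agent.Work.MP_02f065_gt.HS.StmtsK

/-!
# MP_02f065_gt, block HS, item Kdc (helper37)
-/

set_option autoImplicit false

open MeasureTheory Set Filter Topology Complex

noncomputable section

namespace Pool.Agent.Work.MP_02f065_gt.HS

open Pool.Agent.Work.MP_02f065_gt.RPn Pool.Agent.Work.MP_02f065_gt.Cvx
open Pool.Agent.Work.MP_02f065_gt.FR

namespace XKdc

variable {ι : Type} [Fintype ι]

theorem hess_zero (x v w : E ι) : hess (fun _ : E ι => (0 : ℝ)) x v w = 0 := by
  unfold hess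
  have h : fderiv ℝ (fun _ : E ι => (0 : ℝ)) = fun _ => 0 := by
    funext y
    simp
  rw [h]
  simp

theorem lev_zero (J : E ι → E ι) (x v w : E ι) : lev J (fun _ => 0) x v w = 0 := by
  unfold lev
  simp only [hess_zero]
  norm_num

theorem inner_ei [DecidableEq ι] (x : E ι) (k : ι) : (inner ℝ x (ei k) : ℝ) = x k := by
  unfold ei
  rw [EuclideanSpace.inner_single_right]
  simp

theorem inner_sum (x y : E ι) : (inner ℝ x y : ℝ) = ∑ k, x k * y k := by
  rw [PiLp.inner_apply]
  refine Finset.sum_congr rfl fun k _ => ?_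
  simp [mul_comm]

theorem inner_hor {J : E ι → E ι} (hJ : IsCpx J) {x : E ι} (hx : ‖x‖ = 1) (v w : E ι) :
    (inner ℝ (hor J x v) (hor J x w) : ℝ) =
      inner ℝ v w - inner ℝ x v * inner ℝ x w - inner ℝ (J x) v * inner ℝ (J x) w := by
  have hxx : (inner ℝ x x : ℝ) = 1 := by rw [real_inner_self_eq_norm_sq, hx, one_pow]
  have hJJ : (inner ℝ (J x) (J x) : ℝ) = 1 := by
    rw [real_inner_self_eq_norm_sq, hJ.norm, hx, one_pow]
  have hxJ : (inner ℝ x (J x) : ℝ) = 0 := hJ.tangent x
  have hJx : (inner ℝ (J x) x : ℝ) = 0 := by rw [real_inner_comm]; exact hxJ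
  unfold hor
  simp only [inner_sub_left, inner_sub_right, real_inner_smul_left, real_inner_smul_right, hxx,
    hJJ, hxJ, hJx]
  rw [real_inner_comm x v, real_inner_comm (J x) v]
  ring

/-- the columns `x`, `J x` -/
def A (J : E ι → E ι) (x : E ι) : Matrix ι (Fin 2) ℝ :=
  Matrix.of fun k o => if o = 0 then x k else J x k

theorem AA {J : E ι → E ι} (hJ : IsCpx J) {x : E ι} (hx : ‖x‖ = 1) :
    (A J x).transpose * A J x = 1 := by
  have hxx : (inner ℝ x x : ℝ) = 1 := by rw [real_inner_self_eq_norm_sq, hx, one_pow]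
  have hJJ : (inner ℝ (J x) (J x) : ℝ) = 1 := by
    rw [real_inner_self_eq_norm_sq, hJ.norm, hx, one_pow]
  have hxJ : (inner ℝ x (J x) : ℝ) = 0 := hJ.tangent x
  have hJx : (inner ℝ (J x) x : ℝ) = 0 := by rw [real_inner_comm]; exact hxJ
  rw [inner_sum] at hxx hJJ hxJ hJx
  ext o o'
  rw [Matrix.mul_apply, Matrix.one_apply]
  fin_cases o <;> fin_cases o'
  · simpa [A] using hxx
  · simpa [A] using hxJ
  · simpa [A] using hJx
  · simpa [A] using hJJ

theorem two_le {J : E ι → E ι} (hJ : IsCpx J) {x : E ι} (hx : ‖x‖ = 1) :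
    2 ≤ Fintype.card ι := by
  have hxx : (inner ℝ x x : ℝ) = 1 := by rw [real_inner_self_eq_norm_sq, hx, one_pow]
  have hJJ : (inner ℝ (J x) (J x) : ℝ) = 1 := by
    rw [real_inner_self_eq_norm_sq, hJ.norm, hx, one_pow]
  have hxJ : (inner ℝ x (J x) : ℝ) = 0 := hJ.tangent x
  have hJx : (inner ℝ (J x) x : ℝ) = 0 := by rw [real_inner_comm]; exact hxJ
  have h : Orthonormal ℝ ![x, J x] := by
    rw [orthonormal_iff_ite]
    intro i j
    fin_cases i <;> fin_cases j
    · simp [hx]
    · simpa using hxJ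
    · simpa using hJx
    · simp [hJ.norm, hx]
  have h2 := h.linearIndependent.fintype_card_le_finrank
  rwa [Fintype.card_fin, finrank_euclideanSpace] at h2

theorem gram_eq [DecidableEq ι] {J : E ι → E ι} (hJ : IsCpx J) {x : E ι} (hx : ‖x‖ = 1)
    (a s : ℝ) (hc : a + s ≠ 0) :
    (Matrix.of fun i j : ι => x i * x j + J x i * J x j +
      kf J a (fun _ => 0) s x (ei i) (ei j)) =
    (a + s) • (1 + (((1 - (a + s)) / (a + s)) • A J x) * (A J x).transpose) := by
  ext i j
  have h2 : (inner ℝ (ei i) (ei j) : ℝ) = if i = j then 1 else 0 := by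
    rw [inner_ei]
    unfold ei
    simp [eq_comm]
  rw [Matrix.of_apply, Matrix.smul_apply, Matrix.add_apply, Matrix.one_apply, Matrix.mul_apply,
    smul_eq_mul, Fin.sum_univ_two]
  unfold kf
  rw [lev_zero, inner_hor hJ hx, h2, inner_ei, inner_ei, inner_ei, inner_ei]
  simp only [Matrix.smul_apply, Matrix.transpose_apply, A, Matrix.of_apply, smul_eq_mul, if_true,
    one_ne_zero, if_false]
  field_simp
  ring

theorem det_eq [DecidableEq ι] {J : E ι → E ι} (hJ : IsCpx J) {x : E ι} (hx : ‖x‖ = 1)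
    (a s : ℝ) (hc : a + s ≠ 0) :
    (Matrix.of fun i j : ι => x i * x j + J x i * J x j +
      kf J a (fun _ => 0) s x (ei i) (ei j)).det = (a + s) ^ (Fintype.card ι - 2) := by
  have e1 : (1 : ℝ) + (1 - (a + s)) / (a + s) = (a + s)⁻¹ := by
    field_simp
    ring
  have e2 : (1 : Matrix (Fin 2) (Fin 2) ℝ) + ((1 - (a + s)) / (a + s)) • 1 =
      ((a + s)⁻¹ : ℝ) • (1 : Matrix (Fin 2) (Fin 2) ℝ) := by
    rw [← e1, add_smul, one_smul]
  rw [gram_eq hJ hx a s hc, Matrix.det_smul, Matrix.det_one_add_mul_comm, Matrix.mul_smul,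
    AA hJ hx, e2, Matrix.det_smul, Matrix.det_one, mul_one, Fintype.card_fin]
  rw [pow_sub₀ _ hc (two_le hJ hx), inv_pow]

theorem coord_cont (i : ι) : Continuous fun x : E ι => x i :=
  (EuclideanSpace.proj i : E ι →L[ℝ] ℝ).continuous

theorem hor_cont {J : E ι → E ι} (hc : Continuous J) (v : E ι) :
    Continuous fun x : E ι => hor J x v := by
  unfold hor
  have h1 : Continuous fun x : E ι => (inner ℝ x v : ℝ) :=
    Continuous.inner continuous_id continuous_const
  have h2 : Continuous fun x : E ι => (inner ℝ (J x) v : ℝ) :=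
    Continuous.inner hc continuous_const
  exact (continuous_const.sub (h1.smul continuous_id)).sub (h2.smul hc)

end XKdc

open XKdc in
theorem hs_Kdc (hAlg : StAlg) (hPot : StPot) : StKdc := by
  intro ι _ _ J a φ hJ hP
  constructor
  · obtain ⟨hc, -⟩ := hAlg ι J hJ
    obtain ⟨-, -, -, -, -, -, h7, h8⟩ := hPot ι J a φ hJ hP
    have hsub : ∀ z ∈ {z : ℝ × E ι | ‖z.2‖ = 1}, z.2 ≠ 0 := by
      intro z hz h0
      have hz' : ‖z.2‖ = 1 := hz
      rw [h0, norm_zero] at hz'
      exact zero_ne_one hz'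
    unfold kd
    refine Real.continuous_sqrt.comp_continuousOn ?_
    have hdet : Continuous fun M : Matrix ι ι ℝ => M.det := Continuous.matrix_det continuous_id
    refine hdet.comp_continuousOn (f := fun z : ℝ × E ι =>
      (Matrix.of fun i j : ι => z.2 i * z.2 j + J z.2 i * J z.2 j +
        kf J a φ z.1 z.2 (ei i) (ei j) : Matrix ι ι ℝ)) ?_
    refine continuousOn_pi.2 fun i => continuousOn_pi.2 fun j => ?_
    have h1 : ContinuousOn (fun z : ℝ × E ι => z.2 i * z.2 j + J z.2 i * J z.2 j +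
        ((a + z.1) * inner ℝ (hor J z.2 (ei i)) (hor J z.2 (ei j)) +
          lev J φ z.2 (ei i) (ei j))) {z | ‖z.2‖ = 1} := by
      refine ContinuousOn.add (Continuous.continuousOn ?_)
        (ContinuousOn.add (Continuous.continuousOn ?_) ?_)
      · exact (((coord_cont i).comp continuous_snd).mul ((coord_cont j).comp continuous_snd)).add
          (((coord_cont i).comp (hc.comp continuous_snd)).mul
            ((coord_cont j).comp (hc.comp continuous_snd)))
      · exact (continuous_const.add continuous_fst).mul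
          (((hor_cont hc (ei i)).comp continuous_snd).inner
            ((hor_cont hc (ei j)).comp continuous_snd))
      · exact (h7 (ei i) (ei j)).continuousOn.comp continuous_snd.continuousOn
          (fun z hz => hsub z hz)
    refine h1.congr fun z hz => ?_
    show z.2 i * z.2 j + J z.2 i * J z.2 j + kf J a φ z.1 z.2 (ei i) (ei j) = _
    unfold kf
    rw [← h8 z.2 (ei i) (ei j) (hsub z hz)]
  · intro s x hs hx
    have hc : a + s ≠ 0 := (add_pos_of_pos_of_nonneg hP.apos hs).ne'
    unfold kd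
    rw [det_eq hJ hx a s hc]

end Pool.Agent.Work.MP_02f065_gt.HS
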