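import Pool.Agent.Work.MP_02f065_gt.HS.StmtsK

/-!
MP_02f065_gt, block HS, item Ke: energy and volume of a Kähler quotient
-/

set_option autoImplicit false

open MeasureTheory Set Filter Topology

noncomputable section

namespace Pool.Agent.Work.MP_02f065_gt.HS

open Pool.Agent.Work.MP_02f065_gt.RPn Pool.Agent.Work.MP_02f065_gt.Cvx
open Pool.Agent.Work.MP_02f065_gt.FR

namespace XKe

variable {ι : Type} [Fintype ι]

theorem intg {a : E ι → ℝ} (ha : ContinuousOn a (Metric.sphere (0 : E ι) 1)) :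
    Integrable (fun x : Metric.sphere (0 : E ι) 1 => a x) ((volume : Measure (E ι)).toSphere) := by
  have hc : Continuous (fun x : Metric.sphere (0 : E ι) 1 => a x) :=
    continuousOn_iff_continuous_domRestrict.1 ha
  exact hc.integrable_of_hasCompactSupport (HasCompactSupport.of_compactSpace _)

theorem sInt_add {a b : E ι → ℝ} (ha : ContinuousOn a (Metric.sphere (0 : E ι) 1))
    (hb : ContinuousOn b (Metric.sphere (0 : E ι) 1)) :
    sInt (fun x => a x + b x) = sInt a + sInt b := by
  unfold sInt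
  exact integral_add (intg ha) (intg hb)

theorem sInt_cmul (c : ℝ) (a : E ι → ℝ) : sInt (fun x => c * a x) = c * sInt a := by
  unfold sInt
  exact integral_const_mul c _

theorem sInt_congr {a b : E ι → ℝ} (h : ∀ x : E ι, ‖x‖ = 1 → a x = b x) : sInt a = sInt b := by
  unfold sInt
  exact integral_congr_ae (Eventually.of_forall fun x => h x (mem_sphere_zero_iff_norm.1 x.2))

theorem one_pos [Nonempty ι] : 0 < sInt (ι := ι) (fun _ => 1) := by
  classical
  obtain ⟨i⟩ := ‹Nonempty ι›
  have : Nontrivial (E ι) := by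
    refine ⟨⟨EuclideanSpace.single i 1, 0, ?_⟩⟩
    intro h
    have := congrArg (fun z : E ι => ‖z‖) h
    simp at this
  unfold sInt
  rw [integral_const, smul_eq_mul, mul_one]
  rw [Measure.real, ENNReal.toReal_pos_iff]
  constructor
  · rw [Measure.toSphere_apply_univ]
    refine ENNReal.mul_pos ?_ ?_
    · rw [finrank_euclideanSpace]
      have : Nonempty ι := ⟨i⟩
      simp
    · exact (Metric.measure_ball_pos volume (0 : E ι) _root_.one_pos).ne'
  · exact measure_lt_top _ _

theorem inner_Jx {J : E ι → E ι} (hJ : IsCpx J) (x : E ι) : (inner ℝ (J x) x : ℝ) = 0 := by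
  rw [real_inner_comm]; exact hJ.tangent x

theorem hor_tang {J : E ι → E ι} (hJ : IsCpx J) {x : E ι} (hx : ‖x‖ = 1) (v : E ι) :
    hor J x (tang x v) = hor J x v := by
  have h1 : (inner ℝ x (tang x v) : ℝ) = 0 := by
    unfold tang
    rw [inner_sub_right, real_inner_smul_right, real_inner_self_eq_norm_sq, hx]
    ring
  have h2 : (inner ℝ (J x) (tang x v) : ℝ) = inner ℝ (J x) v := by
    unfold tang
    rw [inner_sub_right, real_inner_smul_right, inner_Jx hJ, mul_zero, sub_zero]
  have h3 : hor J x (tang x v) = tang x v - (inner ℝ x (tang x v) : ℝ) • x -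
    (inner ℝ (J x) (tang x v) : ℝ) • J x := rfl
  rw [h3, h1, h2, zero_smul, sub_zero]
  rfl

theorem inner_hor {J : E ι → E ι} (hJ : IsCpx J) {x : E ι} (hx : ‖x‖ = 1) (v : E ι) :
    (inner ℝ (hor J x v) (hor J x v) : ℝ) =
      inner ℝ v v - (inner ℝ x v : ℝ) ^ 2 - (inner ℝ (J x) v : ℝ) ^ 2 := by
  have h1 : (inner ℝ x x : ℝ) = 1 := by rw [real_inner_self_eq_norm_sq, hx, one_pow]
  have h2 : (inner ℝ (J x) (J x) : ℝ) = 1 := by
    rw [real_inner_self_eq_norm_sq, hJ.norm, hx, one_pow]
  have h3 := hJ.tangent x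
  have h4 := inner_Jx hJ x
  have h5 : (inner ℝ v x : ℝ) = inner ℝ x v := real_inner_comm _ _
  have h6 : (inner ℝ v (J x) : ℝ) = inner ℝ (J x) v := real_inner_comm _ _
  unfold hor
  rw [inner_sub_left, inner_sub_left, inner_sub_right, inner_sub_right, inner_sub_right,
    inner_sub_right, inner_sub_right, inner_sub_right]
  simp only [real_inner_smul_left, real_inner_smul_right]
  rw [h1, h2, h3, h4, h5, h6]
  ring

theorem sum_sq [DecidableEq ι] (y : E ι) (hy : ‖y‖ = 1) : ∑ i, (inner ℝ y (ei i) : ℝ) ^ 2 = 1 := by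
  have h1 : ∀ i, (inner ℝ y (ei i) : ℝ) = y i := by
    intro i
    unfold ei
    rw [EuclideanSpace.inner_single_right]
    simp
  rw [Finset.sum_congr rfl fun i _ => by rw [h1 i]]
  rw [← EuclideanSpace.real_norm_sq_eq, hy, one_pow]

theorem sum_hor [DecidableEq ι] {J : E ι → E ι} (hJ : IsCpx J) {x : E ι} (hx : ‖x‖ = 1) :
    ∑ i, (inner ℝ (hor J x (ei i)) (hor J x (ei i)) : ℝ) = (Fintype.card ι : ℝ) - 2 := by
  have h0 : ∀ i : ι, (inner ℝ (ei i : E ι) (ei i) : ℝ) = 1 := by
    intro i
    unfold ei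
    rw [real_inner_self_eq_norm_sq]
    simp
  rw [Finset.sum_congr rfl fun i _ => by rw [inner_hor hJ hx (ei i), h0 i]]
  rw [Finset.sum_sub_distrib, Finset.sum_sub_distrib, sum_sq x hx,
    sum_sq (J x) (by rw [hJ.norm]; exact hx), Finset.sum_const, Finset.card_univ, nsmul_eq_mul]
  ring

theorem kf_tang {J : E ι → E ι} (hJ : IsCpx J) {x : E ι} (hx : ‖x‖ = 1) (a : ℝ) (φ : E ι → ℝ)
    (s : ℝ) (v w : E ι) : kf J a φ s x (tang x v) (tang x w) = kf J a φ s x v w := by
  unfold kf
  rw [hor_tang hJ hx, hor_tang hJ hx]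

end XKe

open XKe in
/-- Item Ke. -/
theorem hs_Ke (hQm : StQm) (hPot : StPot) (hKm : StKm) (hMass : StMass) (hLap : StLap) :
    StKe := by
  intro ι _ _ J k a f φ hJ hcard hk hpot hf hfL
  have hne : Nonempty ι := Fintype.card_pos_iff.1 (by omega)
  obtain ⟨hsub, hquoB, -⟩ := hKm ι J a f φ hJ hpot hf hfL
  have hS := XKe.one_pos (ι := ι)
  obtain ⟨-, -, -, -, -, -, hC1, hlh⟩ := hPot ι J a φ hJ hpot
  have hdens : ∀ x : E ι, ‖x‖ = 1 → dens (kahler J f a φ) J x = kd J a φ 0 x := by
    intro x hx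
    rw [(hQm ι J (kahler J f a φ) x hJ hsub.metric hx).1]
    have h1 : (Matrix.of (qmat (kahler J f a φ) J x)) =
        Matrix.of fun i j : ι => x i * x j + J x i * J x j + kf J a φ 0 x (ei i) (ei j) := by
      ext i j
      show qmat (kahler J f a φ) J x i j = x i * x j + J x i * J x j + kf J a φ 0 x (ei i) (ei j)
      unfold qmat
      rw [hquoB x _ _ hx, kf_tang hJ hx]
    rw [h1]
    rfl
  have hratio : ratio (kahler J f a φ) J = a ^ (k - 1) := by
    unfold ratio
    rw [sInt_congr hdens, hMass ι J k a φ hJ hcard hpot]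
    exact mul_div_cancel_right₀ _ hS.ne'
  have htr : ∀ x : E ι, ‖x‖ = 1 → tr (kahler J f a φ) J x =
      a * ((Fintype.card ι : ℝ) - 2) * 1 +
        ∑ i, lev J φ x (hor J x (ei i)) (hor J x (ei i)) := by
    intro x hx
    unfold tr
    have h1 : ∀ i, quo (kahler J f a φ) J x (tang x (ei i)) =
        a * inner ℝ (hor J x (ei i)) (hor J x (ei i)) +
          lev J φ x (hor J x (ei i)) (hor J x (ei i)) := by
      intro i
      have h2 : quo (kahler J f a φ) J x (tang x (ei i)) =
          quoB (kahler J f a φ) J x (tang x (ei i)) (tang x (ei i)) := by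
        unfold quo quoB
        rw [sq]
      rw [h2, hquoB x _ _ hx, kf_tang hJ hx]
      unfold kf
      rw [add_zero]
    rw [Finset.sum_congr rfl fun i _ => h1 i, Finset.sum_add_distrib, ← Finset.mul_sum,
      sum_hor hJ hx, mul_one]
  have hLc : ContinuousOn (fun x : E ι => ∑ i, lev J φ x (hor J x (ei i)) (hor J x (ei i)))
      (Metric.sphere (0 : E ι) 1) := by
    have h1 : ContinuousOn (fun x : E ι => ∑ i, lev J φ x (ei i) (ei i))
        (Metric.sphere (0 : E ι) 1) := by
      refine continuousOn_finsetSum _ fun i _ => ?_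
      refine (hC1 (ei i) (ei i)).continuousOn.mono ?_
      intro x hx h0
      rw [Set.mem_singleton_iff] at h0
      have h2 := mem_sphere_zero_iff_norm.1 hx
      rw [h0, norm_zero] at h2
      exact zero_ne_one h2
    refine h1.congr ?_
    intro x hx
    have h2 := mem_sphere_zero_iff_norm.1 hx
    have h3 : x ≠ 0 := by
      rintro rfl
      rw [norm_zero] at h2
      exact zero_ne_one h2
    exact Finset.sum_congr rfl fun i _ => (hlh x (ei i) (ei i) h3).symm
  have hint : sInt (tr (kahler J f a φ) J) =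
      a * ((Fintype.card ι : ℝ) - 2) * sInt (ι := ι) (fun _ => 1) := by
    rw [sInt_congr htr, XKe.sInt_add continuousOn_const hLc, sInt_cmul, hLap ι J a φ hJ hpot,
      add_zero]
  have hc2 : (Fintype.card ι : ℝ) - 2 ≠ 0 := by
    have h1 : (4 : ℝ) ≤ (Fintype.card ι : ℝ) := by
      have h2 : 4 ≤ Fintype.card ι := by omega
      exact_mod_cast h2
    intro h
    linarith
  have hen : energy (kahler J f a φ) J = a := by
    unfold energy
    rw [hint, mul_assoc]
    exact mul_div_cancel_right₀ _ (mul_ne_zero hc2 hS.ne')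
  rw [hen, hratio, ← pow_mul, show (k - 1) * 2 = Fintype.card ι - 2 by omega]

end Pool.Agent.Work.MP_02f065_gt.HS
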