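import Pool.Agent.Work.MP_02f065_gt.HS.StmtsK

/-!
MP_02f065_gt, block HS, item [Ker]: the kernel of the complex Hessians.
-/

open MeasureTheory Set Filter Topology Complex

noncomputable section

namespace Pool.Agent.Work.MP_02f065_gt.HS

open Pool.Agent.Work.MP_02f065_gt.RPn Pool.Agent.Work.MP_02f065_gt.Cvx
open Pool.Agent.Work.MP_02f065_gt.FR

namespace XKer

variable {ι : Type} [Fintype ι] {k : ℕ}

/-- The main identity for a real linear form. -/
theorem key (J : E ι → E ι) (hJ : IsLinearMap ℝ J) (hJJ : ∀ x, J (J x) = -x) (e : Fin k → E ι)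
    (x : E ι) (hx : x = ∑ j, ((inner ℝ (e j) x : ℝ) • e j + (inner ℝ (J (e j)) x : ℝ) • J (e j)))
    (l : E ι →ₗ[ℝ] ℝ) :
    ∑ j, (((l (e j) : ℝ) : ℂ) + Complex.I * (l (J (e j)) : ℝ)) * zb J e x j =
      ((l x : ℝ) : ℂ) + Complex.I * (l (J x) : ℝ) := by
  have h1 : l x = ∑ j, ((inner ℝ (e j) x : ℝ) * l (e j) +
      (inner ℝ (J (e j)) x : ℝ) * l (J (e j))) := by
    conv_lhs => rw [hx]
    rw [map_sum]
    exact Finset.sum_congr rfl fun j _ => by
      rw [map_add, map_smul, map_smul, smul_eq_mul, smul_eq_mul]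
  have h2 : l (J x) = ∑ j, ((inner ℝ (e j) x : ℝ) * l (J (e j)) -
      (inner ℝ (J (e j)) x : ℝ) * l (e j)) := by
    have h3 : J x = (hJ.mk' J) x := rfl
    rw [h3]
    conv_lhs => rw [hx]
    rw [map_sum, map_sum]
    refine Finset.sum_congr rfl fun j _ => ?_
    rw [map_add, map_smul, map_smul]
    have h4 : (hJ.mk' J) (e j) = J (e j) := rfl
    have h5 : (hJ.mk' J) (J (e j)) = -e j := hJJ (e j)
    rw [h4, h5, map_add, map_smul, map_smul, map_neg, smul_eq_mul, smul_eq_mul]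
    ring
  rw [h1, h2]
  push_cast
  rw [Finset.mul_sum, ← Finset.sum_add_distrib]
  refine Finset.sum_congr rfl fun j _ => ?_
  rw [zb]
  linear_combination (-(((inner ℝ (J (e j)) x : ℝ) : ℂ)) * ((l (J (e j)) : ℝ) : ℂ)) *
    Complex.I_mul_I

/-- The Levi form as a linear form of the second vector. -/
def levL (J : E ι → E ι) (hJ : IsLinearMap ℝ J) (u : E ι → ℝ) (x v : E ι) : E ι →ₗ[ℝ] ℝ where
  toFun w := lev J u x v w
  map_add' a b := by
    simp only [lev, hess, hJ.map_add, map_add, add_apply]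
    ring
  map_smul' r a := by
    simp only [lev, hess, hJ.map_smul, map_smul, smul_apply, smul_eq_mul,
      RingHom.id_apply]
    ring

theorem mulVec_zero (J : E ι → E ι) (hJ : IsLinearMap ℝ J) (hJJ : ∀ x, J (J x) = -x)
    (e : Fin k → E ι) (x : E ι)
    (hx : x = ∑ j, ((inner ℝ (e j) x : ℝ) • e j + (inner ℝ (J (e j)) x : ℝ) • J (e j)))
    (u : E ι → ℝ) (h1 : ∀ v, lev J u x v x = 0) (h2 : ∀ v, lev J u x v (J x) = 0) :
    (Hm J e u x).mulVec (zb J e x) = 0 := by
  funext i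
  have h3 := key J hJ hJJ e x hx (levL J hJ u x (e i))
  have h4 : levL J hJ u x (e i) x = 0 := h1 _
  have h5 : levL J hJ u x (e i) (J x) = 0 := h2 _
  rw [h4, h5] at h3
  have h6 : (Hm J e u x).mulVec (zb J e x) i = (1 / 2 : ℂ) *
      ∑ j, (((levL J hJ u x (e i) (e j) : ℝ) : ℂ) +
        Complex.I * (levL J hJ u x (e i) (J (e j)) : ℝ)) * zb J e x j := by
    rw [Finset.mul_sum]
    have h7 : (Hm J e u x).mulVec (zb J e x) i = ∑ j, Hm J e u x i j * zb J e x j := rfl
    rw [h7]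
    refine Finset.sum_congr rfl fun j _ => ?_
    have h8 : Hm J e u x i j = (1 / 2 : ℂ) * (((levL J hJ u x (e i) (e j) : ℝ) : ℂ) +
      Complex.I * (levL J hJ u x (e i) (J (e j)) : ℝ)) := rfl
    rw [h8, mul_assoc]
  rw [h6, h3]
  simp

theorem fderiv_coe (φ : E ι → ℝ) (x v : E ι) (h : DifferentiableAt ℝ φ x) :
    fderiv ℝ (fun y => (φ y : ℂ)) x v = ((fderiv ℝ φ x v : ℝ) : ℂ) := by
  have h1 : HasFDerivAt (fun y => (φ y : ℂ)) (Complex.ofRealCLM.comp (fderiv ℝ φ x)) x :=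
    Complex.ofRealCLM.hasFDerivAt.comp x h.hasFDerivAt
  rw [h1.fderiv]
  rfl

end XKer

open XKer in
/-- Item [Ker]. -/
theorem hs_Ker (hAlg : StAlg) (hUni : StUni) (hPot : StPot) (hLg : StLg) : StKer := by
  intro ι _ J k e a φ hJ he hφ x hx
  obtain ⟨-, -, hadj, hin, hJJ, -⟩ := hAlg ι J hJ
  have hex := (hUni ι J k hJ he.card).2 e he x
  obtain ⟨hP1, -, hP3, hP4, -⟩ := hPot ι J a φ hJ hφ
  obtain ⟨-, hL, -⟩ := hLg ι J hJ
  have hJJ' : ∀ y : E ι, J (J y) = -y := fun y => (hJJ y).1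
  have hxx : (inner ℝ x x : ℝ) ≠ 0 := inner_self_ne_zero.2 hx
  refine ⟨?_, ?_, ?_⟩
  · apply mulVec_zero J hJ.linear hJJ' e x hex
    · intro v
      rw [(hP3 x v x).1]
      exact (hP4 x v hx).1
    · intro v
      rw [(hP3 x v (J x)).1]
      exact (hP4 x v hx).2
  · apply mulVec_zero J hJ.linear hJJ' e x hex
    · intro v
      rw [(hL x v x hx).2]
      have h1 : (inner ℝ (J x) x : ℝ) = 0 := by
        rw [real_inner_comm]
        exact hJ.tangent x
      rw [h1, mul_zero, add_zero, mul_div_assoc, div_self hxx, mul_one, real_inner_comm, sub_self,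
        zero_div]
    · intro v
      rw [(hL x v (J x) hx).2, hJ.tangent x, hin x x, mul_zero, zero_add, mul_div_assoc,
        div_self hxx, mul_one, real_inner_comm, sub_self, zero_div]
  · have hd : DifferentiableAt ℝ φ x := by
      have h1 : ContDiffAt ℝ 3 φ x :=
        hφ.smooth.contDiffAt (isOpen_compl_singleton.mem_nhds hx)
      exact h1.differentiableAt (by norm_num)
    have h3 := key J hJ.linear hJJ' e x hex (fderiv ℝ φ x).toLinearMap
    have h4 : (fderiv ℝ φ x).toLinearMap x = 0 := (hP1 x hx).1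
    have h5 : (fderiv ℝ φ x).toLinearMap (J x) = 0 := (hP1 x hx).2
    rw [h4, h5] at h3
    have h6 : ∑ j, dzb J e j (fun y => (φ y : ℂ)) x * zb J e x j = (1 / 2 : ℂ) *
        ∑ j, ((((fderiv ℝ φ x).toLinearMap (e j) : ℝ) : ℂ) +
          Complex.I * ((fderiv ℝ φ x).toLinearMap (J (e j)) : ℝ)) * zb J e x j := by
      rw [Finset.mul_sum]
      refine Finset.sum_congr rfl fun j _ => ?_
      rw [dzb, Pd, fderiv_coe φ x _ hd, fderiv_coe φ x _ hd, map_smul, map_smul, smul_eq_mul,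
        smul_eq_mul]
      simp only [ContinuousLinearMap.coe_coe]
      push_cast
      ring
    rw [h6, h3]
    simp

end Pool.Agent.Work.MP_02f065_gt.HS
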