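import Pool.Agent.Work.MP_02f065_gt.HS.StmtsK

set_option autoImplicit false

/-!
# MP_02f065_gt, block HS, item Lap: the mean of the trace of the Levi form
-/

open MeasureTheory Set Filter Topology

noncomputable section

namespace Pool.Agent.Work.MP_02f065_gt.HS

open Pool.Agent.Work.MP_02f065_gt.RPn Pool.Agent.Work.MP_02f065_gt.Cvx
open Pool.Agent.Work.MP_02f065_gt.FR

namespace XLap

variable {ι : Type} [Fintype ι]

theorem open0 : IsOpen ({0}ᶜ : Set (E ι)) := isOpen_compl_singleton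

theorem cont_mul {f h : E ι → ℝ} (hf : Continuous f) (h0 : (0 : E ι) ∉ tsupport f)
    (hh : ContinuousOn h {0}ᶜ) : Continuous (fun x => f x * h x) := by
  rw [continuous_iff_continuousAt]
  intro x
  by_cases hx : x = 0
  · subst hx
    have h1 : f =ᶠ[𝓝 0] 0 := notMem_tsupport_iff_eventuallyEq.1 h0
    have h2 : (fun x => f x * h x) =ᶠ[𝓝 0] fun _ => 0 := by
      filter_upwards [h1] with y hy
      rw [hy]
      simp
    exact continuousAt_const.congr h2.symm
  · exact hf.continuousAt.mul (hh.continuousAt (open0.mem_nhds hx))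

theorem int_mul {f h : E ι → ℝ} (hf : Continuous f) (hc : HasCompactSupport f)
    (h0 : (0 : E ι) ∉ tsupport f) (hh : ContinuousOn h {0}ᶜ) :
    Integrable (fun x => f x * h x) :=
  (cont_mul hf h0 hh).integrable_of_hasCompactSupport hc.mul_right

theorem parts (φ : E ι → ℝ) (hφ : ContDiffOn ℝ 3 φ {0}ᶜ) (χ : E ι → ℝ) (hχ : ContDiff ℝ 1 χ)
    (hc : HasCompactSupport χ) (h0 : (0 : E ι) ∉ tsupport χ) (v : E ι) :
    Integrable (fun x => χ x * hess φ x v v) ∧
    Integrable (fun x => fderiv ℝ χ x v * fderiv ℝ φ x v) ∧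
    ∫ x : E ι, χ x * hess φ x v v = -∫ x : E ι, fderiv ℝ χ x v * fderiv ℝ φ x v := by
  have h1 : ContDiffOn ℝ 2 (fderiv ℝ φ) {0}ᶜ := hφ.fderiv_of_isOpen open0 (by norm_num)
  have h2 : ContDiffOn ℝ 1 (fderiv ℝ (fderiv ℝ φ)) {0}ᶜ := h1.fderiv_of_isOpen open0 (by norm_num)
  have hD : ContinuousOn (fun x => fderiv ℝ φ x v) {0}ᶜ :=
    h1.continuousOn.clm_apply continuousOn_const
  have hH : ContinuousOn (fun x => hess φ x v v) {0}ᶜ :=
    (h2.continuousOn.clm_apply continuousOn_const).clm_apply continuousOn_const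
  have hχ' : Continuous (fun x => fderiv ℝ χ x v) :=
    (hχ.continuous_fderiv (by norm_num)).clm_apply continuous_const
  have hc' : HasCompactSupport (fun x => fderiv ℝ χ x v) := hc.fderiv_apply ℝ v
  have hsub : tsupport (fun x => fderiv ℝ χ x v) ⊆ tsupport χ := tsupport_fderiv_apply_subset ℝ v
  have h0' : (0 : E ι) ∉ tsupport (fun x => fderiv ℝ χ x v) := fun h => h0 (hsub h)
  have i1 : Integrable (fun x => χ x * hess φ x v v) := int_mul hχ.continuous hc h0 hH
  have i2 : Integrable (fun x => fderiv ℝ χ x v * fderiv ℝ φ x v) := int_mul hχ' hc' h0' hD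
  have i3 : Integrable (fun x => χ x * fderiv ℝ φ x v) := int_mul hχ.continuous hc h0 hD
  have hdiff : ∀ x : E ι, x ≠ 0 → DifferentiableAt ℝ (fderiv ℝ φ) x := fun x hx =>
    (h1.differentiableOn (by norm_num)).differentiableAt (open0.mem_nhds hx)
  have he : ∀ x : E ι, x ≠ 0 → fderiv ℝ (fun y => fderiv ℝ φ y v) x v = hess φ x v v := by
    intro x hx
    have h3 := (hdiff x hx).hasFDerivAt.clm_apply (hasFDerivAt_const v x)
    rw [h3.fderiv]
    simp [hess]
  have hχ0 : χ 0 = 0 := image_eq_zero_of_notMem_tsupport h0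
  have e1 : (fun x => χ x * hess φ x v v) =
      fun x => χ x * fderiv ℝ (fun y => fderiv ℝ φ y v) x v := by
    funext x
    by_cases hx : x = 0
    · rw [hx, hχ0, zero_mul, zero_mul]
    · rw [he x hx]
  refine ⟨i1, i2, ?_⟩
  rw [e1]
  refine integral_mul_fderiv_eq_neg_fderiv_mul_of_integrable i2 ?_ i3 ?_ ?_
  · rw [← e1]; exact i1
  · intro x _
    exact hχ.differentiable (by norm_num) x
  · intro x hx
    have hx0 : x ≠ 0 := fun h => h0 (h ▸ hx)
    exact ((hdiff x hx0).hasFDerivAt.clm_apply (hasFDerivAt_const v x)).differentiableAt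

theorem sum_ei [DecidableEq ι] (x : E ι) : ∑ i, (inner ℝ x (ei i) : ℝ) • (ei i : E ι) = x := by
  ext j
  simp [ei, EuclideanSpace.inner_single_right, Finset.sum_apply, Pi.single_apply]

end XLap

open XLap in
theorem hs_Lap (hAlg : StAlg) (hPot : StPot) (hPol : StPol) : StLap := by
  intro ι _ _ _ J a φ hJ hφ
  obtain ⟨-, -, hJa, -, hJJ, -⟩ := hAlg ι J hJ
  obtain ⟨hp1, -, -, -, hp5, -, hp7, hp8⟩ := hPot ι J a φ hJ hφ
  let L : E ι →ₗ[ℝ] E ι := IsLinearMap.mk' J hJ.linear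
  have hL : ∀ x, J x = L x := fun x => rfl
  have hsumJ : ∀ x : E ι, ∑ i, (inner ℝ x (J (ei i)) : ℝ) • J (ei i) = x := by
    intro x
    have h1 : ∀ i, (inner ℝ x (J (ei i)) : ℝ) • J (ei i) =
        -(L ((inner ℝ (J x) (ei i) : ℝ) • (ei i : E ι))) := by
      intro i
      rw [map_smul, hJa x (ei i), neg_smul, neg_neg]
      rfl
    rw [Finset.sum_congr rfl fun i _ => h1 i, Finset.sum_neg_distrib, ← map_sum, sum_ei, ← hL,
      (hJJ x).1, neg_neg]
  -- the bump function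
  let G : ContDiffBump (5 / 2 : ℝ) := ⟨1 / 2, 1, by norm_num, by norm_num⟩
  have hG0 : ∀ s : ℝ, 1 ≤ |s - 5 / 2| → G s = 0 := by
    intro s hs
    apply G.zero_of_le_dist
    rw [Real.dist_eq]
    exact hs
  have hF : ContDiff ℝ 1 (fun s : ℝ => s * G s) := contDiff_id.mul G.contDiff
  have hχ : ContDiff ℝ 1 (fun x : E ι => ‖x‖ ^ 2 * G (‖x‖ ^ 2)) :=
    hF.comp (contDiff_norm_sq ℝ)
  have hc : HasCompactSupport (fun x : E ι => ‖x‖ ^ 2 * G (‖x‖ ^ 2)) := by
    refine HasCompactSupport.intro (isCompact_closedBall (0 : E ι) 2) fun x hx => ?_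
    rw [mem_closedBall_zero_iff, not_le] at hx
    rw [hG0, mul_zero]
    rw [abs_of_nonneg] <;> nlinarith
  have h0 : (0 : E ι) ∉ tsupport (fun x : E ι => ‖x‖ ^ 2 * G (‖x‖ ^ 2)) := by
    rw [notMem_tsupport_iff_eventuallyEq]
    filter_upwards [Metric.ball_mem_nhds (0 : E ι) one_pos] with x hx
    rw [mem_ball_zero_iff] at hx
    show ‖x‖ ^ 2 * G (‖x‖ ^ 2) = 0
    rw [hG0, mul_zero]
    have := norm_nonneg x
    rw [abs_of_neg] <;> nlinarith
  have hder : ∀ x v : E ι, fderiv ℝ (fun x : E ι => ‖x‖ ^ 2 * G (‖x‖ ^ 2)) x v =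
      deriv (fun s : ℝ => s * G s) (‖x‖ ^ 2) * (2 * inner ℝ x v) := by
    intro x v
    have h1 : HasFDerivAt (fun x : E ι => ‖x‖ ^ 2) (2 • (innerSL ℝ x)) x :=
      (hasStrictFDerivAt_norm_sq x).hasFDerivAt
    have h2 : HasDerivAt (fun s : ℝ => s * G s) (deriv (fun s : ℝ => s * G s) (‖x‖ ^ 2))
        (‖x‖ ^ 2) := (hF.differentiable (by norm_num) _).hasDerivAt
    have h3 := h2.comp_hasFDerivAt x h1
    have h4 : fderiv ℝ (fun x : E ι => ‖x‖ ^ 2 * G (‖x‖ ^ 2)) x =
      deriv (fun s : ℝ => s * G s) (‖x‖ ^ 2) • (2 • (innerSL ℝ x)) := h3.fderiv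
    rw [h4]
    simp
  generalize hχd : (fun x : E ι => ‖x‖ ^ 2 * G (‖x‖ ^ 2)) = χ at hχ hc h0 hder
  have hχe : ∀ x, χ x = ‖x‖ ^ 2 * G (‖x‖ ^ 2) := fun x => by rw [← hχd]
  -- the two sums of derivatives
  have hz1 : ∀ x : E ι, ∑ i, (fderiv ℝ χ x (ei i) * fderiv ℝ φ x (ei i) +
      fderiv ℝ χ x (J (ei i)) * fderiv ℝ φ x (J (ei i))) = 0 := by
    intro x
    by_cases hx : x = 0
    · refine Finset.sum_eq_zero fun i _ => ?_
      rw [hder, hder, hx, inner_zero_left, inner_zero_left]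
      ring
    have e1 : ∑ i, (inner ℝ x (ei i) : ℝ) * fderiv ℝ φ x (ei i) = 0 := by
      have e2 : ∀ i, (inner ℝ x (ei i) : ℝ) * fderiv ℝ φ x (ei i) =
          fderiv ℝ φ x ((inner ℝ x (ei i) : ℝ) • (ei i : E ι)) := by
        intro i
        rw [map_smul, smul_eq_mul]
      rw [Finset.sum_congr rfl fun i _ => e2 i, ← map_sum, sum_ei]
      exact (hp1 x hx).1
    have e3 : ∑ i, (inner ℝ x (J (ei i)) : ℝ) * fderiv ℝ φ x (J (ei i)) = 0 := by
      have e2 : ∀ i, (inner ℝ x (J (ei i)) : ℝ) * fderiv ℝ φ x (J (ei i)) =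
          fderiv ℝ φ x ((inner ℝ x (J (ei i)) : ℝ) • J (ei i)) := by
        intro i
        rw [map_smul, smul_eq_mul]
      rw [Finset.sum_congr rfl fun i _ => e2 i, ← map_sum, hsumJ]
      exact (hp1 x hx).1
    have e4 : ∀ i, fderiv ℝ χ x (ei i) * fderiv ℝ φ x (ei i) +
        fderiv ℝ χ x (J (ei i)) * fderiv ℝ φ x (J (ei i)) =
        (2 * deriv (fun s : ℝ => s * G s) (‖x‖ ^ 2)) *
          ((inner ℝ x (ei i) : ℝ) * fderiv ℝ φ x (ei i)) +
        (2 * deriv (fun s : ℝ => s * G s) (‖x‖ ^ 2)) *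
          ((inner ℝ x (J (ei i)) : ℝ) * fderiv ℝ φ x (J (ei i))) := by
      intro i
      rw [hder, hder]
      ring
    rw [Finset.sum_congr rfl fun i _ => e4 i, Finset.sum_add_distrib, ← Finset.mul_sum,
      ← Finset.mul_sum, e1, e3]
    ring
  have hpa := parts φ hφ.smooth χ hχ hc h0
  have hI : ∫ x : E ι, χ x * ∑ i, lev J φ x (ei i) (ei i) = 0 := by
    have e1 : ∀ x : E ι, χ x * ∑ i, lev J φ x (ei i) (ei i) =
        (1 / 2) * ∑ i, (χ x * hess φ x (ei i) (ei i) + χ x * hess φ x (J (ei i)) (J (ei i))) := by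
      intro x
      rw [Finset.mul_sum, Finset.mul_sum]
      refine Finset.sum_congr rfl fun i _ => ?_
      unfold lev
      ring
    have e2 : ∫ x : E ι, ∑ i, (χ x * hess φ x (ei i) (ei i) +
        χ x * hess φ x (J (ei i)) (J (ei i))) = 0 := by
      have ia : ∀ i, Integrable (fun x : E ι => χ x * hess φ x (ei i) (ei i) +
        χ x * hess φ x (J (ei i)) (J (ei i))) := fun i => (hpa (ei i)).1.add (hpa (J (ei i))).1
      have ib : ∀ i, Integrable (fun x : E ι => fderiv ℝ χ x (ei i) * fderiv ℝ φ x (ei i) +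
        fderiv ℝ χ x (J (ei i)) * fderiv ℝ φ x (J (ei i))) :=
        fun i => (hpa (ei i)).2.1.add (hpa (J (ei i))).2.1
      rw [integral_finsetSum _ fun i _ => ia i]
      have e3 : ∀ i, ∫ x : E ι, (χ x * hess φ x (ei i) (ei i) +
          χ x * hess φ x (J (ei i)) (J (ei i))) =
          -∫ x : E ι, (fderiv ℝ χ x (ei i) * fderiv ℝ φ x (ei i) +
            fderiv ℝ χ x (J (ei i)) * fderiv ℝ φ x (J (ei i))) := by
        intro i
        rw [integral_add (hpa (ei i)).1 (hpa (J (ei i))).1, (hpa (ei i)).2.2,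
          (hpa (J (ei i))).2.2, integral_add (hpa (ei i)).2.1 (hpa (J (ei i))).2.1]
        ring
      rw [Finset.sum_congr rfl fun i _ => e3 i, Finset.sum_neg_distrib,
        ← integral_finsetSum _ fun i _ => ib i]
      rw [integral_congr_ae (Eventually.of_forall hz1)]
      simp
    rw [integral_congr_ae (Eventually.of_forall e1), integral_const_mul, e2, mul_zero]
  -- polar coordinates
  obtain ⟨κ, hκ, hpol⟩ := hPol ι (fun r => G (r ^ 2)) (G.continuous.comp (continuous_pow 2))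
    (fun r => G.nonneg) ⟨Real.sqrt (5 / 2), by positivity, by
      show 0 < G (Real.sqrt (5 / 2) ^ 2)
      rw [Real.sq_sqrt (by norm_num)]
      apply G.pos_of_mem_ball
      exact Metric.mem_ball_self G.rOut_pos⟩ (by
      refine HasCompactSupport.intro (isCompact_closedBall (0 : ℝ) 2) fun x hx => ?_
      rw [mem_closedBall_zero_iff, not_le, Real.norm_eq_abs] at hx
      apply hG0
      have h1 : x ^ 2 = |x| ^ 2 := (sq_abs x).symm
      rw [h1, abs_of_nonneg] <;> nlinarith)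
  have hT : ContinuousOn (fun x : E ι => ∑ i, lev J φ x (ei i) (ei i))
      (Metric.sphere (0 : E ι) 1) := by
    refine continuousOn_finsetSum _ fun i _ => ?_
    refine (hp7 (ei i) (ei i)).continuousOn.mono ?_
    intro x hx
    rw [mem_sphere_zero_iff_norm] at hx
    intro h
    rw [mem_singleton_iff] at h
    rw [h, norm_zero] at hx
    exact zero_ne_one hx
  have h5 := hpol _ hT
  have h6 : ∀ x : E ι, G (‖x‖ ^ 2) * ∑ i, lev J φ (‖x‖⁻¹ • x) (ei i) (ei i) =
      χ x * ∑ i, lev J φ x (ei i) (ei i) := by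
    intro x
    rw [hχe]
    by_cases hx : x = 0
    · have h7 : G (‖x‖ ^ 2) = 0 := by
        apply hG0
        rw [hx, norm_zero, abs_of_neg] <;> norm_num
      rw [h7]
      ring
    · have h8 : ‖x‖ ≠ 0 := norm_ne_zero_iff.2 hx
      have h9 : ∀ i, lev J φ (‖x‖⁻¹ • x) (ei i) (ei i) = ‖x‖ ^ 2 * lev J φ x (ei i) (ei i) := by
        intro i
        rw [hp5 x (ei i) (ei i) ‖x‖⁻¹ hx (inv_ne_zero h8), inv_inv]
      rw [Finset.sum_congr rfl fun i _ => h9 i, ← Finset.mul_sum]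
      ring
  have h10 : ∫ x : E ι, G (‖x‖ ^ 2) * ∑ i, lev J φ (‖x‖⁻¹ • x) (ei i) (ei i) = 0 := by
    rw [integral_congr_ae (Eventually.of_forall h6)]
    exact hI
  have h11 : κ * sInt (fun x : E ι => ∑ i, lev J φ x (ei i) (ei i)) = 0 := by
    rw [← h5]
    exact h10
  have h12 := (mul_eq_zero.1 h11).resolve_left hκ.ne'
  rw [← h12]
  unfold sInt
  congr 1
  funext x
  refine Finset.sum_congr rfl fun i _ => ?_
  have hx : (x : E ι) ≠ 0 := by
    intro h
    have h1 : ‖(x : E ι)‖ = 1 := mem_sphere_zero_iff_norm.1 x.2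
    rw [h, norm_zero] at h1
    exact zero_ne_one h1
  exact (hp8 x (ei i) (ei i) hx).symm

end Pool.Agent.Work.MP_02f065_gt.HS
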