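import Pool.Agent.Work.MP_02f065_gt.HS.Stmts

/-!
MP_02f065_gt, block HS, item LenH: the length of the horizontal lift.
-/

open MeasureTheory Set Filter Topology

noncomputable section

namespace Pool.Agent.Work.MP_02f065_gt.HS

open Pool.Agent.Work.MP_02f065_gt.RPn Pool.Agent.Work.MP_02f065_gt.Cvx
open Pool.Agent.Work.MP_02f065_gt.FR

namespace XLenH

variable {ι : Type} [Fintype ι]

/-- the derivative of the lift -/
theorem deriv_lift (J : E ι → E ι) (hJ : IsCpx J) (hJJ : ∀ x : E ι, J (J x) = -x) (x y : E ι)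
    (τ : ℝ → ℝ) (r t : ℝ) (s : Set ℝ) (hg : HasDerivAt (gcr x y) (gcv x y t) t)
    (hτ : HasDerivWithinAt τ r s t) :
    HasDerivWithinAt (fun t => rot J (τ t) (gcr x y t))
      (rot J (τ t) (gcv x y t) + r • J (rot J (τ t) (gcr x y t))) s t := by
  have h1 : HasDerivWithinAt (fun t => J (gcr x y t)) (J (gcv x y t)) s t :=
    ((LinearMap.toContinuousLinearMap (hJ.linear.mk' J)).hasFDerivAt.comp_hasDerivAt t
      hg).hasDerivWithinAt
  have h2 : HasDerivWithinAt (fun t => Real.cos (τ t)) (-Real.sin (τ t) * r) s t :=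
    (Real.hasDerivAt_cos (τ t)).comp_hasDerivWithinAt t hτ
  have h3 : HasDerivWithinAt (fun t => Real.sin (τ t)) (Real.cos (τ t) * r) s t :=
    (Real.hasDerivAt_sin (τ t)).comp_hasDerivWithinAt t hτ
  have h4 := (h2.smul hg.hasDerivWithinAt).add (h3.smul h1)
  have h5 : J (rot J (τ t) (gcr x y t)) =
      Real.cos (τ t) • J (gcr x y t) - Real.sin (τ t) • gcr x y t := by
    unfold rot
    rw [hJ.linear.map_add, hJ.linear.map_smul, hJ.linear.map_smul, hJJ, smul_neg, sub_eq_add_neg]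
  have h6 : rot J (τ t) (gcv x y t) + r • J (rot J (τ t) (gcr x y t)) =
      Real.cos (τ t) • gcv x y t + (-Real.sin (τ t) * r) • gcr x y t +
      (Real.sin (τ t) • J (gcv x y t) + (Real.cos (τ t) * r) • J (gcr x y t)) := by
    rw [h5]
    unfold rot
    rw [smul_sub, smul_smul, smul_smul, neg_mul, neg_smul, mul_comm r, mul_comm r]
    abel
  rw [h6]
  exact h4

omit [Fintype ι] in
/-- continuity of a rotated curve -/
theorem cont_rot (J : E ι → E ι) (hcont : Continuous (fun z : ℝ × E ι => rot J z.1 z.2))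
    (τ : ℝ → ℝ) (c : ℝ → E ι) (s : Set ℝ) (hτ : ContinuousOn τ s) (hc : ContinuousOn c s) :
    ContinuousOn (fun t => rot J (τ t) (c t)) s := by
  have h := hcont.comp_continuousOn (hτ.prodMk hc)
  exact h

end XLenH

open XLenH in
theorem hs_LenH (hAlg : StAlg) (hGc : StGc) (hPt : StPt) (hA2 : claimA2) (hA3 : claimA3) :
    StLenH := by
  intro ι _ J g L hJ hS hSys
  have hM := hS.metric
  obtain ⟨hJc, -, -, -, hJJ, hlin, -, h0pi, -, hnorm, hder, hcont⟩ := hAlg ι J hJ
  obtain ⟨g1, g2, g3, -, -, -, -⟩ := hGc ι J hJ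
  obtain ⟨-, p2, -, p4, -, p6, -, C, hC, p8, -⟩ := hPt ι J g hJ hM
  refine ⟨C, hC, fun x y τ hxy hτ => ?_⟩
  have hpi : (0 : ℝ) < Real.pi := Real.pi_pos
  have hτc : ContinuousOn τ (Icc 0 Real.pi) := fun t ht => (hτ.deriv t ht).continuousWithinAt
  have hgc : Continuous (gcr x y) := continuous_iff_continuousAt.2 fun t => (g1 x y t).continuousAt
  have hgv : Continuous (gcv x y) := by
    unfold gcv
    fun_prop
  have hc1 : ContinuousOn (fun t => rot J (τ t) (gcr x y t)) (Icc 0 Real.pi) :=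
    cont_rot J hcont τ (gcr x y) _ hτc hgc.continuousOn
  have hc2 : ContinuousOn (fun t => rot J (τ t) (gcv x y t)) (Icc 0 Real.pi) :=
    cont_rot J hcont τ (gcv x y) _ hτc hgv.continuousOn
  have hn : ∀ t, ‖rot J (τ t) (gcr x y t)‖ = 1 := fun t => by
    rw [(hnorm _ _).1]
    exact ((g2 x y hxy t).1).1
  have hth : ContinuousOn (fun t => theta g J (rot J (τ t) (gcr x y t))
      (rot J (τ t) (gcv x y t))) (Icc 0 Real.pi) :=
    p6.comp (hc1.prodMk hc2) fun t _ => hn t
  -- the lift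
  have harc : IsArc (fun t => rot J (τ t) (gcr x y t))
      (fun t => rot J (τ t) (gcv x y t) +
        (-theta g J (rot J (τ t) (gcr x y t)) (rot J (τ t) (gcv x y t))) •
          J (rot J (τ t) (gcr x y t))) 0 Real.pi := by
    refine ⟨fun t ht => ?_, ?_, fun t _ => hn t⟩
    · exact deriv_lift J hJ (fun x => (hJJ x).1) x y τ _ t _ (g1 x y t) (hτ.deriv t ht)
    · exact hc2.add (hth.neg.smul (hJc.comp_continuousOn hc1))
  obtain ⟨k, hk, hkl⟩ := hA2 ι g _ _ 0 Real.pi hM hpi harc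
  have hlen1 : length g k = hlen g J x y := by
    rw [hkl]
    unfold arcLength hlen
    refine intervalIntegral.integral_congr fun t _ => ?_
    show Real.sqrt (g _ _ _) = Real.sqrt _
    congr 1
    have e1 := (p4 (rot J (τ t) (gcr x y t)) (rot J (τ t) (gcv x y t))
      (-theta g J (rot J (τ t) (gcr x y t)) (rot J (τ t) (gcv x y t))) (hn t))
    rw [p2 _ _ (hn t), e1.2.1, e1.1, hS.inv _ _ _ ((g2 x y hxy t).1).1 ((g2 x y hxy t).1).2.2]
    ring
  -- the arc of the circle
  have harc2 : IsArc (fun s => rot J (τ Real.pi * (1 - s)) (-x))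
      (fun s => (-τ Real.pi) • J (rot J (τ Real.pi * (1 - s)) (-x))) 0 1 := by
    have hx1 : ‖-x‖ = 1 := by rw [norm_neg]; exact hxy.1
    refine ⟨fun s _ => ?_, ?_, fun s _ => ?_⟩
    · have h1 : HasDerivAt (fun s : ℝ => τ Real.pi * (1 - s)) (-τ Real.pi) s := by
        have h2 := ((hasDerivAt_id s).const_sub 1).const_mul (τ Real.pi)
        rw [mul_neg, mul_one] at h2
        exact h2
      exact (HasDerivAt.scomp s (hder (τ Real.pi * (1 - s)) (-x)) h1).hasDerivWithinAt
    · have h7 : Continuous (fun s : ℝ => τ Real.pi * (1 - s)) :=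
        continuous_const.mul (continuous_const.sub continuous_id)
      have h8 : ContinuousOn (fun s => rot J (τ Real.pi * (1 - s)) (-x)) (Icc (0 : ℝ) 1) :=
        cont_rot J hcont (fun s => τ Real.pi * (1 - s)) (fun _ => -x) _ h7.continuousOn
          continuousOn_const
      have h9 : ContinuousOn (fun s => J (rot J (τ Real.pi * (1 - s)) (-x))) (Icc (0 : ℝ) 1) :=
        hJc.comp_continuousOn h8
      exact h9.const_smul (-τ Real.pi)
    · show ‖rot J _ (-x)‖ = 1
      rw [(hnorm _ _).1, hx1]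
  obtain ⟨k2, hk2, hkl2⟩ := hA2 ι g _ _ 0 1 hM zero_lt_one harc2
  have hlen2 : length g k2 ≤ C * |τ Real.pi| := by
    rw [hkl2]
    unfold arcLength
    have h1 : ∀ s ∈ Set.uIoc (0 : ℝ) 1,
        ‖Real.sqrt (g (rot J (τ Real.pi * (1 - s)) (-x))
          ((-τ Real.pi) • J (rot J (τ Real.pi * (1 - s)) (-x)))
          ((-τ Real.pi) • J (rot J (τ Real.pi * (1 - s)) (-x))))‖ ≤ C * |τ Real.pi| := by
      intro s _
      have hz : ‖rot J (τ Real.pi * (1 - s)) (-x)‖ = 1 := by
        rw [(hnorm _ _).1, norm_neg]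
        exact hxy.1
      rw [hM.smul, hM.symm, hM.smul, ← mul_assoc, Real.norm_of_nonneg (Real.sqrt_nonneg _),
        ← sq, Real.sqrt_mul (sq_nonneg _), Real.sqrt_sq_eq_abs, abs_neg, mul_comm]
      exact mul_le_mul_of_nonneg_right (p8 _ hz) (abs_nonneg _)
    have h2 := intervalIntegral.norm_integral_le_of_norm_le_const h1
    rw [sub_zero, abs_one, mul_one] at h2
    exact (le_abs_self _).trans h2
  -- the two together
  have e1 : rot J (τ 0) (gcr x y 0) = x := by
    rw [hτ.zero, (g3 x y).1, (h0pi x).1]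
  have e2 : rot J (τ Real.pi * (1 - 0)) (-x) = rot J (τ Real.pi) (gcr x y Real.pi) := by
    rw [sub_zero, mul_one, (g3 x y).2.1]
  have e3 : rot J (τ Real.pi * (1 - 1)) (-x) = -x := by
    rw [sub_self, mul_zero, (h0pi (-x)).1]
  have hk' : IsCurve k x (rot J (τ Real.pi) (gcr x y Real.pi)) := by
    have h := hk
    rw [e1] at h
    exact h
  have hk2' : IsCurve k2 (rot J (τ Real.pi) (gcr x y Real.pi)) (-x) := by
    have h := hk2
    rw [e2, e3] at h
    exact h
  obtain ⟨k3, hk3, hkl3⟩ := hA3 ι g k k2 x _ (-x) hM hk' hk2'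
  have h3 := hSys x k3 hxy.1 hk3
  rw [hkl3, hlen1] at h3
  linarith

end Pool.Agent.Work.MP_02f065_gt.HS
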