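import Pool.Agent.Work.MP_02f065_gt.HS.StmtsK

/-!
MP_02f065_gt, block HS, item Lg: the potential of the Fubini-Study metric.
-/

open MeasureTheory Set Filter Topology Complex

noncomputable section

namespace Pool.Agent.Work.MP_02f065_gt.HS

open Pool.Agent.Work.MP_02f065_gt.RPn Pool.Agent.Work.MP_02f065_gt.Cvx
open Pool.Agent.Work.MP_02f065_gt.FR

namespace XLg

variable {ι : Type} [Fintype ι]

/-- the inner product as a bilinear map -/
def B : E ι →L[ℝ] E ι →L[ℝ] ℝ := innerSL ℝ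

theorem normsq (y : E ι) : (inner ℝ y y : ℝ) = ‖y‖ ^ 2 := real_inner_self_eq_norm_sq y

theorem hasF_N (x : E ι) :
    HasFDerivAt (fun y : E ι => (inner ℝ y y : ℝ)) ((2 : ℝ) • B x) x := by
  have h1 : (fun y : E ι => (inner ℝ y y : ℝ)) = fun y => ‖y‖ ^ 2 := by
    funext y
    exact normsq y
  rw [h1]
  have h2 := (hasStrictFDerivAt_norm_sq x).hasFDerivAt
  have h3 : ((2 : ℕ) • B x : E ι →L[ℝ] ℝ) = (2 : ℝ) • B x := by
    rw [two_smul, two_smul]
  rw [← h3]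
  exact h2

theorem pos {x : E ι} (hx : x ≠ 0) : (0 : ℝ) < inner ℝ x x := by
  rw [normsq]
  have := norm_pos_iff.2 hx
  positivity

theorem hess_N (x v w : E ι) : hess (fun y : E ι => (inner ℝ y y : ℝ)) x v w = 2 * inner ℝ v w := by
  unfold hess
  have h1 : fderiv ℝ (fun y : E ι => (inner ℝ y y : ℝ)) = fun y => ((2 : ℝ) • B) y := by
    funext y
    rw [(hasF_N y).fderiv]
    rfl
  rw [h1]
  have h2 : fderiv ℝ (fun y => ((2 : ℝ) • B) y) x =
      ((2 : ℝ) • B) :=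
    ((2 : ℝ) • B).hasFDerivAt.fderiv
  rw [h2]
  rfl

theorem hasF_lg {x : E ι} (hx : x ≠ 0) :
    HasFDerivAt (lg : E ι → ℝ) ((inner ℝ x x : ℝ)⁻¹ • B x) x := by
  have h1 := (hasF_N x).log (pos hx).ne'
  have h2 := h1.const_mul (2⁻¹ : ℝ)
  have h3 : (lg : E ι → ℝ) = fun y => (2⁻¹ : ℝ) * Real.log (inner ℝ y y) := by
    funext y
    unfold lg
    ring
  rw [h3]
  have h4 : ((inner ℝ x x : ℝ)⁻¹ • B x : E ι →L[ℝ] ℝ) =
      (2⁻¹ : ℝ) • ((inner ℝ x x : ℝ)⁻¹ • ((2 : ℝ) • B x)) := by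
    rw [smul_smul, smul_smul]
    congr 1
    ring
  rw [h4]
  exact h2

theorem hess_lg {x : E ι} (hx : x ≠ 0) (v w : E ι) :
    hess (lg : E ι → ℝ) x v w =
      inner ℝ v w / inner ℝ x x - 2 * inner ℝ x v * inner ℝ x w / (inner ℝ x x) ^ 2 := by
  unfold hess
  have hN := pos hx
  have h1 : fderiv ℝ (lg : E ι → ℝ) =ᶠ[𝓝 x] fun y => (inner ℝ y y : ℝ)⁻¹ • B y := by
    filter_upwards [isOpen_compl_singleton.mem_nhds hx] with y hy
    exact (hasF_lg hy).fderiv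
  rw [h1.fderiv_eq]
  have h2 : HasFDerivAt (fun y : E ι => (inner ℝ y y : ℝ)⁻¹)
      ((-((inner ℝ x x : ℝ) ^ 2)⁻¹) • ((2 : ℝ) • B x)) x :=
    HasDerivAt.comp_hasFDerivAt (f := fun y : E ι => (inner ℝ y y : ℝ)) (h₂ := fun t : ℝ => t⁻¹) x
      (hasDerivAt_inv hN.ne') (hasF_N x)
  have h3 : HasFDerivAt (fun y : E ι => (inner ℝ y y : ℝ)⁻¹ • B y)
      ((inner ℝ x x : ℝ)⁻¹ • B +
        ((-((inner ℝ x x : ℝ) ^ 2)⁻¹) • ((2 : ℝ) • B x)).smulRight (B x)) x :=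
    h2.smul (B.hasFDerivAt (x := x))
  rw [h3.fderiv]
  change (inner ℝ x x : ℝ)⁻¹ * inner ℝ v w +
    ((-((inner ℝ x x : ℝ) ^ 2)⁻¹) * (2 * inner ℝ x v)) * inner ℝ x w = _
  field_simp
  ring

end XLg

theorem hs_Lg (hAlg : StAlg) : StLg := by
  intro ι _ J hJ
  obtain ⟨-, -, hA, hB, -⟩ := hAlg ι J hJ
  have hA' : ∀ x y : E ι, (inner ℝ x (J y) : ℝ) = -(inner ℝ (J x) y : ℝ) := by
    intro x y
    rw [hA]
    ring
  have h2 : ∀ x v w : E ι, x ≠ 0 → fderiv ℝ (lg : E ι → ℝ) x v = inner ℝ x v / inner ℝ x x ∧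
      lev J lg x v w = (inner ℝ v w -
        (inner ℝ x v * inner ℝ x w + inner ℝ (J x) v * inner ℝ (J x) w) /
          inner ℝ x x) / inner ℝ x x := by
    intro x v w hx
    have hN := XLg.pos hx
    refine ⟨?_, ?_⟩
    · rw [(XLg.hasF_lg hx).fderiv]
      change (inner ℝ x x : ℝ)⁻¹ * inner ℝ x v = _
      field_simp
    · unfold lev
      rw [XLg.hess_lg hx, XLg.hess_lg hx, XLg.hess_lg hx, XLg.hess_lg hx, hB, hB, hA', hA',
        real_inner_comm w v]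
      field_simp
      ring
  refine ⟨?_, h2, ?_, ?_⟩
  · have h : ContDiffOn ℝ 3 (fun y : E ι => (inner ℝ y y : ℝ)) {0}ᶜ :=
      (contDiff_id.inner ℝ contDiff_id).contDiffOn
    exact (h.log (fun x hx => (XLg.pos hx).ne')).div_const 2
  · intro x v w hx
    have hx0 : x ≠ 0 := by
      intro h
      rw [h, norm_zero] at hx
      exact zero_ne_one hx
    have hxx : (inner ℝ x x : ℝ) = 1 := by rw [XLg.normsq, hx]; norm_num
    have hJJ : (inner ℝ (J x) (J x) : ℝ) = 1 := by rw [hB, hxx]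
    have hxJ : (inner ℝ x (J x) : ℝ) = 0 := hJ.tangent x
    have hJx : (inner ℝ (J x) x : ℝ) = 0 := by rw [real_inner_comm]; exact hxJ
    rw [(h2 x v w hx0).2, hxx]
    unfold hor
    simp only [inner_sub_left, inner_sub_right, inner_smul_left, inner_smul_right, hxx, hJJ, hxJ,
      hJx, RCLike.conj_to_real]
    rw [real_inner_comm x v, real_inner_comm (J x) v]
    ring
  · intro x v w _
    unfold lev
    rw [XLg.hess_N, XLg.hess_N, XLg.hess_N, XLg.hess_N, hB, hB, real_inner_comm w v]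
    ring

end Pool.Agent.Work.MP_02f065_gt.HS
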