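import Pool.Agent.Work.MP_02f065_gt.HS.Stmts

/-!
MP_02f065_gt, block HS, item Lip: the vertical component is Lipschitz.
-/

open MeasureTheory Set Filter Topology

noncomputable section

namespace Pool.Agent.Work.MP_02f065_gt.HS

open Pool.Agent.Work.MP_02f065_gt.RPn Pool.Agent.Work.MP_02f065_gt.Cvx
open Pool.Agent.Work.MP_02f065_gt.FR

namespace XLip

variable {ι : Type} [Fintype ι]

/-- The pairs of a unit vector and a vector of length at most one. -/
def Ok (z : E ι × E ι) : Prop := ‖z.1‖ = 1 ∧ ‖z.2‖ ≤ 1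

/-- Bounded Lipschitz functions of these pairs. -/
def BL (F : E ι × E ι → ℝ) : Prop := ∃ M K : ℝ, 0 ≤ M ∧ 0 ≤ K ∧ (∀ z, Ok z → |F z| ≤ M) ∧
  ∀ z z', Ok z → Ok z' → |F z - F z'| ≤ K * (‖z.1 - z'.1‖ + ‖z.2 - z'.2‖)

lemma zero : BL (fun _ : E ι × E ι => (0 : ℝ)) :=
  ⟨0, 0, le_rfl, le_rfl, fun _ _ => by simp, fun _ _ _ _ => by simp⟩

lemma add {F G : E ι × E ι → ℝ} (hF : BL F) (hG : BL G) : BL (fun z => F z + G z) := by
  obtain ⟨M, K, hM, hK, h1, h2⟩ := hF
  obtain ⟨N, L, hN, hL, k1, k2⟩ := hG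
  refine ⟨M + N, K + L, by positivity, by positivity, fun z hz => ?_, fun z z' hz hz' => ?_⟩
  · exact (abs_add_le _ _).trans (add_le_add (h1 z hz) (k1 z hz))
  · have h := (abs_add_le (F z - F z') (G z - G z')).trans
      (add_le_add (h2 z z' hz hz') (k2 z z' hz hz'))
    calc |F z + G z - (F z' + G z')| = |F z - F z' + (G z - G z')| := by congr 1; ring
      _ ≤ _ := h
      _ = _ := by ring

lemma mul {F G : E ι × E ι → ℝ} (hF : BL F) (hG : BL G) : BL (fun z => F z * G z) := by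
  obtain ⟨M, K, hM, hK, h1, h2⟩ := hF
  obtain ⟨N, L, hN, hL, k1, k2⟩ := hG
  refine ⟨M * N, M * L + K * N, by positivity, by positivity, fun z hz => ?_,
    fun z z' hz hz' => ?_⟩
  · rw [abs_mul]
    exact mul_le_mul (h1 z hz) (k1 z hz) (abs_nonneg _) hM
  · calc |F z * G z - F z' * G z'| = |F z * (G z - G z') + (F z - F z') * G z'| := by
          congr 1; ring
      _ ≤ |F z * (G z - G z')| + |(F z - F z') * G z'| := abs_add_le _ _
      _ = |F z| * |G z - G z'| + |F z - F z'| * |G z'| := by rw [abs_mul, abs_mul]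
      _ ≤ M * (L * (‖z.1 - z'.1‖ + ‖z.2 - z'.2‖)) +
          K * (‖z.1 - z'.1‖ + ‖z.2 - z'.2‖) * N :=
        add_le_add (mul_le_mul (h1 z hz) (k2 z z' hz hz') (abs_nonneg _) hM)
          (mul_le_mul (h2 z z' hz hz') (k1 z' hz') (abs_nonneg _) (by positivity))
      _ = _ := by ring

lemma inv {G : E ι × E ι → ℝ} (hG : BL G) (c : ℝ) (hc : 0 < c) (h : ∀ z, Ok z → c ≤ G z) :
    BL (fun z => (G z)⁻¹) := by
  obtain ⟨N, L, hN, hL, k1, k2⟩ := hG
  refine ⟨c⁻¹, L / c ^ 2, by positivity, by positivity, fun z hz => ?_, fun z z' hz hz' => ?_⟩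
  · have h0 : 0 < G z := hc.trans_le (h z hz)
    rw [abs_of_pos (inv_pos.mpr h0)]
    exact inv_anti₀ hc (h z hz)
  · have h0 : 0 < G z := hc.trans_le (h z hz)
    have h0' : 0 < G z' := hc.trans_le (h z' hz')
    have e : (G z)⁻¹ - (G z')⁻¹ = (G z' - G z) / (G z * G z') := by
      field_simp
    rw [e, abs_div, abs_of_pos (mul_pos h0 h0'), abs_sub_comm]
    have hd : 0 ≤ ‖z.1 - z'.1‖ + ‖z.2 - z'.2‖ := by positivity
    calc |G z - G z'| / (G z * G z') ≤ L * (‖z.1 - z'.1‖ + ‖z.2 - z'.2‖) / c ^ 2 := by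
          refine div_le_div₀ (mul_nonneg hL hd) (k2 z z' hz hz') (by positivity) ?_
          rw [pow_two]
          exact mul_le_mul (h z hz) (h z' hz') hc.le h0.le
      _ = _ := by ring

lemma sum {κ : Type} (s : Finset κ) (F : κ → E ι × E ι → ℝ) (h : ∀ i ∈ s, BL (F i)) :
    BL (fun z => ∑ i ∈ s, F i z) := by
  classical
  induction s using Finset.induction_on with
  | empty => simpa using zero
  | insert i s hi ih =>
    simp only [Finset.sum_insert hi]
    exact add (h i (Finset.mem_insert_self _ _))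
      (ih fun j hj => h j (Finset.mem_insert_of_mem hj))

/-- Coordinates are bounded and Lipschitz. -/
lemma coord2 (i : ι) : BL (fun z : E ι × E ι => z.2 i) := by
  refine ⟨1, 1, zero_le_one, zero_le_one, fun z hz => ?_, fun z z' hz hz' => ?_⟩
  · have := PiLp.norm_apply_le z.2 i
    rw [Real.norm_eq_abs] at this
    exact this.trans hz.2
  · have := PiLp.norm_apply_le (z.2 - z'.2) i
    rw [Real.norm_eq_abs] at this
    have h1 : (z.2 - z'.2) i = z.2 i - z'.2 i := rfl
    rw [h1] at this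
    have h2 := norm_nonneg (z.1 - z'.1)
    linarith

lemma coordJ {J : E ι → E ι} (hJ : IsCpx J) (i : ι) : BL (fun z : E ι × E ι => (J z.1) i) := by
  refine ⟨1, 1, zero_le_one, zero_le_one, fun z hz => ?_, fun z z' hz hz' => ?_⟩
  · have := PiLp.norm_apply_le (J z.1) i
    rw [Real.norm_eq_abs, hJ.norm, hz.1] at this
    exact this
  · have := PiLp.norm_apply_le (J (z.1 - z'.1)) i
    rw [Real.norm_eq_abs, hJ.norm, hJ.linear.map_sub] at this
    have h1 : (J z.1 - J z'.1) i = (J z.1) i - (J z'.1) i := rfl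
    rw [h1] at this
    have h2 := norm_nonneg (z.2 - z'.2)
    linarith

/-- The coefficients of the metric. -/
lemma coeff {g : RPn.Field ι} (hg : IsMetric g) (hL : Lip g) (v w : E ι) :
    BL (fun z : E ι × E ι => g z.1 v w) := by
  obtain ⟨K, hK⟩ := hL v w
  obtain ⟨C, hC⟩ := (isCompact_sphere (0 : E ι) 1).exists_bound_of_continuousOn (hg.cont v w)
  have hm : ∀ z : E ι × E ι, Ok z → z.1 ∈ Metric.sphere (0 : E ι) 1 := fun z hz => by
    simpa using hz.1
  refine ⟨max C 0, K, le_max_right _ _, K.2, fun z hz => ?_, fun z z' hz hz' => ?_⟩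
  · have := hC z.1 (hm z hz)
    rw [Real.norm_eq_abs] at this
    exact this.trans (le_max_left _ _)
  · have h1 := hK.dist_le_mul z.1 (hm z hz) z'.1 (hm z' hz')
    rw [Real.dist_eq, dist_eq_norm] at h1
    refine h1.trans ?_
    exact mul_le_mul_of_nonneg_left (le_add_of_nonneg_right (norm_nonneg _)) K.2

lemma sum_left {g : RPn.Field ι} (hg : IsMetric g) (x w : E ι) (s : Finset ι) (c : ι → ℝ)
    (f : ι → E ι) : g x (∑ i ∈ s, c i • f i) w = ∑ i ∈ s, c i * g x (f i) w := by
  classical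
  induction s using Finset.induction_on with
  | empty =>
    have h := hg.smul x 0 w 0
    simp only [zero_smul, zero_mul] at h
    simpa using h
  | insert i s hi ih => rw [Finset.sum_insert hi, Finset.sum_insert hi, hg.add, hg.smul, ih]

lemma expand [DecidableEq ι] {g : RPn.Field ι} (hg : IsMetric g) (x u v : E ι) :
    g x u v = ∑ i, ∑ j, u i * (v j * g x (EuclideanSpace.single j 1)
      (EuclideanSpace.single i 1)) := by
  have hu : ∀ u : E ι, u = ∑ i, u i • (EuclideanSpace.single i (1 : ℝ) : E ι) := by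
    intro u
    ext j
    simp [Finset.sum_apply, Pi.single_apply]
  have h1 : g x u v = g x (∑ i, u i • (EuclideanSpace.single i (1 : ℝ) : E ι)) v := by
    rw [← hu u]
  rw [h1, sum_left hg]
  refine Finset.sum_congr rfl fun i _ => ?_
  have h2 : g x (EuclideanSpace.single i 1) v =
      ∑ j, v j * g x (EuclideanSpace.single j 1) (EuclideanSpace.single i 1) := by
    rw [hg.symm]
    have h3 : g x v (EuclideanSpace.single i 1) =
        g x (∑ j, v j • (EuclideanSpace.single j (1 : ℝ) : E ι)) (EuclideanSpace.single i 1) := by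
      rw [← hu v]
    rw [h3, sum_left hg]
  rw [h2, Finset.mul_sum]

end XLip

open XLip in
/-- Item Lip. -/
theorem hs_Lip (hPt : StPt) : StLip := by
  intro ι _ J g hJ hg hL
  classical
  obtain ⟨p1, -, -, -, -, -, p2, -⟩ := hPt ι J g hJ hg
  have hN : BL (fun z : E ι × E ι => g z.1 z.2 (J z.1)) := by
    simp only [expand hg _ _ (J _)]
    exact sum _ _ fun i _ => sum _ _ fun j _ => mul (coord2 i) (mul (coordJ hJ j) (coeff hg hL _ _))
  have hD : BL (fun z : E ι × E ι => g z.1 (J z.1) (J z.1)) := by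
    simp only [expand hg _ _ (J _)]
    exact sum _ _ fun i _ => sum _ _ fun j _ =>
      mul (coordJ hJ i) (mul (coordJ hJ j) (coeff hg hL _ _))
  obtain ⟨c, hc, hc'⟩ : ∃ c : ℝ, 0 < c ∧ ∀ x : E ι, ‖x‖ = 1 → c ≤ g x (J x) (J x) := by
    rcases (Metric.sphere (0 : E ι) 1).eq_empty_or_nonempty with h | h
    · refine ⟨1, one_pos, fun x hx => ?_⟩
      have : x ∈ Metric.sphere (0 : E ι) 1 := by simpa using hx
      rw [h] at this
      exact this.elim
    · obtain ⟨x, hx, hx'⟩ := (isCompact_sphere (0 : E ι) 1).exists_isMinOn h p2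
      refine ⟨g x (J x) (J x), p1 x (by simpa using hx), fun y hy => ?_⟩
      exact hx' (show y ∈ Metric.sphere (0 : E ι) 1 by simpa using hy)
  obtain ⟨M, K, -, hK, -, h2⟩ := mul hN (inv hD c hc fun z hz => hc' z.1 hz.1)
  refine ⟨K, hK, fun x x' v v' hx hx' hv hv' => ?_⟩
  have := h2 (x, v) (x', v') ⟨hx, hv⟩ ⟨hx', hv'⟩
  simpa only [theta, div_eq_mul_inv] using this

end Pool.Agent.Work.MP_02f065_gt.HS
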