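import Pool.Agent.Work.MP_02f065_gt.HS.StmtsK

/-!
MP_02f065_gt, block HS, item Mass: the volume of a Kähler metric.
-/

open MeasureTheory Set Filter Topology Complex

noncomputable section

namespace Pool.Agent.Work.MP_02f065_gt.HS

open Pool.Agent.Work.MP_02f065_gt.RPn Pool.Agent.Work.MP_02f065_gt.Cvx
open Pool.Agent.Work.MP_02f065_gt.FR

namespace XMass

variable {ι : Type} [Fintype ι] {k : ℕ}

theorem lev_zero (J : E ι → E ι) (x v w : E ι) : lev J (fun _ => (0 : ℝ)) x v w = 0 := by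
  have h : ∀ x v w : E ι, hess (fun _ : E ι => (0 : ℝ)) x v w = 0 := by
    intro x v w
    unfold hess
    simp
  unfold lev
  simp [h]

theorem pot_zero {J : E ι → E ι} {a : ℝ} {φ : E ι → ℝ} (h : IsPot J a φ) :
    IsPot J a (fun _ => (0 : ℝ)) := by
  refine ⟨h.apos, contDiffOn_const, fun _ _ _ => rfl, fun _ _ => rfl, ?_⟩
  intro x v _ _ _ hv
  rw [lev_zero, add_zero]
  exact mul_pos h.apos (real_inner_self_pos.2 hv)

theorem hm_zero (J : E ι → E ι) (e : Fin k → E ι) (x : E ι) :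
    Hm J e (fun _ => (0 : ℝ)) x = 0 := by
  unfold Hm
  ext i j
  simp [lev_zero]

theorem hm_scale {J : E ι → E ι} (e : Fin k → E ι) {u : E ι → ℝ} {x : E ι} {r : ℝ}
    (h : ∀ v w, lev J u (r • x) v w = r⁻¹ ^ 2 * lev J u x v w) :
    Hm J e u (r • x) = ((r⁻¹ ^ 2 : ℝ) : ℂ) • Hm J e u x := by
  unfold Hm
  ext i j
  simp only [Matrix.of_apply, Matrix.smul_apply, smul_eq_mul, h]
  push_cast
  ring

theorem lg_scale (hL : StLg) {J : E ι → E ι} (hJ : IsCpx J) {x : E ι} {r : ℝ} (hx : x ≠ 0)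
    (hr : r ≠ 0) (v w : E ι) : lev J lg (r • x) v w = r⁻¹ ^ 2 * lev J lg x v w := by
  obtain ⟨-, h, -, -⟩ := hL ι J hJ
  have hrx : r • x ≠ 0 := smul_ne_zero hr hx
  rw [(h (r • x) v w hrx).2, (h x v w hx).2, hJ.linear.map_smul]
  have hxx : (inner ℝ x x : ℝ) ≠ 0 := (real_inner_self_pos.2 hx).ne'
  simp only [real_inner_smul_left, real_inner_smul_right]
  field_simp

theorem det_scale (hP : StPot) (hL : StLg) (hB : StBlk) [DecidableEq ι] {J : E ι → E ι}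
    {e : Fin k → E ι} {a lam : ℝ} {φ : E ι → ℝ} (hJ : IsCpx J) (he : IsUni J e)
    (hφ : IsPot J a φ) (hlam : 0 < lam) {x : E ι} (hx : x ≠ 0) :
    ((a : ℂ) • Hm J e lg x + Hm J e φ x + (lam : ℂ) • (1 : Matrix (Fin k) (Fin k) ℂ)).det =
      (((2 : ℝ)⁻¹ ^ k * ((‖x‖⁻¹ ^ 2) ^ k * (2 * (lam * ‖x‖ ^ 2) *
        kd J a φ (2 * (lam * ‖x‖ ^ 2)) (‖x‖⁻¹ • x))) : ℝ) : ℂ) := by
  have hr : 0 < ‖x‖ := norm_pos_iff.2 hx
  set r := ‖x‖ with hrdef
  set z : E ι := r⁻¹ • x with hz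
  have hzn : ‖z‖ = 1 := by
    rw [hz, norm_smul, norm_inv, Real.norm_of_nonneg hr.le, ← hrdef, inv_mul_cancel₀ hr.ne']
  have hz0 : z ≠ 0 := by
    intro h
    rw [h, norm_zero] at hzn
    exact zero_ne_one hzn
  have hxz : x = r • z := by
    rw [hz, smul_smul, mul_inv_cancel₀ hr.ne', one_smul]
  have hs1 : Hm J e φ x = ((r⁻¹ ^ 2 : ℝ) : ℂ) • Hm J e φ z := by
    rw [hxz]
    exact hm_scale e fun v w => (hP ι J a φ hJ hφ).2.2.2.2.1 z v w r hz0 hr.ne'
  have hs2 : Hm J e lg x = ((r⁻¹ ^ 2 : ℝ) : ℂ) • Hm J e lg z := by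
    rw [hxz]
    exact hm_scale e fun v w => lg_scale hL hJ hz0 hr.ne' v w
  have hmat : (a : ℂ) • Hm J e lg x + Hm J e φ x + (lam : ℂ) • (1 : Matrix (Fin k) (Fin k) ℂ) =
      ((r⁻¹ ^ 2 : ℝ) : ℂ) • ((a : ℂ) • Hm J e lg z + Hm J e φ z +
        ((lam * r ^ 2 : ℝ) : ℂ) • (1 : Matrix (Fin k) (Fin k) ℂ)) := by
    rw [hs1, hs2, smul_add, smul_add, smul_smul, smul_smul, smul_smul, mul_comm (a : ℂ)]
    congr 2
    rw [← Complex.ofReal_mul]
    congr 1
    field_simp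
  have hblk := hB ι J k e a (lam * r ^ 2) φ hJ he hφ (by positivity) z hzn
  rw [hmat, Matrix.det_smul, Fintype.card_fin]
  have h2 : ((2 : ℂ) ^ k) ≠ 0 := pow_ne_zero _ two_ne_zero
  have hdet : ((a : ℂ) • Hm J e lg z + Hm J e φ z +
        ((lam * r ^ 2 : ℝ) : ℂ) • (1 : Matrix (Fin k) (Fin k) ℂ)).det =
      (((2 : ℝ)⁻¹ ^ k * (2 * (lam * r ^ 2) * kd J a φ (2 * (lam * r ^ 2)) z) : ℝ) : ℂ) := by
    rw [Complex.ofReal_mul ((2 : ℝ)⁻¹ ^ k), ← hblk, ← mul_assoc]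
    have h3 : (((2 : ℝ)⁻¹ ^ k : ℝ) : ℂ) * (2 : ℂ) ^ k = 1 := by
      push_cast
      rw [← mul_pow, inv_mul_cancel₀ (two_ne_zero), one_pow]
    rw [h3, one_mul]
  rw [hdet]
  push_cast
  ring

/-- The radial weight. -/
def psi (F : ℝ → ℝ) (k : ℕ) (r : ℝ) : ℝ := F (r ^ 2) * ((r⁻¹ ^ 2) ^ k * r ^ 2)

theorem psi_near {F : ℝ → ℝ} (h0 : (0 : ℝ) ∉ tsupport F) (k : ℕ) :
    ∀ᶠ r in 𝓝 (0 : ℝ), psi F k r = 0 := by
  have h1 : F =ᶠ[𝓝 0] 0 := notMem_tsupport_iff_eventuallyEq.1 h0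
  have h2 : Tendsto (fun r : ℝ => r ^ 2) (𝓝 0) (𝓝 0) := by
    have : Continuous fun r : ℝ => r ^ 2 := by fun_prop
    simpa using this.tendsto 0
  filter_upwards [h2.eventually h1] with r hr
  unfold psi
  rw [hr]
  simp

theorem psi_cont {F : ℝ → ℝ} (hF : Continuous F) (h0 : (0 : ℝ) ∉ tsupport F) (k : ℕ) :
    Continuous (psi F k) := by
  rw [continuous_iff_continuousAt]
  intro r
  by_cases hr : r = 0
  · subst hr
    have h1 : psi F k =ᶠ[𝓝 0] fun _ => 0 := psi_near h0 k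
    exact continuousAt_const.congr h1.symm
  · unfold psi
    have h1 : ContinuousAt (fun r : ℝ => r⁻¹) r := continuousAt_inv₀ hr
    have h2 : ContinuousAt (fun r : ℝ => F (r ^ 2)) r :=
      (hF.comp (continuous_pow 2)).continuousAt
    exact h2.mul (((h1.pow 2).pow k).mul (continuous_pow 2).continuousAt)

/-- The integral. -/
def P [DecidableEq ι] (J : E ι → E ι) (a : ℝ) (F : ℝ → ℝ) (k : ℕ) (φ : E ι → ℝ) (lam : ℝ) : ℝ :=
  ∫ x : E ι, psi F k ‖x‖ * kd J a φ (2 * (lam * ‖x‖ ^ 2)) (‖x‖⁻¹ • x)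

theorem P_aux (G : ℝ → E ι → ℝ) {F : ℝ → ℝ}
    (hk : ContinuousOn (fun z : ℝ × E ι => G z.1 z.2) {z | ‖z.2‖ = 1})
    (hF : Continuous F) (h0 : (0 : ℝ) ∉ tsupport F) (hc : HasCompactSupport F) (k : ℕ) :
    Continuous (fun lam : ℝ => ∫ x : E ι, psi F k ‖x‖ * G (2 * (lam * ‖x‖ ^ 2)) (‖x‖⁻¹ • x)) := by
  have hcont : Continuous (fun z : ℝ × E ι =>
      psi F k ‖z.2‖ * G (2 * (z.1 * ‖z.2‖ ^ 2)) (‖z.2‖⁻¹ • z.2)) := by
    rw [continuous_iff_continuousAt]
    rintro ⟨lam, x⟩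
    by_cases hx : x = 0
    · subst hx
      have h1 : Tendsto (fun z : ℝ × E ι => ‖z.2‖) (𝓝 (lam, (0 : E ι))) (𝓝 0) := by
        have : Continuous fun z : ℝ × E ι => ‖z.2‖ := by fun_prop
        simpa using this.tendsto (lam, (0 : E ι))
      have h2 : (fun z : ℝ × E ι =>
          psi F k ‖z.2‖ * G (2 * (z.1 * ‖z.2‖ ^ 2)) (‖z.2‖⁻¹ • z.2)) =ᶠ[𝓝 (lam, (0 : E ι))]
          fun _ => 0 := by
        filter_upwards [h1.eventually (psi_near h0 k)] with z hz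
        rw [hz, zero_mul]
      exact continuousAt_const.congr h2.symm
    · have hn : ‖x‖ ≠ 0 := norm_ne_zero_iff.2 hx
      have h1 : ContinuousAt (fun z : ℝ × E ι => psi F k ‖z.2‖) (lam, x) :=
        ((psi_cont hF h0 k).comp (continuous_snd.norm)).continuousAt
      have hsn : ContinuousAt (fun z : ℝ × E ι => ‖z.2‖) (lam, x) :=
        continuous_snd.norm.continuousAt
      have h2 : ContinuousAt (fun z : ℝ × E ι =>
          ((2 * (z.1 * ‖z.2‖ ^ 2), ‖z.2‖⁻¹ • z.2) : ℝ × E ι)) (lam, x) := by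
        refine ContinuousAt.prodMk ?_ ?_
        · have : Continuous fun z : ℝ × E ι => 2 * (z.1 * ‖z.2‖ ^ 2) := by fun_prop
          exact this.continuousAt
        · exact (hsn.inv₀ hn).smul continuous_snd.continuousAt
      have hmem : ∀ᶠ z : ℝ × E ι in 𝓝 (lam, x),
          ((2 * (z.1 * ‖z.2‖ ^ 2), ‖z.2‖⁻¹ • z.2) : ℝ × E ι) ∈ {z : ℝ × E ι | ‖z.2‖ = 1} := by
        filter_upwards [hsn.eventually_ne hn] with z hz
        change ‖‖z.2‖⁻¹ • z.2‖ = 1
        rw [norm_smul, norm_inv, norm_norm, inv_mul_cancel₀ hz]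
      have hat : ContinuousWithinAt (fun z : ℝ × E ι => G z.1 z.2) {z | ‖z.2‖ = 1}
          (2 * (lam * ‖x‖ ^ 2), ‖x‖⁻¹ • x) := hk (2 * (lam * ‖x‖ ^ 2), ‖x‖⁻¹ • x) (by
        change ‖‖x‖⁻¹ • x‖ = 1
        rw [norm_smul, norm_inv, norm_norm, inv_mul_cancel₀ hn])
      have h3 : Tendsto (fun z : ℝ × E ι => ((2 * (z.1 * ‖z.2‖ ^ 2), ‖z.2‖⁻¹ • z.2) : ℝ × E ι))
          (𝓝 (lam, x)) (𝓝[{z : ℝ × E ι | ‖z.2‖ = 1}] (2 * (lam * ‖x‖ ^ 2), ‖x‖⁻¹ • x)) :=
        tendsto_nhdsWithin_iff.2 ⟨h2, hmem⟩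
      have h4 : ContinuousAt (fun z : ℝ × E ι => G (2 * (z.1 * ‖z.2‖ ^ 2)) (‖z.2‖⁻¹ • z.2))
          (lam, x) := hat.tendsto.comp h3
      exact h1.mul h4
  have hb : ∃ R, ∀ r, R < r → psi F k r = 0 := by
    obtain ⟨R, hR⟩ := hc.isCompact.isBounded.subset_closedBall 0
    refine ⟨max R 1, fun r hr => ?_⟩
    have h1 : r ≤ r ^ 2 := by nlinarith [le_max_right R 1]
    have h2 : r ^ 2 ∉ tsupport F := by
      intro h
      have := hR h
      rw [Metric.mem_closedBall, dist_zero_right, Real.norm_of_nonneg (by positivity)] at this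
      have := le_max_left R 1
      linarith
    unfold psi
    rw [image_eq_zero_of_notMem_tsupport h2, zero_mul]
  obtain ⟨R, hR⟩ := hb
  rw [← continuousOn_univ]
  refine continuousOn_integral_of_compact_support (isCompact_closedBall (0 : E ι) R)
    hcont.continuousOn ?_
  intro lam x _ hx
  have : R < ‖x‖ := by
    rw [Metric.mem_closedBall, dist_zero_right, not_le] at hx
    exact hx
  rw [hR _ this, zero_mul]

theorem P_cont [DecidableEq ι] (hK : StKdc) {J : E ι → E ι} {a : ℝ} {F : ℝ → ℝ} {φ : E ι → ℝ}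
    (hJ : IsCpx J) (hφ : IsPot J a φ) (hF : Continuous F) (h0 : (0 : ℝ) ∉ tsupport F)
    (hc : HasCompactSupport F) : Continuous (P J a F k φ) :=
  P_aux (kd J a φ) (hK ι J a φ hJ hφ).1 hF h0 hc k

theorem P_eq [DecidableEq ι] (hP : StPot) (hL : StLg) (hB : StBlk) {J : E ι → E ι}
    {e : Fin k → E ι} {a lam : ℝ} {φ : E ι → ℝ} {F : ℝ → ℝ} (hJ : IsCpx J) (he : IsUni J e)
    (hφ : IsPot J a φ) (hlam : 0 < lam) (h0 : (0 : ℝ) ∉ tsupport F) :
    ∫ x : E ι, ((F (inner ℝ x x) : ℝ) : ℂ) *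
      ((a : ℂ) • Hm J e lg x + Hm J e φ x + (lam : ℂ) • (1 : Matrix (Fin k) (Fin k) ℂ)).det =
    (((2 : ℝ)⁻¹ ^ k * (2 * lam) * P J a F k φ lam : ℝ) : ℂ) := by
  unfold P
  rw [← integral_const_mul, ← integral_complex_ofReal]
  refine integral_congr_ae (Eventually.of_forall fun x => ?_)
  change ((F (inner ℝ x x) : ℝ) : ℂ) * _ = _
  by_cases hx : x = 0
  · subst hx
    have h1 : F 0 = 0 := image_eq_zero_of_notMem_tsupport h0
    have h2 : psi F k 0 = 0 := (psi_near h0 k).self_of_nhds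
    simp [h1, h2]
  · rw [det_scale hP hL hB hJ he hφ hlam hx, real_inner_self_eq_norm_sq, ← Complex.ofReal_mul]
    congr 1
    unfold psi
    ring

end XMass

open XMass in
/-- **the volume of a Kähler metric** -/
theorem hs_Mass (hA : StAlg) (hU : StUni) (hP : StPot) (hL : StLg) (hC : StCon) (hB : StBlk)
    (hK : StKdc) (hPol : StPol) : StMass := by
  intro ι _ _ _ J k a φ hJ hcard hφ
  have hφ0 : IsPot J a (fun _ => (0 : ℝ)) := pot_zero hφ
  obtain ⟨e, he, -⟩ := (hU ι J k hJ hcard).1 (ei (Classical.arbitrary ι)) (by simp [ei])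
  -- the bump function
  let f : ContDiffBump (5 / 2 : ℝ) := ⟨1, 3 / 2, one_pos, by norm_num⟩
  set F : ℝ → ℝ := fun x => f x with hFdef
  have hFs : ContDiff ℝ 1 F := f.contDiff
  have hFc : HasCompactSupport F := f.hasCompactSupport
  have hF0 : (0 : ℝ) ∉ tsupport F := by
    intro h
    have h1 : (0 : ℝ) ∈ Metric.closedBall (5 / 2 : ℝ) (3 / 2) := by
      have h2 := f.tsupport_eq
      rw [hFdef] at h
      rw [h2] at h
      exact h
    rw [Metric.mem_closedBall, Real.dist_eq, zero_sub, abs_neg, abs_of_pos (by norm_num)] at h1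
    norm_num at h1
  have hF4 : 0 < F (5 / 2) := by
    have : F (5 / 2) = 1 := f.one_of_mem_closedBall (Metric.mem_closedBall_self f.rIn_pos.le)
    rw [this]
    exact one_pos
  -- equality for positive lam
  have heq : ∀ lam : ℝ, 0 < lam → P J a F k φ lam = P J a F k (fun _ => 0) lam := by
    intro lam hlam
    have h1 := hC ι J k e a lam φ F hJ he hφ hlam hFs hFc hF0
    have h2 := P_eq hP hL hB hJ he hφ hlam hF0
    have h3 := P_eq hP hL hB hJ he hφ0 hlam hF0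
    simp only [hm_zero, add_zero] at h3
    rw [h2, h3] at h1
    have h4 := Complex.ofReal_injective h1
    have h5 : (2 : ℝ)⁻¹ ^ k * (2 * lam) ≠ 0 := by positivity
    exact mul_left_cancel₀ h5 h4
  have hlim : P J a F k φ 0 = P J a F k (fun _ => 0) 0 := by
    have c1 : Tendsto (P J a F k φ) (𝓝[>] 0) (𝓝 (P J a F k φ 0)) :=
      ((P_cont hK hJ hφ hFs.continuous hF0 hFc).tendsto 0).mono_left nhdsWithin_le_nhds
    have c2 : Tendsto (P J a F k (fun _ => 0)) (𝓝[>] 0) (𝓝 (P J a F k (fun _ => 0) 0)) :=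
      ((P_cont hK hJ hφ0 hFs.continuous hF0 hFc).tendsto 0).mono_left nhdsWithin_le_nhds
    have c3 : P J a F k φ =ᶠ[𝓝[>] 0] P J a F k (fun _ => 0) := by
      filter_upwards [self_mem_nhdsWithin] with lam hlam
      exact heq lam hlam
    exact tendsto_nhds_unique (c1.congr' c3) c2
  -- polar coordinates
  have hψc : HasCompactSupport (psi F k) := by
    obtain ⟨R, hR⟩ := hFc.isCompact.isBounded.subset_closedBall 0
    refine HasCompactSupport.intro (isCompact_Icc (a := -(max R 1)) (b := max R 1)) ?_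
    intro r hr
    have h1 : max R 1 < |r| := by
      by_contra hcon
      exact hr (abs_le.1 (not_lt.1 hcon))
    have h2 : r ^ 2 ∉ tsupport F := by
      intro h
      have h3 := hR h
      rw [Metric.mem_closedBall, dist_zero_right, Real.norm_of_nonneg (by positivity)] at h3
      have h4 := le_max_left R 1
      have h5 := le_max_right R 1
      have h6 : |r| ≤ |r| ^ 2 := by nlinarith
      rw [sq_abs] at h6
      linarith
    unfold psi
    rw [image_eq_zero_of_notMem_tsupport h2, zero_mul]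
  have hψp : ∃ r, 0 < r ∧ 0 < psi F k r := by
    refine ⟨Real.sqrt (5 / 2), Real.sqrt_pos.2 (by norm_num), ?_⟩
    have h1 : 0 < Real.sqrt (5 / 2) := Real.sqrt_pos.2 (by norm_num)
    unfold psi
    rw [Real.sq_sqrt (by norm_num)]
    positivity
  obtain ⟨κ, hκ, hpol⟩ := hPol ι (psi F k) (psi_cont hFs.continuous hF0 k)
    (fun r => mul_nonneg f.nonneg (by positivity)) hψp hψc
  have key : ∀ φ' : E ι → ℝ, IsPot J a φ' → P J a F k φ' 0 = κ * sInt (kd J a φ' 0) := by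
    intro φ' hφ'
    rw [← hpol (kd J a φ' 0)]
    · unfold P
      simp
    · obtain ⟨hk, -⟩ := hK ι J a φ' hJ hφ'
      refine hk.comp (f := fun x : E ι => ((0 : ℝ), x)) (by fun_prop) ?_
      intro x hx
      simpa using hx
  rw [key φ hφ, key _ hφ0] at hlim
  have h1 : sInt (kd J a φ 0) = sInt (kd J a (fun _ => 0) 0) := mul_left_cancel₀ hκ.ne' hlim
  rw [h1]
  unfold sInt
  rw [← integral_const_mul]
  refine integral_congr_ae (Eventually.of_forall fun x => ?_)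
  have hx : ‖(x : E ι)‖ = 1 := by simp
  change kd J a (fun _ => 0) 0 (x : E ι) = a ^ (k - 1) * 1
  rw [(hK ι J a φ hJ hφ).2 0 x le_rfl hx, add_zero, mul_one, hcard,
    show 2 * k - 2 = (k - 1) * 2 by omega, pow_mul, Real.sqrt_sq (pow_nonneg hφ.apos.le _)]

end Pool.Agent.Work.MP_02f065_gt.HS
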