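import Pool.Agent.Work.MP_02f065_gt.HS.Stmts
import Pool.Agent.Work.MP_02f065_gt.Cvx.I_FLO3
import Pool.Agent.Work.MP_02f065_gt.Cvx.I_JEN3

/-!
MP_02f065_gt, block HS, item MeanH: the systole and the energy of the quotient metric.
-/

open MeasureTheory Set Filter Topology

noncomputable section

namespace Pool.Agent.Work.MP_02f065_gt.HS

open Pool.Agent.Work.MP_02f065_gt.RPn Pool.Agent.Work.MP_02f065_gt.Cvx
open Pool.Agent.Work.MP_02f065_gt.FR

namespace XMeanH

/-- the weight -/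
def wgt (ε s : ℝ) : ℝ := max 0 (1 - |s| / ε)

lemma wgt_cont (ε : ℝ) : Continuous (wgt ε) := by
  unfold wgt
  fun_prop

lemma wgt_nonneg (ε s : ℝ) : 0 ≤ wgt ε s := le_max_left _ _

lemma wgt_eq_zero {ε s : ℝ} (hε : 0 < ε) (h : ε < |s|) : wgt ε s = 0 := by
  unfold wgt
  refine max_eq_left ?_
  have : 1 < |s| / ε := by rwa [lt_div_iff₀ hε, one_mul]
  linarith

variable {ι : Type} [Fintype ι]

omit [Fintype ι] in
/-- the length over `[0, 2 pi]` -/
lemma two_len (g : RPn.Field ι) (J : E ι → E ι) (y u : E ι)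
    (hc : Continuous fun t : ℝ => Real.sqrt (quo g J (gc y u t) (gd y u t))) :
    ∫ t in (0 : ℝ)..(2 * Real.pi), Real.sqrt (quo g J (gc y u t) (gd y u t)) =
      hlen g J y u + hlen g J (-y) (-u) := by
  have h1 : ∀ t : ℝ, gc y u (t + Real.pi) = gcr (-y) (-u) t := by
    intro t
    unfold gc gcr
    rw [Real.cos_add_pi, Real.sin_add_pi]
    simp only [neg_smul, smul_neg]
  have h2 : ∀ t : ℝ, gd y u (t + Real.pi) = gcv (-y) (-u) t := by
    intro t
    unfold gd gcv
    rw [Real.cos_add_pi, Real.sin_add_pi]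
    simp only [neg_smul, smul_neg, neg_neg]
  have h3 : ∫ t in Real.pi..(2 * Real.pi), Real.sqrt (quo g J (gc y u t) (gd y u t)) =
      hlen g J (-y) (-u) := by
    have e := intervalIntegral.integral_comp_add_right (a := 0) (b := Real.pi)
      (fun t : ℝ => Real.sqrt (quo g J (gc y u t) (gd y u t))) Real.pi
    rw [zero_add, ← two_mul] at e
    rw [← e]
    unfold hlen
    refine intervalIntegral.integral_congr fun t _ => ?_
    show Real.sqrt (quo g J (gc y u (t + Real.pi)) (gd y u (t + Real.pi))) = _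
    rw [h1, h2]
  rw [← intervalIntegral.integral_add_adjacent_intervals (hc.intervalIntegrable 0 Real.pi)
    (hc.intervalIntegrable Real.pi (2 * Real.pi)), h3]
  rfl

lemma sqrt_le {q l : ℝ} (hq : 0 ≤ q) (hl : 0 < l) : Real.sqrt q ≤ (q / l + l) / 2 := by
  have h1 := Real.sq_sqrt hq
  have h2 : 0 ≤ (Real.sqrt q - l) ^ 2 := sq_nonneg _
  have h3 : 2 * Real.sqrt q * l ≤ q + l ^ 2 := by nlinarith
  have h4 : (q / l + l) / 2 = (q + l ^ 2) / (2 * l) := by
    field_simp
  rw [h4, le_div_iff₀ (by positivity)]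
  linarith

end XMeanH

open XMeanH in
theorem hs_MeanH (hAlg : StAlg) (hGc : StGc) (hPt : StPt) (hLenH : StLenH) (hUnif : StUnif)
    (hTrc : StTrc) (hPosF : StPosF) (hFr : StFr) : StMeanH := by
  intro Q hQ J g L hJ hg hCl hL hSys
  obtain ⟨Fr⟩ := hFr Q hQ
  let _ := Fr.ms
  have := Fr.prob
  have hπ := Real.pi_pos
  obtain ⟨hJc, hJf, -, -, hJJ, -, -, -, -, -, -, -⟩ := hAlg (Ix 1 Q) J hJ
  obtain ⟨-, hG2, -, -, -, -, -⟩ := hGc (Ix 1 Q) J hJ
  obtain ⟨-, -, hq0, -, hqc, -, -, -⟩ := hPt (Ix 1 Q) J g hJ hg.metric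
  obtain ⟨C, hC0, hLen⟩ := hLenH (Ix 1 Q) J g L hJ hg hSys
  -- a pair
  let x : E (Ix 1 Q) := EuclideanSpace.single (Sum.inl 0) 1
  let v : E (Ix 1 Q) := EuclideanSpace.single (Sum.inr ⟨0, by omega⟩) 1
  have hxv : ON x v := by
    refine ⟨by simp [x], by simp [v], ?_⟩
    simp [x, v, EuclideanSpace.inner_single_left]
  set l : ℝ := L / Real.pi with hl
  have hl0 : 0 < l := by positivity
  have hqO : ContinuousOn (fun z : E (Ix 1 Q) × E (Ix 1 Q) => quo g J z.1 z.2)
      {z | ON z.1 z.2} := hqc.mono fun z hz => hz.1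
  have hSq : ContinuousOn (fun z : E (Ix 1 Q) × E (Ix 1 Q) => Real.sqrt (quo g J z.1 z.2))
      {z | ON z.1 z.2} := Real.continuous_sqrt.comp_continuousOn hqO
  have hsv : Continuous (fun z : E (Ix 1 Q) × E (Ix 1 Q) => (inner ℝ (J z.1) z.2 : ℝ)) :=
    (hJc.comp continuous_fst).inner continuous_snd
  -- main estimate
  have key : ∀ δ : ℝ, 0 < δ → l - C * δ / Real.pi ≤ (energy g J / l + l) / 2 := by
    intro δ hδ
    obtain ⟨ε, hε0, hε⟩ := hUnif (Ix 1 Q) J g hJ hg.metric hg.lip hCl δ hδ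
    have hwcO : ContinuousOn (fun z : E (Ix 1 Q) × E (Ix 1 Q) =>
        wgt ε (inner ℝ (J z.1) z.2 : ℝ)) {z | ON z.1 z.2} :=
      ((wgt_cont ε).comp hsv).continuousOn
    set c : ℝ := l - C * δ / Real.pi with hc
    have hlen : ∀ y u : E (Ix 1 Q), ON y u → |(inner ℝ (J y) u : ℝ)| ≤ ε →
        L - C * δ ≤ hlen g J y u := by
      intro y u hyu hs
      obtain ⟨τ, hτ, hτδ⟩ := hε y u hyu hs
      have h1 := hLen y u τ hyu hτ
      have h2 := mul_le_mul_of_nonneg_left hτδ hC0.le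
      linarith
    have hHc : ContinuousOn (fun z : E (Ix 1 Q) × E (Ix 1 Q) =>
        wgt ε (inner ℝ (J z.1) z.2 : ℝ) * (Real.sqrt (quo g J z.1 z.2) - c)) {z | ON z.1 z.2} :=
      hwcO.mul (hSq.sub continuousOn_const)
    have hflo := iFLO3 Q hQ Fr _ 0 hHc (by
      intro y u hyu
      have hcc : Continuous (fun t : ℝ => Real.sqrt (quo g J (gc y u t) (gd y u t))) := by
        have h1 : Continuous (fun t : ℝ => (gc y u t, gd y u t)) := by
          unfold gc gd
          fun_prop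
        exact hSq.comp_continuous h1 (fun t => XFLO3.ON_gc hyu t)
      have h1 : (fun t : ℝ => wgt ε (inner ℝ (J (gc y u t)) (gd y u t) : ℝ) *
          (Real.sqrt (quo g J (gc y u t) (gd y u t)) - c)) = fun t =>
          wgt ε (inner ℝ (J y) u : ℝ) * (Real.sqrt (quo g J (gc y u t) (gd y u t)) - c) := by
        funext t
        have e : (inner ℝ (J (gc y u t)) (gd y u t) : ℝ) = inner ℝ (J y) u := (hG2 y u hyu t).2
        rw [e]
      change 0 ≤ ∫ t in (0 : ℝ)..(2 * Real.pi),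
        wgt ε (inner ℝ (J (gc y u t)) (gd y u t) : ℝ) *
          (Real.sqrt (quo g J (gc y u t) (gd y u t)) - c)
      rw [h1, intervalIntegral.integral_const_mul]
      by_cases hs : |(inner ℝ (J y) u : ℝ)| ≤ ε
      · refine mul_nonneg (wgt_nonneg _ _) ?_
        rw [intervalIntegral.integral_sub (hcc.intervalIntegrable _ _)
          (continuous_const.intervalIntegrable _ _), intervalIntegral.integral_const,
          two_len g J y u hcc]
        have h2 := hlen y u hyu hs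
        have hyu' : ON (-y) (-u) := by
          refine ⟨by rw [norm_neg]; exact hyu.1, by rw [norm_neg]; exact hyu.2.1, ?_⟩
          rw [inner_neg_neg]
          exact hyu.2.2
        have h3 := hlen (-y) (-u) hyu' (by
          rw [(hJJ y).2, inner_neg_neg]
          exact hs)
        have h4 : (2 * Real.pi - 0) • c = 2 * (L - C * δ) := by
          rw [smul_eq_mul, hc, hl]
          field_simp
          ring
        rw [h4]
        linarith
      · push Not at hs
        rw [wgt_eq_zero hε0 hs, zero_mul]) x v hxv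
    have hflo' : 0 ≤ 2 * Real.pi * ∫ ω, wgt ε (inner ℝ (J (Fr.A ω x)) (Fr.A ω v) : ℝ) *
          (Real.sqrt (quo g J (Fr.A ω x) (Fr.A ω v)) - c) ∂Fr.μ := hflo
    have hint : 0 ≤ ∫ ω, wgt ε (inner ℝ (J (Fr.A ω x)) (Fr.A ω v) : ℝ) *
          (Real.sqrt (quo g J (Fr.A ω x) (Fr.A ω v)) - c) ∂Fr.μ :=
      nonneg_of_mul_nonneg_right hflo' (by positivity)
    have i1 : Integrable (fun ω => wgt ε (inner ℝ (J (Fr.A ω x)) (Fr.A ω v) : ℝ) *
          (Real.sqrt (quo g J (Fr.A ω x) (Fr.A ω v)) - c)) Fr.μ := XJEN3.intg Fr hHc hxv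
    have i2 : Integrable (fun ω => wgt ε (inner ℝ (J (Fr.A ω x)) (Fr.A ω v) : ℝ) *
          quo g J (Fr.A ω x) (Fr.A ω v)) Fr.μ := XJEN3.intg Fr (hwcO.mul hqO) hxv
    have i3 : Integrable (fun ω => wgt ε (inner ℝ (J (Fr.A ω x)) (Fr.A ω v) : ℝ)) Fr.μ :=
      XJEN3.intg Fr hwcO hxv
    set W : ℝ := ∫ ω, wgt ε (inner ℝ (J (Fr.A ω x)) (Fr.A ω v) : ℝ) ∂Fr.μ with hW
    have hW0 : 0 < W := by
      have h := hPosF Q hQ Fr 1 (fun _ => J) (fun s => wgt ε (s 0)) (by omega) hJf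
        ((wgt_cont ε).comp (continuous_apply 0)) (fun s => wgt_nonneg ε _) (by simp [wgt]) x v hxv
      exact h
    have hT : ∫ ω, wgt ε (inner ℝ (J (Fr.A ω x)) (Fr.A ω v) : ℝ) *
          quo g J (Fr.A ω x) (Fr.A ω v) ∂Fr.μ ≤ W * energy g J :=
      hTrc Q hQ Fr J g (wgt ε) hJ hg.metric (wgt_cont ε) (wgt_nonneg ε) x v hxv
    have hle : ∫ ω, wgt ε (inner ℝ (J (Fr.A ω x)) (Fr.A ω v) : ℝ) *
          (Real.sqrt (quo g J (Fr.A ω x) (Fr.A ω v)) - c) ∂Fr.μ ≤
        ∫ ω, (wgt ε (inner ℝ (J (Fr.A ω x)) (Fr.A ω v) : ℝ) *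
          quo g J (Fr.A ω x) (Fr.A ω v) * (1 / (2 * l)) +
          wgt ε (inner ℝ (J (Fr.A ω x)) (Fr.A ω v) : ℝ) * (l / 2 - c)) ∂Fr.μ := by
      refine integral_mono i1 ((i2.mul_const _).add (i3.mul_const _)) fun ω => ?_
      have hon := XJEN3.ON_map (Fr.A ω) hxv
      have h1 := sqrt_le (hq0 _ _ hon.1 hon.2.2) hl0
      have h2 := wgt_nonneg ε (inner ℝ (J (Fr.A ω x)) (Fr.A ω v) : ℝ)
      show wgt ε (inner ℝ (J (Fr.A ω x)) (Fr.A ω v) : ℝ) *
          (Real.sqrt (quo g J (Fr.A ω x) (Fr.A ω v)) - c) ≤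
        wgt ε (inner ℝ (J (Fr.A ω x)) (Fr.A ω v) : ℝ) *
          quo g J (Fr.A ω x) (Fr.A ω v) * (1 / (2 * l)) +
          wgt ε (inner ℝ (J (Fr.A ω x)) (Fr.A ω v) : ℝ) * (l / 2 - c)
      have h3 : (quo g J (Fr.A ω x) (Fr.A ω v) / l + l) / 2 =
          quo g J (Fr.A ω x) (Fr.A ω v) * (1 / (2 * l)) + l / 2 := by
        field_simp
      rw [h3] at h1
      calc _ ≤ wgt ε (inner ℝ (J (Fr.A ω x)) (Fr.A ω v) : ℝ) *
            (quo g J (Fr.A ω x) (Fr.A ω v) * (1 / (2 * l)) + l / 2 - c) :=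
            mul_le_mul_of_nonneg_left (by linarith) h2
        _ = _ := by ring
    rw [integral_add (i2.mul_const _) (i3.mul_const _), integral_mul_const,
      integral_mul_const] at hle
    have h5 := mul_le_mul_of_nonneg_right hT (by positivity : (0 : ℝ) ≤ 1 / (2 * l))
    have h6 : 0 ≤ W * ((energy g J / l + l) / 2 - c) := by
      have e : W * ((energy g J / l + l) / 2 - c) =
          W * energy g J * (1 / (2 * l)) + W * (l / 2 - c) := by
        field_simp
        ring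
      rw [e]
      linarith
    have := nonneg_of_mul_nonneg_right h6 hW0
    linarith
  have hlim : l ≤ (energy g J / l + l) / 2 := by
    refine le_of_forall_pos_le_add fun η hη => ?_
    have h := key (η * Real.pi / C) (by positivity)
    have e : C * (η * Real.pi / C) / Real.pi = η := by
      field_simp
    rw [e] at h
    linarith
  have h1 : l ≤ energy g J / l := by linarith
  rw [le_div_iff₀ hl0] at h1
  nlinarith

end Pool.Agent.Work.MP_02f065_gt.HS
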