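import Pool.Agent.Work.MP_02f065_gt.HS.Stmts

/-!
MP_02f065_gt, block HS, item OdeDe (helper12): dependence of the solution of a scalar differential
equation on the right side.
-/

open MeasureTheory Set

noncomputable section

namespace Pool.Agent.Work.MP_02f065_gt.HS

open Pool.Agent.Work.MP_02f065_gt.RPn Pool.Agent.Work.MP_02f065_gt.FR

namespace XOdeDe

theorem gb_le {K ε x : ℝ} (hK : 0 ≤ K) (hε : 0 ≤ ε) :
    gronwallBound 0 K ε x ≤ ε * x * Real.exp (K * x) := by
  rcases hK.eq_or_lt with h | h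
  · rw [← h, gronwallBound_K0]
    simp
  · rw [gronwallBound_of_K_ne_0 h.ne']
    show 0 * Real.exp (K * x) + ε / K * (Real.exp (K * x) - 1) ≤ ε * x * Real.exp (K * x)
    have h1 := Real.add_one_le_exp (-(K * x))
    have h2 : Real.exp (K * x) * Real.exp (-(K * x)) = 1 := by
      rw [← Real.exp_add, add_neg_cancel, Real.exp_zero]
    have h3 : Real.exp (K * x) - 1 ≤ K * x * Real.exp (K * x) := by
      have h4 := mul_le_mul_of_nonneg_left h1 (Real.exp_pos (K * x)).le
      rw [h2] at h4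
      linarith
    have h5 : ε / K * (Real.exp (K * x) - 1) ≤ ε / K * (K * x * Real.exp (K * x)) :=
      mul_le_mul_of_nonneg_left h3 (div_nonneg hε h.le)
    have h6 : ε / K * (K * x * Real.exp (K * x)) = ε * x * Real.exp (K * x) := by
      field_simp
    linarith

theorem right {f f' : ℝ → ℝ} (h : ∀ t ∈ Icc (0 : ℝ) Real.pi,
    HasDerivWithinAt f (f' t) (Icc 0 Real.pi) t) :
    ∀ t ∈ Ico (0 : ℝ) Real.pi, HasDerivWithinAt f (f' t) (Ici t) t := by
  intro t ht
  exact (h t (Ico_subset_Icc_self ht)).mono_of_mem_nhdsWithin (Icc_mem_nhdsGE_of_mem ht)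

end XOdeDe

theorem hs_OdeDe : StOdeDe := by
  intro F G C K ε hC hK hε hG hF hFG τ σ hτ hσ dτ dσ
  have hpi : (0 : ℝ) ≤ Real.pi := Real.pi_pos.le
  have cτ : ContinuousOn τ (Icc 0 Real.pi) := fun t ht => (dτ t ht).continuousWithinAt
  have cσ : ContinuousOn σ (Icc 0 Real.pi) := fun t ht => (dσ t ht).continuousWithinAt
  have bσ : ∀ t ∈ Icc (0 : ℝ) Real.pi, |σ t| ≤ C * Real.pi := by
    intro t ht
    have h := norm_image_sub_le_of_norm_deriv_le_segment' dσ (C := C)
      (fun t _ => by rw [Real.norm_eq_abs]; exact hG t (σ t)) t ht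
    rw [hσ, sub_zero, sub_zero, Real.norm_eq_abs] at h
    exact h.trans (mul_le_mul_of_nonneg_left ht.2 hC)
  have hlip : ∀ t, LipschitzWith (⟨K, hK⟩ : NNReal) (F t) := by
    intro t
    refine LipschitzWith.of_dist_le_mul fun s s' => ?_
    rw [Real.dist_eq, Real.dist_eq]
    exact hF t s s'
  have key := dist_le_of_approx_trajectories_ODE (v := F) (K := ⟨K, hK⟩) (f := τ) (g := σ)
    (f' := fun t => F t (τ t)) (g' := fun t => G t (σ t)) (a := 0) (b := Real.pi) (εf := 0)
    (εg := ε) (δ := 0) hlip cτ (XOdeDe.right dτ) (fun t _ => by simp) cσ (XOdeDe.right dσ)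
    (fun t ht => by
      have ht' := Ico_subset_Icc_self ht
      rw [Real.dist_eq, abs_sub_comm]
      exact hFG t ht' _ (bσ t ht')) (by rw [hτ, hσ]; simp) Real.pi ⟨hpi, le_rfl⟩
  rw [Real.dist_eq, zero_add, sub_zero] at key
  exact key.trans (XOdeDe.gb_le hK hε)

end Pool.Agent.Work.MP_02f065_gt.HS
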