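import Pool.Agent.Work.MP_02f065_gt.HS.Stmts

/-!
# Block HS of MP_02f065_gt, item OdeEx: a scalar differential equation with bounded Lipschitz right side
-/

set_option autoImplicit false

namespace Pool.Agent.Work.MP_02f065_gt.HS

open Set Metric

theorem hs_OdeEx : StOdeEx := by
  intro F C K hF hC hK
  have hpi : (0 : ℝ) ≤ Real.pi := Real.pi_pos.le
  have hC0 : 0 ≤ C := (abs_nonneg _).trans (hC 0 0)
  have hPL : IsPicardLindelof F (tmin := 0) (tmax := Real.pi) ⟨0, ⟨le_rfl, hpi⟩⟩ (0 : ℝ)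
      (Real.toNNReal (C * Real.pi)) 0 (Real.toNNReal C) (Real.toNNReal |K|) := by
    refine ⟨?_, ?_, ?_, ?_⟩
    · intro t _
      refine LipschitzOnWith.of_dist_le_mul fun s _ s' _ => ?_
      rw [Real.dist_eq, Real.dist_eq, Real.coe_toNNReal _ (abs_nonneg K)]
      refine (hK t s s').trans ?_
      exact mul_le_mul_of_nonneg_right (le_abs_self K) (abs_nonneg _)
    · intro x _
      exact (hF.comp (continuous_id.prodMk continuous_const)).continuousOn
    · intro t _ x _
      rw [Real.coe_toNNReal _ hC0, Real.norm_eq_abs]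
      exact hC t x
    · rw [Real.coe_toNNReal _ hC0, Real.coe_toNNReal _ (mul_nonneg hC0 hpi)]
      simp only [sub_zero, NNReal.coe_zero, sub_self]
      rw [max_eq_left hpi]
  obtain ⟨τ, h0, h1⟩ := hPL.exists_eq_forall_mem_Icc_hasDerivWithinAt₀
  exact ⟨τ, h0, h1⟩

end Pool.Agent.Work.MP_02f065_gt.HS
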