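import Pool.Agent.Work.MP_02f065_gt.HS.Stmts

/-!
MP_02f065_gt, block HS, item Pin: closed horizontal lifts in dimension four.
-/

open MeasureTheory Set Filter Topology

noncomputable section

namespace Pool.Agent.Work.MP_02f065_gt.HS

open Pool.Agent.Work.MP_02f065_gt.RPn Pool.Agent.Work.MP_02f065_gt.Cvx
open Pool.Agent.Work.MP_02f065_gt.FR

namespace XPin

variable {ι : Type} [Fintype ι]

/-- In dimension four the second complex structure maps `a` to a rotated `b`. -/
lemma exists_rot (J J' : E ι → E ι) (hJ : IsCpx J) (hJ' : IsCpx J') (hcard : Fintype.card ι = 4)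
    (hJJ' : ∀ x : E ι, J' (J x) = -J (J' x))
    (hs : ∀ x y : E ι, inner ℝ (J x) y = -(inner ℝ x (J y) : ℝ))
    (hs' : ∀ x y : E ι, inner ℝ (J' x) y = -(inner ℝ x (J' y) : ℝ))
    (hi : ∀ x y : E ι, (inner ℝ (J x) (J y) : ℝ) = inner ℝ x y)
    {a b : E ι} (h : IsHor J a b) : ∃ s : ℝ, J' a = rot J s b := by
  have haa : (inner ℝ a a : ℝ) = 1 := by rw [real_inner_self_eq_norm_sq, h.normx]; norm_num
  have hbb : (inner ℝ b b : ℝ) = 1 := by rw [real_inner_self_eq_norm_sq, h.normy]; norm_num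
  have hab := h.ortho
  have hJab := h.orthoJ
  have haJb : (inner ℝ a (J b) : ℝ) = 0 := by
    have := hs a b
    rw [hJab] at this
    linarith
  have hba : (inner ℝ b a : ℝ) = 0 := by rw [real_inner_comm]; exact hab
  have hbJa : (inner ℝ b (J a) : ℝ) = 0 := by rw [real_inner_comm]; exact hJab
  have hJba : (inner ℝ (J b) a : ℝ) = 0 := by rw [real_inner_comm]; exact haJb
  have haJa := hJ.tangent a
  have hbJb := hJ.tangent b
  have hJaa : (inner ℝ (J a) a : ℝ) = 0 := by rw [real_inner_comm]; exact haJa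
  have hJbb : (inner ℝ (J b) b : ℝ) = 0 := by rw [real_inner_comm]; exact hbJb
  let e : Fin 4 → E ι := ![a, J a, b, J b]
  have hon : Orthonormal ℝ e := by
    rw [orthonormal_iff_ite]
    intro i j
    fin_cases i <;> fin_cases j <;> simp [e, hab, hJab, haJb, hba, hbJa, hJba, haJa, hbJb,
      hJaa, hJbb, hi, h.normx, h.normy, hJ.norm]
  have hfr : Fintype.card (Fin 4) = Module.finrank ℝ (E ι) := by
    rw [finrank_euclideanSpace, hcard, Fintype.card_fin]
  let B := (basisOfOrthonormalOfCardEqFinrank hon hfr).toOrthonormalBasis (by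
    simpa using hon)
  have hB : ∀ i, B i = e i := fun i => by simp [B]
  set w : E ι := J' a with hw
  have hwa : (inner ℝ a w : ℝ) = 0 := hJ'.tangent a
  have hwJa : (inner ℝ (J a) w : ℝ) = 0 := by
    have h1 := hs' a (J a)
    rw [hJJ', inner_neg_right] at h1
    have h2 := hs a w
    rw [← hw] at h1
    have h3 : (inner ℝ w (J a) : ℝ) = inner ℝ (J a) w := real_inner_comm _ _
    linarith
  have hexp : w = (inner ℝ b w : ℝ) • b + (inner ℝ (J b) w : ℝ) • J b := by
    have h1 := B.sum_repr' w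
    rw [Fin.sum_univ_four] at h1
    simp only [hB] at h1
    have e0 : e 0 = a := rfl
    have e1 : e 1 = J a := rfl
    have e2 : e 2 = b := rfl
    have e3 : e 3 = J b := rfl
    rw [e0, e1, e2, e3, hwa, hwJa, zero_smul, zero_smul, zero_add, zero_add] at h1
    exact h1.symm
  have hn : (inner ℝ b w : ℝ) ^ 2 + (inner ℝ (J b) w : ℝ) ^ 2 = 1 := by
    have h1 : (inner ℝ w w : ℝ) = 1 := by
      rw [real_inner_self_eq_norm_sq, hw, hJ'.norm, h.normx]
      norm_num
    have h2 : (inner ℝ w w : ℝ) = (inner ℝ b w : ℝ) * (inner ℝ b w : ℝ) +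
        (inner ℝ (J b) w : ℝ) * (inner ℝ (J b) w : ℝ) := by
      conv_lhs => rw [hexp]
      rw [inner_add_left, real_inner_smul_left, real_inner_smul_left, ← hexp]
    nlinarith
  obtain ⟨s, hs1, hs2⟩ : ∃ s : ℝ, Real.cos s = (inner ℝ b w : ℝ) ∧
      Real.sin s = (inner ℝ (J b) w : ℝ) := by
    have hz : ‖(⟨(inner ℝ b w : ℝ), (inner ℝ (J b) w : ℝ)⟩ : ℂ)‖ = 1 := by
      have h0 : ‖(⟨(inner ℝ b w : ℝ), (inner ℝ (J b) w : ℝ)⟩ : ℂ)‖ ^ 2 = 1 := by
        rw [← Complex.normSq_eq_norm_sq, Complex.normSq_mk, ← hn]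
        ring
      have h1 := norm_nonneg (⟨(inner ℝ b w : ℝ), (inner ℝ (J b) w : ℝ)⟩ : ℂ)
      nlinarith
    refine ⟨Complex.arg ⟨(inner ℝ b w : ℝ), (inner ℝ (J b) w : ℝ)⟩, ?_, ?_⟩
    · have hne : (⟨(inner ℝ b w : ℝ), (inner ℝ (J b) w : ℝ)⟩ : ℂ) ≠ 0 := by
        intro h0
        rw [h0, norm_zero] at hz
        norm_num at hz
      rw [Complex.cos_arg hne, hz, div_one]
    · rw [Complex.sin_arg, hz, div_one]
  refine ⟨s, ?_⟩
  unfold rot
  rw [hs1, hs2]
  exact hexp

end XPin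

open XPin in
theorem hs_Pin (hAlg : StAlg) (hGc : StGc) : StPin := by
  intro ι _ J J' g hJ hJ' hcard hJJ' hth hg hinv hpin
  obtain ⟨-, -, hs, hi, hJ2, hRl, hRa, hR0, hRi, hRn, hRd, -⟩ := hAlg ι J hJ
  obtain ⟨-, -, hs', -, hJ2', -, -, -, -, -, -, -⟩ := hAlg ι J' hJ'
  obtain ⟨-, hG2, hG3, hG4, -, -, -⟩ := hGc ι J hJ
  -- the sign
  have hsign : ∀ a b : E ι, IsHor J a b → theta g J b (-a) = -theta g J a b := by
    intro a b h
    obtain ⟨s, hsb⟩ := exists_rot J J' hJ hJ' hcard hJJ' hs hs' hi h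
    have hJ'b : J' b = rot J s (-a) := by
      have h1 : J' (rot J s b) = rot J (-s) (J' b) := by
        unfold rot
        rw [hJ'.linear.map_add, hJ'.linear.map_smul, hJ'.linear.map_smul, hJJ', Real.cos_neg,
          Real.sin_neg, smul_neg, neg_smul]
      have h2 : J' (J' a) = -a := (hJ2' a).1
      rw [hsb, h1] at h2
      rw [← h2, hRa, add_neg_cancel, (hR0 (J' b)).1]
    have h1 := hinv b (-a) s h.normy (by
      rw [inner_neg_right, real_inner_comm, h.ortho, neg_zero])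
    rw [← h1, ← hsb, ← hJ'b]
    exact hpin a b h.normx h.ortho
  intro x y hxy
  obtain ⟨hON, -, hH⟩ := hG4 x y hxy
  set u : ℝ → ℝ := fun t => theta g J (gcr x y t) (gcv x y t) with hu
  have hgr : Continuous (gcr x y) := by
    unfold gcr
    fun_prop
  have hgv : Continuous (gcv x y) := by
    unfold gcv
    fun_prop
  have huc : Continuous u := by
    have h1 : Continuous fun t : ℝ => ((gcr x y t, gcv x y t) : E ι × E ι) := hgr.prodMk hgv
    have h2 : ∀ t : ℝ, ((gcr x y t, gcv x y t) : E ι × E ι) ∈ {z : E ι × E ι | ‖z.1‖ = 1} :=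
      fun t => (hH t).normx
    exact hth.comp_continuous h1 h2
  have hanti : ∀ t, u (t + Real.pi / 2) = -u t := by
    intro t
    obtain ⟨-, -, h3⟩ := hG3 x y
    have e : u (t + Real.pi / 2) = theta g J (gcr x y (t + Real.pi / 2))
        (gcv x y (t + Real.pi / 2)) := rfl
    rw [e, (h3 t).1, (h3 t).2]
    exact hsign _ _ (hH t)
  refine ⟨fun t => -∫ s in (0 : ℝ)..t, u s, ⟨by simp, ?_⟩, ?_⟩
  · intro t _
    have h1 : theta g J (rot J (-∫ s in (0 : ℝ)..t, u s) (gcr x y t))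
        (rot J (-∫ s in (0 : ℝ)..t, u s) (gcv x y t)) = u t :=
      hinv _ _ _ (hH t).normx (hH t).ortho
    show HasDerivWithinAt (fun t => -∫ s in (0 : ℝ)..t, u s)
      (-theta g J (rot J (-∫ s in (0 : ℝ)..t, u s) (gcr x y t))
        (rot J (-∫ s in (0 : ℝ)..t, u s) (gcv x y t))) (Icc 0 Real.pi) t
    rw [h1]
    exact (intervalIntegral.integral_hasDerivAt_right (huc.intervalIntegrable 0 t)
      huc.stronglyMeasurable.stronglyMeasurableAtFilter huc.continuousAt).neg.hasDerivWithinAt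
  · show -∫ s in (0 : ℝ)..Real.pi, u s = 0
    rw [← intervalIntegral.integral_add_adjacent_intervals
      (huc.intervalIntegrable 0 (Real.pi / 2)) (huc.intervalIntegrable (Real.pi / 2) Real.pi)]
    have h1 := intervalIntegral.integral_comp_add_right (a := 0) (b := Real.pi / 2) u (Real.pi / 2)
    rw [zero_add, add_halves] at h1
    rw [← h1]
    simp only [hanti]
    rw [intervalIntegral.integral_neg, add_neg_cancel, neg_zero]

end Pool.Agent.Work.MP_02f065_gt.HS
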