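import Pool.Agent.Work.MP_02f065_gt.HS.StmtsK

/-!
MP_02f065_gt, block HS, item Pol: polar coordinates
-/

set_option autoImplicit false

open MeasureTheory Set Filter Topology

noncomputable section

namespace Pool.Agent.Work.MP_02f065_gt.HS

open Pool.Agent.Work.MP_02f065_gt.RPn Pool.Agent.Work.MP_02f065_gt.Cvx
open Pool.Agent.Work.MP_02f065_gt.FR

namespace XPol

theorem radial_pos (k : ℕ) (ψ : ℝ → ℝ) (hc : Continuous ψ) (h0 : ∀ r, 0 ≤ ψ r)
    (hp : ∃ r, 0 < r ∧ 0 < ψ r) (hs : HasCompactSupport ψ) :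
    0 < ∫ y in Ioi (0 : ℝ), y ^ k * ψ y := by
  have hcf : Continuous fun y : ℝ => y ^ k * ψ y := (continuous_id.pow k).mul hc
  have hint : Integrable fun y : ℝ => y ^ k * ψ y :=
    hcf.integrable_of_hasCompactSupport hs.mul_left
  rw [setIntegral_pos_iff_support_of_nonneg_ae]
  · obtain ⟨r, hr0, hr⟩ := hp
    have ho : IsOpen (Function.support (fun y : ℝ => y ^ k * ψ y) ∩ Ioi (0 : ℝ)) :=
      hcf.isOpen_support.inter isOpen_Ioi
    refine ho.measure_pos volume ⟨r, ?_, hr0⟩
    rw [Function.mem_support]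
    positivity
  · rw [Filter.EventuallyLE, ae_restrict_iff' measurableSet_Ioi]
    refine Eventually.of_forall fun y hy => ?_
    have hy0 : (0 : ℝ) < y := hy
    exact mul_nonneg (pow_nonneg hy0.le k) (h0 y)
  · exact hint.integrableOn

theorem radial (k : ℕ) (ψ : ℝ → ℝ) :
    ∫ r : Ioi (0 : ℝ), ψ (r : ℝ) ∂(Measure.volumeIoiPow k) =
      ∫ y in Ioi (0 : ℝ), y ^ k * ψ y := by
  simp only [Measure.volumeIoiPow, ENNReal.ofReal]
  rw [integral_withDensity_eq_integral_smul,
    integral_subtype_comap measurableSet_Ioi fun a : ℝ => Real.toNNReal (a ^ k) • ψ a]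
  · refine setIntegral_congr_fun measurableSet_Ioi fun x hx => ?_
    rw [NNReal.smul_def, Real.coe_toNNReal _ (pow_nonneg (le_of_lt hx) _), smul_eq_mul]
  · exact (measurable_subtype_coe.pow_const _).real_toNNReal

end XPol

/-- Item Pol. -/
theorem hs_Pol : StPol := by
  intro ι _ _ ψ hc h0 hp hs
  refine ⟨∫ y in Ioi (0 : ℝ), y ^ (Module.finrank ℝ (E ι) - 1) * ψ y,
    XPol.radial_pos _ ψ hc h0 hp hs, ?_⟩
  intro G _
  unfold sInt
  calc ∫ x : E ι, ψ ‖x‖ * G (‖x‖⁻¹ • x)
      = ∫ x : ({(0 : E ι)}ᶜ : Set (E ι)), ψ ‖(x : E ι)‖ * G (‖(x : E ι)‖⁻¹ • (x : E ι))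
          ∂((volume : Measure (E ι)).comap (↑)) := by
        rw [integral_subtype_comap (measurableSet_singleton _).compl
          fun x : E ι => ψ ‖x‖ * G (‖x‖⁻¹ • x), restrict_compl_singleton]
    _ = ∫ z, G (z.1 : E ι) * ψ (z.2 : ℝ)
          ∂((volume : Measure (E ι)).toSphere.prod
            (Measure.volumeIoiPow (Module.finrank ℝ (E ι) - 1))) := by
        have := (volume : Measure (E ι)).measurePreserving_homeomorphUnitSphereProd.integral_comp
          (Homeomorph.measurableEmbedding _)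
          (fun z : Metric.sphere (0 : E ι) 1 × Ioi (0 : ℝ) => G (z.1 : E ι) * ψ (z.2 : ℝ))
        rw [← this]
        refine integral_congr_ae (Eventually.of_forall fun x => ?_)
        simp only [homeomorphUnitSphereProd_apply_fst_coe, homeomorphUnitSphereProd_apply_snd_coe]
        exact mul_comm _ _
    _ = (∫ x : Metric.sphere (0 : E ι) 1, G x ∂((volume : Measure (E ι)).toSphere)) *
          ∫ r : Ioi (0 : ℝ), ψ (r : ℝ)
            ∂(Measure.volumeIoiPow (Module.finrank ℝ (E ι) - 1)) :=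
        integral_prod_mul (fun x : Metric.sphere (0 : E ι) 1 => G (x : E ι))
          (fun r : Ioi (0 : ℝ) => ψ (r : ℝ))
    _ = _ := by
        rw [XPol.radial, mul_comm]

end Pool.Agent.Work.MP_02f065_gt.HS
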