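import Pool.Agent.Work.MP_02f065_gt.HS.StmtsK

/-!
MP_02f065_gt, block HS, item Pot: the potential.
-/

set_option autoImplicit false

open MeasureTheory Set Filter Topology

noncomputable section

namespace Pool.Agent.Work.MP_02f065_gt.HS

open Pool.Agent.Work.MP_02f065_gt.RPn Pool.Agent.Work.MP_02f065_gt.Cvx
open Pool.Agent.Work.MP_02f065_gt.FR

namespace XPot

variable {ι : Type} [Fintype ι]

theorem cda {φ : E ι → ℝ} (hφ : ContDiffOn ℝ 3 φ {0}ᶜ) {x : E ι} (hx : x ≠ 0) :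
    ContDiffAt ℝ 3 φ x :=
  hφ.contDiffAt (isOpen_compl_singleton.mem_nhds hx)

theorem cda1 {φ : E ι → ℝ} (hφ : ContDiffOn ℝ 3 φ {0}ᶜ) {x : E ι} (hx : x ≠ 0) :
    ContDiffAt ℝ 2 (fderiv ℝ φ) x :=
  (cda hφ hx).fderiv_right (by norm_num)

theorem cda2 {φ : E ι → ℝ} (hφ : ContDiffOn ℝ 3 φ {0}ᶜ) {x : E ι} (hx : x ≠ 0) :
    ContDiffAt ℝ 1 (fderiv ℝ (fderiv ℝ φ)) x :=
  (cda1 hφ hx).fderiv_right (by norm_num)

theorem hd0 {φ : E ι → ℝ} (hφ : ContDiffOn ℝ 3 φ {0}ᶜ) {x : E ι} (hx : x ≠ 0) :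
    HasFDerivAt φ (fderiv ℝ φ x) x :=
  ((cda hφ hx).differentiableAt (by norm_num)).hasFDerivAt

theorem hd1 {φ : E ι → ℝ} (hφ : ContDiffOn ℝ 3 φ {0}ᶜ) {x : E ι} (hx : x ≠ 0) :
    HasFDerivAt (fderiv ℝ φ) (fderiv ℝ (fderiv ℝ φ) x) x :=
  ((cda1 hφ hx).differentiableAt (by norm_num)).hasFDerivAt

theorem hsymm {φ : E ι → ℝ} (hφ : ContDiffOn ℝ 3 φ {0}ᶜ) {x : E ι} (hx : x ≠ 0) (v w : E ι) :
    hess φ x v w = hess φ x w v :=
  ((cda hφ hx).isSymmSndFDerivAt
    (le_trans (by simp) (show (2 : WithTop ℕ∞) ≤ 3 by norm_num))).eq v w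

/-- Invariance of the first derivative. -/
theorem inv1 {φ : E ι → ℝ} (hφ : ContDiffOn ℝ 3 φ {0}ᶜ) (L : E ι →L[ℝ] E ι)
    (hL : ∀ x, x ≠ 0 → L x ≠ 0) (hinv : ∀ x, φ (L x) = φ x) {x : E ι} (hx : x ≠ 0) :
    fderiv ℝ φ x = (fderiv ℝ φ (L x)).comp L := by
  have h1 : HasFDerivAt (fun y => φ (L y)) ((fderiv ℝ φ (L x)).comp L) x :=
    (hd0 hφ (hL x hx)).comp x L.hasFDerivAt
  have h2 : (fun y => φ (L y)) = φ := funext hinv
  rw [h2] at h1
  exact h1.fderiv

/-- Invariance of the second derivative. -/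
theorem inv2 {φ : E ι → ℝ} (hφ : ContDiffOn ℝ 3 φ {0}ᶜ) (L : E ι →L[ℝ] E ι)
    (hL : ∀ x, x ≠ 0 → L x ≠ 0) (hinv : ∀ x, φ (L x) = φ x) {x : E ι} (hx : x ≠ 0) (v w : E ι) :
    hess φ x v w = hess φ (L x) (L v) (L w) := by
  have h1 : HasFDerivAt (fun y => fderiv ℝ φ (L y) (L w))
      (((ContinuousLinearMap.apply ℝ ℝ (L w)).comp (fderiv ℝ (fderiv ℝ φ) (L x))).comp L) x := by
    have h := ((ContinuousLinearMap.apply ℝ ℝ (L w)).hasFDerivAt
      (x := fderiv ℝ φ (L x))).comp x ((hd1 hφ (hL x hx)).comp x L.hasFDerivAt)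
    exact h
  have h2 : HasFDerivAt (fun y => fderiv ℝ φ y w)
      ((ContinuousLinearMap.apply ℝ ℝ w).comp (fderiv ℝ (fderiv ℝ φ) x)) x :=
    ((ContinuousLinearMap.apply ℝ ℝ w).hasFDerivAt (x := fderiv ℝ φ x)).comp x (hd1 hφ hx)
  have h3 : (fun y => fderiv ℝ φ y w) =ᶠ[𝓝 x] fun y => fderiv ℝ φ (L y) (L w) := by
    filter_upwards [isOpen_compl_singleton.mem_nhds (show x ∈ ({0} : Set (E ι))ᶜ from hx)]
      with y hy
    rw [inv1 hφ L hL hinv (show y ≠ 0 from hy)]
    rfl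
  have h4 := (h1.congr_of_eventuallyEq h3).unique h2
  have h5 := congrArg (fun A : E ι →L[ℝ] ℝ => A v) h4
  exact h5.symm

theorem hess_smul_left (φ : E ι → ℝ) (x v w : E ι) (r : ℝ) :
    hess φ x (r • v) w = r * hess φ x v w := by
  unfold hess
  rw [map_smul]
  rfl

theorem hess_smul_right (φ : E ι → ℝ) (x v w : E ι) (r : ℝ) :
    hess φ x v (r • w) = r * hess φ x v w := by
  unfold hess
  rw [map_smul]
  rfl

theorem hess_sub_left (φ : E ι → ℝ) (x v v' w : E ι) :
    hess φ x (v - v') w = hess φ x v w - hess φ x v' w := by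
  unfold hess
  rw [map_sub]
  rfl

theorem hess_sub_right (φ : E ι → ℝ) (x v w w' : E ι) :
    hess φ x v (w - w') = hess φ x v w - hess φ x v w' := by
  unfold hess
  rw [map_sub]

theorem hess_neg_left (φ : E ι → ℝ) (x v w : E ι) :
    hess φ x (-v) w = -hess φ x v w := by
  unfold hess
  rw [map_neg]
  rfl

theorem hess_neg_right (φ : E ι → ℝ) (x v w : E ι) :
    hess φ x v (-w) = -hess φ x v w := by
  unfold hess
  rw [map_neg]

end XPot

open XPot

theorem hs_Pot (hAlg : StAlg) : StPot := by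
  intro ι _ J a φ hJ hP
  obtain ⟨hJc, -, -, -, hJJ, hRl, -, hR0, -, hRn, hRd, -⟩ := hAlg ι J hJ
  have hφ := hP.smooth
  have hJJ1 : ∀ x, J (J x) = -x := fun x => (hJJ x).1
  -- `J` as a continuous linear map
  obtain ⟨JL, hJL⟩ : ∃ JL : E ι →L[ℝ] E ι, ∀ x, JL x = J x :=
    ⟨⟨hJ.linear.mk' J, hJc⟩, fun x => rfl⟩
  have hJsub : ∀ v w, J (v - w) = J v - J w := fun v w => by
    rw [← hJL, ← hJL, ← hJL, map_sub]
  have hJsmul : ∀ (r : ℝ) v, J (r • v) = r • J v := fun r v => by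
    rw [← hJL, ← hJL, map_smul]
  -- the first derivative in the directions `x`, `J x`
  have d1 : ∀ x : E ι, x ≠ 0 → fderiv ℝ φ x x = 0 := by
    intro x hx
    have h1 : HasDerivAt (fun r : ℝ => r • x) x 1 := by
      have h := (hasDerivAt_id (1 : ℝ)).smul_const x
      simpa using h
    have h2 : HasDerivAt (fun r : ℝ => φ (r • x)) (fderiv ℝ φ x x) 1 := by
      have h := hd0 hφ hx
      rw [← one_smul ℝ x] at h
      have h3 := HasFDerivAt.comp_hasDerivAt (1 : ℝ) h h1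
      rw [one_smul] at h3
      exact h3
    have h3 : (fun r : ℝ => φ (r • x)) =ᶠ[𝓝 1] fun _ => φ x := by
      filter_upwards [isOpen_compl_singleton.mem_nhds
        (show (1 : ℝ) ∈ ({0} : Set ℝ)ᶜ from one_ne_zero)] with r hr
      exact hP.hom r x hr
    exact (h2.congr_of_eventuallyEq h3.symm).unique (hasDerivAt_const 1 (φ x))
  have d2 : ∀ x : E ι, x ≠ 0 → fderiv ℝ φ x (J x) = 0 := by
    intro x hx
    have h1 := hRd 0 x
    rw [(hR0 x).1] at h1
    have h2 : HasDerivAt (fun t : ℝ => φ (rot J t x)) (fderiv ℝ φ x (J x)) 0 := by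
      have h := hd0 hφ hx
      rw [← (hR0 x).1] at h
      have h3 := HasFDerivAt.comp_hasDerivAt (0 : ℝ) h h1
      rw [(hR0 x).1] at h3
      exact h3
    have h3 : (fun t : ℝ => φ (rot J t x)) = fun _ => φ x := funext fun t => hP.rot t x
    rw [h3] at h2
    exact h2.unique (hasDerivAt_const 0 (φ x))
  -- the second derivative in these directions
  have e1 : ∀ x w : E ι, x ≠ 0 → hess φ x w x = -fderiv ℝ φ x w := by
    intro x w hx
    have h1 : HasFDerivAt (fun y => fderiv ℝ φ y y)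
        ((fderiv ℝ φ x).comp (ContinuousLinearMap.id ℝ (E ι)) +
          (fderiv ℝ (fderiv ℝ φ) x).flip x) x :=
      (hd1 hφ hx).clm_apply (hasFDerivAt_id x)
    have h2 : (fun y => fderiv ℝ φ y y) =ᶠ[𝓝 x] fun _ => (0 : ℝ) := by
      filter_upwards [isOpen_compl_singleton.mem_nhds (show x ∈ ({0} : Set (E ι))ᶜ from hx)]
        with y hy
      exact d1 y hy
    have h3 := (h1.congr_of_eventuallyEq h2.symm).unique (hasFDerivAt_const (0 : ℝ) x)
    have h4 := congrArg (fun A : E ι →L[ℝ] ℝ => A w) h3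
    have h5 : fderiv ℝ φ x w + hess φ x w x = 0 := h4
    linarith
  have e2 : ∀ x w : E ι, x ≠ 0 → hess φ x w (J x) = -fderiv ℝ φ x (J w) := by
    intro x w hx
    have h1 : HasFDerivAt (fun y => fderiv ℝ φ y (JL y))
        ((fderiv ℝ φ x).comp JL + (fderiv ℝ (fderiv ℝ φ) x).flip (JL x)) x :=
      (hd1 hφ hx).clm_apply JL.hasFDerivAt
    have h2 : (fun y => fderiv ℝ φ y (JL y)) =ᶠ[𝓝 x] fun _ => (0 : ℝ) := by
      filter_upwards [isOpen_compl_singleton.mem_nhds (show x ∈ ({0} : Set (E ι))ᶜ from hx)]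
        with y hy
      rw [hJL]
      exact d2 y hy
    have h3 := (h1.congr_of_eventuallyEq h2.symm).unique (hasFDerivAt_const (0 : ℝ) x)
    have h4 := congrArg (fun A : E ι →L[ℝ] ℝ => A w) h3
    have h5 : fderiv ℝ φ x (JL w) + hess φ x w (JL x) = 0 := h4
    rw [hJL, hJL] at h5
    linarith
  -- algebra of the Levi form
  have l1 : ∀ x v w : E ι, lev J φ x v w = lev J φ x w v := by
    intro x v w
    unfold lev
    ring
  have l2 : ∀ x v w : E ι, lev J φ x (J v) (J w) = lev J φ x v w := by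
    intro x v w
    unfold lev
    rw [hJJ1, hJJ1, hess_neg_left, hess_neg_right, hess_neg_left, hess_neg_right]
    ring
  have l3 : ∀ x w : E ι, x ≠ 0 → lev J φ x x w = 0 := by
    intro x w hx
    unfold lev
    rw [hsymm hφ hx x w, hsymm hφ hx (J x) (J w), e1 x w hx, e2 x (J w) hx, hJJ1, map_neg]
    ring
  have l4 : ∀ x w : E ι, x ≠ 0 → lev J φ x (J x) w = 0 := by
    intro x w hx
    unfold lev
    rw [hsymm hφ hx (J x) w, hsymm hφ hx (J (J x)) (J w), hJJ1, hess_neg_right, e1 x (J w) hx,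
      e2 x w hx]
    ring
  have lsub : ∀ x v w : E ι, ∀ y z : E ι, ∀ p q : ℝ,
      lev J φ x (v - p • y - q • z) w =
        lev J φ x v w - p * lev J φ x y w - q * lev J φ x z w := by
    intro x v w y z p q
    unfold lev
    rw [hJsub, hJsub, hJsmul, hJsmul]
    simp only [hess_sub_left, hess_sub_right, hess_smul_left, hess_smul_right]
    ring
  have lhor : ∀ x v w : E ι, x ≠ 0 → lev J φ x (hor J x v) w = lev J φ x v w := by
    intro x v w hx
    unfold hor
    rw [lsub, l3 x w hx, l4 x w hx]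
    ring
  refine ⟨fun x hx => ⟨d1 x hx, d2 x hx⟩, fun x v w hx => hsymm hφ hx v w,
    fun x v w => ⟨l1 x v w, l2 x v w⟩, fun x w hx => ⟨l3 x w hx, l4 x w hx⟩, ?_, ?_, ?_, ?_⟩
  · -- homogeneity
    intro x v w r hx hr
    have hL : ∀ y : E ι, (r • ContinuousLinearMap.id ℝ (E ι)) y = r • y := fun y => rfl
    have key : ∀ v w : E ι, hess φ (r • x) v w = r⁻¹ ^ 2 * hess φ x v w := by
      intro v w
      have h := inv2 hφ (r • ContinuousLinearMap.id ℝ (E ι))
        (fun y hy => by rw [hL]; exact smul_ne_zero hr hy)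
        (fun y => by rw [hL]; exact hP.hom r y hr) hx v w
      rw [hL, hL, hL, hess_smul_left, hess_smul_right] at h
      rw [h]
      field_simp
    unfold lev
    rw [key, key, key, key]
    ring
  · -- rotations
    intro x v w t hx
    obtain ⟨RL, hRL⟩ : ∃ RL : E ι →L[ℝ] E ι, ∀ y, RL y = rot J t y :=
      ⟨Real.cos t • ContinuousLinearMap.id ℝ (E ι) + Real.sin t • JL, fun y => by
        unfold rot
        rw [← hJL]
        rfl⟩
    have key : ∀ v w : E ι, hess φ (rot J t x) (rot J t v) (rot J t w) = hess φ x v w := by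
      intro v w
      have h := inv2 hφ RL
        (fun y hy => by
          rw [hRL, ← norm_ne_zero_iff, (hRn t y).1]
          exact norm_ne_zero_iff.2 hy)
        (fun y => by rw [hRL]; exact hP.rot t y) hx v w
      rw [hRL, hRL, hRL] at h
      exact h.symm
    unfold lev
    rw [(hRn t v).2, (hRn t w).2, key, key, key, key]
  · -- smoothness
    intro v w
    have hh : ∀ v w : E ι, ContDiffOn ℝ 1 (fun x => hess φ x v w) {0}ᶜ := by
      intro v w x hx
      have h1 := cda2 hφ (show x ≠ 0 from hx)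
      exact ((h1.clm_apply contDiffAt_const).clm_apply contDiffAt_const).contDiffWithinAt
    have h := ((((hh v w).add (hh w v)).add (hh (J v) (J w))).add
      (hh (J w) (J v))).div_const 4
    exact h
  · -- horizontal parts
    intro x v w hx
    rw [lhor x v _ hx, l1 x v (hor J x w), lhor x w v hx, l1 x w v]

end Pool.Agent.Work.MP_02f065_gt.HS
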