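import Pool.Agent.Work.MP_02f065_gt.HS.Stmts
import Pool.Agent.Work.MP_02f065_gt.FR.I_STR

/-!
MP_02f065_gt, block HS, item Pt: pointwise facts
-/

set_option autoImplicit false

open MeasureTheory Set Filter Topology

noncomputable section

namespace Pool.Agent.Work.MP_02f065_gt.HS

open Pool.Agent.Work.MP_02f065_gt.RPn Pool.Agent.Work.MP_02f065_gt.Cvx
open Pool.Agent.Work.MP_02f065_gt.FR

namespace XPt

variable {ι : Type} [Fintype ι]

lemma add_right {g : RPn.Field ι} (hg : IsMetric g) (x v w w' : E ι) :
    g x v (w + w') = g x v w + g x v w' := by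
  rw [hg.symm x v (w + w'), hg.add, hg.symm x w v, hg.symm x w' v]

lemma smul_right {g : RPn.Field ι} (hg : IsMetric g) (x v w : E ι) (r : ℝ) :
    g x v (r • w) = r * g x v w := by
  rw [hg.symm x v (r • w), hg.smul, hg.symm x w v]

lemma polar {g : RPn.Field ι} (hg : IsMetric g) (x v w : E ι) :
    g x v w = (g x (v + w) (v + w) - g x v v - g x w w) / 2 := by
  rw [hg.add, add_right hg, add_right hg, hg.symm x w v]
  ring

/-- joint continuity -/
lemma cont3 {g : RPn.Field ι} (hg : IsMetric g) {X : Type} [TopologicalSpace X] {s : Set X}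
    {a b c : X → E ι} (ha : ContinuousOn a s) (hb : ContinuousOn b s) (hc : ContinuousOn c s)
    (hs : ∀ z ∈ s, ‖a z‖ = 1) : ContinuousOn (fun z => g (a z) (b z) (c z)) s := by
  have h0 : ∀ d : X → E ι, ContinuousOn d s → ContinuousOn (fun z => g (a z) (d z) (d z)) s := by
    intro d hd
    have h1 : ContinuousOn (fun z => (a z, d z)) s := ha.prodMk hd
    exact (XSTR.cont hg).comp h1 fun z hz => hs z hz
  have he : (fun z => g (a z) (b z) (c z)) = fun z =>
      (g (a z) (b z + c z) (b z + c z) - g (a z) (b z) (b z) - g (a z) (c z) (c z)) / 2 := by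
    funext z
    exact polar hg _ _ _
  rw [he]
  exact (((h0 _ (hb.add hc)).sub (h0 _ hb)).sub (h0 _ hc)).div_const 2

end XPt

open XPt in
/-- Item Pt. -/
theorem hs_Pt (hAlg : StAlg) : StPt := by
  intro ι _ J g hJ hg
  have hJc : Continuous J := (hAlg ι J hJ).1
  have hpos : ∀ x : E ι, ‖x‖ = 1 → 0 < g x (J x) (J x) := by
    intro x hx
    refine hg.pos x (J x) hx (hJ.tangent x) ?_
    intro h0
    have h1 := hJ.norm x
    rw [h0, norm_zero, hx] at h1
    exact zero_ne_one h1
  have hcq : ContinuousOn (fun z : E ι × E ι => quo g J z.1 z.2) {z | ‖z.1‖ = 1} := by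
    unfold quo
    refine ContinuousOn.sub ?_ (ContinuousOn.div (ContinuousOn.pow ?_ 2) ?_ ?_)
    · exact cont3 hg continuous_fst.continuousOn continuous_snd.continuousOn
        continuous_snd.continuousOn fun z hz => hz
    · exact cont3 hg continuous_fst.continuousOn continuous_snd.continuousOn
        (hJc.comp continuous_fst).continuousOn fun z hz => hz
    · exact cont3 hg continuous_fst.continuousOn (hJc.comp continuous_fst).continuousOn
        (hJc.comp continuous_fst).continuousOn fun z hz => hz
    · intro z hz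
      exact (hpos z.1 hz).ne'
  have hct : ContinuousOn (fun z : E ι × E ι => theta g J z.1 z.2) {z | ‖z.1‖ = 1} := by
    unfold theta
    refine ContinuousOn.div ?_ ?_ ?_
    · exact cont3 hg continuous_fst.continuousOn continuous_snd.continuousOn
        (hJc.comp continuous_fst).continuousOn fun z hz => hz
    · exact cont3 hg continuous_fst.continuousOn (hJc.comp continuous_fst).continuousOn
        (hJc.comp continuous_fst).continuousOn fun z hz => hz
    · intro z hz
      exact (hpos z.1 hz).ne'
  have hcJ : ContinuousOn (fun x => g x (J x) (J x)) (Metric.sphere (0 : E ι) 1) :=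
    cont3 hg continuous_id.continuousOn hJc.continuousOn hJc.continuousOn fun z hz => by
      simpa using hz
  have hsm : ∀ (x v : E ι) (r : ℝ), theta g J x (r • v) = r * theta g J x v := by
    intro x v r
    unfold theta
    rw [hg.smul, mul_div_assoc]
  refine ⟨hpos, ?_, ?_, ?_, hcq, hct, hcJ, ?_⟩
  · intro x v hx
    have h1 := (hpos x hx).ne'
    unfold theta quo
    field_simp
    ring
  · intro x v hx hv
    have h1 := hpos x hx
    have h2 := XSTR.cs hg hx hv (hJ.tangent x)
    unfold quo
    rw [sub_nonneg, div_le_iff₀ h1]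
    exact h2
  · intro x v r hx
    have h1 := (hpos x hx).ne'
    refine ⟨?_, ?_, ?_, hsm x v r⟩
    · unfold quo
      rw [hg.add, add_right hg, add_right hg, hg.smul, hg.smul, smul_right hg, smul_right hg,
        hg.add, hg.smul, hg.symm x (J x) v]
      field_simp
      ring
    · unfold theta
      rw [hg.add, hg.smul]
      field_simp
    · unfold quo
      rw [hg.smul, hg.smul, smul_right hg]
      field_simp
  · obtain ⟨C1, hC1⟩ := (isCompact_sphere (0 : E ι) 1).exists_bound_of_continuousOn hcJ.sqrt
    have hK : IsCompact (Metric.sphere (0 : E ι) 1 ×ˢ Metric.closedBall (0 : E ι) 1) :=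
      (isCompact_sphere _ _).prod (isCompact_closedBall _ _)
    obtain ⟨C2, hC2⟩ := hK.exists_bound_of_continuousOn
      (hct.mono fun z hz => by simpa using (Set.mem_prod.1 hz).1)
    refine ⟨max (max C1 C2) 1, by positivity, ?_, ?_⟩
    · intro x hx
      have h1 := hC1 x (by simpa using hx)
      rw [Real.norm_eq_abs] at h1
      exact (le_abs_self _).trans (h1.trans ((le_max_left _ _).trans (le_max_left _ _)))
    · intro x v hx
      have hC : C2 ≤ max (max C1 C2) 1 := (le_max_right _ _).trans (le_max_left _ _)
      by_cases hv : v = 0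
      · subst hv
        have h1 := hsm x 0 0
        simp only [zero_smul, zero_mul] at h1
        rw [h1]
        simp
      · have hv0 : 0 < ‖v‖ := norm_pos_iff.2 hv
        have h1 := hC2 (x, ‖v‖⁻¹ • v) (Set.mem_prod.2 ⟨by simpa using hx, by
          rw [mem_closedBall_zero_iff, norm_smul, norm_inv, norm_norm,
            inv_mul_cancel₀ hv0.ne']⟩)
        simp only [hsm, Real.norm_eq_abs, abs_mul, abs_inv, abs_norm] at h1
        calc |theta g J x v| = ‖v‖⁻¹ * |theta g J x v| * ‖v‖ := by
              field_simp
          _ ≤ C2 * ‖v‖ := mul_le_mul_of_nonneg_right h1 hv0.le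
          _ ≤ _ := mul_le_mul_of_nonneg_right hC hv0.le

end Pool.Agent.Work.MP_02f065_gt.HS
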