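import Pool.Agent.Work.MP_02f065_gt.HS.Stmts

/-!
MP_02f065_gt, block HS, item Qi: the density is invariant under the rotations.
-/

open MeasureTheory Set Filter Topology

noncomputable section

namespace Pool.Agent.Work.MP_02f065_gt.HS

open Pool.Agent.Work.MP_02f065_gt.RPn Pool.Agent.Work.MP_02f065_gt.Cvx
open Pool.Agent.Work.MP_02f065_gt.FR

namespace XQi

variable {ι : Type} [Fintype ι]

/-- The bilinear form with the matrix `qmat`. -/
def Bf (g : RPn.Field ι) (J : E ι → E ι) (x v w : E ι) : ℝ :=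
  inner ℝ x v * inner ℝ x w + inner ℝ (J x) v * inner ℝ (J x) w +
    quoB g J x (tang x v) (tang x w)

theorem inner_ei [DecidableEq ι] (x : E ι) (k : ι) : (inner ℝ x (ei k) : ℝ) = x k := by
  unfold ei
  rw [EuclideanSpace.inner_single_right]
  simp

theorem qmat_eq [DecidableEq ι] (g : RPn.Field ι) (J : E ι → E ι) (x : E ι) (i j : ι) :
    qmat g J x i j = Bf g J x (ei i) (ei j) := by
  unfold qmat Bf
  rw [inner_ei, inner_ei, inner_ei, inner_ei]

theorem tang_add (x v w : E ι) : tang x (v + w) = tang x v + tang x w := by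
  unfold tang
  rw [inner_add_right, add_smul]
  abel

theorem tang_smul (x v : E ι) (r : ℝ) : tang x (r • v) = r • tang x v := by
  unfold tang
  rw [inner_smul_right, smul_sub, mul_smul]

theorem quoB_symm {g : RPn.Field ι} (hg : IsMetric g) (J : E ι → E ι) (x v w : E ι) :
    quoB g J x v w = quoB g J x w v := by
  unfold quoB
  rw [hg.symm x v w, mul_comm (g x v (J x))]

theorem quoB_add {g : RPn.Field ι} (hg : IsMetric g) (J : E ι → E ι) (x v v' w : E ι) :
    quoB g J x (v + v') w = quoB g J x v w + quoB g J x v' w := by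
  unfold quoB
  rw [hg.add, hg.add]
  ring

theorem quoB_smul {g : RPn.Field ι} (hg : IsMetric g) (J : E ι → E ι) (x v w : E ι) (r : ℝ) :
    quoB g J x (r • v) w = r * quoB g J x v w := by
  unfold quoB
  rw [hg.smul, hg.smul]
  ring

theorem Bf_symm {g : RPn.Field ι} (hg : IsMetric g) (J : E ι → E ι) (x v w : E ι) :
    Bf g J x v w = Bf g J x w v := by
  unfold Bf
  rw [quoB_symm hg]
  ring

theorem Bf_lin {g : RPn.Field ι} (hg : IsMetric g) (J : E ι → E ι) (x w : E ι) :
    IsLinearMap ℝ (fun v => Bf g J x v w) := by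
  constructor
  · intro v v'
    unfold Bf
    rw [tang_add, quoB_add hg, inner_add_right, inner_add_right]
    ring
  · intro r v
    unfold Bf
    rw [tang_smul, quoB_smul hg, inner_smul_right, inner_smul_right, smul_eq_mul]
    ring

theorem expand [DecidableEq ι] (v : E ι) : v = ∑ k, v k • ei k := by
  have h := (EuclideanSpace.basisFun ι ℝ).sum_repr v
  simp only [EuclideanSpace.basisFun_repr, EuclideanSpace.basisFun_apply] at h
  exact h.symm

theorem Bf_sum [DecidableEq ι] {g : RPn.Field ι} (hg : IsMetric g) (J : E ι → E ι)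
    (x v w : E ι) : Bf g J x v w = ∑ k, v k * Bf g J x (ei k) w := by
  have h := map_sum (IsLinearMap.mk' _ (Bf_lin hg J x w)) (fun k => v k • ei k) Finset.univ
  simp only [IsLinearMap.mk'_apply, ← expand] at h
  rw [h]
  refine Finset.sum_congr rfl fun k _ => ?_
  exact (Bf_lin hg J x w).map_smul (v k) (ei k)

theorem Bf_sum2 [DecidableEq ι] {g : RPn.Field ι} (hg : IsMetric g) (J : E ι → E ι)
    (x v w : E ι) : Bf g J x v w = ∑ k, ∑ l, v k * (w l * Bf g J x (ei k) (ei l)) := by
  rw [Bf_sum hg]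
  refine Finset.sum_congr rfl fun k _ => ?_
  rw [Bf_symm hg, Bf_sum hg, Finset.mul_sum]
  refine Finset.sum_congr rfl fun l _ => ?_
  rw [Bf_symm hg J x (ei l) (ei k)]

/-- polarisation -/
theorem polar {g : RPn.Field ι} (hg : IsMetric g) (J : E ι → E ι) (x v w : E ι) :
    quoB g J x v w = (quo g J x (v + w) - quo g J x v - quo g J x w) / 2 := by
  unfold quoB quo
  have h1 : g x (v + w) (v + w) = g x v v + 2 * g x v w + g x w w := by
    rw [hg.add, hg.symm x v (v + w), hg.symm x w (v + w), hg.add, hg.add, hg.symm x w v]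
    ring
  rw [h1, hg.add]
  ring

theorem Bf_inv (hAlg : StAlg) {g : RPn.Field ι} {J : E ι → E ι} (hJ : IsCpx J)
    (hg : IsSubmersion g J) (x : E ι) (t : ℝ) (hx : ‖x‖ = 1) (v w : E ι) :
    Bf g J (rot J t x) (rot J t v) (rot J t w) = Bf g J x v w := by
  obtain ⟨-, -, -, -, -, hlin, -, -, hin, hJR, -, -⟩ := hAlg ι J hJ
  have ht : ∀ v : E ι, tang (rot J t x) (rot J t v) = rot J t (tang x v) := by
    intro v
    unfold tang
    rw [hin, (hlin t).map_sub, (hlin t).map_smul]
  have hperp : ∀ v : E ι, inner ℝ x (tang x v) = 0 := by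
    intro v
    unfold tang
    rw [inner_sub_right, inner_smul_right, real_inner_self_eq_norm_sq, hx]
    ring
  have hq : ∀ v w : E ι, inner ℝ x v = 0 → inner ℝ x w = 0 →
      quoB g J (rot J t x) (rot J t v) (rot J t w) = quoB g J x v w := by
    intro v w hv hw
    rw [polar hg.metric, polar hg.metric, ← (hlin t).map_add, hg.inv x (v + w) t hx
      (by rw [inner_add_right, hv, hw, add_zero]), hg.inv x v t hx hv, hg.inv x w t hx hw]
  unfold Bf
  rw [ht, ht, hq _ _ (hperp v) (hperp w), hin, hin, (hJR t x).2, hin, hin]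

end XQi

open XQi in
/-- **Qi.** -/
theorem hs_Qi (hAlg : StAlg) (hQm : StQm) : StQi := by
  intro ι _ _ J g hJ hg x t hx
  obtain ⟨-, -, -, -, -, hlin, -, -, hin, hJR, -, -⟩ := hAlg ι J hJ
  have hx' : ‖rot J t x‖ = 1 := by rw [(hJR t x).1, hx]
  rw [(hQm ι J g (rot J t x) hJ hg.metric hx').1, (hQm ι J g x hJ hg.metric hx).1]
  congr 1
  let O : Matrix ι ι ℝ := Matrix.of fun k i => (rot J t (ei i)) k
  have h1 : Matrix.of (qmat g J x) = O.transpose * Matrix.of (qmat g J (rot J t x)) * O := by
    ext i j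
    rw [Matrix.of_apply, qmat_eq, ← Bf_inv hAlg hJ hg x t hx (ei i) (ei j), Bf_sum2 hg.metric,
      Matrix.mul_apply, Finset.sum_comm]
    refine Finset.sum_congr rfl fun l _ => ?_
    rw [Matrix.mul_apply, Finset.sum_mul]
    refine Finset.sum_congr rfl fun k _ => ?_
    rw [Matrix.transpose_apply, Matrix.of_apply, qmat_eq]
    show _ = (rot J t (ei i)) k * _ * (rot J t (ei j)) l
    ring
  have h2 : O.transpose * O = 1 := by
    ext i j
    rw [Matrix.mul_apply, Matrix.one_apply]
    have h3 : (inner ℝ (rot J t (ei j)) (rot J t (ei i)) : ℝ) =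
        ∑ k, (rot J t (ei i)) k * (rot J t (ei j)) k := by
      rw [PiLp.inner_apply]
      refine Finset.sum_congr rfl fun k _ => ?_
      simp
    have h4 : ∑ k, O.transpose i k * O k j = ∑ k, (rot J t (ei i)) k * (rot J t (ei j)) k := rfl
    rw [h4, ← h3, hin, inner_ei]
    unfold ei
    by_cases hij : i = j
    · subst hij; simp
    · rw [if_neg hij]
      simp [hij]
  have h3 : O.transpose.det * O.det = 1 := by
    rw [← Matrix.det_mul, h2, Matrix.det_one]
  rw [h1, Matrix.det_mul, Matrix.det_mul]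
  calc (Matrix.of (qmat g J (rot J t x))).det
      = (O.transpose.det * O.det) * (Matrix.of (qmat g J (rot J t x))).det := by
        rw [h3, one_mul]
    _ = _ := by ring

end Pool.Agent.Work.MP_02f065_gt.HS
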