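import Pool.Agent.Work.MP_02f065_gt.HS.Stmts

/-!
MP_02f065_gt, block HS, item Qm: the density of the quotient metric is the square root of the
determinant of `qmat`.
-/

open MeasureTheory Set

noncomputable section

namespace Pool.Agent.Work.MP_02f065_gt.HS

open Pool.Agent.Work.MP_02f065_gt.RPn Pool.Agent.Work.MP_02f065_gt.FR

namespace XQm

open Matrix

variable {ι : Type} [Fintype ι]

/-- linear algebra -/
theorem det_rel [DecidableEq ι] (G : Matrix ι ι ℝ) (hG : Gᵀ = G) (a b : ι → ℝ) (s : ℝ)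
    (ha : a ⬝ᵥ a = 1) (hb : G *ᵥ a = b) (hs : a ⬝ᵥ b = s) (hs0 : s ≠ 0) :
    G.det = s * (G - s⁻¹ • vecMulVec b b + vecMulVec a a).det := by
  have hdet1 : ∀ u v : ι → ℝ, (1 + vecMulVec u v).det = 1 + v ⬝ᵥ u := by
    intro u v
    rw [Matrix.vecMulVec_eq Unit, Matrix.det_one_add_replicateCol_mul_replicateRow]
  have hvT : ∀ u v : ι → ℝ, (vecMulVec u v)ᵀ = vecMulVec v u := by
    intro u v
    ext i j
    rw [Matrix.transpose_apply, vecMulVec_apply, vecMulVec_apply, mul_comm]
  have hvv : ∀ u v z : ι → ℝ, vecMulVec u v *ᵥ z = (v ⬝ᵥ z) • u := by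
    intro u v z
    rw [Matrix.vecMulVec_mulVec, op_smul_eq_smul]
  have hba : b ⬝ᵥ a = s := by rw [dotProduct_comm, hs]
  obtain ⟨Q, hQ⟩ : ∃ Q, Q = G - s⁻¹ • vecMulVec b b + vecMulVec a a := ⟨_, rfl⟩
  have hQa : Q *ᵥ a = a := by
    rw [hQ, Matrix.add_mulVec, Matrix.sub_mulVec, Matrix.smul_mulVec, hvv, hvv, hb, ha, hba,
      smul_smul, inv_mul_cancel₀ hs0]
    simp
  have hQT : Qᵀ = Q := by
    rw [hQ, Matrix.transpose_add, Matrix.transpose_sub, Matrix.transpose_smul, hG, hvT, hvT]
  obtain ⟨Q', hQ'⟩ : ∃ Q', Q' = Q + vecMulVec ((s - 1) • a) a := ⟨_, rfl⟩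
  have hd' : Q'.det = s * Q.det := by
    have h1 : Q' = Q * (1 + vecMulVec ((s - 1) • a) a) := by
      rw [Matrix.mul_add, Matrix.mul_one, Matrix.mul_vecMulVec, Matrix.mulVec_smul, hQa, hQ']
    rw [h1, Matrix.det_mul, hdet1, dotProduct_smul, ha, smul_eq_mul]
    ring
  have hQ'T : Q'ᵀ = Q' := by
    rw [hQ', Matrix.transpose_add, hQT, hvT]
    congr 1
    ext i j
    rw [vecMulVec_apply, vecMulVec_apply, Pi.smul_apply, Pi.smul_apply, smul_eq_mul, smul_eq_mul]
    ring
  have hQ'a : Q' *ᵥ a = s • a := by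
    rw [hQ', Matrix.add_mulVec, hQa, hvv, ha, one_smul]
    ext i
    simp
    ring
  have haQ' : a ᵥ* Q' = s • a := by
    rw [← Matrix.mulVec_transpose, hQ'T, hQ'a]
  obtain ⟨w, hw⟩ : ∃ w, w = s⁻¹ • b - a := ⟨_, rfl⟩
  have hmain : G = (1 + vecMulVec w a) * (Q' * (1 + vecMulVec a w)) := by
    have h1 : Q' * (1 + vecMulVec a w) = Q' + vecMulVec (s • a) w := by
      rw [Matrix.mul_add, Matrix.mul_one, Matrix.mul_vecMulVec, hQ'a]
    rw [h1, Matrix.add_mul, Matrix.one_mul, Matrix.mul_add, Matrix.vecMulVec_mul,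
      Matrix.vecMulVec_mul, haQ', Matrix.vecMul_vecMulVec, dotProduct_smul, ha, hQ', hQ, hw]
    ext i j
    simp only [Matrix.add_apply, Matrix.sub_apply, Matrix.smul_apply, vecMulVec_apply,
      Pi.smul_apply, Pi.sub_apply, smul_eq_mul]
    field_simp
    ring
  have hwa : w ⬝ᵥ a = 0 := by
    rw [hw, sub_dotProduct, smul_dotProduct, hba, ha, smul_eq_mul, inv_mul_cancel₀ hs0, sub_self]
  have hfin : G.det = Q'.det := by
    conv_lhs => rw [hmain]
    rw [Matrix.det_mul, Matrix.det_mul, hdet1, hdet1, hwa, dotProduct_comm, hwa]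
    ring
  rw [hfin, hd', hQ]

variable [DecidableEq ι]

theorem tang_add (x v w : E ι) : tang x (v + w) = tang x v + tang x w := by
  unfold tang
  rw [inner_add_right, add_smul]
  abel

theorem tang_smul (x v : E ι) (r : ℝ) : tang x (r • v) = r • tang x v := by
  unfold tang
  rw [inner_smul_right, smul_sub, smul_smul]

theorem g_zero {g : RPn.Field ι} (hg : IsMetric g) (x w : E ι) : g x 0 w = 0 := by
  have h := hg.smul x 0 w 0
  rwa [zero_smul, zero_mul] at h

theorem g_sum {g : RPn.Field ι} (hg : IsMetric g) (x w : E ι) (s : Finset ι) (f : ι → E ι) :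
    g x (∑ i ∈ s, f i) w = ∑ i ∈ s, g x (f i) w := by
  induction s using Finset.induction_on with
  | empty => rw [Finset.sum_empty, Finset.sum_empty, g_zero hg]
  | insert i s hi ih => rw [Finset.sum_insert hi, Finset.sum_insert hi, hg.add, ih]

theorem sum_ei (y : E ι) : y = ∑ i, y i • ei i := by
  ext j
  simp [ei, Finset.sum_apply, Pi.single_apply]

theorem tang_sum (x : E ι) (y : E ι) : tang x y = ∑ i, y i • tang x (ei i) := by
  have h : ∀ s : Finset ι, tang x (∑ i ∈ s, y i • ei i) = ∑ i ∈ s, y i • tang x (ei i) := by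
    intro s
    induction s using Finset.induction_on with
    | empty =>
      rw [Finset.sum_empty, Finset.sum_empty]
      unfold tang
      simp
    | insert i s hi ih =>
      rw [Finset.sum_insert hi, Finset.sum_insert hi, tang_add, tang_smul, ih]
  conv_lhs => rw [sum_ei y]
  exact h _

/-- the basic sum -/
theorem lemA {g : RPn.Field ι} (hg : IsMetric g) (x v y : E ι) :
    ∑ j, g x v (tang x (ei j)) * y j = g x v (tang x y) := by
  rw [hg.symm x v (tang x y), tang_sum x y, g_sum hg]
  refine Finset.sum_congr rfl fun j _ => ?_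
  rw [hg.smul, hg.symm x v]
  ring

theorem lemB (x y : E ι) : ∑ j, x j * y j = inner ℝ x y := by
  rw [PiLp.inner_apply]
  refine Finset.sum_congr rfl fun j _ => ?_
  simp [mul_comm]

/-- the matrix applied to a vector -/
theorem gram_mulVec {g : RPn.Field ι} (hg : IsMetric g) (x y : E ι) (i : ι) :
    (Matrix.of (RPn.gram g x) *ᵥ (fun j => y j)) i =
      g x (tang x (ei i)) (tang x y) + x i * inner ℝ x y := by
  have h : (Matrix.of (RPn.gram g x) *ᵥ (fun j => y j)) i = ∑ j, RPn.gram g x i j * y j := rfl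
  rw [h, ← lemA hg x (tang x (ei i)) y, ← lemB x y, Finset.mul_sum, ← Finset.sum_add_distrib]
  refine Finset.sum_congr rfl fun j _ => ?_
  unfold RPn.gram
  ring

theorem gram_symm {g : RPn.Field ι} (hg : IsMetric g) (x : E ι) :
    (Matrix.of (RPn.gram g x))ᵀ = Matrix.of (RPn.gram g x) := by
  ext i j
  rw [Matrix.transpose_apply, Matrix.of_apply, Matrix.of_apply]
  unfold RPn.gram
  rw [hg.symm x (tang x (ei j))]
  ring

theorem inner_tang {x : E ι} (hx : ‖x‖ = 1) (v : E ι) : inner ℝ x (tang x v) = 0 := by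
  unfold tang
  rw [inner_sub_right, inner_smul_right, real_inner_self_eq_norm_sq, hx]
  ring

/-- the determinant of the metric is positive -/
theorem det_pos {g : RPn.Field ι} (hg : IsMetric g) {x : E ι} (hx : ‖x‖ = 1) :
    0 < (Matrix.of (RPn.gram g x)).det := by
  have hpd : (Matrix.of (RPn.gram g x)).PosDef := by
    refine Matrix.PosDef.of_dotProduct_mulVec_pos ?_ ?_
    · rw [Matrix.IsHermitian, Matrix.conjTranspose_eq_transpose_of_trivial]
      exact gram_symm hg x
    · intro u hu
      obtain ⟨y, hy⟩ : ∃ y : E ι, (fun j => y j) = u := ⟨WithLp.toLp 2 u, rfl⟩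
      have hy0 : y ≠ 0 := by
        rintro rfl
        apply hu
        rw [← hy]
        rfl
      have h1 : star u ⬝ᵥ (Matrix.of (RPn.gram g x) *ᵥ u) =
          g x (tang x y) (tang x y) + (inner ℝ x y) ^ 2 := by
        rw [star_trivial, ← hy]
        have h2 : (fun j => y j) ⬝ᵥ (Matrix.of (RPn.gram g x) *ᵥ (fun j => y j)) =
            ∑ i, y i * (g x (tang x (ei i)) (tang x y) + x i * inner ℝ x y) := by
          refine Finset.sum_congr rfl fun i _ => ?_
          rw [gram_mulVec hg]
        rw [h2, ← lemA hg x (tang x y) y, sq, ← lemB x y, Finset.sum_mul,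
          ← Finset.sum_add_distrib]
        refine Finset.sum_congr rfl fun i _ => ?_
        rw [hg.symm x (tang x (ei i))]
        ring
      rw [h1]
      by_cases ht : tang x y = 0
      · rw [ht, g_zero hg, zero_add]
        have h3 : inner ℝ x y ≠ (0 : ℝ) := by
          intro h4
          apply hy0
          unfold tang at ht
          rwa [h4, zero_smul, sub_zero] at ht
        positivity
      · have h3 := hg.pos x (tang x y) hx (inner_tang hx y) ht
        positivity
  exact hpd.det_pos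

end XQm

open XQm

/-- item Qm -/
theorem hs_Qm (_hAlg : StAlg) (hPt : StPt) (hBD3 : claimBD3) : StQm := by
  intro ι _ _ J g x hJ hg hx
  obtain ⟨hf, -, -, -, -, -, hfc, -⟩ := hPt ι J g hJ hg
  have hpos : ∀ x : E ι, ‖x‖ = 1 → 0 < dens g J x := by
    intro x hx
    unfold dens volDensity
    exact div_pos (Real.sqrt_pos.2 (det_pos hg hx)) (Real.sqrt_pos.2 (hf x hx))
  refine ⟨?_, hpos x hx, ?_⟩
  · have hs := hf x hx
    have hta : tang x (J x) = J x := by
      unfold tang
      rw [hJ.tangent x, zero_smul, sub_zero]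
    obtain ⟨a, ha⟩ : ∃ a : ι → ℝ, a = fun j => J x j := ⟨_, rfl⟩
    obtain ⟨b, hb⟩ : ∃ b : ι → ℝ, b = fun i => g x (tang x (ei i)) (J x) := ⟨_, rfl⟩
    have haa : dotProduct a a = 1 := by
      have h1 : dotProduct a a = ∑ j, J x j * J x j := by rw [ha]; rfl
      rw [h1, lemB, real_inner_self_eq_norm_sq, hJ.norm, hx, one_pow]
    have hGa : Matrix.mulVec (Matrix.of (RPn.gram g x)) a = b := by
      funext i
      rw [ha, gram_mulVec hg, hta, hJ.tangent x, mul_zero, add_zero, hb]
    have hab : dotProduct a b = g x (J x) (J x) := by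
      have h1 : dotProduct a b = ∑ i, g x (J x) (tang x (ei i)) * J x i := by
        rw [ha, hb]
        refine Finset.sum_congr rfl fun i _ => ?_
        show J x i * g x (tang x (ei i)) (J x) = g x (J x) (tang x (ei i)) * J x i
        rw [hg.symm x (tang x (ei i))]
        ring
      rw [h1, lemA hg, hta]
    have hrel := det_rel (Matrix.of (RPn.gram g x)) (gram_symm hg x) a b (g x (J x) (J x)) haa hGa hab
      hs.ne'
    have hq : Matrix.of (qmat g J x) = Matrix.of (RPn.gram g x) -
        (g x (J x) (J x))⁻¹ • Matrix.vecMulVec b b + Matrix.vecMulVec a a := by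
      ext i j
      rw [Matrix.add_apply, Matrix.sub_apply, Matrix.smul_apply, Matrix.vecMulVec_apply,
        Matrix.vecMulVec_apply, Matrix.of_apply, Matrix.of_apply, ha, hb, smul_eq_mul]
      unfold qmat quoB RPn.gram
      ring
    unfold dens volDensity
    rw [hq, hrel, Real.sqrt_mul hs.le, mul_div_cancel_left₀ _ (Real.sqrt_pos.2 hs).ne']
  · have h1 : ContinuousOn (fun x => volDensity g x / Real.sqrt (g x (J x) (J x)))
        (Metric.sphere (0 : E ι) 1) := by
      refine ContinuousOn.div (hBD3 ι g hg) hfc.sqrt ?_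
      intro z hz
      exact (Real.sqrt_pos.2 (hf z (mem_sphere_zero_iff_norm.1 hz))).ne'
    exact h1

end Pool.Agent.Work.MP_02f065_gt.HS
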