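import Pool.Agent.Work.MP_02f065_gt.HS.Stmts

/-!
MP_02f065_gt, block HS, item Qr: the density of a metric with round quotient.
-/

set_option autoImplicit false

open MeasureTheory Set Filter Topology

noncomputable section

namespace Pool.Agent.Work.MP_02f065_gt.HS

open Pool.Agent.Work.MP_02f065_gt.RPn Pool.Agent.Work.MP_02f065_gt.Cvx
open Pool.Agent.Work.MP_02f065_gt.FR

namespace XQr

variable {ι : Type} [Fintype ι]

theorem add_right (g : RPn.Field ι) (hg : IsMetric g) (x u v w : E ι) :
    g x u (v + w) = g x u v + g x u w := by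
  rw [hg.symm, hg.add, hg.symm x v u, hg.symm x w u]

/-- polarisation -/
theorem polar (g : RPn.Field ι) (hg : IsMetric g) (J : E ι → E ι) (x v w : E ι) :
    quo g J x (v + w) = quo g J x v + quo g J x w + 2 * quoB g J x v w := by
  unfold quo quoB
  rw [hg.add, add_right g hg, add_right g hg, hg.add x v w (J x), hg.symm x w v]
  ring

theorem inner_tang (x v : E ι) (hx : ‖x‖ = 1) : inner ℝ x (tang x v) = 0 := by
  unfold tang
  rw [inner_sub_right, inner_smul_right, real_inner_self_eq_norm_sq, hx]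
  ring

theorem inner_ei [DecidableEq ι] (x : E ι) (i : ι) : inner ℝ x (ei i) = x i := by
  unfold ei
  rw [EuclideanSpace.inner_single_right]
  simp

theorem sum_sq (x : E ι) : ∑ i, x i ^ 2 = ‖x‖ ^ 2 := by
  rw [EuclideanSpace.norm_sq_eq]
  refine Finset.sum_congr rfl fun i _ => ?_
  rw [Real.norm_eq_abs, sq_abs]

theorem norm_hor (J : E ι → E ι) (hJ : IsCpx J) (x v : E ι) (hx : ‖x‖ = 1)
    (hv : inner ℝ x v = 0) : ‖hor J x v‖ ^ 2 = inner ℝ v v - inner ℝ (J x) v ^ 2 := by
  have h1 : inner ℝ (J x) (J x) = (1 : ℝ) := by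
    rw [real_inner_self_eq_norm_sq, hJ.norm, hx]
    ring
  unfold hor
  rw [hv, zero_smul, sub_zero, ← real_inner_self_eq_norm_sq, inner_sub_left, inner_sub_right,
    inner_sub_right, inner_smul_left, inner_smul_right, inner_smul_left, inner_smul_right, h1,
    real_inner_comm v (J x)]
  simp only [conj_trivial]
  ring

end XQr

theorem hs_Qr (hAlg : StAlg) (hQm : StQm) (hVd : StVdF) (hMet : StMetF) : StQr := by
  intro ι _ _ J g x c hJ hg hx hc hq
  have hF : IsFrame (fun _ : Fin 1 => J) := (hAlg ι J hJ).2.1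
  have hf : ∀ i : Fin 1, IsFun ((fun _ _ => 1 : Fin 1 → E ι → ℝ) i) := fun i =>
    ⟨continuousOn_const, fun _ _ => one_pos, fun _ _ => rfl⟩
  have he : IsFun (fun _ : E ι => c) := ⟨continuousOn_const, fun _ _ => hc, fun _ _ => rfl⟩
  have hJJ : inner ℝ (J x) (J x) = (1 : ℝ) := by
    rw [real_inner_self_eq_norm_sq, hJ.norm, hx]
    ring
  have hM := (hMet ι 1 (fun _ => J) (fun _ _ => 1) (fun _ => c) hF hf he).1
  have hV := hVd ι 1 (fun _ => J) (fun _ _ => 1) (fun _ => c) hF hf he x hx
  have hval : ∀ v w : E ι, frameMetric (fun _ : Fin 1 => J) (fun _ _ => 1) (fun _ => c) x v w =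
      inner ℝ (J x) v * inner ℝ (J x) w +
        c ^ 2 * (inner ℝ v w - inner ℝ (J x) v * inner ℝ (J x) w) := by
    intro v w
    unfold frameMetric
    simp
  have h1 : frameMetric (fun _ : Fin 1 => J) (fun _ _ => 1) (fun _ => c) x (J x) (J x) = 1 := by
    rw [hval, hJJ]
    ring
  have h2 : ∀ v : E ι, frameMetric (fun _ : Fin 1 => J) (fun _ _ => 1) (fun _ => c) x v (J x) =
      inner ℝ (J x) v := by
    intro v
    rw [hval, hJJ, real_inner_comm (J x) v]
    ring
  have hquo : ∀ v : E ι, inner ℝ x v = 0 → quo g J x v =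
      quo (frameMetric (fun _ : Fin 1 => J) (fun _ _ => 1) (fun _ => c)) J x v := by
    intro v hv
    rw [hq v hv, XQr.norm_hor J hJ x v hx hv]
    unfold quo
    rw [h1, h2, hval]
    ring
  have hB : ∀ v w : E ι, inner ℝ x v = 0 → inner ℝ x w = 0 → quoB g J x v w =
      quoB (frameMetric (fun _ : Fin 1 => J) (fun _ _ => 1) (fun _ => c)) J x v w := by
    intro v w hv hw
    have a1 := XQr.polar g hg J x v w
    have a2 := XQr.polar _ hM J x v w
    have a3 := hquo (v + w) (by rw [inner_add_right, hv, hw, add_zero])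
    have a4 := hquo v hv
    have a5 := hquo w hw
    linarith
  have hmat : qmat g J x =
      qmat (frameMetric (fun _ : Fin 1 => J) (fun _ _ => 1) (fun _ => c)) J x := by
    funext i j
    unfold qmat
    rw [hB _ _ (XQr.inner_tang x (ei i) hx) (XQr.inner_tang x (ei j) hx)]
  constructor
  · rw [(hQm ι J g x hJ hg hx).1, hmat, ← (hQm ι J _ x hJ hM hx).1]
    unfold dens
    rw [hV, h1, Real.sqrt_one, div_one]
    simp
    rfl
  · unfold tr
    have h3 : ∀ i, quo g J x (tang x (ei i)) = c ^ 2 * (1 - x i ^ 2 - J x i ^ 2) := by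
      intro i
      have ht := XQr.inner_tang x (ei i) hx
      rw [hq _ ht, XQr.norm_hor J hJ x _ hx ht]
      congr 2
      · unfold tang
        rw [inner_sub_left, inner_sub_right, inner_sub_right, inner_smul_left, inner_smul_right,
          inner_smul_left, inner_smul_right, real_inner_self_eq_norm_sq x, hx,
          XQr.inner_ei x i, XQr.inner_ei (ei i) i, real_inner_comm x (ei i), XQr.inner_ei x i]
        simp [ei]
        ring
      · unfold tang
        rw [inner_sub_right, inner_smul_right, XQr.inner_ei, real_inner_comm x (J x),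
          hJ.tangent x, mul_zero, sub_zero]
    rw [Finset.sum_congr rfl fun i _ => h3 i, ← Finset.mul_sum, Finset.sum_sub_distrib,
      Finset.sum_sub_distrib, XQr.sum_sq, XQr.sum_sq, hJ.norm, hx, Finset.sum_const,
      Finset.card_univ, nsmul_eq_mul]
    ring

end Pool.Agent.Work.MP_02f065_gt.HS
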