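import Pool.Agent.Work.MP_02f065_gt.HS.StmtsK

/-!
MP_02f065_gt, block HS, item Rc: real and complex determinant.
-/

open MeasureTheory Set Filter Topology Complex
open scoped ComplexOrder

noncomputable section

namespace Pool.Agent.Work.MP_02f065_gt.HS

open Pool.Agent.Work.MP_02f065_gt.RPn Pool.Agent.Work.MP_02f065_gt.Cvx
open Pool.Agent.Work.MP_02f065_gt.FR

namespace XRc

variable {ι : Type} [Fintype ι] {k : ℕ} {J : E ι → E ι} {e : Fin k → E ι} {B : E ι → E ι → ℝ}

/-- The orthonormal basis. -/
def bb (J : E ι → E ι) (e : Fin k → E ι) (p : Fin k ⊕ Fin k) : E ι :=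
  Sum.elim e (fun j => J (e j)) p

theorem bb_on (hA : StAlg) (hJ : IsCpx J) (he : IsUni J e) (p q : Fin k ⊕ Fin k) :
    (inner ℝ (bb J e p) (bb J e q) : ℝ) = if p = q then 1 else 0 := by
  obtain ⟨-, -, -, h2, -⟩ := hA ι J hJ
  rcases p with i | i <;> rcases q with j | j <;> simp only [bb, Sum.elim_inl, Sum.elim_inr]
  · rw [he.on]
    simp
  · rw [real_inner_comm, he.onJ]
    simp
  · rw [he.onJ]
    simp
  · rw [h2, he.on]
    simp

theorem sum_ei [DecidableEq ι] (y : E ι) : y = ∑ i, y i • ei i := by
  have h := (EuclideanSpace.basisFun ι ℝ).sum_repr y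
  conv_lhs => rw [← h]
  refine Finset.sum_congr rfl fun i _ => ?_
  simp [ei]

theorem B_sum {α : Type} (s : Finset α) (hadd : ∀ v v' w, B (v + v') w = B v w + B v' w)
    (hsmul : ∀ (r : ℝ) v w, B (r • v) w = r * B v w) (c : α → ℝ) (u : α → E ι) (w : E ι) :
    B (∑ p ∈ s, c p • u p) w = ∑ p ∈ s, c p * B (u p) w := by
  let L : E ι →ₗ[ℝ] ℝ := ⟨⟨fun v => B v w, fun v v' => hadd v v' w⟩, fun r v => hsmul r v w⟩
  have h : L (∑ p ∈ s, c p • u p) = ∑ p ∈ s, c p * L (u p) := by
    rw [map_sum]
    refine Finset.sum_congr rfl fun p _ => ?_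
    rw [map_smul, smul_eq_mul]
  exact h

theorem det_change [DecidableEq ι] (hA : StAlg) (hJ : IsCpx J) (he : IsUni J e)
    (hadd : ∀ v v' w, B (v + v') w = B v w + B v' w)
    (hsmul : ∀ (r : ℝ) v w, B (r • v) w = r * B v w) (hsymm : ∀ v w, B v w = B w v) :
    (Matrix.of fun p q => B (bb J e p) (bb J e q)).det =
      (Matrix.of fun i j : ι => B (ei i) (ei j)).det := by
  set O : Matrix (Fin k ⊕ Fin k) ι ℝ := Matrix.of fun p i => (bb J e p) i with hO
  have hOO : O * O.transpose = 1 := by
    ext p q
    rw [Matrix.mul_apply, Matrix.one_apply, ← bb_on hA hJ he p q, PiLp.inner_apply]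
    refine Finset.sum_congr rfl fun i _ => ?_
    simp [hO, mul_comm]
  have hcard : Fintype.card (Fin k ⊕ Fin k) = Fintype.card ι := by
    rw [Fintype.card_sum, Fintype.card_fin, he.card, two_mul]
  have hOO' : O.transpose * O = 1 :=
    (Matrix.mul_eq_one_comm_of_equiv (Fintype.card_eq.mp hcard).some).1 hOO
  have hM : (Matrix.of fun p q => B (bb J e p) (bb J e q)) =
      O * (Matrix.of fun i j : ι => B (ei i) (ei j)) * O.transpose := by
    ext p q
    rw [Matrix.mul_apply]
    simp only [Matrix.mul_apply, Matrix.of_apply, Matrix.transpose_apply, hO]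
    conv_lhs => rw [hsymm, sum_ei (bb J e q), B_sum _ hadd hsmul]
    refine Finset.sum_congr rfl fun j _ => ?_
    rw [mul_comm]
    congr 1
    conv_lhs => rw [hsymm, sum_ei (bb J e p), B_sum _ hadd hsmul]
  rw [hM, Matrix.det_conj_of_mul_eq_one hOO hOO']

theorem det_blk (P Q : Matrix (Fin k) (Fin k) ℂ) :
    (Matrix.fromBlocks P Q (-Q) P).det = (P - I • Q).det * (P + I • Q).det := by
  have h : Matrix.fromBlocks 1 (I • (1 : Matrix (Fin k) (Fin k) ℂ)) 0 1 *
      Matrix.fromBlocks P Q (-Q) P *
      Matrix.fromBlocks 1 (-(I • (1 : Matrix (Fin k) (Fin k) ℂ))) 0 1 =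
      Matrix.fromBlocks (P - I • Q) 0 (-Q) (P + I • Q) := by
    rw [Matrix.fromBlocks_multiply, Matrix.fromBlocks_multiply]
    have e1 : (P - I • Q) * (-(I • (1 : Matrix (Fin k) (Fin k) ℂ))) + (Q + I • P) = 0 := by
      rw [mul_neg, Matrix.mul_smul, mul_one, smul_sub, smul_smul, I_mul_I, neg_one_smul]
      abel
    have e2 : (-Q) * (-(I • (1 : Matrix (Fin k) (Fin k) ℂ))) + P = P + I • Q := by
      rw [neg_mul_neg, Matrix.mul_smul, mul_one, add_comm]
    congr 1
    · simp [sub_eq_add_neg]
    · simp only [one_mul, mul_one, Matrix.smul_mul, smul_neg, ← sub_eq_add_neg]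
      exact e1
    · simp
    · simp only [one_mul, mul_one, zero_mul, zero_add]
      exact e2
  have h2 := congrArg Matrix.det h
  rw [Matrix.det_mul, Matrix.det_mul, Matrix.det_fromBlocks_zero₂₁, Matrix.det_fromBlocks_zero₂₁,
    Matrix.det_fromBlocks_zero₁₂] at h2
  simpa using h2

end XRc

open XRc in
/-- **real and complex determinant** -/
theorem hs_Rc (hA : StAlg) : StRc := by
  intro ι _ _ J k e B hJ he hadd hsmul hsymm hinv hpos
  obtain ⟨-, -, -, h2, h3, -⟩ := hA ι J hJ
  have hneg : ∀ v w, B (-v) w = -B v w := by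
    intro v w
    rw [← neg_one_smul ℝ v, hsmul]
    ring
  have hJe : ∀ i j, B (J (e i)) (e j) = -B (e i) (J (e j)) := by
    intro i j
    rw [← hinv (J (e i)) (e j), (h3 (e i)).1, hneg]
  set P : Matrix (Fin k) (Fin k) ℝ := Matrix.of fun i j => B (e i) (e j) with hP
  set Q : Matrix (Fin k) (Fin k) ℝ := Matrix.of fun i j => B (e i) (J (e j)) with hQ
  have hPt : ∀ i j, P j i = P i j := fun i j => hsymm _ _
  have hQt : ∀ i j, Q j i = -Q i j := by
    intro i j
    change B (e j) (J (e i)) = -B (e i) (J (e j))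
    rw [hsymm, hJe]
  set M : Matrix (Fin k) (Fin k) ℂ := Matrix.of fun i j : Fin k =>
    ((B (e i) (e j) : ℝ) : ℂ) + Complex.I * (B (e i) (J (e j)) : ℝ) with hM
  have hMa : ∀ i j, M i j = (P i j : ℂ) + I * (Q i j : ℂ) := fun i j => rfl
  have hMM : M = P.map ofReal + I • Q.map ofReal := by
    ext i j
    rw [hMa]
    simp
  have hMT : M.transpose = P.map ofReal - I • Q.map ofReal := by
    ext i j
    rw [Matrix.transpose_apply, hMa, hPt, hQt]
    simp
    ring
  have hblk : (Matrix.of fun p q => B (bb J e p) (bb J e q)) = Matrix.fromBlocks P Q (-Q) P := by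
    ext p q
    rcases p with i | i <;> rcases q with j | j
    · rfl
    · rfl
    · simp only [Matrix.of_apply, bb, Sum.elim_inl, Sum.elim_inr, Matrix.fromBlocks_apply₂₁,
        Matrix.neg_apply, hQ]
      exact hJe i j
    · simp only [Matrix.of_apply, bb, Sum.elim_inr, Matrix.fromBlocks_apply₂₂, hP]
      exact hinv _ _
  have hdet : M.det * M.det = (((Matrix.of fun i j : ι => B (ei i) (ei j)).det : ℝ) : ℂ) := by
    rw [← det_change hA hJ he hadd hsmul hsymm, hblk]
    have e1 : (((Matrix.fromBlocks P Q (-Q) P).det : ℝ) : ℂ) =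
        ((Matrix.fromBlocks P Q (-Q) P).map ofReal).det :=
      RingHom.map_det Complex.ofRealHom _
    have e2 : (-Q).map ofReal = -(Q.map ofReal) := by
      ext i j
      simp
    rw [e1, Matrix.fromBlocks_map, e2, det_blk, ← hMM, ← hMT, Matrix.det_transpose]
  have hherm : M.IsHermitian := by
    ext i j
    rw [Matrix.conjTranspose_apply, hMa, hMa, hPt, hQt]
    simp
  have hpd : M.PosDef := by
    refine Matrix.PosDef.of_dotProduct_mulVec_pos hherm fun x hx => ?_
    set c : Fin k ⊕ Fin k → ℝ := Sum.elim (fun j => (x j).re) (fun j => -(x j).im) with hc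
    set w : E ι := ∑ p, c p • bb J e p with hw
    have hw0 : w ≠ 0 := by
      intro h0
      apply hx
      have hcp : ∀ p, c p = 0 := by
        intro p
        have h4 : (inner ℝ (bb J e p) w : ℝ) = c p := by
          rw [hw, inner_sum]
          simp only [real_inner_smul_right, bb_on hA hJ he]
          simp
        rw [← h4, h0, inner_zero_right]
      funext j
      have h5 := hcp (Sum.inl j)
      have h6 := hcp (Sum.inr j)
      simp only [hc, Sum.elim_inl, Sum.elim_inr, neg_eq_zero] at h5 h6
      exact Complex.ext h5 h6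
    have hB : B w w = ∑ p, c p * ∑ q, c q * B (bb J e p) (bb J e q) := by
      conv_lhs => rw [hw, B_sum _ hadd hsmul]
      refine Finset.sum_congr rfl fun p _ => ?_
      congr 1
      rw [← hw, hsymm, hw, B_sum _ hadd hsmul]
      refine Finset.sum_congr rfl fun q _ => ?_
      rw [hsymm]
    have hS : star x ⬝ᵥ (M.mulVec x) = ((B w w : ℝ) : ℂ) := by
      have e0 : star x ⬝ᵥ (M.mulVec x) = ∑ i, ∑ j, star (x i) * (M i j * x j) := by
        simp only [dotProduct, Matrix.mulVec, Finset.mul_sum, Pi.star_apply]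
      have e1 : B w w = ∑ i, ∑ j, (((x i).re * (x j).re + (x i).im * (x j).im) * P i j -
          ((x i).re * (x j).im - (x i).im * (x j).re) * Q i j) := by
        rw [hB, Fintype.sum_sum_type, ← Finset.sum_add_distrib]
        refine Finset.sum_congr rfl fun i _ => ?_
        rw [Fintype.sum_sum_type, Fintype.sum_sum_type]
        simp only [hc, Sum.elim_inl, Sum.elim_inr, bb]
        rw [mul_add, mul_add, Finset.mul_sum, Finset.mul_sum, Finset.mul_sum, Finset.mul_sum,
          ← Finset.sum_add_distrib, ← Finset.sum_add_distrib, ← Finset.sum_add_distrib]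
        refine Finset.sum_congr rfl fun j _ => ?_
        rw [hJe, hinv]
        simp only [hP, hQ, Matrix.of_apply]
        ring
      have e2 : ∑ i, ∑ j, (((x i).re * (x j).re + (x i).im * (x j).im) * Q i j +
          ((x i).re * (x j).im - (x i).im * (x j).re) * P i j) = 0 := by
        have e3 : ∑ i, ∑ j, (((x i).re * (x j).re + (x i).im * (x j).im) * Q i j +
            ((x i).re * (x j).im - (x i).im * (x j).re) * P i j) =
            -∑ i, ∑ j, (((x i).re * (x j).re + (x i).im * (x j).im) * Q i j +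
            ((x i).re * (x j).im - (x i).im * (x j).re) * P i j) := by
          conv_lhs => rw [Finset.sum_comm]
          rw [← Finset.sum_neg_distrib]
          refine Finset.sum_congr rfl fun i _ => ?_
          rw [← Finset.sum_neg_distrib]
          refine Finset.sum_congr rfl fun j _ => ?_
          rw [hPt i j, hQt i j]
          ring
        linarith
      rw [e0]
      apply Complex.ext
      · rw [Complex.ofReal_re, e1, Complex.re_sum]
        refine Finset.sum_congr rfl fun i _ => ?_
        rw [Complex.re_sum]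
        refine Finset.sum_congr rfl fun j _ => ?_
        rw [hMa]
        simp
        ring
      · rw [Complex.ofReal_im, ← e2, Complex.im_sum]
        refine Finset.sum_congr rfl fun i _ => ?_
        rw [Complex.im_sum]
        refine Finset.sum_congr rfl fun j _ => ?_
        rw [hMa]
        simp
        ring
    rw [hS]
    exact_mod_cast hpos w hw0
  have hD := Complex.pos_iff.1 hpd.det_pos
  have hDr : M.det = ((M.det.re : ℝ) : ℂ) := by
    apply Complex.ext
    · simp
    · simp [← hD.2]
  have hsq : M.det.re * M.det.re = (Matrix.of fun i j : ι => B (ei i) (ei j)).det := by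
    rw [hDr, ← Complex.ofReal_mul] at hdet
    exact Complex.ofReal_injective hdet
  rw [← hsq, Real.sqrt_mul_self hD.1.le]
  exact hDr

end Pool.Agent.Work.MP_02f065_gt.HS
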