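import Pool.Agent.Work.MP_02f065_gt.HS.Stmts

/-! Item Rev of the block HS: the reversed lift. -/

open MeasureTheory Set Filter Topology

noncomputable section

namespace Pool.Agent.Work.MP_02f065_gt.HS

open Pool.Agent.Work.MP_02f065_gt.RPn Pool.Agent.Work.MP_02f065_gt.Cvx
open Pool.Agent.Work.MP_02f065_gt.FR

theorem XRev.theta_neg {ι : Type} [Fintype ι] {J : E ι → E ι} {g : RPn.Field ι} (hg : IsMetric g)
    (x v : E ι) : theta g J x (-v) = -theta g J x v := by
  have h1 : g x (-v) (J x) = -g x v (J x) := by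
    have h2 := hg.smul x v (J x) (-1)
    rw [neg_one_smul, neg_one_mul] at h2
    exact h2
  unfold theta
  rw [h1, neg_div]

theorem hs_Rev (hAlg : StAlg) (hGc : StGc) : StRev := by
  intro ι _ J g x y τ hJ hg _ hτ
  obtain ⟨_, _, _, _, _, hlin, hadd, _, _, _, _, _⟩ := hAlg ι J hJ
  obtain ⟨_, _, _, _, _, hrev, _⟩ := hGc ι J hJ
  refine ⟨?_, ?_⟩
  · show τ (Real.pi - 0) - τ Real.pi = 0
    rw [sub_zero, sub_self]
  · intro t ht
    obtain ⟨h1, h2⟩ := hrev x y (τ Real.pi) t
    rw [h1, h2, (hlin _).map_neg, XRev.theta_neg hg, neg_neg, hadd, hadd, sub_add_cancel]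
    have ht' : Real.pi - t ∈ Icc (0 : ℝ) Real.pi := ⟨by linarith [ht.2], by linarith [ht.1]⟩
    have h3 := hτ.deriv (Real.pi - t) ht'
    have h4 : HasDerivWithinAt (fun s : ℝ => Real.pi - s) (-1) (Icc 0 Real.pi) t := by
      have h5 := (hasDerivWithinAt_id t (Icc (0 : ℝ) Real.pi)).const_sub Real.pi
      exact h5
    have h5 : MapsTo (fun s : ℝ => Real.pi - s) (Icc 0 Real.pi) (Icc 0 Real.pi) := by
      intro s hs
      exact ⟨by show 0 ≤ Real.pi - s; linarith [hs.2], by show Real.pi - s ≤ Real.pi; linarith [hs.1]⟩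
    have h6 := (HasDerivWithinAt.comp t h3 h4 h5).sub_const (τ Real.pi)
    have h7 : -theta g J (rot J (τ (Real.pi - t)) (gcr x y (Real.pi - t)))
        (rot J (τ (Real.pi - t)) (gcv x y (Real.pi - t))) * -1 =
        theta g J (rot J (τ (Real.pi - t)) (gcr x y (Real.pi - t)))
        (rot J (τ (Real.pi - t)) (gcv x y (Real.pi - t))) := by ring
    rw [h7] at h6
    exact h6

end Pool.Agent.Work.MP_02f065_gt.HS
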