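import Pool.Agent.Work.MP_02f065_gt.HS.Stmts

/-!
MP_02f065_gt, block HS, item Sph: mean of a quadratic form on the unit sphere of R^Q with an axial
weight.
-/

open MeasureTheory Set

noncomputable section

namespace Pool.Agent.Work.MP_02f065_gt.HS

open Pool.Agent.Work.MP_02f065_gt.RPn Pool.Agent.Work.MP_02f065_gt.FR
open Pool.Agent.Work.MP_02f065_gt.Cvx

namespace XSph

variable {Q : ℕ}

theorem int_cont {F : E (Fin Q) → ℝ} (hF : Continuous F) :
    Integrable (fun z : Metric.sphere (0 : E (Fin Q)) 1 => F z)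
      ((volume : Measure (E (Fin Q))).toSphere) :=
  (hF.comp continuous_subtype_val).integrable_of_hasCompactSupport
    (HasCompactSupport.of_compactSpace _)

theorem smean_sum {ι : Type} (s : Finset ι) (F : ι → E (Fin Q) → ℝ)
    (hF : ∀ i ∈ s, Continuous (F i)) :
    smean (fun z => ∑ i ∈ s, F i z) = ∑ i ∈ s, smean (F i) :=
  integral_finsetSum s fun i hi => int_cont (hF i hi)

theorem smean_mul (c : ℝ) (F : E (Fin Q) → ℝ) :
    smean (fun z => c * F z) = c * smean F := integral_const_mul c _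

theorem smean_congr {F H : E (Fin Q) → ℝ} (h : ∀ z : E (Fin Q), ‖z‖ = 1 → F z = H z) :
    smean F = smean H := by
  unfold smean
  refine integral_congr_ae (Filter.Eventually.of_forall fun z => ?_)
  exact h z (by simp)

theorem smean_map (hI : StIso) (hQ : 2 ≤ Q) (T : E (Fin Q) →ₗᵢ[ℝ] E (Fin Q))
    {F : E (Fin Q) → ℝ} (hF : Continuous F) : smean (fun z => F (T z)) = smean F := by
  have : Nonempty (Fin Q) := ⟨⟨0, by omega⟩⟩
  exact (hI (Fin Q)).1 T F hF.continuousOn

/-- the weighted moments -/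
def MM (w : ℝ → ℝ) (a u v : E (Fin Q)) : ℝ :=
  smean fun z => w (inner ℝ a z) * (inner ℝ u z * inner ℝ v z)

theorem cont_MM {w : ℝ → ℝ} (hw : Continuous w) (a u v : E (Fin Q)) :
    Continuous fun z : E (Fin Q) => w (inner ℝ a z) * (inner ℝ u z * inner ℝ v z) := by
  fun_prop

/-- invariance of the moments -/
theorem MM_map (hI : StIso) (hQ : 2 ≤ Q) {w : ℝ → ℝ} (hw : Continuous w)
    (T : E (Fin Q) →ₗᵢ[ℝ] E (Fin Q)) (a u v : E (Fin Q)) :
    MM w (T a) (T u) (T v) = MM w a u v := by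
  unfold MM
  rw [← smean_map hI hQ T (cont_MM hw (T a) (T u) (T v))]
  refine smean_congr fun z _ => ?_
  rw [T.inner_map_map, T.inner_map_map, T.inner_map_map]

theorem MM_eq (hI : StIso) (hQ : 2 ≤ Q) {w : ℝ → ℝ} (hw : Continuous w) (a u v : E (Fin Q))
    (hau : inner ℝ a u = 0) (hav : inner ℝ a v = 0) (hu : ‖u‖ = 1) (hv : ‖v‖ = 1) :
    MM w a u u = MM w a v v := by
  have h := MM_map hI hQ hw ((ℝ ∙ (u - v))ᗮ).reflection.toLinearIsometry a u u
  have h1 : ((ℝ ∙ (u - v))ᗮ).reflection u = v := Submodule.reflection_sub (by rw [hu, hv])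
  have h2 : ((ℝ ∙ (u - v))ᗮ).reflection a = a := by
    refine Submodule.reflection_mem_subspace_eq_self ?_
    rw [Submodule.mem_orthogonal_singleton_iff_inner_left, inner_sub_right, hau, hav, sub_zero]
  have h3 : MM w (((ℝ ∙ (u - v))ᗮ).reflection a) (((ℝ ∙ (u - v))ᗮ).reflection u)
      (((ℝ ∙ (u - v))ᗮ).reflection u) = MM w a u u := h
  rw [h1, h2] at h3
  exact h3.symm

theorem MM_zero (hI : StIso) (hQ : 2 ≤ Q) {w : ℝ → ℝ} (hw : Continuous w) (a u v : E (Fin Q))
    (hau : inner ℝ a u = 0) (hvu : inner ℝ v u = 0) : MM w a u v = 0 := by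
  have h := MM_map hI hQ hw ((ℝ ∙ u)ᗮ).reflection.toLinearIsometry a u v
  have h1 : ((ℝ ∙ u)ᗮ).reflection u = -u :=
    Submodule.reflection_orthogonalComplement_singleton_eq_neg u
  have h2 : ((ℝ ∙ u)ᗮ).reflection a = a := by
    refine Submodule.reflection_mem_subspace_eq_self ?_
    rw [Submodule.mem_orthogonal_singleton_iff_inner_left, hau]
  have h3 : ((ℝ ∙ u)ᗮ).reflection v = v := by
    refine Submodule.reflection_mem_subspace_eq_self ?_
    rw [Submodule.mem_orthogonal_singleton_iff_inner_left, hvu]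
  have h4 : MM w (((ℝ ∙ u)ᗮ).reflection a) (((ℝ ∙ u)ᗮ).reflection u)
      (((ℝ ∙ u)ᗮ).reflection v) = MM w a u v := h
  rw [h1, h2, h3] at h4
  have h5 : MM w a (-u) v = - MM w a u v := by
    unfold MM
    rw [neg_eq_neg_one_mul (smean _), ← smean_mul]
    refine smean_congr fun z _ => ?_
    rw [inner_neg_left]
    ring
  linarith

/-- expansion of a bilinear form in an orthonormal basis -/
theorem B_expand (b : OrthonormalBasis (Fin Q) ℝ (E (Fin Q)))
    (Bl : E (Fin Q) →ₗ[ℝ] E (Fin Q) →ₗ[ℝ] ℝ) (x y : E (Fin Q)) :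
    Bl x y = ∑ i, ∑ j, Bl (b i) (b j) * (inner ℝ (b i) x * inner ℝ (b j) y) := by
  conv_lhs => rw [← b.sum_repr' x, ← b.sum_repr' y]
  simp only [map_sum, LinearMap.sum_apply, map_smul, LinearMap.smul_apply, smul_eq_mul,
    Finset.mul_sum]
  rw [Finset.sum_comm]
  refine Finset.sum_congr rfl fun i _ => Finset.sum_congr rfl fun j _ => ?_
  ring

/-- the trace does not depend on the orthonormal basis -/
theorem B_trace (b : OrthonormalBasis (Fin Q) ℝ (E (Fin Q)))
    (Bl : E (Fin Q) →ₗ[ℝ] E (Fin Q) →ₗ[ℝ] ℝ) :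
    ∑ i, Bl (EuclideanSpace.single i 1) (EuclideanSpace.single i 1) = ∑ i, Bl (b i) (b i) := by
  have h1 : ∀ i j, ∑ l, (inner ℝ (b i) (EuclideanSpace.single l 1 : E (Fin Q)) *
      inner ℝ (b j) (EuclideanSpace.single l 1 : E (Fin Q))) = if i = j then 1 else 0 := by
    intro i j
    have h2 := (EuclideanSpace.basisFun (Fin Q) ℝ).sum_inner_mul_inner (b i) (b j)
    rw [orthonormal_iff_ite.mp b.orthonormal i j] at h2
    rw [← h2]
    refine Finset.sum_congr rfl fun l _ => ?_
    rw [EuclideanSpace.basisFun_apply, real_inner_comm (b j)]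
  have h3 : ∀ l, Bl (EuclideanSpace.single l 1) (EuclideanSpace.single l 1) =
      ∑ i, ∑ j, Bl (b i) (b j) * (inner ℝ (b i) (EuclideanSpace.single l 1 : E (Fin Q)) *
        inner ℝ (b j) (EuclideanSpace.single l 1 : E (Fin Q))) := fun l => B_expand b Bl _ _
  rw [Finset.sum_congr rfl fun l _ => h3 l, Finset.sum_comm]
  refine Finset.sum_congr rfl fun i _ => ?_
  rw [Finset.sum_comm]
  have h4 : ∀ j, ∑ l, Bl (b i) (b j) * (inner ℝ (b i) (EuclideanSpace.single l 1 : E (Fin Q)) *
        inner ℝ (b j) (EuclideanSpace.single l 1 : E (Fin Q))) =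
      if i = j then Bl (b i) (b j) else 0 := by
    intro j
    rw [← Finset.mul_sum, h1]
    split_ifs <;> simp
  rw [Finset.sum_congr rfl fun j _ => h4 j]
  simp

end XSph

open XSph in
/-- [Sph] -/
theorem hs_Sph (hI : StIso) : StSph := by
  intro Q hQ w B a hw hadd hsmul hsymm ha hBa
  have hadd' : ∀ v z z', B v (z + z') = B v z + B v z' := fun v z z' => by
    rw [hsymm, hadd, hsymm z, hsymm z']
  have hsmul' : ∀ (r : ℝ) v z, B v (r • z) = r * B v z := fun r v z => by
    rw [hsymm, hsmul, hsymm z]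
  let Bl : E (Fin Q) →ₗ[ℝ] E (Fin Q) →ₗ[ℝ] ℝ := LinearMap.mk₂ ℝ B hadd (fun r v z => hsmul r v z)
    hadd' (fun r v z => hsmul' r v z)
  have hBl : ∀ x y, Bl x y = B x y := fun x y => rfl
  -- the basis
  let i0 : Fin Q := ⟨0, by omega⟩
  have hon : Orthonormal ℝ (({i0} : Set (Fin Q)).domRestrict fun _ => a) := by
    constructor
    · intro i
      exact ha
    · intro i j hij
      exact absurd (Subsingleton.elim i j) hij
  obtain ⟨b, hb⟩ := hon.exists_orthonormalBasis_extension_of_card_eq (ι := Fin Q)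
    (by simp)
  have hb0 : b i0 = a := hb i0 rfl
  have hbo := orthonormal_iff_ite.mp b.orthonormal
  have hab : ∀ i, i ≠ i0 → inner ℝ a (b i) = 0 := by
    intro i hi
    rw [← hb0, hbo, if_neg (Ne.symm hi)]
  let i1 : Fin Q := ⟨1, by omega⟩
  have hi1 : i1 ≠ i0 := by
    intro h
    have := congrArg Fin.val h
    simp [i1, i0] at this
  -- the common moment
  have hκ : ∀ i, i ≠ i0 → MM w a (b i) (b i) = MM w a (b i1) (b i1) := fun i hi =>
    MM_eq hI hQ hw a (b i) (b i1) (hab i hi) (hab i1 hi1) (b.orthonormal.1 i) (b.orthonormal.1 i1)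
  have hoff : ∀ i j, i ≠ i0 → i ≠ j → MM w a (b i) (b j) = 0 := by
    intro i j hi hij
    refine MM_zero hI hQ hw a (b i) (b j) (hab i hi) ?_
    rw [hbo, if_neg (Ne.symm hij)]
  have hB0 : ∀ j, Bl (b i0) (b j) = 0 := fun j => by
    rw [hb0]
    exact hBa _
  -- the left side
  have hL : smean (fun z => w (inner ℝ a z) * B z z) =
      (∑ i, Bl (b i) (b i)) * MM w a (b i1) (b i1) := by
    have e1 : smean (fun z => w (inner ℝ a z) * B z z) =
        smean (fun z => ∑ i, ∑ j, Bl (b i) (b j) *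
          (w (inner ℝ a z) * (inner ℝ (b i) z * inner ℝ (b j) z))) := by
      refine smean_congr fun z _ => ?_
      rw [← hBl, B_expand b Bl z z, Finset.mul_sum]
      refine Finset.sum_congr rfl fun i _ => ?_
      rw [Finset.mul_sum]
      refine Finset.sum_congr rfl fun j _ => ?_
      ring
    have hcont : ∀ i j, Continuous fun z : E (Fin Q) => Bl (b i) (b j) *
        (w (inner ℝ a z) * (inner ℝ (b i) z * inner ℝ (b j) z)) := fun i j =>
      continuous_const.mul (cont_MM hw a (b i) (b j))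
    rw [e1, smean_sum Finset.univ (fun i z => ∑ j, Bl (b i) (b j) *
        (w (inner ℝ a z) * (inner ℝ (b i) z * inner ℝ (b j) z)))
      (fun i _ => continuous_finsetSum _ fun j _ => hcont i j), Finset.sum_mul]
    refine Finset.sum_congr rfl fun i _ => ?_
    rw [smean_sum Finset.univ (fun j z => Bl (b i) (b j) *
        (w (inner ℝ a z) * (inner ℝ (b i) z * inner ℝ (b j) z))) (fun j _ => hcont i j)]
    have e2 : ∀ j, smean (fun z => Bl (b i) (b j) *
        (w (inner ℝ a z) * (inner ℝ (b i) z * inner ℝ (b j) z))) =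
        if i = j then Bl (b i) (b i) * MM w a (b i1) (b i1) else 0 := by
      intro j
      rw [smean_mul]
      show Bl (b i) (b j) * MM w a (b i) (b j) = _
      by_cases hi : i = i0
      · rw [hi, hB0, hB0, zero_mul, zero_mul]
        split_ifs <;> rfl
      · by_cases hij : i = j
        · rw [← hij, if_pos rfl, hκ i hi]
        · rw [if_neg hij, hoff i j hi hij, mul_zero]
    rw [Finset.sum_congr rfl fun j _ => e2 j]
    simp
  -- the right side
  have hR : smean (fun z => w (inner ℝ a z) * (1 - (inner ℝ a z : ℝ) ^ 2)) =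
      ((Q : ℝ) - 1) * MM w a (b i1) (b i1) := by
    have e1 : smean (fun z => w (inner ℝ a z) * (1 - (inner ℝ a z : ℝ) ^ 2)) =
        smean (fun z => ∑ i ∈ Finset.univ.erase i0,
          w (inner ℝ a z) * (inner ℝ (b i) z * inner ℝ (b i) z)) := by
      refine smean_congr fun z hz => ?_
      have e2 := b.sum_sq_inner_right z
      rw [hz, one_pow, ← Finset.add_sum_erase _ _ (Finset.mem_univ i0), hb0] at e2
      rw [← Finset.mul_sum]
      congr 1
      have e3 : ∑ i ∈ Finset.univ.erase i0, (inner ℝ (b i) z : ℝ) * inner ℝ (b i) z =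
          ∑ i ∈ Finset.univ.erase i0, (inner ℝ (b i) z : ℝ) ^ 2 :=
        Finset.sum_congr rfl fun i _ => by ring
      rw [e3]
      linarith
    rw [e1, smean_sum _ _ fun i _ => cont_MM hw a (b i) (b i)]
    have e4 : ∀ i ∈ Finset.univ.erase i0, smean (fun z =>
        w (inner ℝ a z) * (inner ℝ (b i) z * inner ℝ (b i) z)) = MM w a (b i1) (b i1) :=
      fun i hi => hκ i (Finset.ne_of_mem_erase hi)
    rw [Finset.sum_congr rfl e4, Finset.sum_const, Finset.card_erase_of_mem (Finset.mem_univ _),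
      Finset.card_univ, Fintype.card_fin, nsmul_eq_mul, Nat.cast_sub (by omega), Nat.cast_one]
  have hQ1 : (Q : ℝ) - 1 ≠ 0 := by
    have : (2 : ℝ) ≤ Q := by exact_mod_cast hQ
    intro h
    linarith
  have hT : ∑ i, B (EuclideanSpace.single i 1) (EuclideanSpace.single i 1) =
      ∑ i, Bl (b i) (b i) := B_trace b Bl
  rw [hL, hR, hT]
  field_simp

end Pool.Agent.Work.MP_02f065_gt.HS
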