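import Pool.Agent.Work.MP_02f065_gt.HS.Stmts

/-!
# MP_02f065_gt, block HS, item Std (helper37)
-/

set_option autoImplicit false

open MeasureTheory Set Filter Topology

noncomputable section

namespace Pool.Agent.Work.MP_02f065_gt.HS

open Pool.Agent.Work.MP_02f065_gt.RPn Pool.Agent.Work.MP_02f065_gt.Cvx
open Pool.Agent.Work.MP_02f065_gt.FR

theorem hs_Std (hAlg : StAlg) (hGc : StGc) : StStd := by
  intro ι _ J g hJ hg x y hxy
  obtain ⟨-, -, -, -, -, -, -, h0, -⟩ := hAlg ι J hJ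
  obtain ⟨-, -, -, h4, -⟩ := hGc ι J hJ
  refine ⟨fun _ => 0, ⟨rfl, fun t _ => ?_⟩, rfl⟩
  have h := (h4 x y hxy).2.2 t
  have e : theta g J (rot J 0 (gcr x y t)) (rot J 0 (gcv x y t)) = 0 := by
    rw [(h0 _).1, (h0 _).1]
    unfold theta
    rw [hg _ _ h.normx h.ortho h.orthoJ, zero_div]
  show HasDerivWithinAt (fun _ : ℝ => (0 : ℝ))
    (-theta g J (rot J 0 (gcr x y t)) (rot J 0 (gcv x y t))) (Icc 0 Real.pi) t
  rw [e, neg_zero]
  exact hasDerivWithinAt_const _ _ _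

end Pool.Agent.Work.MP_02f065_gt.HS
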