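import Pool.Agent.Work.MP_02f065_gt.HS.Stmts
import Pool.Agent.Work.MP_02f065_gt.FR.I_IND

/-!
MP_02f065_gt, block HS, item Trc: the mean of the quotient metric over a random orthonormal pair.
-/

open MeasureTheory Set Filter Topology

noncomputable section

namespace Pool.Agent.Work.MP_02f065_gt.HS

open Pool.Agent.Work.MP_02f065_gt.RPn Pool.Agent.Work.MP_02f065_gt.Cvx
open Pool.Agent.Work.MP_02f065_gt.FR

namespace XTrc

/-- The tangential part in a tangent frame. -/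
theorem tang_eq {Q : ℕ} {y : E (Ix 1 Q)} (hy : ‖y‖ = 1) {T : E (Fin Q) →ₗᵢ[ℝ] E (Ix 1 Q)}
    (hT : IsTan y T) (v : E (Ix 1 Q)) :
    tang y v = ∑ j, (inner ℝ (T (EuclideanSpace.basisFun (Fin Q) ℝ j)) v : ℝ) •
      T (EuclideanSpace.basisFun (Fin Q) ℝ j) := by
  have hyy : (inner ℝ y y : ℝ) = 1 := by
    rw [real_inner_self_eq_norm_sq, hy, one_pow]
  have h1 : tang y v ∈ LinearMap.range T.toLinearMap := by
    rw [XIND.range_tan hy hT]
    refine (Submodule.mem_orthogonal_singleton_iff_inner_right).2 ?_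
    unfold tang
    rw [inner_sub_right, inner_smul_right, hyy, mul_one, sub_self]
  obtain ⟨z, hz⟩ := h1
  have hz' : T z = tang y v := hz
  rw [← hz']
  conv_lhs => rw [← (EuclideanSpace.basisFun (Fin Q) ℝ).sum_repr' z]
  rw [map_sum]
  refine Finset.sum_congr rfl fun j _ => ?_
  rw [map_smul]
  congr 1
  have h0 : (inner ℝ (T (EuclideanSpace.basisFun (Fin Q) ℝ j)) y : ℝ) = 0 := by
    rw [real_inner_comm]
    exact hT _
  rw [← T.inner_map_map, hz']
  unfold tang
  rw [inner_sub_right, inner_smul_right, h0, mul_zero, sub_zero]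

/-- The trace in a tangent frame. -/
theorem trace_eq {Q : ℕ} {y : E (Ix 1 Q)} (hy : ‖y‖ = 1) {T : E (Fin Q) →ₗᵢ[ℝ] E (Ix 1 Q)}
    (hT : IsTan y T) (β : E (Ix 1 Q) →ₗ[ℝ] E (Ix 1 Q) →ₗ[ℝ] ℝ) :
    ∑ i, β (tang y (EuclideanSpace.basisFun (Ix 1 Q) ℝ i))
      (tang y (EuclideanSpace.basisFun (Ix 1 Q) ℝ i)) =
    ∑ j, β (T (EuclideanSpace.basisFun (Fin Q) ℝ j)) (T (EuclideanSpace.basisFun (Fin Q) ℝ j)) := by
  set b := EuclideanSpace.basisFun (Ix 1 Q) ℝ with hb
  set f := EuclideanSpace.basisFun (Fin Q) ℝ with hf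
  have h1 : ∀ i, β (tang y (b i)) (tang y (b i)) = ∑ j, ∑ k,
      ((inner ℝ (T (f j)) (b i) : ℝ) * inner ℝ (b i) (T (f k))) * β (T (f j)) (T (f k)) := by
    intro i
    conv_lhs => rw [tang_eq hy hT]
    rw [LinearMap.map_sum₂]
    refine Finset.sum_congr rfl fun j _ => ?_
    rw [LinearMap.map_smul₂, map_sum, smul_eq_mul, Finset.mul_sum]
    refine Finset.sum_congr rfl fun k _ => ?_
    rw [map_smul, smul_eq_mul, real_inner_comm (T (f k)) (b i)]
    ring
  rw [Finset.sum_congr rfl fun i _ => h1 i, Finset.sum_comm]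
  refine Finset.sum_congr rfl fun j _ => ?_
  rw [Finset.sum_comm]
  have h2 : ∀ k, ∑ i, ((inner ℝ (T (f j)) (b i) : ℝ) * inner ℝ (b i) (T (f k))) *
      β (T (f j)) (T (f k)) = if j = k then β (T (f j)) (T (f k)) else 0 := by
    intro k
    rw [← Finset.sum_mul, b.sum_inner_mul_inner, T.inner_map_map, f.inner_eq_ite]
    split_ifs
    · rw [one_mul]
    · rw [zero_mul]
  rw [Finset.sum_congr rfl fun k _ => h2 k, Finset.sum_ite_eq, if_pos (Finset.mem_univ _)]

/-- The mean of a function of one coordinate does not depend on the coordinate. -/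
theorem axis (hI : StIso) {Q : ℕ} (hQ : 2 ≤ Q) (w : ℝ → ℝ) (hw : Continuous w)
    (a a' : E (Fin Q)) (h : ‖a‖ = ‖a'‖) :
    smean (fun z => w (inner ℝ a z)) = smean (fun z => w (inner ℝ a' z)) := by
  have : Nonempty (Fin Q) := ⟨⟨0, by omega⟩⟩
  set S : E (Fin Q) →ₗᵢ[ℝ] E (Fin Q) := ((ℝ ∙ (a - a'))ᗮ.reflection).toLinearIsometry with hS
  have hSa : S a = a' := Submodule.reflection_sub h
  have hc : Continuous (fun z : E (Fin Q) => w (inner ℝ a' z)) :=
    hw.comp (continuous_const.inner continuous_id)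
  have h1 := (hI (Fin Q)).1 S (fun z => w (inner ℝ a' z)) hc.continuousOn
  unfold smean
  rw [← h1]
  congr 1
  funext z
  rw [← hSa, S.inner_map_map]

/-- The bilinear form of `quo`. -/
def bf {ι : Type} [Fintype ι] (g : RPn.Field ι) (hg : IsMetric g) (J : E ι → E ι) (x : E ι) :
    E ι →ₗ[ℝ] E ι →ₗ[ℝ] ℝ :=
  LinearMap.mk₂ ℝ (quoB g J x)
    (fun v v' w => by
      unfold quoB
      rw [hg.add, hg.add]
      ring)
    (fun c v w => by
      unfold quoB
      rw [hg.smul, hg.smul, smul_eq_mul]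
      ring)
    (fun v w w' => by
      unfold quoB
      rw [hg.symm x v (w + w'), hg.add, hg.add, hg.symm x w v, hg.symm x w' v]
      ring)
    (fun c v w => by
      unfold quoB
      rw [hg.symm x v (c • w), hg.smul, hg.smul, hg.symm x w v, smul_eq_mul]
      ring)

theorem quoB_self {ι : Type} [Fintype ι] (g : RPn.Field ι) (J : E ι → E ι) (x v : E ι) :
    quoB g J x v v = quo g J x v := by
  unfold quoB quo
  rw [sq]

/-- The mean over the unit tangent vectors at one point. -/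
theorem inner1 (hPt : StPt) (hI : StIso) (hSph : StSph) {Q : ℕ} (hQ : 2 ≤ Q)
    {J : E (Ix 1 Q) → E (Ix 1 Q)} {g : RPn.Field (Ix 1 Q)} {w : ℝ → ℝ} (hJ : IsCpx J)
    (hg : IsMetric g) (hw : Continuous w) (a₀ : E (Fin Q)) (ha₀ : ‖a₀‖ = 1) {y : E (Ix 1 Q)}
    (hy : ‖y‖ = 1) {T : E (Fin Q) →ₗᵢ[ℝ] E (Ix 1 Q)} (hT : IsTan y T) :
    smean (fun z => w (inner ℝ (J y) (T z)) * quo g J y (T z)) =
      tr g J y / ((Q : ℝ) - 1) *
        smean (fun z => w (inner ℝ a₀ z) * (1 - (inner ℝ a₀ z : ℝ) ^ 2)) ∧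
    smean (fun z => w (inner ℝ (J y) (T z))) = smean (fun z => w (inner ℝ a₀ z)) := by
  have h1 : J y ∈ LinearMap.range T.toLinearMap := by
    rw [XIND.range_tan hy hT]
    exact (Submodule.mem_orthogonal_singleton_iff_inner_right).2 (hJ.tangent y)
  obtain ⟨a, ha⟩ := h1
  have ha' : T a = J y := ha
  have han : ‖a‖ = 1 := by
    rw [← T.norm_map, ha', hJ.norm, hy]
  have hin : ∀ z, (inner ℝ (J y) (T z) : ℝ) = inner ℝ a z := fun z => by
    rw [← ha', T.inner_map_map]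
  have hpos := (hPt (Ix 1 Q) J g hJ hg).1 y hy
  constructor
  · have e1 : (fun z => w (inner ℝ (J y) (T z)) * quo g J y (T z)) =
        fun z => w (inner ℝ a z) * quoB g J y (T z) (T z) := by
      funext z
      rw [hin, quoB_self]
    rw [e1, hSph Q hQ w (fun v z => quoB g J y (T v) (T z)) a hw ?_ ?_ ?_ han ?_]
    · congr 1
      · congr 1
        have h2 := trace_eq hy hT (bf g hg J y)
        simp only [EuclideanSpace.basisFun_apply] at h2
        have h3 : ∑ i, quoB g J y (tang y (EuclideanSpace.single i 1))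
            (tang y (EuclideanSpace.single i 1)) = tr g J y := by
          unfold tr ei
          exact Finset.sum_congr rfl fun i _ => quoB_self g J y _
        rw [← h3]
        exact h2.symm
      · exact axis hI hQ (fun s => w s * (1 - s ^ 2)) (by fun_prop) a a₀ (by rw [han, ha₀])
    · intro v v' z
      show bf g hg J y (T (v + v')) (T z) = bf g hg J y (T v) (T z) + bf g hg J y (T v') (T z)
      rw [map_add, map_add, LinearMap.add_apply]
    · intro r v z
      show bf g hg J y (T (r • v)) (T z) = r * bf g hg J y (T v) (T z)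
      rw [map_smul, map_smul, LinearMap.smul_apply, smul_eq_mul]
    · intro v z
      unfold quoB
      rw [hg.symm y (T v) (T z)]
      ring
    · intro z
      show quoB g J y (T a) (T z) = 0
      unfold quoB
      rw [ha', hg.symm y (T z) (J y)]
      field_simp
      ring
  · have e1 : (fun z => w (inner ℝ (J y) (T z))) = fun z => w (inner ℝ a z) := by
      funext z
      rw [hin]
    rw [e1]
    exact axis hI hQ w hw a a₀ (by rw [han, ha₀])

end XTrc

open XTrc in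
theorem hs_Trc (hAlg : StAlg) (hPt : StPt) (hI : StIso) (hDis : StDis6) (hAvg : StAvg)
    (hSph : StSph) : StTrc := by
  intro Q hQ Fr J g w hJ hg hw hw0 x v hxv
  let _ := Fr.ms
  have := Fr.prob
  have hne : Nonempty (Fin Q) := ⟨⟨0, by omega⟩⟩
  obtain ⟨T₀, hT₀⟩ := XIND.exists_tan x hxv.1
  set a₀ : E (Fin Q) := EuclideanSpace.single ⟨0, by omega⟩ 1 with ha₀
  have ha₀n : ‖a₀‖ = 1 := by
    rw [ha₀]
    simp
  set κ : ℝ := smean (fun _ : E (Fin Q) => (1 : ℝ)) with hκ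
  have hκ0 : 0 < κ := XIND.smean_one_pos (by omega)
  set κ₁ : ℝ := smean (fun z => w (inner ℝ a₀ z)) with hκ₁
  set κ₂ : ℝ := smean (fun z => w (inner ℝ a₀ z) * (1 - (inner ℝ a₀ z : ℝ) ^ 2)) with hκ₂
  obtain ⟨hJc, -⟩ := hAlg (Ix 1 Q) J hJ
  obtain ⟨p1, p2, p3, p4, p5, -⟩ := hPt (Ix 1 Q) J g hJ hg
  -- tangent isometries along the frames
  have hn : ∀ ω, ‖Fr.A ω x‖ = 1 := fun ω => by rw [LinearIsometry.norm_map, hxv.1]
  have ht : ∀ ω, IsTan (Fr.A ω x) ((Fr.A ω).comp T₀) := by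
    intro ω z
    have h2 : inner ℝ (Fr.A ω x) (Fr.A ω (T₀ z)) = inner ℝ x (T₀ z) :=
      (Fr.A ω).inner_map_map _ _
    exact h2.trans (hT₀ z)
  have hwc : Continuous (fun z : E (Ix 1 Q) × E (Ix 1 Q) => w (inner ℝ (J z.1) z.2)) :=
    hw.comp ((hJc.comp continuous_fst).inner continuous_snd)
  -- the two integrals
  have k1 : κ * ∫ ω, w (inner ℝ (J (Fr.A ω x)) (Fr.A ω v)) ∂Fr.μ = κ₁ := by
    have h1 := hDis Q hQ Fr (fun z => w (inner ℝ (J z.1) z.2)) hwc.continuousOn x v T₀ hxv hT₀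
    refine h1.trans ?_
    have h2 : ∀ ω, smean (fun z => w (inner ℝ (J (Fr.A ω x)) (Fr.A ω (T₀ z)))) = κ₁ := fun ω =>
      (inner1 hPt hI hSph hQ hJ hg hw a₀ ha₀n (hn ω) (ht ω)).2
    show ∫ ω, smean (fun z => w (inner ℝ (J (Fr.A ω x)) (Fr.A ω (T₀ z)))) ∂Fr.μ = κ₁
    simp only [h2]
    rw [integral_const, probReal_univ, one_smul]
  have k2 : κ * ∫ ω, w (inner ℝ (J (Fr.A ω x)) (Fr.A ω v)) *
      quo g J (Fr.A ω x) (Fr.A ω v) ∂Fr.μ =
      κ₂ / ((Q : ℝ) - 1) * ∫ ω, tr g J (Fr.A ω x) ∂Fr.μ := by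
    have hc : ContinuousOn (fun z : E (Ix 1 Q) × E (Ix 1 Q) =>
        w (inner ℝ (J z.1) z.2) * quo g J z.1 z.2) {z | ON z.1 z.2} :=
      hwc.continuousOn.mul (p5.mono fun z hz => hz.1)
    have h1 := hDis Q hQ Fr (fun z => w (inner ℝ (J z.1) z.2) * quo g J z.1 z.2) hc x v T₀ hxv hT₀
    refine h1.trans ?_
    have h2 : ∀ ω, smean (fun z => w (inner ℝ (J (Fr.A ω x)) (Fr.A ω (T₀ z))) *
        quo g J (Fr.A ω x) (Fr.A ω (T₀ z))) = tr g J (Fr.A ω x) / ((Q : ℝ) - 1) * κ₂ := fun ω =>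
      (inner1 hPt hI hSph hQ hJ hg hw a₀ ha₀n (hn ω) (ht ω)).1
    show ∫ ω, smean (fun z => w (inner ℝ (J (Fr.A ω x)) (Fr.A ω (T₀ z))) *
        quo g J (Fr.A ω x) (Fr.A ω (T₀ z))) ∂Fr.μ = _
    simp only [h2]
    rw [← integral_const_mul]
    congr 1
    funext ω
    ring
  -- comparison of the constants
  have hcw : Continuous (fun z : Metric.sphere (0 : E (Fin Q)) 1 => w (inner ℝ a₀ (z : E (Fin Q)))) :=
    hw.comp (continuous_const.inner continuous_subtype_val)
  have hcw2 : Continuous (fun z : Metric.sphere (0 : E (Fin Q)) 1 =>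
      w (inner ℝ a₀ (z : E (Fin Q))) * (1 - (inner ℝ a₀ (z : E (Fin Q)) : ℝ) ^ 2)) :=
    hcw.mul (continuous_const.sub ((continuous_const.inner continuous_subtype_val).pow 2))
  have k3 : κ₂ ≤ κ₁ := by
    rw [hκ₂, hκ₁]
    unfold smean
    refine integral_mono ?_ ?_ fun z => ?_
    · exact hcw2.integrable_of_hasCompactSupport (HasCompactSupport.of_compactSpace _)
    · exact hcw.integrable_of_hasCompactSupport (HasCompactSupport.of_compactSpace _)
    · refine mul_le_of_le_one_right (hw0 _) ?_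
      have := sq_nonneg (inner ℝ a₀ (z : E (Fin Q)) : ℝ)
      linarith
  -- the trace
  have htr0 : ∀ y : E (Ix 1 Q), ‖y‖ = 1 → 0 ≤ tr g J y := by
    intro y hy
    unfold tr
    refine Finset.sum_nonneg fun i _ => p3 _ _ hy ?_
    unfold tang
    rw [inner_sub_right, inner_smul_right, real_inner_self_eq_norm_sq, hy, one_pow, mul_one,
      sub_self]
  have htrc : ContinuousOn (tr g J) (Metric.sphere (0 : E (Ix 1 Q)) 1) := by
    unfold tr
    refine continuousOn_finsetSum _ fun i _ => ?_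
    have h1 : ContinuousOn (fun y : E (Ix 1 Q) => (y, tang y (ei i)))
        (Metric.sphere (0 : E (Ix 1 Q)) 1) := by
      unfold tang
      fun_prop
    exact p5.comp h1 fun y hy => mem_sphere_zero_iff_norm.1 hy
  have hs1 : 0 < sInt (ι := Ix 1 Q) (fun _ => 1) := by
    have hn2 : Nonempty (Ix 1 Q) := ⟨Sum.inl 0⟩
    have hn3 : Nontrivial (E (Ix 1 Q)) := by
      refine ⟨⟨EuclideanSpace.single (Sum.inl 0) 1, 0, ?_⟩⟩
      intro h
      have := congrArg (fun z : E (Ix 1 Q) => ‖z‖) h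
      simp at this
    unfold sInt
    rw [integral_const, smul_eq_mul, mul_one]
    rw [Measure.real, ENNReal.toReal_pos_iff]
    constructor
    · rw [Measure.toSphere_apply_univ]
      refine ENNReal.mul_pos ?_ ?_
      · simp
      · exact (Metric.measure_ball_pos volume (0 : E (Ix 1 Q)) one_pos).ne'
    · exact measure_lt_top _ _
  have k4 : sInt (ι := Ix 1 Q) (fun _ => 1) * ∫ ω, tr g J (Fr.A ω x) ∂Fr.μ = sInt (tr g J) :=
    hAvg Q hQ Fr (tr g J) htrc x hxv.1
  have hQ1 : (0 : ℝ) < (Q : ℝ) - 1 := by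
    have : (2 : ℝ) ≤ Q := by exact_mod_cast hQ
    linarith
  have k5 : energy g J = (∫ ω, tr g J (Fr.A ω x) ∂Fr.μ) / ((Q : ℝ) - 1) := by
    have hcard : ((Fintype.card (Ix 1 Q) : ℝ) - 2) = (Q : ℝ) - 1 := by
      rw [Fintype.card_sum, Fintype.card_fin, Fintype.card_fin]
      push_cast
      ring
    unfold energy
    rw [hcard, ← k4]
    field_simp
  have k6 : 0 ≤ energy g J := by
    rw [k5]
    exact div_nonneg (integral_nonneg fun ω => htr0 _ (hn ω)) hQ1.le
  have k7 : κ * ∫ ω, w (inner ℝ (J (Fr.A ω x)) (Fr.A ω v)) *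
      quo g J (Fr.A ω x) (Fr.A ω v) ∂Fr.μ ≤
      κ * ((∫ ω, w (inner ℝ (J (Fr.A ω x)) (Fr.A ω v)) ∂Fr.μ) * energy g J) := by
    rw [k2, ← mul_assoc, k1]
    calc κ₂ / ((Q : ℝ) - 1) * ∫ ω, tr g J (Fr.A ω x) ∂Fr.μ = κ₂ * energy g J := by
          rw [k5]
          ring
      _ ≤ κ₁ * energy g J := mul_le_mul_of_nonneg_right k3 k6
  exact le_of_mul_le_mul_left k7 hκ0

end Pool.Agent.Work.MP_02f065_gt.HS
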