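import Pool.Agent.Work.MP_02f065_gt.HS.StmtsK

/-!
MP_02f065_gt, block HS, item Uni: unitary bases.
-/

open MeasureTheory Set Filter Topology

noncomputable section

namespace Pool.Agent.Work.MP_02f065_gt.HS

open Pool.Agent.Work.MP_02f065_gt.RPn Pool.Agent.Work.MP_02f065_gt.Cvx
open Pool.Agent.Work.MP_02f065_gt.FR

namespace XUni

variable {ι : Type} [Fintype ι]

/-- the first two conditions of `IsUni` -/
structure Part {l : ℕ} (J : E ι → E ι) (e : Fin l → E ι) : Prop where
  on : ∀ i j, (inner ℝ (e i) (e j) : ℝ) = if i = j then 1 else 0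
  onJ : ∀ i j, (inner ℝ (J (e i)) (e j) : ℝ) = 0

/-- the real family of a unitary family -/
def fam {l : ℕ} (J : E ι → E ι) (e : Fin l → E ι) : Fin l ⊕ Fin l → E ι := Sum.elim e (fun j => J (e j))

variable {J : E ι → E ι}

lemma orth {l : ℕ} {e : Fin l → E ι} (h : Part J e)
    (hJJ : ∀ x y : E ι, (inner ℝ (J x) (J y) : ℝ) = inner ℝ x y) : Orthonormal ℝ (fam J e) := by
  rw [orthonormal_iff_ite]
  rintro (i | i) (j | j)
  · simp only [fam, Sum.elim_inl, h.on, Sum.inl.injEq]
  · simp only [fam, Sum.elim_inl, Sum.elim_inr, reduceCtorEq, if_false]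
    rw [real_inner_comm]
    exact h.onJ j i
  · simp only [fam, Sum.elim_inl, Sum.elim_inr, reduceCtorEq, if_false]
    exact h.onJ i j
  · simp only [fam, Sum.elim_inr, hJJ, h.on, Sum.inr.injEq]

lemma step {l k : ℕ} {e : Fin l → E ι} (h : Part J e) (hl : l < k) (hk : Fintype.card ι = 2 * k)
    (hJ : ∀ x y : E ι, inner ℝ (J x) y = -(inner ℝ x (J y) : ℝ)) (hJ0 : ∀ x : E ι, inner ℝ x (J x) = 0) :
    ∃ v : E ι, Part J (Fin.snoc e v : Fin (l + 1) → E ι) := by
  classical
  set S : Submodule ℝ (E ι) := Submodule.span ℝ (Set.range (fam J e)) with hS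
  have hfr : Module.finrank ℝ S ≤ l + l := by
    have := finrank_range_le_card (R := ℝ) (fam J e)
    simpa [Set.finrank] using this
  have hne : Sᗮ ≠ ⊥ := by
    intro hb
    have h1 := Submodule.finrank_add_finrank_orthogonal S
    rw [hb, finrank_bot, add_zero, finrank_euclideanSpace, hk] at h1
    omega
  obtain ⟨w, hw, hw0⟩ := Submodule.exists_mem_ne_zero_of_ne_bot hne
  have hn : ‖w‖ ≠ 0 := norm_ne_zero_iff.2 hw0
  set v : E ι := ‖w‖⁻¹ • w with hv
  have hvS : v ∈ Sᗮ := Submodule.smul_mem _ _ hw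
  have hv1 : ‖v‖ = 1 := by rw [hv, norm_smul, norm_inv, norm_norm, inv_mul_cancel₀ hn]
  have ha : ∀ i, (inner ℝ (fam J e i) v : ℝ) = 0 := fun i =>
    (Submodule.mem_orthogonal S v).1 hvS _ (Submodule.subset_span ⟨i, rfl⟩)
  have h1 : ∀ i, (inner ℝ (e i) v : ℝ) = 0 := fun i => ha (Sum.inl i)
  have h2 : ∀ i, (inner ℝ (J (e i)) v : ℝ) = 0 := fun i => ha (Sum.inr i)
  refine ⟨v, ?_, ?_⟩
  · intro i j
    refine Fin.lastCases ?_ (fun i => ?_) i
    · refine Fin.lastCases ?_ (fun j => ?_) j
      · simp only [Fin.snoc_last, if_true]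
        rw [real_inner_self_eq_norm_sq, hv1]
        norm_num
      · simp only [Fin.snoc_last, Fin.snoc_castSucc]
        rw [real_inner_comm, h1 j, if_neg (Fin.castSucc_lt_last j).ne']
    · refine Fin.lastCases ?_ (fun j => ?_) j
      · simp only [Fin.snoc_last, Fin.snoc_castSucc]
        rw [h1 i, if_neg (Fin.castSucc_lt_last i).ne]
      · simp only [Fin.snoc_castSucc, h.on, Fin.castSucc_inj]
  · intro i j
    refine Fin.lastCases ?_ (fun i => ?_) i
    · refine Fin.lastCases ?_ (fun j => ?_) j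
      · simp only [Fin.snoc_last]
        rw [real_inner_comm]
        exact hJ0 v
      · simp only [Fin.snoc_last, Fin.snoc_castSucc]
        rw [hJ, real_inner_comm, h2 j, neg_zero]
    · refine Fin.lastCases ?_ (fun j => ?_) j
      · simp only [Fin.snoc_last, Fin.snoc_castSucc]
        exact h2 i
      · simp only [Fin.snoc_castSucc]
        exact h.onJ i j

end XUni

open XUni in
theorem hs_Uni (hAlg : StAlg) : StUni := by
  classical
  intro ι _ J k hJ hk
  obtain ⟨_, _, hskew, hiso, _⟩ := hAlg ι J hJ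
  constructor
  · intro x hx
    have hk1 : 1 ≤ k := by
      by_contra hcon
      have h0 : Fintype.card ι = 0 := by omega
      have : IsEmpty ι := Fintype.card_eq_zero_iff.1 h0
      have hx0 : x = 0 := Subsingleton.elim _ _
      rw [hx0, norm_zero] at hx
      exact zero_ne_one hx
    have key : ∀ l : ℕ, 1 ≤ l → l ≤ k → ∃ e : Fin l → E ι, Part J e ∧ ∃ j, e j = x := by
      intro l hl
      induction l, hl using Nat.le_induction with
      | base =>
        intro _
        refine ⟨fun _ => x, ⟨fun i j => ?_, fun i j => ?_⟩, 0, rfl⟩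
        · rw [if_pos (Subsingleton.elim i j), real_inner_self_eq_norm_sq, hx]
          norm_num
        · rw [real_inner_comm]
          exact hJ.tangent x
      | succ l hl ih =>
        intro hlk
        obtain ⟨e, he, j, hj⟩ := ih (by omega)
        obtain ⟨v, hv⟩ := step he (show l < k by omega) hk hskew hJ.tangent
        exact ⟨_, hv, j.castSucc, by rw [Fin.snoc_castSucc]; exact hj⟩
    obtain ⟨e, he, hex⟩ := key k hk1 le_rfl
    exact ⟨e, ⟨he.on, he.onJ, hk⟩, hex⟩
  · intro e he x
    have ho : Orthonormal ℝ (fam J e) := orth ⟨he.on, he.onJ⟩ hiso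
    have hcard : Fintype.card (Fin k ⊕ Fin k) = Module.finrank ℝ (E ι) := by
      rw [finrank_euclideanSpace, hk, Fintype.card_sum, Fintype.card_fin]
      omega
    have hsp : Submodule.span ℝ (Set.range (fam J e)) = ⊤ := ho.linearIndependent.span_eq_top_of_card_eq_finrank' hcard
    have h1 := (OrthonormalBasis.mk ho hsp.ge).sum_repr' x
    rw [Fintype.sum_sum_type] at h1
    simp only [OrthonormalBasis.coe_mk, fam, Sum.elim_inl, Sum.elim_inr] at h1
    rw [Finset.sum_add_distrib]
    exact h1.symm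

end Pool.Agent.Work.MP_02f065_gt.HS
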