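import Pool.Agent.Work.MP_02f065_gt.HS.Stmts

/-!
MP_02f065_gt, block HS, item Unif: uniformity
-/

set_option autoImplicit false

open MeasureTheory Set Filter Topology

noncomputable section

namespace Pool.Agent.Work.MP_02f065_gt.HS

open Pool.Agent.Work.MP_02f065_gt.RPn Pool.Agent.Work.MP_02f065_gt.Cvx
open Pool.Agent.Work.MP_02f065_gt.FR

namespace XUnif

variable {ι : Type} [Fintype ι]

/-- The set of orthonormal pairs. -/
theorem closed_ON : IsClosed {z : E ι × E ι | ON z.1 z.2} := by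
  have h1 : IsClosed {z : E ι × E ι | ‖z.1‖ = 1} :=
    isClosed_eq (continuous_norm.comp continuous_fst) continuous_const
  have h2 : IsClosed {z : E ι × E ι | ‖z.2‖ = 1} :=
    isClosed_eq (continuous_norm.comp continuous_snd) continuous_const
  have h3 : IsClosed {z : E ι × E ι | (inner ℝ z.1 z.2 : ℝ) = 0} :=
    isClosed_eq (continuous_fst.inner continuous_snd) continuous_const
  exact h1.inter (h2.inter h3)

theorem compact_ON : IsCompact {z : E ι × E ι | ON z.1 z.2} := by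
  have h1 : IsCompact ((Metric.sphere (0 : E ι) 1) ×ˢ (Metric.sphere (0 : E ι) 1)) :=
    (isCompact_sphere (0 : E ι) 1).prod (isCompact_sphere (0 : E ι) 1)
  refine h1.of_isClosed_subset closed_ON ?_
  rintro z ⟨hx, hy, _⟩
  exact ⟨mem_sphere_zero_iff_norm.2 hx, mem_sphere_zero_iff_norm.2 hy⟩

end XUnif

/-- Item Unif. -/
theorem hs_Unif (hDisp : StDisp) : StUnif := by
  intro ι _ J g hJ hg hL hC δ hδ
  obtain ⟨D, hDc, hDe, hDu⟩ := hDisp ι J g hJ hg hL
  have hJc : Continuous J := (hJ.linear.mk' J).continuous_of_finiteDimensional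
  have hT : IsCompact ({z : E ι × E ι | ON z.1 z.2} ∩ (fun z : E ι × E ι => |D z.1 z.2|) ⁻¹' Ici δ) := by
    refine XUnif.compact_ON.of_isClosed_subset ?_ inter_subset_left
    exact ContinuousOn.preimage_isClosed_of_isClosed (continuous_abs.comp_continuousOn hDc)
      XUnif.closed_ON isClosed_Ici
  have hfin : ∀ ε : ℝ, (∀ x y : E ι, ON x y → |(inner ℝ (J x) y : ℝ)| ≤ ε → |D x y| < δ) →
      ∀ x y : E ι, ON x y → |(inner ℝ (J x) y : ℝ)| ≤ ε → ∃ τ, IsLift g J x y τ ∧ |τ Real.pi| ≤ δ := by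
    intro ε h x y hxy hε
    obtain ⟨τ, h1, h2⟩ := hDe x y hxy
    refine ⟨τ, h1, ?_⟩
    rw [h2]
    exact (h x y hxy hε).le
  rcases Set.eq_empty_or_nonempty
    ({z : E ι × E ι | ON z.1 z.2} ∩ (fun z : E ι × E ι => |D z.1 z.2|) ⁻¹' Ici δ) with he | hne
  · refine ⟨1, one_pos, hfin 1 fun x y hxy _ => ?_⟩
    by_contra hcon
    have h1 : (x, y) ∈ ({z : E ι × E ι | ON z.1 z.2} ∩
        (fun z : E ι × E ι => |D z.1 z.2|) ⁻¹' Ici δ) := ⟨hxy, not_lt.1 hcon⟩
    rw [he] at h1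
    exact h1
  · have hc : ContinuousOn (fun z : E ι × E ι => |(inner ℝ (J z.1) z.2 : ℝ)|)
        ({z : E ι × E ι | ON z.1 z.2} ∩ (fun z : E ι × E ι => |D z.1 z.2|) ⁻¹' Ici δ) :=
      (continuous_abs.comp ((hJc.comp continuous_fst).inner continuous_snd)).continuousOn
    obtain ⟨z, hz, hmin⟩ := hT.exists_isMinOn hne hc
    have hz0 : 0 < |(inner ℝ (J z.1) z.2 : ℝ)| := by
      rw [abs_pos]
      intro h0
      obtain ⟨h1, h2, h3⟩ := hz.1
      obtain ⟨τ, h4, h5⟩ := hC z.1 z.2 ⟨h1, h2, h3, h0⟩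
      have h6 := hDu z.1 z.2 τ hz.1 h4
      rw [h5] at h6
      have h7 : δ ≤ |D z.1 z.2| := hz.2
      rw [← h6, abs_zero] at h7
      exact absurd h7 (not_le.2 hδ)
    refine ⟨|(inner ℝ (J z.1) z.2 : ℝ)| / 2, half_pos hz0, hfin _ fun x y hxy hle => ?_⟩
    by_contra hcon
    have h1 : (x, y) ∈ ({z : E ι × E ι | ON z.1 z.2} ∩
        (fun z : E ι × E ι => |D z.1 z.2|) ⁻¹' Ici δ) := ⟨hxy, not_lt.1 hcon⟩
    have h2 : |(inner ℝ (J z.1) z.2 : ℝ)| ≤ |(inner ℝ (J x) y : ℝ)| := isMinOn_iff.1 hmin (x, y) h1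
    linarith

end Pool.Agent.Work.MP_02f065_gt.HS
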