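import Pool.Agent.Work.MP_02f065_gt.HS.Stmts

/-!
MP_02f065_gt, block HS, item VolH: the volume and the fibres.
-/

open MeasureTheory Set Filter Topology

noncomputable section

namespace Pool.Agent.Work.MP_02f065_gt.HS

open Pool.Agent.Work.MP_02f065_gt.RPn Pool.Agent.Work.MP_02f065_gt.Cvx
open Pool.Agent.Work.MP_02f065_gt.FR

namespace XVolH

lemma int_one_pos (Q : ℕ) : 0 < sInt (ι := Ix 1 Q) (fun _ => 1) := by
  have : Nonempty (Ix 1 Q) := ⟨Sum.inl 0⟩
  have : Nontrivial (E (Ix 1 Q)) := by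
    refine ⟨⟨EuclideanSpace.single (Sum.inl 0) 1, 0, ?_⟩⟩
    intro h
    have := congrArg (fun z : E (Ix 1 Q) => ‖z‖) h
    simp at this
  unfold sInt
  rw [integral_const, smul_eq_mul, mul_one]
  rw [Measure.real, ENNReal.toReal_pos_iff]
  constructor
  · rw [Measure.toSphere_apply_univ]
    refine ENNReal.mul_pos ?_ ?_
    · simp
    · exact (Metric.measure_ball_pos volume (0 : E (Ix 1 Q)) one_pos).ne'
  · exact measure_lt_top _ _

lemma isNorm_norm (ι : Type) [Fintype ι] : IsNorm (fun x : E ι => ‖x‖) where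
  tri x y := norm_add_le x y
  hom r x := by
    rw [norm_smul, Real.norm_eq_abs]
  pos x hx := norm_pos_iff.2 hx
  diff := fun x hx => (contDiffAt_norm ℝ hx).contDiffWithinAt

lemma inside_norm (ι : Type) [Fintype ι] : Inside 0 (fun x : E ι => ‖x‖) := by
  intro x hx
  change 0 < ‖x‖ ^ 2 + 0
  rw [hx]
  norm_num

variable {ι : Type} [Fintype ι]

lemma integrable {a : E ι → ℝ} (ha : ContinuousOn a (Metric.sphere (0 : E ι) 1)) :
    Integrable (fun x : Metric.sphere (0 : E ι) 1 => a x) ((volume : Measure (E ι)).toSphere) := by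
  have hc : Continuous (fun x : Metric.sphere (0 : E ι) 1 => a x) :=
    continuousOn_iff_continuous_restrict.mp ha
  exact hc.integrable_of_hasCompactSupport (HasCompactSupport.of_compactSpace _)

lemma mono {a b : E ι → ℝ} (ha : ContinuousOn a (Metric.sphere (0 : E ι) 1))
    (hb : ContinuousOn b (Metric.sphere (0 : E ι) 1)) (h : ∀ x : E ι, ‖x‖ = 1 → a x ≤ b x) :
    sInt a ≤ sInt b :=
  integral_mono (integrable ha) (integrable hb) fun y => h y (by simp)

lemma congr {a b : E ι → ℝ} (h : ∀ x : E ι, ‖x‖ = 1 → a x = b x) : sInt a = sInt b :=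
  integral_congr_ae (Eventually.of_forall fun y => h y (by simp))

lemma cmul (c : ℝ) (a : E ι → ℝ) : sInt (fun x => c * a x) = c * sInt a :=
  integral_const_mul _ _

end XVolH

open XVolH in
/-- Item VolH. -/
theorem hs_VolH (hAlg : StAlg) (hPt : StPt) (hQm : StQm) (hQi : StQi) (hFlo : StFloF)
    (hCir : StCirF) (hVol : StVol) : StVolH := by
  intro Q hQ J g L hJ hg hL hS
  have hne : Nonempty (Ix 1 Q) := ⟨Sum.inl 0⟩
  have hcard : Fintype.card (Ix 1 Q) = Q + 1 := by
    simp [Fintype.card_sum, add_comm]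
  obtain ⟨-, hfr, -⟩ := hAlg (Ix 1 Q) J hJ
  obtain ⟨p1, -, -, -, -, -, p2, -⟩ := hPt (Ix 1 Q) J g hJ hg.metric
  obtain ⟨-, hv2, -, -⟩ := hVol (Ix 1 Q) (fun x => ‖x‖) 0 (isNorm_norm _)
    (inside_norm _) (by rw [hcard]; omega)
  have hpos := int_one_pos Q
  have hL' : 0 < L / Real.pi := div_pos hL Real.pi_pos
  set f : E (Ix 1 Q) → ℝ := fun x => Real.sqrt (g x (J x) (J x)) with hf
  have hfc : ContinuousOn f (Metric.sphere (0 : E (Ix 1 Q)) 1) := p2.sqrt
  have hdp : ∀ x : E (Ix 1 Q), ‖x‖ = 1 → 0 < dens g J x := fun x hx =>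
    (hQm _ J g x hJ hg.metric hx).2.1
  have hdc : ContinuousOn (dens g J) (Metric.sphere (0 : E (Ix 1 Q)) 1) :=
    (hQm _ J g (EuclideanSpace.single (Sum.inl 0) 1) hJ hg.metric (by simp)).2.2
  obtain ⟨hm1, -, -⟩ := hFlo (Ix 1 Q) 1 (fun _ => J) hfr 0 f hfc
  obtain ⟨-, hm2, -⟩ := hFlo (Ix 1 Q) 1 (fun _ => J) hfr 0 (fun x => f x * dens g J x)
    (hfc.mul hdc)
  have h1 : sInt (volDensity g) = sInt (fun x => f x * dens g J x) := by
    refine congr fun x hx => ?_
    have h0 : f x ≠ 0 := (Real.sqrt_pos.mpr (p1 x hx)).ne'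
    show volDensity g x = f x * (volDensity g x / f x)
    rw [mul_div_cancel₀ _ h0]
  have h2 : sInt (circMean J (fun x => f x * dens g J x)) =
      sInt (fun x => circMean J f x * dens g J x) := by
    refine congr fun x hx => ?_
    unfold circMean
    have h3 : ∀ t, (fun x => f x * dens g J x) (circ J x t) = f (circ J x t) * dens g J x := by
      intro t
      have h4 : dens g J (circ J x t) = dens g J x := hQi _ J g hJ hg x t hx
      show f (circ J x t) * dens g J (circ J x t) = _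
      rw [h4]
    rw [intervalIntegral.integral_congr (g := fun t => f (circ J x t) * dens g J x)
      (fun t _ => h3 t), intervalIntegral.integral_mul_const]
    ring
  have h3 : L / Real.pi * sInt (dens g J) ≤ sInt (fun x => circMean J f x * dens g J x) := by
    rw [← cmul]
    refine mono (continuousOn_const.mul hdc) (hm1.mul hdc) fun x hx => ?_
    exact mul_le_mul_of_nonneg_right
      (hCir (Ix 1 Q) 1 (fun _ => J) g L hfr hg.metric hS 0 x hx) (hdp x hx).le
  have h4 : 0 < sInt (dens g J) := by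
    obtain ⟨x, hx, hx'⟩ := (isCompact_sphere (0 : E (Ix 1 Q)) 1).exists_isMinOn
      ⟨EuclideanSpace.single (Sum.inl 0) 1, by simp⟩ hdc
    have hc : 0 < dens g J x := hdp x (by simpa using hx)
    have h5 := mono (a := fun _ => dens g J x * 1) (b := dens g J) continuousOn_const hdc
      (fun y hy => by
        rw [mul_one]
        exact hx' (show y ∈ Metric.sphere (0 : E (Ix 1 Q)) 1 by simpa using hy))
    rw [cmul] at h5
    exact (mul_pos hc hpos).trans_le h5
  have hround : vol (RPn.round : RPn.Field (Ix 1 Q)) =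
      (1 / 2) * sInt (ι := Ix 1 Q) (fun _ => 1) := by
    unfold vol sInt
    congr 1
    refine integral_congr_ae (Eventually.of_forall fun y => ?_)
    exact hv2 y (by simp)
  have hvol : vol g = (1 / 2) * sInt (volDensity g) := rfl
  refine ⟨?_, div_pos h4 hpos⟩
  rw [hround, hvol, mul_div_mul_left _ _ (by norm_num : (1 / 2 : ℝ) ≠ 0), ratio, ← mul_div_assoc]
  refine div_le_div_of_nonneg_right ?_ hpos.le
  rw [h1, ← hm2, h2]
  exact h3

end Pool.Agent.Work.MP_02f065_gt.HS
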