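import Pool.Agent.Work.MP_02f065_gt.FR.Final
import Pool.Agent.Work.MP_02f065_gt.HS.I_Alg
import Pool.Agent.Work.MP_02f065_gt.HS.I_Gc
import Pool.Agent.Work.MP_02f065_gt.HS.I_Pt
import Pool.Agent.Work.MP_02f065_gt.HS.I_Lip
import Pool.Agent.Work.MP_02f065_gt.HS.I_OdeEx
import Pool.Agent.Work.MP_02f065_gt.HS.I_OdeDe
import Pool.Agent.Work.MP_02f065_gt.HS.I_Disp
import Pool.Agent.Work.MP_02f065_gt.HS.I_Rev
import Pool.Agent.Work.MP_02f065_gt.HS.I_Ivt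
import Pool.Agent.Work.MP_02f065_gt.HS.I_LenH
import Pool.Agent.Work.MP_02f065_gt.HS.I_Qm
import Pool.Agent.Work.MP_02f065_gt.HS.I_Qi
import Pool.Agent.Work.MP_02f065_gt.HS.I_Qr
import Pool.Agent.Work.MP_02f065_gt.HS.I_VolH
import Pool.Agent.Work.MP_02f065_gt.HS.I_Sph
import Pool.Agent.Work.MP_02f065_gt.HS.I_Trc
import Pool.Agent.Work.MP_02f065_gt.HS.I_Unif
import Pool.Agent.Work.MP_02f065_gt.HS.I_MeanH
import Pool.Agent.Work.MP_02f065_gt.HS.I_MainH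
import Pool.Agent.Work.MP_02f065_gt.HS.I_Std
import Pool.Agent.Work.MP_02f065_gt.HS.I_ExR
import Pool.Agent.Work.MP_02f065_gt.HS.I_Pin
import Pool.Agent.Work.MP_02f065_gt.HS.I_ExP
import Pool.Agent.Work.MP_02f065_gt.HS.I_Uni
import Pool.Agent.Work.MP_02f065_gt.HS.I_Pot
import Pool.Agent.Work.MP_02f065_gt.HS.I_Lg
import Pool.Agent.Work.MP_02f065_gt.HS.I_Cx
import Pool.Agent.Work.MP_02f065_gt.HS.I_Ker
import Pool.Agent.Work.MP_02f065_gt.HS.I_Nl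
import Pool.Agent.Work.MP_02f065_gt.HS.I_Dd
import Pool.Agent.Work.MP_02f065_gt.HS.I_Cr
import Pool.Agent.Work.MP_02f065_gt.HS.I_Con
import Pool.Agent.Work.MP_02f065_gt.HS.I_Rc
import Pool.Agent.Work.MP_02f065_gt.HS.I_Blk
import Pool.Agent.Work.MP_02f065_gt.HS.I_Kdc
import Pool.Agent.Work.MP_02f065_gt.HS.I_Pol
import Pool.Agent.Work.MP_02f065_gt.HS.I_Mass
import Pool.Agent.Work.MP_02f065_gt.HS.I_Lap
import Pool.Agent.Work.MP_02f065_gt.HS.I_Km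
import Pool.Agent.Work.MP_02f065_gt.HS.I_Ke

/-! Block HS of MP_02f065_gt: all items put together. -/

open MeasureTheory Set Filter Topology

noncomputable section

namespace Pool.Agent.Work.MP_02f065_gt.HS

open Pool.Agent.Work.MP_02f065_gt.RPn Pool.Agent.Work.MP_02f065_gt.Cvx
open Pool.Agent.Work.MP_02f065_gt.FR

theorem Alg_h : StAlg := hs_Alg
theorem Gc_h : StGc := hs_Gc Alg_h
theorem Pt_h : StPt := hs_Pt Alg_h
theorem Lip_h : StLip := hs_Lip Pt_h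
theorem Disp_h : StDisp := hs_Disp Alg_h Gc_h Pt_h Lip_h hs_OdeEx hs_OdeDe
theorem Rev_h : StRev := hs_Rev Alg_h Gc_h
theorem Ivt_h : StIvt := hs_Ivt Alg_h Gc_h Disp_h Rev_h
theorem LenH_h : StLenH := hs_LenH Alg_h Gc_h Pt_h itemA2 itemA3
theorem Qm_h : StQm := hs_Qm Alg_h Pt_h itemBD3
theorem Qi_h : StQi := hs_Qi Alg_h Qm_h
theorem Qr_h : StQr := hs_Qr Alg_h Qm_h VdF_holds MetF_holds
theorem VolH_h : StVolH := hs_VolH Alg_h Pt_h Qm_h Qi_h FloF_holds CirF_holds Vol_holds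
theorem Sph_h : StSph := hs_Sph Iso_holds
theorem Trc_h : StTrc := hs_Trc Alg_h Pt_h Iso_holds iDIS6 (iAVG Iso_holds) Sph_h
theorem Unif_h : StUnif := hs_Unif Disp_h
theorem MeanH_h : StMeanH :=
  hs_MeanH Alg_h Gc_h Pt_h LenH_h Unif_h Trc_h PosF_holds (iFR itemHaar)
theorem MainH_h : StMainH := hs_MainH Gc_h VolH_h Ivt_h LenH_h MeanH_h A6_holds
theorem Std_h : StStd := hs_Std Alg_h Gc_h
theorem ExR_h : StExR := hs_ExR Alg_h Gc_h Qr_h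
theorem Pin_h : StPin := hs_Pin Alg_h Gc_h
theorem ExP_h : StExP := hs_ExP Alg_h Qr_h
theorem Uni_h : StUni := hs_Uni Alg_h
theorem Pot_h : StPot := hs_Pot Alg_h
theorem Lg_h : StLg := hs_Lg Alg_h
theorem Cx_h : StCx := hs_Cx Alg_h
theorem Ker_h : StKer := hs_Ker Alg_h Uni_h Pot_h Lg_h
theorem Con_h : StCon := hs_Con Lg_h Cx_h Ker_h hs_Nl hs_Dd hs_Cr
theorem Rc_h : StRc := hs_Rc Alg_h
theorem Blk_h : StBlk := hs_Blk Alg_h Pot_h Lg_h Rc_h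
theorem Kdc_h : StKdc := hs_Kdc Alg_h Pot_h
theorem Mass_h : StMass := hs_Mass Alg_h Uni_h Pot_h Lg_h Con_h Blk_h Kdc_h hs_Pol
theorem Lap_h : StLap := hs_Lap Alg_h Pot_h hs_Pol
theorem Km_h : StKm := hs_Km Alg_h Pot_h
theorem Ke_h : StKe := hs_Ke Qm_h Pot_h Km_h Mass_h Lap_h

end Pool.Agent.Work.MP_02f065_gt.HS
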