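import Pool.Agent.Work.MP_02f065_gt.FR.Defs

/-!
MP_02f065_gt, block HS: metrics on RP^n, n = 2m+1, for which the Hopf map onto CP^m is a
Riemannian submersion.
-/

open MeasureTheory Set

noncomputable section

namespace Pool.Agent.Work.MP_02f065_gt.HS

open Pool.Agent.Work.MP_02f065_gt.RPn Pool.Agent.Work.MP_02f065_gt.FR

variable {ι : Type} [Fintype ι]

/-- A complex structure: linear, `J x` orthogonal to `x` and of the same length. -/
structure IsCpx (J : E ι → E ι) : Prop where
  linear : IsLinearMap ℝ J
  tangent : ∀ x : E ι, inner ℝ x (J x) = 0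
  norm : ∀ x : E ι, ‖J x‖ = ‖x‖

/-- The rotation `cos t + sin t J`. The Hopf circle of `x` is `{rot J t x}`. -/
def rot (J : E ι → E ι) (t : ℝ) (x : E ι) : E ι := Real.cos t • x + Real.sin t • J x

/-- The great circle `cos t x + sin t y`. -/
def gcr (x y : E ι) (t : ℝ) : E ι := Real.cos t • x + Real.sin t • y

/-- Its derivative. -/
def gcv (x y : E ι) (t : ℝ) : E ι := (-Real.sin t) • x + Real.cos t • y

/-- `(x, y)` is an orthonormal pair and `y` is orthogonal to `J x`: the great circle is orthogonal
to the Hopf circles. -/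
structure IsHor (J : E ι → E ι) (x y : E ι) : Prop where
  normx : ‖x‖ = 1
  normy : ‖y‖ = 1
  ortho : inner ℝ x y = 0
  orthoJ : inner ℝ (J x) y = 0

/-- The component of `v` along the Hopf circle, with respect to the metric `g`. -/
def theta (g : RPn.Field ι) (J : E ι → E ι) (x v : E ι) : ℝ := g x v (J x) / g x (J x) (J x)

/-- The square of the `g`-norm of `v` modulo `J x`, that is of the component of `v` which is
`g`-orthogonal to the Hopf circle: the quotient metric of CP^m if it is invariant. -/
def quo (g : RPn.Field ι) (J : E ι → E ι) (x v : E ι) : ℝ :=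
  g x v v - g x v (J x) ^ 2 / g x (J x) (J x)

/-- `g` is a metric on RP^n with Lipschitz coefficients for which the Hopf map is a Riemannian
submersion onto a metric of CP^m. -/
structure IsSubmersion (g : RPn.Field ι) (J : E ι → E ι) : Prop where
  metric : IsMetric g
  lip : ∀ v w : E ι, ∃ K : NNReal, LipschitzOnWith K (fun x => g x v w) (Metric.sphere (0 : E ι) 1)
  inv : ∀ (x v : E ι) (t : ℝ), ‖x‖ = 1 → inner ℝ x v = 0 →
    quo g J (rot J t x) (rot J t v) = quo g J x v

/-- Volume density of the quotient metric with respect to the Fubini-Study metric. -/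
def dens [DecidableEq ι] (g : RPn.Field ι) (J : E ι → E ι) (x : E ι) : ℝ :=
  volDensity g x / Real.sqrt (g x (J x) (J x))

/-- Volume of the quotient metric divided by the volume of the Fubini-Study metric. -/
def ratio [DecidableEq ι] (g : RPn.Field ι) (J : E ι → E ι) : ℝ :=
  sInt (dens g J) / sInt (ι := ι) (fun _ => 1)

/-- Length, in the quotient metric, of the closed curve in CP^m under the great circle of `(x, y)`
(the parameter interval is `[0, π]`). -/
def hlen (g : RPn.Field ι) (J : E ι → E ι) (x y : E ι) : ℝ :=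
  ∫ t in (0 : ℝ)..Real.pi, Real.sqrt (quo g J (gcr x y t) (gcv x y t))

/-- Trace of the quotient metric at `x` with respect to the Fubini-Study metric. -/
def tr [DecidableEq ι] (g : RPn.Field ι) (J : E ι → E ι) (x : E ι) : ℝ :=
  ∑ i, quo g J x (tang x (ei i))

/-- The mean of the quotient metric over all unit vectors of CP^m (normalised energy of the identity
map from the Fubini-Study metric to the quotient metric). -/
def energy [DecidableEq ι] (g : RPn.Field ι) (J : E ι → E ι) : ℝ :=
  sInt (tr g J) / (((Fintype.card ι : ℝ) - 2) * sInt (ι := ι) (fun _ => 1))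

/-- Case A: for one horizontal pair `(x, y)` all great circles of the pencil of `x` and `y` have
length at most `π (vol h / vol FS)^(1/(n-1))` in the quotient metric `h`. -/
def Pencil [DecidableEq ι] (g : RPn.Field ι) (J : E ι → E ι) : Prop :=
  ∃ x y : E ι, IsHor J x y ∧ ∀ a b : ℝ,
    (hlen g J (rot J a x) (rot J b y) / Real.pi) ^ (Fintype.card ι - 2) ≤ ratio g J

/-- `t -> rot J (τ t) (gcr x y t)` is the `g`-horizontal lift of the great circle. -/
structure IsLift (g : RPn.Field ι) (J : E ι → E ι) (x y : E ι) (τ : ℝ → ℝ) : Prop where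
  zero : τ 0 = 0
  deriv : ∀ t ∈ Icc (0 : ℝ) Real.pi, HasDerivWithinAt τ
    (-theta g J (rot J (τ t) (gcr x y t)) (rot J (τ t) (gcv x y t))) (Icc 0 Real.pi) t

/-- Every horizontal great circle has a closed `g`-horizontal lift. -/
def Closes (g : RPn.Field ι) (J : E ι → E ι) : Prop :=
  ∀ x y : E ι, IsHor J x y → ∃ τ : ℝ → ℝ, IsLift g J x y τ ∧ τ Real.pi = 0

/-- The class of metrics of the theorem. -/
def InClass [DecidableEq ι] (g : RPn.Field ι) (J : E ι → E ι) : Prop :=
  IsSubmersion g J ∧ (Pencil g J ∨ (Closes g J ∧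
    energy g J ^ (Fintype.card ι - 2) ≤ ratio g J ^ 2))

end Pool.Agent.Work.MP_02f065_gt.HS
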