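import Pool.Agent.Work.MP_02f065_gt.HS.Defs

/-!
MP_02f065_gt, block HS: explicit metrics in the class.
-/

open MeasureTheory Set

noncomputable section

namespace Pool.Agent.Work.MP_02f065_gt.HS

open Pool.Agent.Work.MP_02f065_gt.RPn Pool.Agent.Work.MP_02f065_gt.FR

variable {ι : Type} [Fintype ι]

/-- Orthogonal projection to the standard horizontal space at the unit vector `x`. -/
def hor (J : E ι → E ι) (x v : E ι) : E ι := v - (inner ℝ x v) • x - (inner ℝ (J x) v) • J x

/-- Second derivative of `φ`. -/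
def hess (φ : E ι → ℝ) (x v w : E ι) : ℝ := fderiv ℝ (fderiv ℝ φ) x v w

/-- Levi form of `φ`: `(D^2 φ (v, w) + D^2 φ (J v, J w)) / 2`, symmetrised. -/
def lev (J : E ι → E ι) (φ : E ι → ℝ) (x v w : E ι) : ℝ :=
  (hess φ x v w + hess φ x w v + hess φ x (J v) (J w) + hess φ x (J w) (J v)) / 4

/-- `φ` is the lift of a C^3 function of CP^m, and `a FS + levi form of φ` is positive definite on
the horizontal spaces: a Kähler metric of CP^m (all of them are of this form). -/
structure IsPot (J : E ι → E ι) (a : ℝ) (φ : E ι → ℝ) : Prop where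
  apos : 0 < a
  smooth : ContDiffOn ℝ 3 φ {0}ᶜ
  hom : ∀ (r : ℝ) (x : E ι), r ≠ 0 → φ (r • x) = φ x
  rot : ∀ (t : ℝ) (x : E ι), φ (rot J t x) = φ x
  pos : ∀ x v : E ι, ‖x‖ = 1 → inner ℝ x v = 0 → inner ℝ (J x) v = 0 → v ≠ 0 →
    0 < a * inner ℝ v v + lev J φ x v v

/-- The metric `f^2 theta^2 + h`, `theta v = <J x, v>`, `h` the Kähler metric of `(a, φ)`. -/
def kahler (J : E ι → E ι) (f : E ι → ℝ) (a : ℝ) (φ : E ι → ℝ) : RPn.Field ι := fun x v w =>
  f x ^ 2 * (inner ℝ (J x) v * inner ℝ (J x) w) +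
    (a * inner ℝ (hor J x v) (hor J x w) + lev J φ x (hor J x v) (hor J x w))

/-- The coefficients of `g` are Lipschitz functions. -/
def Lip (g : RPn.Field ι) : Prop :=
  ∀ v w : E ι, ∃ K : NNReal, LipschitzOnWith K (fun x => g x v w) (Metric.sphere (0 : E ι) 1)

/-- Explicit metrics. `round`: all metrics for which the Hopf map onto a round CP^m is a
Riemannian submersion. `standard`: standard horizontal spaces and small energy. `kahler`: Kähler
quotients with standard horizontal spaces and any metric of the Hopf circles. `pin`: n = 3,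
horizontal spaces invariant under the group generated by `rot J t` and `J'`, quotient conformal to
the round one, any metric of the Hopf circles. -/
inductive IsSpecial [DecidableEq ι] (J : E ι → E ι) : RPn.Field ι → Prop
  | round (g : RPn.Field ι) (ρ : ℝ) : IsMetric g → Lip g → 0 < ρ →
      (∀ x v : E ι, ‖x‖ = 1 → inner ℝ x v = 0 → quo g J x v = ρ ^ 2 * ‖hor J x v‖ ^ 2) →
      IsSpecial J g
  | standard (g : RPn.Field ι) : IsSubmersion g J →
      (∀ x v : E ι, ‖x‖ = 1 → inner ℝ x v = 0 → inner ℝ (J x) v = 0 → g x v (J x) = 0) →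
      energy g J ^ (Fintype.card ι - 2) ≤ ratio g J ^ 2 → IsSpecial J g
  | kahler (f : E ι → ℝ) (a : ℝ) (φ : E ι → ℝ) : IsFun f →
      (∃ K : NNReal, LipschitzOnWith K f (Metric.sphere (0 : E ι) 1)) → IsPot J a φ →
      IsSpecial J (kahler J f a φ)
  | pin (g : RPn.Field ι) (J' : E ι → E ι) (u : E ι → ℝ) : Fintype.card ι = 4 → IsMetric g →
      Lip g → IsCpx J' → (∀ x : E ι, J' (J x) = -J (J' x)) →
      ContinuousOn u (Metric.sphere (0 : E ι) 1) → (∀ x : E ι, ‖x‖ = 1 → 0 < u x) →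
      (∀ (x : E ι) (t : ℝ), ‖x‖ = 1 → u (rot J t x) = u x) →
      (∀ x v : E ι, ‖x‖ = 1 → inner ℝ x v = 0 → quo g J x v = u x ^ 2 * ‖hor J x v‖ ^ 2) →
      (∀ (x v : E ι) (t : ℝ), ‖x‖ = 1 → inner ℝ x v = 0 →
        theta g J (rot J t x) (rot J t v) = theta g J x v) →
      (∀ x v : E ι, ‖x‖ = 1 → inner ℝ x v = 0 → theta g J (J' x) (J' v) = -theta g J x v) →
      IsSpecial J g

end Pool.Agent.Work.MP_02f065_gt.HS
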