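import Pool.Agent.Work.MP_02f065_gt.HS.All

/-! Block HS of MP_02f065_gt: the final statement. -/

open MeasureTheory Set Filter Topology

noncomputable section

namespace Pool.Agent.Work.MP_02f065_gt.HS

open Pool.Agent.Work.MP_02f065_gt.RPn Pool.Agent.Work.MP_02f065_gt.Cvx
open Pool.Agent.Work.MP_02f065_gt.FR

namespace XFinal

/-- The dimension is even. -/
theorem even_card {ι : Type} [Fintype ι] {J : E ι → E ι} (hJ : IsCpx J) :
    ∃ k, Fintype.card ι = 2 * k := by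
  obtain ⟨-, -, -, -, h2, -⟩ := Alg_h ι J hJ
  let T : E ι →ₗ[ℝ] E ι := hJ.linear.mk' J
  have hT : T ∘ₗ T = (-1 : ℝ) • (LinearMap.id : E ι →ₗ[ℝ] E ι) := by
    ext1 x
    change J (J x) = (-1 : ℝ) • x
    rw [(h2 x).1, neg_one_smul]
  have hd := congrArg LinearMap.det hT
  rw [LinearMap.det_comp, LinearMap.det_smul, LinearMap.det_id, mul_one] at hd
  rcases Nat.even_or_odd (Fintype.card ι) with he | ho
  · obtain ⟨k, hk⟩ := he
    exact ⟨k, by omega⟩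
  · exfalso
    have hf : Module.finrank ℝ (E ι) = Fintype.card ι := finrank_euclideanSpace
    rw [hf, ho.neg_one_pow] at hd
    nlinarith [mul_self_nonneg (LinearMap.det T)]

end XFinal

theorem special {Q : ℕ} (hQ : 2 ≤ Q) {J : E (Ix 1 Q) → E (Ix 1 Q)} (hJ : IsCpx J)
    (g : RPn.Field (Ix 1 Q)) (hs : IsSpecial J g) : InClass g J := by
  have hcard : Fintype.card (Ix 1 Q) = Q + 1 := by
    simp [Fintype.card_sum, add_comm]
  cases hs with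
  | round _ ρ hm hl hρ hq =>
    obtain ⟨h1, h2⟩ := ExR_h (Ix 1 Q) J g ρ hJ (by omega) hm hl hρ hq
    exact ⟨h1, Or.inl h2⟩
  | standard _ hsub h0 he => exact ⟨hsub, Or.inr ⟨Std_h (Ix 1 Q) J g hJ h0, he⟩⟩
  | kahler f a φ hf hL hp =>
    obtain ⟨k, hk⟩ := XFinal.even_card hJ
    obtain ⟨h1, -, h3⟩ := Km_h (Ix 1 Q) J a f φ hJ hp hf hL
    exact ⟨h1, Or.inr ⟨Std_h (Ix 1 Q) J _ hJ h3,
      Ke_h (Ix 1 Q) J k a f φ hJ hk (by omega) hp hf hL⟩⟩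
  | pin _ J' u h4 hm hl hJ' hanti hcu hpu hiu hq hth hth' =>
    obtain ⟨-, -, -, -, -, hct, -⟩ := Pt_h (Ix 1 Q) J g hJ hm
    obtain ⟨h1, h2⟩ := ExP_h (Ix 1 Q) J g u hJ h4 hm hl hcu hpu hiu hq
    exact ⟨h1, Or.inr ⟨Pin_h (Ix 1 Q) J J' g hJ hJ' h4 hanti hct hm hth hth', h2⟩⟩

theorem final {Q : ℕ} (hQ : 2 ≤ Q) {J : E (Ix 1 Q) → E (Ix 1 Q)} (hJ : IsCpx J) :
    (∀ g : RPn.Field (Ix 1 Q), IsSpecial J g → InClass g J) ∧
    ∀ g : RPn.Field (Ix 1 Q), InClass g J →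
      ∃ (γ : ℝ → E (Ix 1 Q)) (l : ℝ), IsClosedGeodesic g γ l ∧
        (l / Real.pi) ^ Q ≤ vol g / vol (RPn.round : RPn.Field (Ix 1 Q)) :=
  ⟨fun g hs => special hQ hJ g hs, fun g hg => MainH_h Q hQ J g hJ hg⟩

end Pool.Agent.Work.MP_02f065_gt.HS
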