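import Pool.Agent.Work.MP_02f065_gt.HS.Stmts

/-!
# Block HS, item Ivt (helper55): a closed horizontal lift in every pencil
-/

open MeasureTheory Set Filter Topology

noncomputable section

namespace Pool.Agent.Work.MP_02f065_gt.HS

open Pool.Agent.Work.MP_02f065_gt.RPn Pool.Agent.Work.MP_02f065_gt.Cvx
open Pool.Agent.Work.MP_02f065_gt.FR

namespace XIvt

/-- a continuous function on `[0, 1]` with opposite end values has a zero -/
lemma zero_of_opp (u : ℝ → ℝ) (hu : ContinuousOn u (Icc 0 1)) (h : u 1 = -u 0) :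
    ∃ s ∈ Icc (0 : ℝ) 1, u s = 0 := by
  have h1 : uIcc (0 : ℝ) 1 = Icc 0 1 := uIcc_of_le zero_le_one
  have h2 := intermediate_value_uIcc (a := (0 : ℝ)) (b := 1) (f := u) (by rw [h1]; exact hu)
  have h3 : (0 : ℝ) ∈ uIcc (u 0) (u 1) := by
    rw [h, mem_uIcc]
    rcases le_total 0 (u 0) with h0 | h0
    · right
      constructor <;> linarith
    · left
      constructor <;> linarith
  obtain ⟨s, hs, hs'⟩ := h2 h3
  rw [h1] at hs
  exact ⟨s, hs, hs'⟩

lemma pencil {A : Type} [TopologicalSpace A] (R : ℝ → A → A)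
    (hR : Continuous (fun z : ℝ × A => R z.1 z.2)) (D : A → A → ℝ) (P : A → A → Prop)
    (hD : ContinuousOn (fun z : A × A => D z.1 z.2) {z | P z.1 z.2}) (x y : A)
    (hP : ∀ a b, P (R a x) (R b y)) (c d : ℝ) (h : D (R c x) (R d y) = -D (R 0 x) (R 0 y)) :
    ∃ s : ℝ, D (R (s * c) x) (R (s * d) y) = 0 := by
  have h1 : Continuous fun s : ℝ => ((s * c, x) : ℝ × A) :=
    (continuous_id.mul continuous_const).prodMk continuous_const
  have h2 : Continuous fun s : ℝ => ((s * d, y) : ℝ × A) :=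
    (continuous_id.mul continuous_const).prodMk continuous_const
  have hc : Continuous fun s : ℝ => ((R (s * c) x, R (s * d) y) : A × A) :=
    (hR.comp h1).prodMk (hR.comp h2)
  obtain ⟨s, -, hs⟩ := zero_of_opp (fun s : ℝ => D (R (s * c) x) (R (s * d) y))
    (hD.comp hc.continuousOn fun s _ => hP _ _) (by
      change D (R (1 * c) x) (R (1 * d) y) = -D (R (0 * c) x) (R (0 * d) y)
      rw [one_mul, one_mul, zero_mul, zero_mul]
      exact h)
  exact ⟨s, hs⟩

end XIvt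

open XIvt

theorem hs_Ivt (hAlg : StAlg) (hGc : StGc) (hDisp : StDisp) (hRev : StRev) : StIvt := by
  intro ι _ J g x y hJ hg hL hxy
  obtain ⟨-, -, -, -, hneg, hlin, hadd, h0, -, -, -, hcont⟩ := hAlg ι J hJ
  obtain ⟨-, -, -, hhor, -, -, hON⟩ := hGc ι J hJ
  obtain ⟨D, hDc, hDe, hDu⟩ := hDisp ι J g hJ hg hL
  obtain ⟨hon, hrot, -⟩ := hhor x y hxy
  have honr : ∀ a b : ℝ, ON (rot J a x) (rot J b y) := fun a b => (hhor _ _ (hrot a b)).1
  obtain ⟨d, hd⟩ : ∃ d : ℝ, d = D x y := ⟨_, rfl⟩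
  obtain ⟨τ, hτ, hτd⟩ := hDe x y hon
  rw [← hd] at hτd
  -- the reversed lift
  have hr := hRev ι J g x y τ hJ hg hon hτ
  rw [hτd] at hr
  have hr2 := hDu _ _ _ (hON x y d hon) hr
  rw [sub_self, hτ.zero, zero_sub] at hr2
  have hpi : ∀ a : ℝ, rot J (a + Real.pi) x = -rot J a x := by
    intro a
    rw [← hadd, (h0 x).2]
    exact (hlin a).map_neg x
  have hend : D (rot J (d + Real.pi) x) (rot J d y) = -D (rot J 0 x) (rot J 0 y) := by
    rw [hpi, (h0 x).1, (h0 y).1, ← hr2, ← hd]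
  obtain ⟨s, hs⟩ := pencil (fun t z => rot J t z) hcont D ON hDc x y honr (d + Real.pi) d hend
  obtain ⟨σ, hσ, hσ0⟩ := hDe _ _ (honr (s * (d + Real.pi)) (s * d))
  exact ⟨s * (d + Real.pi), s * d, σ, hσ, hσ0.trans hs⟩

end Pool.Agent.Work.MP_02f065_gt.HS
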