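import Pool.Agent.Work.MP_02f065_gt.HS.StmtsK

/-!
MP_02f065_gt, block HS, item Km: metrics with a Kähler quotient.
-/

open MeasureTheory Set Filter Topology

noncomputable section

namespace Pool.Agent.Work.MP_02f065_gt.HS

open Pool.Agent.Work.MP_02f065_gt.RPn Pool.Agent.Work.MP_02f065_gt.Cvx
open Pool.Agent.Work.MP_02f065_gt.FR

namespace XKm

variable {ι : Type} [Fintype ι]

/-- Lipschitz functions on the sphere. -/
def SL (F : E ι → ℝ) : Prop := ∃ K : NNReal, LipschitzOnWith K F (Metric.sphere (0 : E ι) 1)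

theorem SL.congr {F G : E ι → ℝ} (hF : SL F) (h : ∀ x : E ι, ‖x‖ = 1 → G x = F x) : SL G := by
  obtain ⟨K, hK⟩ := hF
  refine ⟨K, fun x hx y hy => ?_⟩
  rw [h x (mem_sphere_zero_iff_norm.1 hx), h y (mem_sphere_zero_iff_norm.1 hy)]
  exact hK hx hy

theorem SL.add {F G : E ι → ℝ} (hF : SL F) (hG : SL G) : SL (fun x => F x + G x) := by
  obtain ⟨K, hK⟩ := hF
  obtain ⟨L, hL⟩ := hG
  exact ⟨K + L, hK.add hL⟩

theorem SL.const (c : ℝ) : SL (fun _ : E ι => c) :=
  ⟨0, LipschitzWith.lipschitzOnWith (LipschitzWith.const c)⟩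

theorem SL.mul {F G : E ι → ℝ} (hF : SL F) (hG : SL G) : SL (fun x => F x * G x) := by
  obtain ⟨K, hK⟩ := hF
  obtain ⟨L, hL⟩ := hG
  obtain ⟨M, hM⟩ := (isCompact_sphere (0 : E ι) 1).exists_bound_of_continuousOn hK.continuousOn
  obtain ⟨N, hN⟩ := (isCompact_sphere (0 : E ι) 1).exists_bound_of_continuousOn hL.continuousOn
  have hM0 : 0 ≤ max M 0 := le_max_right _ _
  have hN0 : 0 ≤ max N 0 := le_max_right _ _
  refine ⟨⟨max M 0 * L + K * max N 0, by positivity⟩, LipschitzOnWith.of_dist_le_mul ?_⟩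
  intro x hx y hy
  have h1 := hK.dist_le_mul x hx y hy
  have h2 := hL.dist_le_mul x hx y hy
  have h3 := (hM x hx).trans (le_max_left M 0)
  have h4 := (hN y hy).trans (le_max_left N 0)
  rw [Real.norm_eq_abs] at h3 h4
  rw [Real.dist_eq] at h1 h2 ⊢
  have hd : 0 ≤ dist x y := dist_nonneg
  calc |F x * G x - F y * G y| = |F x * (G x - G y) + (F x - F y) * G y| := by
        congr 1
        ring
    _ ≤ |F x * (G x - G y)| + |(F x - F y) * G y| := abs_add_le _ _
    _ = |F x| * |G x - G y| + |F x - F y| * |G y| := by rw [abs_mul, abs_mul]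
    _ ≤ max M 0 * (L * dist x y) + K * dist x y * max N 0 :=
        add_le_add (mul_le_mul h3 h2 (abs_nonneg _) hM0)
          (mul_le_mul h1 h4 (abs_nonneg _) (by positivity))
    _ = (max M 0 * L + K * max N 0) * dist x y := by ring

theorem SL.inn (v : E ι) : SL (fun x : E ι => (inner ℝ x v : ℝ)) := by
  refine ⟨⟨‖v‖, norm_nonneg _⟩, LipschitzOnWith.of_dist_le_mul ?_⟩
  intro x _ y _
  rw [Real.dist_eq, ← inner_sub_left, dist_eq_norm]
  refine (abs_real_inner_le_norm _ _).trans (le_of_eq ?_)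
  exact mul_comm _ _

theorem SL.innJ {J : E ι → E ι} (hJ : IsCpx J) (v : E ι) :
    SL (fun x : E ι => (inner ℝ (J x) v : ℝ)) := by
  refine ⟨⟨‖v‖, norm_nonneg _⟩, LipschitzOnWith.of_dist_le_mul ?_⟩
  intro x _ y _
  rw [Real.dist_eq, ← inner_sub_left, ← hJ.linear.map_sub, dist_eq_norm]
  refine (abs_real_inner_le_norm _ _).trans (le_of_eq ?_)
  rw [hJ.norm]
  exact mul_comm _ _

theorem SL.c1 {F : E ι → ℝ} (hF : ContDiffOn ℝ 1 F {0}ᶜ) : SL F := by
  refine LocallyLipschitzOn.exists_lipschitzOnWith_of_compact (isCompact_sphere (0 : E ι) 1) ?_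
  intro x hx
  have hx0 : x ≠ 0 := by
    rintro rfl
    rw [mem_sphere_zero_iff_norm, norm_zero] at hx
    exact zero_ne_one hx
  obtain ⟨K, t, ht, hK⟩ :=
    (hF.contDiffAt (isOpen_compl_singleton.mem_nhds hx0)).exists_lipschitzOnWith
  exact ⟨K, t, mem_nhdsWithin_of_mem_nhds ht, hK⟩

/-! ### The horizontal projection -/

theorem hor_add (J : E ι → E ι) (x v w : E ι) : hor J x (v + w) = hor J x v + hor J x w := by
  unfold hor
  rw [inner_add_right, inner_add_right, add_smul, add_smul]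
  abel

theorem hor_smul (J : E ι → E ι) (x v : E ι) (r : ℝ) : hor J x (r • v) = r • hor J x v := by
  unfold hor
  rw [inner_smul_right, inner_smul_right, smul_sub, smul_sub, smul_smul, smul_smul]

theorem hor_J {J : E ι → E ι} (hJ : IsCpx J) {x : E ι} (hx : ‖x‖ = 1) :
    hor J x (J x) = 0 := by
  unfold hor
  rw [hJ.tangent, real_inner_self_eq_norm_sq, hJ.norm, hx]
  simp

theorem inner_hor {J : E ι → E ι} (hJ : IsCpx J) {x : E ι} (hx : ‖x‖ = 1) (v : E ι) :
    (inner ℝ x (hor J x v) : ℝ) = 0 ∧ (inner ℝ (J x) (hor J x v) : ℝ) = 0 := by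
  have h1 : (inner ℝ (J x) x : ℝ) = 0 := by rw [real_inner_comm, hJ.tangent]
  unfold hor
  constructor
  · rw [inner_sub_right, inner_sub_right, inner_smul_right, inner_smul_right, hJ.tangent,
      real_inner_self_eq_norm_sq, hx]
    ring
  · rw [inner_sub_right, inner_sub_right, inner_smul_right, inner_smul_right, h1,
      real_inner_self_eq_norm_sq, hJ.norm, hx]
    ring

theorem hor_inner {J : E ι → E ι} (hJ : IsCpx J) {x : E ι} (hx : ‖x‖ = 1) (v w : E ι) :
    (inner ℝ (hor J x v) (hor J x w) : ℝ) = inner ℝ v w +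
      (-1 * (inner ℝ x v * inner ℝ x w) + -1 * (inner ℝ (J x) v * inner ℝ (J x) w)) := by
  have h1 : (inner ℝ (hor J x v) (hor J x w) : ℝ) = inner ℝ v (hor J x w) := by
    conv_lhs => rw [hor]
    rw [inner_sub_left, inner_sub_left, inner_smul_left, inner_smul_left,
      (inner_hor hJ hx w).1, (inner_hor hJ hx w).2]
    simp
  rw [h1]
  unfold hor
  rw [inner_sub_right, inner_sub_right, inner_smul_right, inner_smul_right,
    real_inner_comm x v, real_inner_comm (J x) v]
  ring

theorem hor_neg {J : E ι → E ι} (hJ : IsCpx J) (x v : E ι) : hor J (-x) v = hor J x v := by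
  unfold hor
  rw [hJ.linear.map_neg, inner_neg_left, inner_neg_left, neg_smul_neg, neg_smul_neg]

/-! ### The Levi form -/

theorem lev_add {J : E ι → E ι} (hJ : IsCpx J) (φ : E ι → ℝ) (x v v' w : E ι) :
    lev J φ x (v + v') w = lev J φ x v w + lev J φ x v' w := by
  unfold lev hess
  rw [hJ.linear.map_add]
  simp only [map_add, ContinuousLinearMap.add_apply]
  ring

theorem lev_smul {J : E ι → E ι} (hJ : IsCpx J) (φ : E ι → ℝ) (x v w : E ι) (r : ℝ) :
    lev J φ x (r • v) w = r * lev J φ x v w := by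
  unfold lev hess
  rw [hJ.linear.map_smul]
  simp only [map_smul, ContinuousLinearMap.smul_apply, smul_eq_mul]
  ring

theorem lev_zero {J : E ι → E ι} (hJ : IsCpx J) (φ : E ι → ℝ) (x w : E ι) :
    lev J φ x 0 w = 0 := by
  have h := lev_smul hJ φ x 0 w 0
  rwa [zero_smul, zero_mul] at h

end XKm

open XKm

/-- item Km -/
theorem hs_Km (hAlg : StAlg) (hPot : StPot) : StKm := by
  intro ι _ J a f φ hJ hφ hf hfL
  obtain ⟨-, -, -, -, -, hRl, -, -, hRi, hRn, -, -⟩ := hAlg ι J hJ
  obtain ⟨-, -, hls, -, hlr, hlR, hlc, hlh⟩ := hPot ι J a φ hJ hφ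
  have hne : ∀ x : E ι, ‖x‖ = 1 → x ≠ 0 := by
    rintro x hx rfl
    rw [norm_zero] at hx
    exact zero_ne_one hx
  -- the second part is nonnegative
  have hsec : ∀ x v : E ι, ‖x‖ = 1 →
      0 ≤ a * inner ℝ (hor J x v) (hor J x v) + lev J φ x (hor J x v) (hor J x v) := by
    intro x v hx
    by_cases h : hor J x v = 0
    · rw [h, lev_zero hJ, inner_zero_left]
      simp
    · exact (hφ.pos x (hor J x v) hx (inner_hor hJ hx v).1 (inner_hor hJ hx v).2 h).le
  -- the vertical part
  have hvJ : ∀ x v : E ι, ‖x‖ = 1 → kahler J f a φ x v (J x) = f x ^ 2 * inner ℝ (J x) v := by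
    intro x v hx
    have h1 : lev J φ x (hor J x v) 0 = 0 := by rw [(hls x _ _).1, lev_zero hJ]
    unfold kahler
    rw [hor_J hJ hx, h1, inner_zero_right, real_inner_self_eq_norm_sq (J x), hJ.norm, hx]
    ring
  have hqB : ∀ x v w : E ι, ‖x‖ = 1 → quoB (kahler J f a φ) J x v w = kf J a φ 0 x v w := by
    intro x v w hx
    have hfx : f x ≠ 0 := (hf.pos x hx).ne'
    have hJJ : (inner ℝ (J x) (J x) : ℝ) = 1 := by
      rw [real_inner_self_eq_norm_sq, hJ.norm, hx, one_pow]
    unfold quoB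
    rw [hvJ x v hx, hvJ x w hx, hvJ x (J x) hx, hJJ]
    unfold kahler kf
    field_simp
    ring
  -- Lipschitz
  have hlip : ∀ v w : E ι, SL (fun x => kahler J f a φ x v w) := by
    intro v w
    have h1 : SL (fun x : E ι => f x * f x * (inner ℝ (J x) v * inner ℝ (J x) w) +
        (a * (inner ℝ v w + (-1 * (inner ℝ x v * inner ℝ x w) +
          -1 * (inner ℝ (J x) v * inner ℝ (J x) w))) + lev J φ x v w)) :=
      ((SL.mul hfL hfL).mul ((SL.innJ hJ v).mul (SL.innJ hJ w))).add
        (((SL.const a).mul ((SL.const _).add (((SL.const (-1)).mul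
          ((SL.inn v).mul (SL.inn w))).add ((SL.const (-1)).mul
            ((SL.innJ hJ v).mul (SL.innJ hJ w)))))).add (SL.c1 (hlc v w)))
    refine h1.congr fun x hx => ?_
    unfold kahler
    rw [hor_inner hJ hx, ← hlh x v w (hne x hx)]
    ring
  refine ⟨⟨⟨?_, ?_, ?_, ?_, ?_, ?_⟩, hlip, ?_⟩, hqB, ?_⟩
  · intro x v v' w
    unfold kahler
    rw [hor_add, lev_add hJ, inner_add_left, inner_add_right]
    ring
  · intro x v w r
    unfold kahler
    rw [hor_smul, lev_smul hJ, inner_smul_left, inner_smul_right]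
    simp
    ring
  · intro x v w
    unfold kahler
    rw [(hls x (hor J x v) (hor J x w)).1, real_inner_comm (hor J x v) (hor J x w)]
    ring
  · intro v w
    obtain ⟨K, hK⟩ := hlip v w
    exact hK.continuousOn
  · intro x v hx hxv hv
    have hfx := hf.pos x hx
    by_cases hc : (inner ℝ (J x) v : ℝ) = 0
    · have hh : hor J x v = v := by
        unfold hor
        rw [hxv, hc]
        simp
      have h1 := hφ.pos x v hx hxv hc hv
      unfold kahler
      rw [hh, hc]
      linarith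
    · have h1 := hsec x v hx
      have h2 : 0 < f x ^ 2 * (inner ℝ (J x) v * inner ℝ (J x) v) := by
        have h3 : (0 : ℝ) < inner ℝ (J x) v * inner ℝ (J x) v := mul_self_pos.2 hc
        positivity
      unfold kahler
      linarith
  · intro x v w hx _ _
    have h1 : ∀ v w : E ι, lev J φ (-x) v w = lev J φ x v w := by
      intro v w
      have h2 := hlr x v w (-1) (hne x hx) (by norm_num)
      rw [neg_one_smul] at h2
      rw [h2]
      norm_num
    unfold kahler
    rw [hf.even x hx, hor_neg hJ, hor_neg hJ, h1, hJ.linear.map_neg, inner_neg_left,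
      inner_neg_left]
    ring
  · intro x v t hx _
    have hq : ∀ y u : E ι, ‖y‖ = 1 → quo (kahler J f a φ) J y u = kf J a φ 0 y u u := by
      intro y u hy
      rw [← hqB y u u hy]
      unfold quo quoB
      ring
    have hRx : ‖rot J t x‖ = 1 := by rw [(hRn t x).1, hx]
    have hh : hor J (rot J t x) (rot J t v) = rot J t (hor J x v) := by
      unfold hor
      rw [(hRn t x).2, hRi, hRi, (hRl t).map_sub, (hRl t).map_sub, (hRl t).map_smul,
        (hRl t).map_smul]
    rw [hq _ _ hRx, hq _ _ hx]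
    unfold kf
    rw [hh, hRi, hlR _ _ _ _ (hne x hx)]
  · intro x v hx _ hJv
    rw [hvJ x v hx, hJv, mul_zero]

end Pool.Agent.Work.MP_02f065_gt.HS
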