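import Pool.Agent.Work.MP_02f065_gt.HS.Stmts

/-!
MP_02f065_gt, block HS, item MainH: the theorem from the items.
-/

open MeasureTheory Set

noncomputable section

namespace Pool.Agent.Work.MP_02f065_gt.HS

open Pool.Agent.Work.MP_02f065_gt.RPn Pool.Agent.Work.MP_02f065_gt.FR
open Pool.Agent.Work.MP_02f065_gt.Cvx

theorem hs_MainH (hGc : StGc) (hVolH : StVolH) (hIvt : StIvt) (hLenH : StLenH)
    (hMeanH : StMeanH) (h6 : claimA6) : StMainH := by
  intro Q hQ J g hJ hcl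
  obtain ⟨hsub, hcase⟩ := hcl
  have hcard : Fintype.card (Ix 1 Q) = Q + 1 := by
    simp [Fintype.card_sum, add_comm]
  have : Nontrivial (Ix 1 Q) :=
    ⟨⟨Sum.inl 0, Sum.inr ⟨0, by omega⟩, by simp⟩⟩
  obtain ⟨L, hL, hS, γ, hγ⟩ := h6 (Ix 1 Q) g hsub.metric
  refine ⟨γ, L, hγ, ?_⟩
  obtain ⟨hv, hr⟩ := hVolH Q hQ J g L hJ hsub hL hS
  have hlam : 0 < L / Real.pi := div_pos hL Real.pi_pos
  have hexp : Fintype.card (Ix 1 Q) - 2 = Q - 1 := by
    rw [hcard]
    omega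
  have key : (L / Real.pi) ^ (Q - 1) ≤ ratio g J := by
    rcases hcase with ⟨x, y, hxy, hlen'⟩ | ⟨hclo, hen⟩
    · obtain ⟨a, b, τ, hτ, hτ0⟩ := hIvt (Ix 1 Q) J g x y hJ hsub.metric hsub.lip hxy
      obtain ⟨C, _, hC2⟩ := hLenH (Ix 1 Q) J g L hJ hsub hS
      have hgc := (hGc (Ix 1 Q) J hJ).2.2.2.1
      have hon : ON (rot J a x) (rot J b y) := (hgc _ _ ((hgc x y hxy).2.1 a b)).1
      have h1 := hC2 (rot J a x) (rot J b y) τ hon hτ
      rw [hτ0, abs_zero, mul_zero, add_zero] at h1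
      have h2 := hlen' a b
      rw [hexp] at h2
      refine le_trans (pow_le_pow_left₀ hlam.le ?_ _) h2
      exact div_le_div_of_nonneg_right h1 Real.pi_pos.le
    · have h1 := hMeanH Q hQ J g L hJ hsub hclo hL hS
      rw [hexp] at hen
      have h2 : ((L / Real.pi) ^ (Q - 1)) ^ 2 ≤ ratio g J ^ 2 := by
        calc ((L / Real.pi) ^ (Q - 1)) ^ 2 = ((L / Real.pi) ^ 2) ^ (Q - 1) := by
              rw [← pow_mul, ← pow_mul, mul_comm]
          _ ≤ energy g J ^ (Q - 1) := pow_le_pow_left₀ (by positivity) h1 _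
          _ ≤ ratio g J ^ 2 := hen
      by_contra hcon
      push Not at hcon
      exact absurd h2 (not_le.2 (pow_lt_pow_left₀ hcon hr.le (by norm_num)))
  have hQ1 : Q = (Q - 1) + 1 := by omega
  calc (L / Real.pi) ^ Q = (L / Real.pi) * (L / Real.pi) ^ (Q - 1) := by
        conv_lhs => rw [hQ1]
        rw [pow_succ, mul_comm]
    _ ≤ (L / Real.pi) * ratio g J := mul_le_mul_of_nonneg_left key hlam.le
    _ ≤ vol g / vol (RPn.round : RPn.Field (Ix 1 Q)) := hv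

end Pool.Agent.Work.MP_02f065_gt.HS
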