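import Pool.Agent.Work.MP_02f065_gt.HS.StmtsK

/-!
MP_02f065_gt, block HS, item Nl: determinants of first derivatives are null Lagrangians.
-/

open MeasureTheory Set Filter Topology Complex

noncomputable section

namespace Pool.Agent.Work.MP_02f065_gt.HS

open Pool.Agent.Work.MP_02f065_gt.RPn Pool.Agent.Work.MP_02f065_gt.Cvx
open Pool.Agent.Work.MP_02f065_gt.FR

namespace XNl

variable {ι : Type} [Fintype ι]

/-- C^1 with compact support away from 0. -/
structure Nice (f : E ι → ℂ) : Prop where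
  smooth : ContDiff ℝ 1 f
  comp : HasCompactSupport f
  zero : (0 : E ι) ∉ tsupport f

theorem open0 : IsOpen ({0}ᶜ : Set (E ι)) := isOpen_compl_singleton

/-- The product with a function which is continuous off 0 is continuous with compact support. -/
theorem cont_mul {f h : E ι → ℂ} (hf : Continuous f) (h0 : (0 : E ι) ∉ tsupport f)
    (hh : ContinuousOn h {0}ᶜ) : Continuous (fun x => f x * h x) := by
  rw [continuous_iff_continuousAt]
  intro x
  by_cases hx : x = 0
  · subst hx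
    have h1 : f =ᶠ[𝓝 0] 0 := notMem_tsupport_iff_eventuallyEq.1 h0
    have h2 : (fun x => f x * h x) =ᶠ[𝓝 0] fun _ => 0 := by
      filter_upwards [h1] with y hy
      rw [hy]
      simp
    exact continuousAt_const.congr h2.symm
  · exact hf.continuousAt.mul (hh.continuousAt (open0.mem_nhds hx))

theorem int_mul {f h : E ι → ℂ} (hf : Continuous f) (hc : HasCompactSupport f)
    (h0 : (0 : E ι) ∉ tsupport f) (hh : ContinuousOn h {0}ᶜ) :
    Integrable (fun x => f x * h x) :=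
  (cont_mul hf h0 hh).integrable_of_hasCompactSupport hc.mul_right

theorem nice_mul {f h : E ι → ℂ} (hf : Nice f) (hh : ContDiffOn ℝ 1 h {0}ᶜ) :
    Nice (fun x => f x * h x) := by
  have hsub : tsupport (fun x => f x * h x) ⊆ tsupport f := tsupport_mul_subset_left
  refine ⟨?_, hf.comp.mul_right, fun hx => hf.zero (hsub hx)⟩
  rw [contDiff_iff_contDiffAt]
  intro x
  by_cases hx : x = 0
  · subst hx
    have h1 : f =ᶠ[𝓝 0] 0 := notMem_tsupport_iff_eventuallyEq.1 hf.zero
    have h2 : (fun x => f x * h x) =ᶠ[𝓝 0] fun _ => 0 := by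
      filter_upwards [h1] with y hy
      rw [hy]
      simp
    exact contDiffAt_const.congr_of_eventuallyEq h2
  · exact hf.smooth.contDiffAt.mul (hh.contDiffAt (open0.mem_nhds hx))

/-- The derivative in a fixed direction. -/
theorem ibp1 {f g : E ι → ℂ} (hf : Nice f) (hg : ContDiffOn ℝ 1 g {0}ᶜ) (v : E ι) :
    ∫ x, f x * fderiv ℝ g x v = -∫ x, fderiv ℝ f x v * g x := by
  have hfd : Continuous (fun x => fderiv ℝ f x v) :=
    (hf.smooth.continuous_fderiv one_ne_zero).clm_apply continuous_const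
  have hfs : tsupport (fun x => fderiv ℝ f x v) ⊆ tsupport f := tsupport_fderiv_apply_subset ℝ v
  have hgd : ContinuousOn (fun x => fderiv ℝ g x v) {0}ᶜ :=
    (hg.continuousOn_fderiv_of_isOpen open0 le_rfl).clm_apply continuousOn_const
  refine integral_mul_fderiv_eq_neg_fderiv_mul_of_integrable ?_ ?_ ?_ ?_ ?_
  · exact int_mul hfd (hf.comp.fderiv_apply ℝ v) (fun h => hf.zero (hfs h)) hg.continuousOn
  · exact int_mul hf.smooth.continuous hf.comp hf.zero hgd
  · exact int_mul hf.smooth.continuous hf.comp hf.zero hg.continuousOn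
  · intro x _
    exact hf.smooth.differentiable one_ne_zero x
  · intro x hx
    have hx0 : x ≠ 0 := fun h => hf.zero (h ▸ hx)
    exact (hg.contDiffAt (open0.mem_nhds hx0)).differentiableAt one_ne_zero

theorem ibp {f g : E ι → ℂ} (hf : Nice f) (hg : ContDiffOn ℝ 1 g {0}ᶜ) (p q : E ι) :
    ∫ x, f x * Pd p q g x = -∫ x, Pd p q f x * g x := by
  have hgd : ∀ v, ContinuousOn (fun x => fderiv ℝ g x v) {0}ᶜ := fun v =>
    (hg.continuousOn_fderiv_of_isOpen open0 le_rfl).clm_apply continuousOn_const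
  have hfd : ∀ v, Continuous (fun x => fderiv ℝ f x v) := fun v =>
    (hf.smooth.continuous_fderiv one_ne_zero).clm_apply continuous_const
  have hfs : ∀ v, tsupport (fun x => fderiv ℝ f x v) ⊆ tsupport f := fun v =>
    tsupport_fderiv_apply_subset ℝ v
  have i1 : ∀ v, Integrable (fun x => f x * fderiv ℝ g x v) := fun v =>
    int_mul hf.smooth.continuous hf.comp hf.zero (hgd v)
  have i2 : ∀ v, Integrable (fun x => fderiv ℝ f x v * g x) := fun v =>
    int_mul (hfd v) (hf.comp.fderiv_apply ℝ v) (fun h => hf.zero (hfs v h)) hg.continuousOn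
  have e1 : ∀ x, f x * Pd p q g x = f x * fderiv ℝ g x p + I * (f x * fderiv ℝ g x q) := by
    intro x
    unfold Pd
    ring
  have e2 : ∀ x, Pd p q f x * g x = fderiv ℝ f x p * g x + I * (fderiv ℝ f x q * g x) := by
    intro x
    unfold Pd
    ring
  simp only [e1, e2]
  rw [integral_add (i1 p) ((i1 q).const_mul I), integral_add (i2 p) ((i2 q).const_mul I),
    integral_const_mul, integral_const_mul, ibp1 hf hg, ibp1 hf hg]
  ring

/-- `Pd` of a C^2 function is C^1. -/
theorem pd_c1 {g : E ι → ℂ} (hg : ContDiffOn ℝ 2 g {0}ᶜ) (p q : E ι) :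
    ContDiffOn ℝ 1 (Pd p q g) {0}ᶜ := by
  have h1 : ContDiffOn ℝ 1 (fderiv ℝ g) {0}ᶜ :=
    hg.fderiv_of_isOpen open0 (by norm_num)
  unfold Pd
  exact (h1.clm_apply contDiffOn_const).add (contDiffOn_const.mul (h1.clm_apply contDiffOn_const))

/-- Second derivatives commute. -/
theorem pd_comm {g : E ι → ℂ} (hg : ContDiffOn ℝ 2 g {0}ᶜ) (p q p' q' : E ι) {x : E ι}
    (hx : x ≠ 0) : Pd p q (Pd p' q' g) x = Pd p' q' (Pd p q g) x := by
  have hat : ContDiffAt ℝ 2 g x := hg.contDiffAt (open0.mem_nhds hx)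
  have hd : DifferentiableAt ℝ (fderiv ℝ g) x :=
    (hat.fderiv_right (m := 1) (by norm_num)).differentiableAt one_ne_zero
  have hsym : IsSymmSndFDerivAt ℝ g x := hat.isSymmSndFDerivAt (by simp)
  have key : ∀ (a b v : E ι), fderiv ℝ (Pd a b g) x v =
      fderiv ℝ (fderiv ℝ g) x v a + I * fderiv ℝ (fderiv ℝ g) x v b := by
    intro a b v
    have h1 : HasFDerivAt (fun y => fderiv ℝ g y a)
        ((ContinuousLinearMap.apply ℝ ℂ a).comp (fderiv ℝ (fderiv ℝ g) x)) x :=
      (ContinuousLinearMap.apply ℝ ℂ a).hasFDerivAt.comp x hd.hasFDerivAt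
    have h2 : HasFDerivAt (fun y => fderiv ℝ g y b)
        ((ContinuousLinearMap.apply ℝ ℂ b).comp (fderiv ℝ (fderiv ℝ g) x)) x :=
      (ContinuousLinearMap.apply ℝ ℂ b).hasFDerivAt.comp x hd.hasFDerivAt
    have h3 := h1.add (h2.const_mul I)
    have h4 : fderiv ℝ (Pd a b g) x = _ := h3.fderiv
    rw [h4]
    simp
  have e1 : Pd p q (Pd p' q' g) x = fderiv ℝ (Pd p' q' g) x p + I * fderiv ℝ (Pd p' q' g) x q := rfl
  have e2 : Pd p' q' (Pd p q g) x = fderiv ℝ (Pd p q g) x p' + I * fderiv ℝ (Pd p q g) x q' := rfl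
  rw [e1, e2, key, key, key, key, hsym p p', hsym p q', hsym q p', hsym q q']
  ring

/-- Product rule for `Pd`. -/
theorem pd_mul {f g : E ι → ℂ} {x : E ι} (hf : DifferentiableAt ℝ f x)
    (hg : DifferentiableAt ℝ g x) (p q : E ι) :
    Pd p q (fun y => f y * g y) x = Pd p q f x * g x + f x * Pd p q g x := by
  unfold Pd
  have h : fderiv ℝ (fun y => f y * g y) x = f x • fderiv ℝ g x + g x • fderiv ℝ f x :=
    fderiv_fun_mul hf hg
  rw [h]
  simp
  ring

theorem pd_prod {α : Type} [DecidableEq α] (s : Finset α) (h : α → E ι → ℂ) {x : E ι}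
    (hh : ∀ j ∈ s, DifferentiableAt ℝ (h j) x) (p q : E ι) :
    Pd p q (fun y => ∏ j ∈ s, h j y) x = ∑ l ∈ s, Pd p q (h l) x * ∏ j ∈ s.erase l, h j x := by
  induction s using Finset.induction_on with
  | empty =>
    simp [Pd]
  | insert a s ha ih =>
    have hs : ∀ j ∈ s, DifferentiableAt ℝ (h j) x := fun j hj => hh j (Finset.mem_insert_of_mem hj)
    have hprod : DifferentiableAt ℝ (fun y => ∏ j ∈ s, h j y) x :=
      (HasFDerivAt.finsetProd fun i hi => (hs i hi).hasFDerivAt).differentiableAt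
    have e1 : (fun y => ∏ j ∈ insert a s, h j y) = fun y => h a y * ∏ j ∈ s, h j y := by
      funext y
      rw [Finset.prod_insert ha]
    rw [e1, pd_mul (hh a (Finset.mem_insert_self a s)) hprod, ih hs, Finset.sum_insert ha,
      Finset.erase_insert ha, Finset.mul_sum]
    congr 1
    refine Finset.sum_congr rfl fun l hl => ?_
    have hne : a ≠ l := fun h => ha (h ▸ hl)
    rw [Finset.erase_insert_of_ne hne, Finset.prod_insert]
    · ring
    · intro h
      exact ha (Finset.mem_of_mem_erase h)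

/-- The cancellation. -/
theorem cancel {k : ℕ} (T : Fin k → Fin k → ℂ) (H : Fin k → Fin k → ℂ) (j₀ l : Fin k)
    (hl : l ≠ j₀) (hT : ∀ a b, T a b = T b a) :
    ∑ σ : Equiv.Perm (Fin k), ((Equiv.Perm.sign σ : ℤ) : ℂ) *
      (T (σ j₀) (σ l) * ∏ j ∈ (Finset.univ.erase j₀).erase l, H (σ j) j) = 0 := by
  set f : Equiv.Perm (Fin k) → ℂ := fun σ => ((Equiv.Perm.sign σ : ℤ) : ℂ) *
      (T (σ j₀) (σ l) * ∏ j ∈ (Finset.univ.erase j₀).erase l, H (σ j) j) with hf
  have h1 : ∑ σ, f σ = ∑ σ, f (σ * Equiv.swap j₀ l) :=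
    (Equiv.sum_comp (Equiv.mulRight (Equiv.swap j₀ l)) f).symm
  have h2 : ∀ σ, f (σ * Equiv.swap j₀ l) = -f σ := by
    intro σ
    simp only [hf, Equiv.Perm.sign_mul, Equiv.Perm.sign_swap hl.symm, Equiv.Perm.mul_apply,
      Equiv.swap_apply_left, Equiv.swap_apply_right]
    rw [hT (σ l) (σ j₀)]
    have h3 : ∏ j ∈ (Finset.univ.erase j₀).erase l, H (σ (Equiv.swap j₀ l j)) j =
        ∏ j ∈ (Finset.univ.erase j₀).erase l, H (σ j) j := by
      refine Finset.prod_congr rfl fun j hj => ?_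
      have hj1 : j ≠ l := Finset.ne_of_mem_erase hj
      have hj2 : j ≠ j₀ := Finset.ne_of_mem_erase (Finset.mem_of_mem_erase hj)
      rw [Equiv.swap_apply_of_ne_of_ne hj2 hj1]
    rw [h3]
    push_cast
    ring
  simp only [h2, Finset.sum_neg_distrib] at h1
  have h3 : (2 : ℂ) * ∑ σ, f σ = 0 := by
    rw [two_mul]
    nth_rewrite 1 [h1]
    ring
  exact (mul_eq_zero.1 h3).resolve_left two_ne_zero

end XNl

open XNl in
/-- **null Lagrangian** -/
theorem hs_Nl : StNl := by
  intro ι _ _ k p q G χ j₀ hG hχ hc h0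
  have hχn : Nice (fun x => (χ x : ℂ)) := by
    have hs : tsupport (fun x => (χ x : ℂ)) = tsupport χ := by
      unfold tsupport
      congr 1
      ext x
      simp [Function.mem_support]
    refine ⟨Complex.ofRealCLM.contDiff.comp hχ, ?_, ?_⟩
    · unfold HasCompactSupport
      rw [hs]
      exact hc
    · rw [hs]
      exact h0
  have hG1 : ∀ j, ContDiffOn ℝ 1 (G j) {0}ᶜ := fun j => (hG j).of_le (by norm_num)
  -- the product of the other factors
  set R : Equiv.Perm (Fin k) → E ι → ℂ := fun σ x =>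
    ∏ j ∈ Finset.univ.erase j₀, Pd (p (σ j)) (q (σ j)) (G j) x with hR
  have hR1 : ∀ σ, ContDiffOn ℝ 1 (R σ) {0}ᶜ := fun σ =>
    contDiffOn_prod fun j _ => pd_c1 (hG j) _ _
  have hdet : ∀ x, (χ x : ℂ) * (Matrix.of fun i j => Pd (p i) (q i) (G j) x).det =
      ∑ σ : Equiv.Perm (Fin k), ((Equiv.Perm.sign σ : ℤ) : ℂ) *
        (((χ x : ℂ) * R σ x) * Pd (p (σ j₀)) (q (σ j₀)) (G j₀) x) := by
    intro x
    rw [Matrix.det_apply', Finset.mul_sum]
    refine Finset.sum_congr rfl fun σ _ => ?_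
    simp only [Matrix.of_apply]
    rw [← Finset.mul_prod_erase _ _ (Finset.mem_univ j₀)]
    simp only [hR]
    ring
  have hNR : ∀ σ, Nice (fun x => (χ x : ℂ) * R σ x) := fun σ => nice_mul hχn (hR1 σ)
  have hGd : ∀ (p q : E ι) (j : Fin k), ContinuousOn (Pd p q (G j)) {0}ᶜ := fun p q j =>
    (pd_c1 (hG j) p q).continuousOn
  have hint : ∀ σ, Integrable (fun x =>
      ((χ x : ℂ) * R σ x) * Pd (p (σ j₀)) (q (σ j₀)) (G j₀) x) := fun σ =>
    int_mul (hNR σ).smooth.continuous (hNR σ).comp (hNR σ).zero (hGd _ _ _)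
  have hpdN : ∀ σ, Continuous (Pd (p (σ j₀)) (q (σ j₀)) (fun x => (χ x : ℂ) * R σ x)) := by
    intro σ
    unfold Pd
    have h1 : ∀ v, Continuous (fun x => fderiv ℝ (fun x => (χ x : ℂ) * R σ x) x v) := fun v =>
      ((hNR σ).smooth.continuous_fderiv one_ne_zero).clm_apply continuous_const
    exact (h1 _).add (continuous_const.mul (h1 _))
  have hpdS : ∀ σ, tsupport (Pd (p (σ j₀)) (q (σ j₀)) (fun x => (χ x : ℂ) * R σ x)) ⊆
      tsupport (fun x => (χ x : ℂ) * R σ x) := by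
    intro σ
    refine closure_minimal ?_ (isClosed_tsupport _)
    intro x hx
    by_contra hxn
    have hz : fderiv ℝ (fun x => (χ x : ℂ) * R σ x) x = 0 := by
      have : x ∉ tsupport (fderiv ℝ (fun x => (χ x : ℂ) * R σ x)) :=
        fun h => hxn (tsupport_fderiv_subset ℝ h)
      exact image_eq_zero_of_notMem_tsupport this
    apply hx
    unfold Pd
    rw [hz]
    simp
  have hint2 : ∀ σ, Integrable (fun x =>
      Pd (p (σ j₀)) (q (σ j₀)) (fun x => (χ x : ℂ) * R σ x) x * G j₀ x) := fun σ =>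
    int_mul (hpdN σ) ((hNR σ).comp.of_isClosed_subset (isClosed_tsupport _) (hpdS σ))
      (fun h => (hNR σ).zero (hpdS σ h)) (hG1 j₀).continuousOn
  simp only [hdet]
  rw [integral_finsetSum _ fun σ _ => (hint σ).const_mul _]
  have hterm : ∀ σ : Equiv.Perm (Fin k), ∫ x, ((Equiv.Perm.sign σ : ℤ) : ℂ) *
      (((χ x : ℂ) * R σ x) * Pd (p (σ j₀)) (q (σ j₀)) (G j₀) x) =
      -∫ x, ((Equiv.Perm.sign σ : ℤ) : ℂ) *
        (Pd (p (σ j₀)) (q (σ j₀)) (fun x => (χ x : ℂ) * R σ x) x * G j₀ x) := by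
    intro σ
    rw [integral_const_mul, integral_const_mul, ibp (hNR σ) (hG1 j₀)]
    ring
  simp only [hterm, Finset.sum_neg_distrib]
  rw [← integral_finsetSum _ fun σ _ => (hint2 σ).const_mul _]
  congr 1
  refine integral_congr_ae (Eventually.of_forall fun x => ?_)
  change ∑ σ : Equiv.Perm (Fin k), ((Equiv.Perm.sign σ : ℤ) : ℂ) *
      (Pd (p (σ j₀)) (q (σ j₀)) (fun x => (χ x : ℂ) * R σ x) x * G j₀ x) =
    G j₀ x * ((Matrix.of fun i j => Pd (p i) (q i) (G j) x).updateCol j₀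
      (fun i => Pd (p i) (q i) (fun y => (χ y : ℂ)) x)).det
  by_cases hx : x = 0
  · -- everything vanishes near 0
    have hχ0 : ∀ (p q : E ι), Pd p q (fun y => (χ y : ℂ)) x = 0 := by
      intro p q
      have hz : fderiv ℝ (fun x => (χ x : ℂ)) x = 0 := by
        have : x ∉ tsupport (fderiv ℝ (fun x => (χ x : ℂ))) := fun h =>
          hχn.zero (hx ▸ tsupport_fderiv_subset ℝ h)
        exact image_eq_zero_of_notMem_tsupport this
      unfold Pd
      rw [hz]
      simp
    have h1 : ∀ σ, Pd (p (σ j₀)) (q (σ j₀)) (fun x => (χ x : ℂ) * R σ x) x = 0 := by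
      intro σ
      have : x ∉ tsupport (Pd (p (σ j₀)) (q (σ j₀)) (fun x => (χ x : ℂ) * R σ x)) := fun h =>
        (hNR σ).zero (hx ▸ hpdS σ h)
      exact image_eq_zero_of_notMem_tsupport this
    simp only [h1, hχ0, zero_mul, mul_zero, Finset.sum_const_zero]
    have h2 : ((Matrix.of fun i j => Pd (p i) (q i) (G j) x).updateCol j₀
        (fun _ : Fin k => (0 : ℂ))).det = 0 := by
      refine Matrix.det_eq_zero_of_column_eq_zero j₀ fun i => ?_
      simp
    rw [h2, mul_zero]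
  · have hdχ : DifferentiableAt ℝ (fun x => (χ x : ℂ)) x :=
      hχn.smooth.differentiable one_ne_zero x
    have hdH : ∀ (σ : Equiv.Perm (Fin k)) (j : Fin k),
        DifferentiableAt ℝ (Pd (p (σ j)) (q (σ j)) (G j)) x := fun σ j =>
      ((pd_c1 (hG j) _ _).contDiffAt (open0.mem_nhds hx)).differentiableAt one_ne_zero
    have hdR : ∀ σ, DifferentiableAt ℝ (R σ) x := fun σ =>
      (HasFDerivAt.finsetProd fun j _ => (hdH σ j).hasFDerivAt).differentiableAt
    have hexp : ∀ σ : Equiv.Perm (Fin k),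
        Pd (p (σ j₀)) (q (σ j₀)) (fun x => (χ x : ℂ) * R σ x) x =
        Pd (p (σ j₀)) (q (σ j₀)) (fun x => (χ x : ℂ)) x * R σ x + (χ x : ℂ) *
          ∑ l ∈ Finset.univ.erase j₀,
            Pd (p (σ j₀)) (q (σ j₀)) (Pd (p (σ l)) (q (σ l)) (G l)) x *
              ∏ j ∈ (Finset.univ.erase j₀).erase l, Pd (p (σ j)) (q (σ j)) (G j) x := by
      intro σ
      rw [pd_mul hdχ (hdR σ)]
      congr 2
      exact pd_prod _ (fun j => Pd (p (σ j)) (q (σ j)) (G j)) (fun j _ => hdH σ j) _ _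
    have hdet2 : ((Matrix.of fun i j => Pd (p i) (q i) (G j) x).updateCol j₀
        (fun i => Pd (p i) (q i) (fun y => (χ y : ℂ)) x)).det =
        ∑ σ : Equiv.Perm (Fin k), ((Equiv.Perm.sign σ : ℤ) : ℂ) *
          (Pd (p (σ j₀)) (q (σ j₀)) (fun x => (χ x : ℂ)) x * R σ x) := by
      rw [Matrix.det_apply']
      refine Finset.sum_congr rfl fun σ _ => ?_
      rw [← Finset.mul_prod_erase _ _ (Finset.mem_univ j₀)]
      congr 2
      · simp
      · refine Finset.prod_congr rfl fun j hj => ?_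
        rw [Matrix.updateCol_ne (Finset.ne_of_mem_erase hj)]
        rfl
    have hz : ∀ l ∈ Finset.univ.erase j₀, ∑ σ : Equiv.Perm (Fin k),
        ((Equiv.Perm.sign σ : ℤ) : ℂ) *
          (Pd (p (σ j₀)) (q (σ j₀)) (Pd (p (σ l)) (q (σ l)) (G l)) x *
            ∏ j ∈ (Finset.univ.erase j₀).erase l, Pd (p (σ j)) (q (σ j)) (G j) x) = 0 := by
      intro l hl
      exact cancel (fun a b => Pd (p a) (q a) (Pd (p b) (q b) (G l)) x)
        (fun a j => Pd (p a) (q a) (G j) x) j₀ l (Finset.ne_of_mem_erase hl)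
        fun a b => pd_comm (hG l) _ _ _ _ hx
    have hsum : ∑ σ : Equiv.Perm (Fin k), ((Equiv.Perm.sign σ : ℤ) : ℂ) *
        ∑ l ∈ Finset.univ.erase j₀,
            Pd (p (σ j₀)) (q (σ j₀)) (Pd (p (σ l)) (q (σ l)) (G l)) x *
              ∏ j ∈ (Finset.univ.erase j₀).erase l, Pd (p (σ j)) (q (σ j)) (G j) x = 0 := by
      simp only [Finset.mul_sum]
      rw [Finset.sum_comm]
      exact Finset.sum_eq_zero hz
    rw [hdet2, Finset.mul_sum]
    calc ∑ σ : Equiv.Perm (Fin k), ((Equiv.Perm.sign σ : ℤ) : ℂ) *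
          (Pd (p (σ j₀)) (q (σ j₀)) (fun x => (χ x : ℂ) * R σ x) x * G j₀ x)
        = ∑ σ : Equiv.Perm (Fin k), (G j₀ x * (((Equiv.Perm.sign σ : ℤ) : ℂ) *
            (Pd (p (σ j₀)) (q (σ j₀)) (fun x => (χ x : ℂ)) x * R σ x)) +
            G j₀ x * (χ x : ℂ) * (((Equiv.Perm.sign σ : ℤ) : ℂ) *
              ∑ l ∈ Finset.univ.erase j₀,
              Pd (p (σ j₀)) (q (σ j₀)) (Pd (p (σ l)) (q (σ l)) (G l)) x *
              ∏ j ∈ (Finset.univ.erase j₀).erase l, Pd (p (σ j)) (q (σ j)) (G j) x)) := by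
          refine Finset.sum_congr rfl fun σ _ => ?_
          rw [hexp σ]
          ring
      _ = _ := by
          rw [Finset.sum_add_distrib, ← Finset.mul_sum (f := fun σ : Equiv.Perm (Fin k) =>
            ((Equiv.Perm.sign σ : ℤ) : ℂ) * ∑ l ∈ Finset.univ.erase j₀,
              Pd (p (σ j₀)) (q (σ j₀)) (Pd (p (σ l)) (q (σ l)) (G l)) x *
              ∏ j ∈ (Finset.univ.erase j₀).erase l, Pd (p (σ j)) (q (σ j)) (G j) x), hsum,
            mul_zero, add_zero]

end Pool.Agent.Work.MP_02f065_gt.HS
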