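import Pool.Agent.Work.MP_02f065_gt.HS.Defs2
import Pool.Agent.Work.MP_02f065_gt.FR.Stmts

/-!
MP_02f065_gt, block HS: statements of the items (parts A, B, C).  Every docstring is a complete
proof.  `R t = rot J t`, `gam = gcr x y`, `gam' = gcv x y`; `gcr = gc`, `gcv = gd` (Cvx/Stmts) and
`rot J t x = circ J x t` by `rfl`; an `IsCpx J` is the same as `IsFrame (fun _ : Fin 1 => J)`.
`ON x y`: orthonormal pair; `Sys g L`: all curves from `x` to `-x` have length at least `L`.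
-/

open MeasureTheory Set Filter Topology

noncomputable section

namespace Pool.Agent.Work.MP_02f065_gt.HS

open Pool.Agent.Work.MP_02f065_gt.RPn Pool.Agent.Work.MP_02f065_gt.Cvx
open Pool.Agent.Work.MP_02f065_gt.FR

/-- [Alg] (EASY) algebra of `J` and `rot J`.  Polarise `<x, Jx> = 0`, `|Jx| = |x|`; `J J x = -x` from
`<J J x, y> = -<J x, J y> = -<x, y>`; `rot`: addition theorems.  (FR/I_BAS.lean has `IsFrame`
versions: apply them to `fun _ : Fin 1 => J`.) -/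
def StAlg : Prop := ∀ (ι : Type) [Fintype ι] (J : E ι → E ι), IsCpx J →
  Continuous J ∧ IsFrame (fun _ : Fin 1 => J) ∧
  (∀ x y : E ι, inner ℝ (J x) y = -(inner ℝ x (J y) : ℝ)) ∧
  (∀ x y : E ι, (inner ℝ (J x) (J y) : ℝ) = inner ℝ x y) ∧
  (∀ x : E ι, J (J x) = -x ∧ J (-x) = -J x) ∧
  (∀ t : ℝ, IsLinearMap ℝ (rot J t)) ∧
  (∀ (s t : ℝ) (x : E ι), rot J s (rot J t x) = rot J (s + t) x) ∧
  (∀ x : E ι, rot J 0 x = x ∧ rot J Real.pi x = -x) ∧
  (∀ (t : ℝ) (x y : E ι), (inner ℝ (rot J t x) (rot J t y) : ℝ) = inner ℝ x y) ∧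
  (∀ (t : ℝ) (x : E ι), ‖rot J t x‖ = ‖x‖ ∧ J (rot J t x) = rot J t (J x)) ∧
  (∀ (t : ℝ) (x : E ι), HasDerivAt (fun s => rot J s x) (J (rot J t x)) t) ∧
  Continuous (fun z : ℝ × E ι => rot J z.1 z.2)

/-- [Gc] (EASY, hypothesis `StAlg`) great circles.  Addition theorems; the last lines: expand
`cos (pi - t) = - cos t`, `sin (pi - t) = sin t` and use linearity of `rot`. -/
def StGc : Prop := ∀ (ι : Type) [Fintype ι] (J : E ι → E ι), IsCpx J →
  (∀ (x y : E ι) (t : ℝ), HasDerivAt (gcr x y) (gcv x y t) t) ∧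
  (∀ x y : E ι, ON x y → ∀ t, ON (gcr x y t) (gcv x y t) ∧
    (inner ℝ (J (gcr x y t)) (gcv x y t) : ℝ) = inner ℝ (J x) y) ∧
  (∀ x y : E ι, gcr x y 0 = x ∧ gcr x y Real.pi = -x ∧
    ∀ t, gcr x y (t + Real.pi / 2) = gcv x y t ∧ gcv x y (t + Real.pi / 2) = -gcr x y t) ∧
  (∀ x y : E ι, IsHor J x y → ON x y ∧ (∀ a b, IsHor J (rot J a x) (rot J b y)) ∧
    ∀ t, IsHor J (gcr x y t) (gcv x y t)) ∧
  (∀ (x y : E ι) (c t : ℝ), gcr (rot J c x) (rot J c y) t = rot J c (gcr x y t) ∧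
    gcv (rot J c x) (rot J c y) t = rot J c (gcv x y t)) ∧
  (∀ (x y : E ι) (c t : ℝ),
    gcr (-rot J c x) (rot J c y) t = rot J c (gcr x y (Real.pi - t)) ∧
    gcv (-rot J c x) (rot J c y) t = -rot J c (gcv x y (Real.pi - t))) ∧
  (∀ (x y : E ι) (c : ℝ), ON x y → ON (-rot J c x) (rot J c y))

/-- [Pt] (EASY-MEDIUM, hypotheses `StAlg`, `claimA1`) pointwise facts.  `<x, J x> = 0` and `J x ≠ 0`,
so `g x (J x) (J x) > 0`.  The second line is the definition; `quo ≥ 0`: `quo = g x w w` for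
`w = v - theta (J x)`, tangent.  Continuity: `g x v w = ∑ v_i w_j g x (ei i) (ei j)` (bilinearity),
so `g` is jointly continuous on `{|x| = 1}`.  Bounds: compactness. -/
def StPt : Prop := ∀ (ι : Type) [Fintype ι] (J : E ι → E ι) (g : RPn.Field ι),
  IsCpx J → IsMetric g →
  (∀ x : E ι, ‖x‖ = 1 → 0 < g x (J x) (J x)) ∧
  (∀ x v : E ι, ‖x‖ = 1 →
    g x v v = g x (J x) (J x) * theta g J x v ^ 2 + quo g J x v) ∧
  (∀ x v : E ι, ‖x‖ = 1 → inner ℝ x v = 0 → 0 ≤ quo g J x v) ∧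
  (∀ (x v : E ι) (r : ℝ), ‖x‖ = 1 → quo g J x (v + r • J x) = quo g J x v ∧
    theta g J x (v + r • J x) = theta g J x v + r ∧ quo g J x (r • v) = r ^ 2 * quo g J x v ∧
    theta g J x (r • v) = r * theta g J x v) ∧
  ContinuousOn (fun z : E ι × E ι => quo g J z.1 z.2) {z | ‖z.1‖ = 1} ∧
  ContinuousOn (fun z : E ι × E ι => theta g J z.1 z.2) {z | ‖z.1‖ = 1} ∧
  ContinuousOn (fun x => g x (J x) (J x)) (Metric.sphere (0 : E ι) 1) ∧
  ∃ C : ℝ, 0 < C ∧ (∀ x : E ι, ‖x‖ = 1 → Real.sqrt (g x (J x) (J x)) ≤ C) ∧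
    ∀ x v : E ι, ‖x‖ = 1 → |theta g J x v| ≤ C * ‖v‖

/-- [Lip] (EASY-MEDIUM, hypotheses `StAlg`, `StPt`) `theta` is Lipschitz.  The numerator
`g x v (J x) = ∑ v_i (J x)_j g x (ei i) (ei j)` and the denominator are sums of products of bounded
Lipschitz functions, the denominator is bounded below on the sphere (compactness). -/
def StLip : Prop := ∀ (ι : Type) [Fintype ι] (J : E ι → E ι) (g : RPn.Field ι),
  IsCpx J → IsMetric g → Lip g → ∃ K : ℝ, 0 ≤ K ∧ ∀ x x' v v' : E ι, ‖x‖ = 1 → ‖x'‖ = 1 →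
    ‖v‖ ≤ 1 → ‖v'‖ ≤ 1 → |theta g J x v - theta g J x' v'| ≤ K * (‖x - x'‖ + ‖v - v'‖)

/-- [OdeEx] (EASY-MEDIUM) a scalar differential equation with bounded Lipschitz right side.
`IsPicardLindelof` on `[0, pi]` with radius `C * pi` (the vector field is bounded by `C` everywhere),
`IsPicardLindelof.exists_eq_forall_mem_Icc_hasDerivWithinAt` (Mathlib.Analysis.ODE.PicardLindelof). -/
def StOdeEx : Prop := ∀ (F : ℝ → ℝ → ℝ) (C K : ℝ), Continuous (fun z : ℝ × ℝ => F z.1 z.2) →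
  (∀ t s, |F t s| ≤ C) → (∀ t s s', |F t s - F t s'| ≤ K * |s - s'|) →
  ∃ τ : ℝ → ℝ, τ 0 = 0 ∧ ∀ t ∈ Icc (0 : ℝ) Real.pi,
    HasDerivWithinAt τ (F t (τ t)) (Icc 0 Real.pi) t

/-- [OdeDe] (EASY-MEDIUM) dependence on the right side (and uniqueness, `ε = 0`).  Gronwall:
`dist_le_of_approx_trajectories_ODE` (Mathlib.Analysis.ODE.Gronwall), `|τ| ≤ C pi`. -/
def StOdeDe : Prop := ∀ (F G : ℝ → ℝ → ℝ) (C K ε : ℝ), 0 ≤ C → 0 ≤ K → 0 ≤ ε →
  (∀ t s, |G t s| ≤ C) → (∀ t s s', |F t s - F t s'| ≤ K * |s - s'|) →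
  (∀ t ∈ Icc (0 : ℝ) Real.pi, ∀ s, |s| ≤ C * Real.pi → |F t s - G t s| ≤ ε) →
  ∀ τ σ : ℝ → ℝ, τ 0 = 0 → σ 0 = 0 →
  (∀ t ∈ Icc (0 : ℝ) Real.pi, HasDerivWithinAt τ (F t (τ t)) (Icc 0 Real.pi) t) →
  (∀ t ∈ Icc (0 : ℝ) Real.pi, HasDerivWithinAt σ (G t (σ t)) (Icc 0 Real.pi) t) →
  |τ Real.pi - σ Real.pi| ≤ ε * Real.pi * Real.exp (K * Real.pi)

/-- [Disp] (MEDIUM, hypotheses `StAlg`, `StGc`, `StPt`, `StLip`, `StOdeEx`, `StOdeDe`) the
displacement.  For an orthonormal pair `F t s = -theta g J (R s (gam t)) (R s (gam' t))`: jointly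
continuous in all variables (`StPt`, `StGc`), bounded by `C`, Lipschitz in `s` with constant `2 K`
(`|R s x - R s' x| ≤ |s - s'|` for `|x| = 1`; `StLip`).  So there is a lift (`StOdeEx`), its value at
`pi` is unique (`StOdeDe`, `ε = 0`) and continuous in `(x, y)`: `StOdeDe` with
`ε = sup |F_(x,y) - F_(x',y')|` over the compact set `[0,pi] x [-C pi, C pi]`, which tends to 0 (for
`|x - x'|, |y - y'| ≤ δ` it is at most `2 K * 2 δ` by `StLip`). -/
def StDisp : Prop := ∀ (ι : Type) [Fintype ι] (J : E ι → E ι) (g : RPn.Field ι),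
  IsCpx J → IsMetric g → Lip g → ∃ D : E ι → E ι → ℝ,
    ContinuousOn (fun z : E ι × E ι => D z.1 z.2) {z | ON z.1 z.2} ∧
    (∀ x y : E ι, ON x y → ∃ τ, IsLift g J x y τ ∧ τ Real.pi = D x y) ∧
    ∀ (x y : E ι) (τ : ℝ → ℝ), ON x y → IsLift g J x y τ → τ Real.pi = D x y

/-- [Rev] (EASY-MEDIUM, hypotheses `StAlg`, `StGc`) the reversed lift.  `D = τ pi`,
`τ₁ t = τ (pi - t) - D`.  Derivative: `-τ' (pi - t) = theta (R_τ gam) (R_τ gam')` at `pi - t`; and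
`R (τ₁ t) (gcr (-R D x) (R D y) t) = R (τ (pi - t)) (gam (pi - t))`, `R (τ₁ t) (gcv ...) =
-R (τ (pi - t)) (gam' (pi - t))` (`StGc`), `theta` is odd in the vector. -/
def StRev : Prop := ∀ (ι : Type) [Fintype ι] (J : E ι → E ι) (g : RPn.Field ι) (x y : E ι)
  (τ : ℝ → ℝ), IsCpx J → IsMetric g → ON x y → IsLift g J x y τ →
  IsLift g J (-rot J (τ Real.pi) x) (rot J (τ Real.pi) y)
    (fun t => τ (Real.pi - t) - τ Real.pi)

/-- [Ivt] (EASY-MEDIUM, hypotheses `StAlg`, `StGc`, `StDisp`, `StRev`) **a closed horizontal lift in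
every pencil**.  `d = D x y`.  `u s = D (R (s (d + pi)) x) (R (s d) y)`, continuous on `[0, 1]`
(horizontal pairs are orthonormal), `u 0 = d`, `u 1 = D (-R d x) (R d y) = -d` (`R (d + pi) x =
-R d x`; `StRev` and the last clause of `StDisp`: `τ₁ pi = τ 0 - d`).  Intermediate value theorem. -/
def StIvt : Prop := ∀ (ι : Type) [Fintype ι] (J : E ι → E ι) (g : RPn.Field ι) (x y : E ι),
  IsCpx J → IsMetric g → Lip g → IsHor J x y →
  ∃ (a b : ℝ) (τ : ℝ → ℝ), IsLift g J (rot J a x) (rot J b y) τ ∧ τ Real.pi = 0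

/-- [Len] (MEDIUM, hypotheses `StAlg`, `StGc`, `StPt`, `claimA2`, `claimA3`) the length of the lift.
`c t = R (τ t) (gam t)`, `c' t = τ' t J (c t) + R (τ t) (gam' t)` with `τ' = -theta`: an arc on
`[0, pi]` (`IsArc`; `c'` is continuous because `τ` is).  `theta (c t) (c' t) = 0`, so (`StPt`)
`g c c' c' = quo (c, c') = quo (c, R_τ gam') = quo (gam, gam')` (`IsSubmersion.inv`), so the length is
`hlen g J x y`.  `c 0 = x`, `c pi = -R d x`, `d = τ pi`.  If `d = 0` this is a curve from `x` to `-x`.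
Otherwise add the arc `s -> R (d (1 - s)) (-x)`, `s ∈ [0, 1]`, of speed
`|d| sqrt (g z (J z) (J z)) ≤ |d| C`. -/
def StLenH : Prop := ∀ (ι : Type) [Fintype ι] (J : E ι → E ι) (g : RPn.Field ι) (L : ℝ),
  IsCpx J → IsSubmersion g J → Sys g L → ∃ C : ℝ, 0 < C ∧
    ∀ (x y : E ι) (τ : ℝ → ℝ), ON x y → IsLift g J x y τ →
      L ≤ hlen g J x y + C * |τ Real.pi|

/-- The bilinear form of `quo`. -/
def quoB {ι : Type} (g : RPn.Field ι) (J : E ι → E ι) (x v w : E ι) : ℝ :=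
  g x v w - g x v (J x) * g x w (J x) / g x (J x) (J x)

/-- The matrix of the quotient metric, completed by the unit vectors `x` and `J x`. -/
def qmat {ι : Type} [Fintype ι] [DecidableEq ι] (g : RPn.Field ι) (J : E ι → E ι) (x : E ι)
    (i j : ι) : ℝ := x i * x j + J x i * J x j + quoB g J x (tang x (ei i)) (tang x (ei j))

/-- [Qm] (MEDIUM, hypotheses `StAlg`, `StPt`) the density is the square root of `det (qmat)`.
`G = gram g x` (matrix), `a = J x` (vector of coordinates), `b = G a`: `b_i = g x (tang x (ei i)) (J x)`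
(because `∑ (Jx)_j tang x (ei j) = J x` and `<x, J x> = 0`), `a . G a = f^2 := g x (J x) (J x)`,
`a . a = 1`.  `qmat = G - b b^T / f^2 + a a^T`.  `G` is positive definite (or: `det G > 0`), and
`qmat = G (1 - a a^T G / f^2 + G⁻¹ a a^T)`, determinant of a rank two perturbation of 1:
`det (1 + U V) = det (1 + V U)` (`Matrix.det_one_add_mul_comm`) gives a 2 x 2 determinant
`det [[0, 1/f^2], [-1, 1 + a.G⁻¹a]] = 1/f^2`.  (Without the inverse: with `U = 1 + a (b/f^2 - a)^T`,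
`det U = 1` (`Matrix.det_one_add_replicateCol_mul_replicateRow` or so) one has
`G = U^T (qmat + (f^2 - 1) a a^T) U`, and `qmat a = a`, so `det (qmat + (f^2-1) a a^T) =
det (qmat (1 + (f^2 - 1) a a^T)) = f^2 det qmat`.)  So `volDensity^2 = f^2 det qmat`. -/
def StQm : Prop := ∀ (ι : Type) [Fintype ι] [DecidableEq ι] (J : E ι → E ι) (g : RPn.Field ι)
  (x : E ι), IsCpx J → IsMetric g → ‖x‖ = 1 →
  dens g J x = Real.sqrt (Matrix.of (qmat g J x)).det ∧ 0 < dens g J x ∧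
    ContinuousOn (dens g J) (Metric.sphere (0 : E ι) 1)

/-- [Qi] (EASY-MEDIUM, hypotheses `StAlg`, `StPt`, `StQm`) the density is invariant.  The matrix `O` of
`rot J t` is orthogonal, and `qmat` at `R t x` is `O qmat(x) O^T`: `quoB` is invariant (polarise
`IsSubmersion.inv`), `tang (R x) (R v) = R (tang x v)`, and `∑_k O_ik tang (..)`.  Equivalently: both are
Gram matrices of the same bilinear form in the orthonormal bases `ei` and `R t (ei i)`. -/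
def StQi : Prop := ∀ (ι : Type) [Fintype ι] [DecidableEq ι] (J : E ι → E ι) (g : RPn.Field ι),
  IsCpx J → IsSubmersion g J → ∀ (x : E ι) (t : ℝ), ‖x‖ = 1 →
    dens g J (rot J t x) = dens g J x

/-- [Qr] (EASY-MEDIUM, hypotheses `StAlg`, `StPt`, `StQm`, `StVdF`, `StMetF`) the density of a metric
whose quotient is `c^2` times the standard one at `x`.  `quoB` is determined by `quo` on tangent
vectors (polarisation), so `qmat g J x = qmat g' J x` for `g' = frameMetric (fun _ => J) (fun _ _ => 1)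
(fun _ => c)`: `quo g' J x v = c^2 (|v|^2 - <J x, v>^2) = c^2 |hor J x v|^2` for tangent `v`; and
`volDensity g' x = 1 * c^(card - 2)` (`StVdF`), `g' x (J x) (J x) = 1`. -/
def StQr : Prop := ∀ (ι : Type) [Fintype ι] [DecidableEq ι] (J : E ι → E ι) (g : RPn.Field ι)
  (x : E ι) (c : ℝ), IsCpx J → IsMetric g → ‖x‖ = 1 → 0 < c →
  (∀ v : E ι, inner ℝ x v = 0 → quo g J x v = c ^ 2 * ‖hor J x v‖ ^ 2) →
  dens g J x = c ^ (Fintype.card ι - 2) ∧ tr g J x = c ^ 2 * ((Fintype.card ι : ℝ) - 2)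

/-- [Vol] (EASY-MEDIUM, hypotheses `StAlg`, `StPt`, `StQm`, `StQi`, `StFloF`, `StCirF`, `StVol`) **the
fibres**.  `f = stretch g (fun _ => J) 0 = sqrt (g x (J x) (J x))`, `volDensity g = f * dens g J`.
`sInt (f dens) = sInt (circMean J (f dens)) = sInt (circMean J f * dens)` (`dens` is constant on the
circles) `≥ (L/pi) sInt dens` (`StCirF`, `dens > 0`).  `vol round = sInt 1 / 2` as in FR/I_MAIN.lean. -/
def StVolH : Prop := ∀ Q : ℕ, 2 ≤ Q → ∀ (J : E (Ix 1 Q) → E (Ix 1 Q)) (g : RPn.Field (Ix 1 Q))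
  (L : ℝ), IsCpx J → IsSubmersion g J → 0 < L → Sys g L →
  L / Real.pi * ratio g J ≤ vol g / vol (RPn.round : RPn.Field (Ix 1 Q)) ∧ 0 < ratio g J

/-- [Sph] (EASY-MEDIUM, hypothesis `StIso`) mean of a quadratic form on the unit sphere of R^Q with an
axial weight.  `B` symmetric bilinear with `B a z = 0`, `a` a unit vector.  Rotate (StIso: the measure is
invariant under linear isometries) so that `a` is the first basis vector: `∫ w(z_0) z_i z_j = 0` for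
`i ≠ j` (reflection `z_i -> -z_i`) and `∫ w(z_0) z_i^2` is the same for all `i ≠ 0` (transposition), hence
`(1/(Q-1)) ∫ w(z_0) (1 - z_0^2)`.  Coordinate free: with an orthonormal basis `b` of R^Q, `b 0 = a`. -/
def StSph : Prop := ∀ Q : ℕ, 2 ≤ Q → ∀ (w : ℝ → ℝ) (B : E (Fin Q) → E (Fin Q) → ℝ) (a : E (Fin Q)),
  Continuous w → (∀ v v' z, B (v + v') z = B v z + B v' z) → (∀ (r : ℝ) v z, B (r • v) z = r * B v z) →
  (∀ v z, B v z = B z v) → ‖a‖ = 1 → (∀ z, B a z = 0) →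
  smean (fun z => w (inner ℝ a z) * B z z) =
    (∑ i, B (EuclideanSpace.single i 1) (EuclideanSpace.single i 1)) / ((Q : ℝ) - 1) *
      smean (fun z => w (inner ℝ a z) * (1 - (inner ℝ a z : ℝ) ^ 2))

/-- [Trc] (MEDIUM, hypotheses `StAlg`, `StPt`, `StIso`, `StIsoF`, `StDis6`, `StAvg`, `StSph`) **the
energy**.  Choose a tangent isometry `T₀` at `x` (`exists_tan` in FR/I_IND.lean).  `StDis6` for
`H (y, u) = w(<J y, u>) quo g J y u`: `κ ∫ω H = ∫ω smean (fun z => H (Ax, A T₀ z))`, `κ = smean 1`.  For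
`y = Ax`, `T = A T₀`, `a = T^* J y` (unit vector with `<J y, T z> = <a, z>`, `T a = J y`), `B z z' = quoB g J y
(T z) (T z')`: by `StSph` the inner mean is `tr g J y / (Q - 1) * κ₂`, `κ₂ = smean (w(<a,z>) (1 -
<a,z>^2)) ≤ smean (w(<a,z>)) = κ₁`, and `κ₁` does not depend on the unit vector `a` (`StIso`); the trace
of `B` is `tr g J y` (trace of `quoB` over an orthonormal basis of the tangent space; the `tang x (ei i)`
form a tight frame).  The same for `quo = 1`: `κ ∫ω w = κ₁`.  `∫ω tr g J (Ax) = sInt (tr g J) / sInt 1`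
(`StAvg`).  `tr ≥ 0`. -/
def StTrc : Prop := ∀ Q : ℕ, 2 ≤ Q → ∀ (Fr : Frames (Ix 1 Q)) (J : E (Ix 1 Q) → E (Ix 1 Q))
  (g : RPn.Field (Ix 1 Q)) (w : ℝ → ℝ), IsCpx J → IsMetric g → Continuous w → (∀ s, 0 ≤ w s) →
  ∀ x v : E (Ix 1 Q), ON x v →
  letI := Fr.ms
  ∫ ω, w (inner ℝ (J (Fr.A ω x)) (Fr.A ω v)) * quo g J (Fr.A ω x) (Fr.A ω v) ∂Fr.μ ≤
    (∫ ω, w (inner ℝ (J (Fr.A ω x)) (Fr.A ω v)) ∂Fr.μ) * energy g J

/-- [Unif] (EASY-MEDIUM, hypotheses `StGc`, `StDisp`) uniformity.  `D` of `StDisp` vanishes on the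
horizontal pairs (`Closes`, last clause of `StDisp`).  Suppose there are orthonormal pairs `(x_k, y_k)`
with `|<J x_k, y_k>| ≤ 1/k` and `|D| > δ`; the set of orthonormal pairs is compact; a limit is a
horizontal pair with `|D| ≥ δ`. -/
def StUnif : Prop := ∀ (ι : Type) [Fintype ι] (J : E ι → E ι) (g : RPn.Field ι),
  IsCpx J → IsMetric g → Lip g → Closes g J → ∀ δ : ℝ, 0 < δ → ∃ ε : ℝ, 0 < ε ∧
    ∀ x y : E ι, ON x y → |(inner ℝ (J x) y : ℝ)| ≤ ε → ∃ τ, IsLift g J x y τ ∧ |τ Real.pi| ≤ δ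

/-- [Mean] (MEDIUM, model FR/I_HOR.lean; hypotheses `StAlg`, `StGc`, `StPt`, `StLenH`, `StUnif`,
`StTrc`, `StPosF`) **case B**.  `δ > 0`, `ε` from `StUnif`, `w s = max 0 (1 - |s| / ε)`.  For an
orthonormal pair `(y, u)`, `s = <J y, u>`: `w(s) L ≤ w(s) (hlen g J y u + C δ)` (if `w(s) ≠ 0` then
`|s| ≤ ε`).  `y = Ax`, `u = Av`, integrate over the frames, Fubini in `t ∈ [0, pi]` (or `iFLO3` on
`[0, 2 pi]`: `hlen` of `(y, u)` plus `hlen` of `(-y, -u)`), `Frames.inv` for the pairs `(gcr x v t,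
gcv x v t)` (`s` is constant on the circle): `L W ≤ pi ∫ω w(s) sqrt (quo (Ax, Av)) + C δ W`,
`W = ∫ω w(s) > 0` (`StPosF`, `m = 1 < Q`: `Q + 1` is even).  Cauchy-Schwarz: `(∫ω w sqrt quo)^2 ≤
W ∫ω w quo ≤ W^2 energy` (`StTrc`).  So `L/pi ≤ sqrt (energy) + C δ / pi` for all `δ > 0`. -/
def StMeanH : Prop := ∀ Q : ℕ, 2 ≤ Q → ∀ (J : E (Ix 1 Q) → E (Ix 1 Q)) (g : RPn.Field (Ix 1 Q))
  (L : ℝ), IsCpx J → IsSubmersion g J → Closes g J → 0 < L → Sys g L →
  (L / Real.pi) ^ 2 ≤ energy g J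

/-- [Main] (EASY, hypotheses `StVolH`, `StIvt`, `StLenH`, `StGc`, `StMeanH`, `claimA6`) **the theorem**.
`L` from `claimA6`, `lam = L / pi`, `r = ratio`.  Case A: by `StIvt` and `StLenH` (`τ pi = 0`)
`L ≤ hlen (R a x) (R b y)`, so `lam^(Q-1) ≤ r` (`card = Q + 1`).  Case B: `lam^(2(Q-1)) ≤
energy^(Q-1) ≤ r^2`, so `lam^(Q-1) ≤ r`.  `lam^Q ≤ lam r ≤ vol g / vol round` (`StVolH`). -/
def StMainH : Prop := ∀ Q : ℕ, 2 ≤ Q → ∀ (J : E (Ix 1 Q) → E (Ix 1 Q)) (g : RPn.Field (Ix 1 Q)),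
  IsCpx J → InClass g J → ∃ (γ : ℝ → E (Ix 1 Q)) (l : ℝ), IsClosedGeodesic g γ l ∧
    (l / Real.pi) ^ Q ≤ vol g / vol (RPn.round : RPn.Field (Ix 1 Q))

/-! ### Explicit metrics -/

/-- [Std] (EASY, hypotheses `StAlg`, `StGc`) standard horizontal spaces: `τ = 0` is a lift of every
horizontal great circle (`(gam, gam')` is a horizontal pair, so `theta = 0`; `rot J 0 = id`). -/
def StStd : Prop := ∀ (ι : Type) [Fintype ι] (J : E ι → E ι) (g : RPn.Field ι), IsCpx J →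
  (∀ x v : E ι, ‖x‖ = 1 → inner ℝ x v = 0 → inner ℝ (J x) v = 0 → g x v (J x) = 0) → Closes g J

/-- [ExR] (EASY-MEDIUM, hypotheses `StAlg`, `StGc`, `StPt`, `StQr`) round quotient.  `hor J (R t x)
(R t v) = R t (hor J x v)`, so `quo` is invariant.  Pencil: any horizontal pair (if `card ι > 2` there
is one: `J x`, `x` do not span); for a horizontal pair `hor J gam gam' = gam'`, `quo = ρ^2`,
`hlen = ρ pi`; `ratio = ρ^(card - 2)` (`StQr`, `sInt 1 > 0`). -/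
def StExR : Prop := ∀ (ι : Type) [Fintype ι] [DecidableEq ι] (J : E ι → E ι) (g : RPn.Field ι)
  (ρ : ℝ), IsCpx J → 2 < Fintype.card ι → IsMetric g → Lip g → 0 < ρ →
  (∀ x v : E ι, ‖x‖ = 1 → inner ℝ x v = 0 → quo g J x v = ρ ^ 2 * ‖hor J x v‖ ^ 2) →
  IsSubmersion g J ∧ Pencil g J

/-- [Pin] (MEDIUM, hypotheses `StAlg`, `StGc`) closed lifts in dimension four.  `(x, y)` horizontal.
`J' x` is orthogonal to `x` and to `J x` (`<J'x, Jx> = -<x, J'Jx> = <x, JJ'x> = -<Jx, J'x>`), so it is a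
unit vector in the plane of `y`, `J y` (dimension 4): `J' x = R s y`; `J' y = J' R(-s) J' x = R s J' J' x =
-R s x` (`J' R(-s) = R(s) J'`).  So `J' gam = R s (gam')`, `J' gam' = -R s gam`, that is
`gam(t + pi/2) = R(-s) J' gam(t)`, `gam'(t + pi/2) = R(-s) J' gam'(t)`, and `u t = theta (gam t) (gam' t)`
satisfies `u (t + pi/2) = -u t`.  `theta` is invariant under `R`, so `τ t = -∫_0^t u` is a lift, and
`τ pi = 0`.  (`u` is continuous: assumed.) -/
def StPin : Prop := ∀ (ι : Type) [Fintype ι] (J J' : E ι → E ι) (g : RPn.Field ι),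
  IsCpx J → IsCpx J' → Fintype.card ι = 4 → (∀ x : E ι, J' (J x) = -J (J' x)) →
  ContinuousOn (fun z : E ι × E ι => theta g J z.1 z.2) {z | ‖z.1‖ = 1} → IsMetric g →
  (∀ (x v : E ι) (t : ℝ), ‖x‖ = 1 → inner ℝ x v = 0 →
    theta g J (rot J t x) (rot J t v) = theta g J x v) →
  (∀ x v : E ι, ‖x‖ = 1 → inner ℝ x v = 0 → theta g J (J' x) (J' v) = -theta g J x v) →
  Closes g J

/-- [ExP] (EASY-MEDIUM, hypotheses `StAlg`, `StQr`) conformally round quotient in dimension four: `quo` is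
invariant (`u` is, `hor J (R x) (R v) = R (hor J x v)`), `dens = u^2`, `tr = 2 u^2` (`StQr`), so
`energy = ratio ≥ 0` and `energy^2 ≤ ratio^2`. -/
def StExP : Prop := ∀ (ι : Type) [Fintype ι] [DecidableEq ι] (J : E ι → E ι) (g : RPn.Field ι)
  (u : E ι → ℝ), IsCpx J → Fintype.card ι = 4 → IsMetric g → Lip g →
  ContinuousOn u (Metric.sphere (0 : E ι) 1) → (∀ x : E ι, ‖x‖ = 1 → 0 < u x) →
  (∀ (x : E ι) (t : ℝ), ‖x‖ = 1 → u (rot J t x) = u x) →
  (∀ x v : E ι, ‖x‖ = 1 → inner ℝ x v = 0 → quo g J x v = u x ^ 2 * ‖hor J x v‖ ^ 2) →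
  IsSubmersion g J ∧ energy g J ^ (Fintype.card ι - 2) ≤ ratio g J ^ 2

end Pool.Agent.Work.MP_02f065_gt.HS
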