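import Pool.Agent.Work.MP_02f065_gt.HS.Stmts

/-!
MP_02f065_gt, block HS: statements of the items (part K, Kähler quotients).  Every docstring is a
complete proof.

Notation: `e` a unitary basis, `z_j = <e j, x> + i <J (e j), x>`, `d_j = (D_(e j) - i D_(J e j)) / 2`,
`dbar_j = (D_(e j) + i D_(J e j)) / 2`, `H(u)_ij = d_i dbar_j u = (lev u (e i) (e j) + i lev u (e i)
(J e j)) / 2`.  `lg x = log |x|`, `a lg + φ` is the potential of the Kähler metric, `|x|^2` has `H = 1`.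
-/

open MeasureTheory Set Filter Topology Complex

noncomputable section

namespace Pool.Agent.Work.MP_02f065_gt.HS

open Pool.Agent.Work.MP_02f065_gt.RPn Pool.Agent.Work.MP_02f065_gt.Cvx
open Pool.Agent.Work.MP_02f065_gt.FR

section

variable {ι : Type} [Fintype ι] {k : ℕ}

/-- A unitary basis. -/
structure IsUni (J : E ι → E ι) (e : Fin k → E ι) : Prop where
  on : ∀ i j, (inner ℝ (e i) (e j) : ℝ) = if i = j then 1 else 0
  onJ : ∀ i j, (inner ℝ (J (e i)) (e j) : ℝ) = 0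
  card : Fintype.card ι = 2 * k

/-- A first order operator with constant complex coefficients: `D_p + i D_q`. -/
def Pd (p q : E ι) (u : E ι → ℂ) (x : E ι) : ℂ := fderiv ℝ u x p + Complex.I * fderiv ℝ u x q

/-- `d_i`. -/
def dz (J : E ι → E ι) (e : Fin k → E ι) (i : Fin k) : (E ι → ℂ) → E ι → ℂ :=
  Pd ((1 / 2 : ℝ) • e i) (-(1 / 2 : ℝ) • J (e i))

/-- `dbar_i`. -/
def dzb (J : E ι → E ι) (e : Fin k → E ι) (i : Fin k) : (E ι → ℂ) → E ι → ℂ :=
  Pd ((1 / 2 : ℝ) • e i) ((1 / 2 : ℝ) • J (e i))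

/-- The vector of the numbers `conj z_j`. -/
def zb (J : E ι → E ι) (e : Fin k → E ι) (x : E ι) (j : Fin k) : ℂ :=
  (inner ℝ (e j) x : ℝ) - Complex.I * (inner ℝ (J (e j)) x : ℝ)

/-- The complex Hessian. -/
def Hm (J : E ι → E ι) (e : Fin k → E ι) (u : E ι → ℝ) (x : E ι) : Matrix (Fin k) (Fin k) ℂ :=
  Matrix.of fun i j => (1 / 2 : ℂ) * ((lev J u x (e i) (e j) : ℝ) +
    Complex.I * (lev J u x (e i) (J (e j)) : ℝ))

/-- `log |x|`. -/
def lg (x : E ι) : ℝ := Real.log (inner ℝ x x) / 2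

/-- The Kähler metric `a FS + levi φ` plus `s FS` on the horizontal space. -/
def kf (J : E ι → E ι) (a : ℝ) (φ : E ι → ℝ) (s : ℝ) (x v w : E ι) : ℝ :=
  (a + s) * inner ℝ (hor J x v) (hor J x w) + lev J φ x (hor J x v) (hor J x w)

/-- Its density: the square root of the determinant on the horizontal space. -/
def kd [DecidableEq ι] (J : E ι → E ι) (a : ℝ) (φ : E ι → ℝ) (s : ℝ) (x : E ι) : ℝ :=
  Real.sqrt (Matrix.of fun i j : ι => x i * x j + J x i * J x j + kf J a φ s x (ei i) (ei j)).det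

end

/-- [Uni] (EASY-MEDIUM, hypothesis `StAlg`) a unitary basis with given first vector: induction (take a
unit vector orthogonal to the `e j`, `J (e j)` found so far; the span of `e j`, `J (e j)`, `j < l`, has
dimension `2 l` and is invariant under `J`).  The expansion of `x` in the orthonormal basis
`e j`, `J (e j)`. -/
def StUni : Prop := ∀ (ι : Type) [Fintype ι] (J : E ι → E ι) (k : ℕ), IsCpx J →
  Fintype.card ι = 2 * k →
  (∀ x : E ι, ‖x‖ = 1 → ∃ e : Fin k → E ι, IsUni J e ∧ ∃ j, e j = x) ∧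
  ∀ e : Fin k → E ι, IsUni J e → ∀ x : E ι,
    x = ∑ j, ((inner ℝ (e j) x : ℝ) • e j + (inner ℝ (J (e j)) x : ℝ) • J (e j))

/-- [Pot] (MEDIUM, hypothesis `StAlg`) the potential.  `hom`, `rot` differentiated at `x ≠ 0`:
`D φ (x) x = 0`, `D φ (x) (J x) = 0`, `D φ (r x) = r⁻¹ D φ (x)`, `D φ (R x) (R w) = D φ (x) w`, and once
more: `D^2 φ (x, w) = -D φ (w)`, `D^2 φ (J x, w) = -D φ (J w)`, so `lev (x, w) = (1/2)(-D φ (w) -
D φ (J J w)) = 0`, `lev (J x, w) = -lev (x, J w) = 0` (`lev (J v, J w) = lev (v, w)`).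
`lev (r x) = r⁻² lev (x)`; `lev` at `R x` of `R v`, `R w` is `lev` at `x`.  The trace: `D^2 φ (x, x) =
D^2 φ (J x, J x) = 0`. -/
def StPot : Prop := ∀ (ι : Type) [Fintype ι] (J : E ι → E ι) (a : ℝ) (φ : E ι → ℝ),
  IsCpx J → IsPot J a φ →
  (∀ x : E ι, x ≠ 0 → fderiv ℝ φ x x = 0 ∧ fderiv ℝ φ x (J x) = 0) ∧
  (∀ x v w : E ι, x ≠ 0 → hess φ x v w = hess φ x w v) ∧
  (∀ x v w : E ι, lev J φ x v w = lev J φ x w v ∧ lev J φ x (J v) (J w) = lev J φ x v w) ∧
  (∀ x w : E ι, x ≠ 0 → lev J φ x x w = 0 ∧ lev J φ x (J x) w = 0) ∧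
  (∀ (x v w : E ι) (r : ℝ), x ≠ 0 → r ≠ 0 → lev J φ (r • x) v w = r⁻¹ ^ 2 * lev J φ x v w) ∧
  (∀ (x v w : E ι) (t : ℝ), x ≠ 0 →
    lev J φ (rot J t x) (rot J t v) (rot J t w) = lev J φ x v w) ∧
  (∀ v w : E ι, ContDiffOn ℝ 1 (fun x => lev J φ x v w) {0}ᶜ) ∧
  (∀ x v w : E ι, x ≠ 0 → lev J φ x v w = lev J φ x (hor J x v) (hor J x w))

/-- [Lg] (EASY-MEDIUM, hypothesis `StAlg`) the potential `lg` of the Fubini-Study metric.
`D lg (v) = <x, v> / |x|^2`, `D^2 lg (v, w) = <v, w> / |x|^2 - 2 <x, v> <x, w> / |x|^4`; symmetrise. -/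
def StLg : Prop := ∀ (ι : Type) [Fintype ι] (J : E ι → E ι), IsCpx J →
  ContDiffOn ℝ 3 (lg : E ι → ℝ) {0}ᶜ ∧
  (∀ x v w : E ι, x ≠ 0 → fderiv ℝ (lg : E ι → ℝ) x v = inner ℝ x v / inner ℝ x x ∧
    lev J lg x v w = (inner ℝ v w - (inner ℝ x v * inner ℝ x w + inner ℝ (J x) v * inner ℝ (J x) w) /
      inner ℝ x x) / inner ℝ x x) ∧
  (∀ x v w : E ι, ‖x‖ = 1 → lev J lg x v w = inner ℝ (hor J x v) (hor J x w)) ∧
  (∀ x v w : E ι, x ≠ 0 → lev J (fun y => (inner ℝ y y : ℝ)) x v w = 2 * inner ℝ v w)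

/-- [Cx] (EASY-MEDIUM, hypothesis `StAlg`) the complex operators on real functions.  `dz i (dzb j u)`:
`(1/4) (D_(e i) - i D_(J e i)) (D_(e j) + i D_(J e j)) u`, second derivatives are symmetric at `x ≠ 0`
(C^2).  Last: `d_i (F(|x|^2)) = F'(|x|^2) (<x, e i> - i <x, J e i>)`. -/
def StCx : Prop := ∀ (ι : Type) [Fintype ι] (J : E ι → E ι) (k : ℕ) (e : Fin k → E ι),
  IsCpx J → IsUni J e →
  (∀ u : E ι → ℝ, ContDiffOn ℝ 3 u {0}ᶜ →
    (∀ j, ContDiffOn ℝ 2 (dzb J e j (fun x => (u x : ℂ))) {0}ᶜ) ∧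
    ∀ x : E ι, x ≠ 0 → ∀ i j, dz J e i (dzb J e j (fun x => (u x : ℂ))) x = Hm J e u x i j) ∧
  (∀ (F : ℝ → ℝ) (x : E ι) (i : Fin k), DifferentiableAt ℝ F (inner ℝ x x) →
    dz J e i (fun y => ((F (inner ℝ y y) : ℝ) : ℂ)) x =
      (deriv F (inner ℝ x x) : ℝ) * zb J e x i)

/-- [Ker] (EASY-MEDIUM, hypotheses `StAlg`, `StUni`, `StPot`, `StLg`, `StCx`) the kernel.  With
`x = ∑ α_j e j + β_j J e j`, `conj z_j = α_j - i β_j`: `∑_j lev(e i, e j)(α_j - i β_j) + i lev(e i, J e j)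
(α_j - i β_j) = lev (e i, x) + i lev (e i, J x) = 0` for `u = φ` (`StPot`) and for `u = lg` (formula of
`StLg`).  The second sum is `(D φ (x) + i D φ (J x)) / 2 = 0`. -/
def StKer : Prop := ∀ (ι : Type) [Fintype ι] (J : E ι → E ι) (k : ℕ) (e : Fin k → E ι) (a : ℝ)
  (φ : E ι → ℝ), IsCpx J → IsUni J e → IsPot J a φ → ∀ x : E ι, x ≠ 0 →
  (Hm J e φ x).mulVec (zb J e x) = 0 ∧ (Hm J e lg x).mulVec (zb J e x) = 0 ∧
  ∑ j, dzb J e j (fun y => (φ y : ℂ)) x * zb J e x j = 0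

/-- [Nl] (MEDIUM) **null Lagrangian**: integration by parts for a determinant of first derivatives with
commuting constant coefficient operators.  `det M = ∑_σ sgn σ ∏_j M (σ j) j`.  For every `σ` the function
`χ G_j0 ∏_(j ≠ j0) P_(σ j) G_j` is C^1 with compact support (in the complement of 0), so the integral of
its `P_(σ j0)`-derivative is 0 (`integral_fderiv_eq_zero`-type lemma or
`integral_mul_fderiv_eq_neg_fderiv_mul_of_integrable` for each of the two real directions).  Product rule: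
the terms with `P_(σ j0) P_(σ l) G_l`, `l ≠ j0`, cancel in the sum over `σ` under
`σ -> σ * swap j0 l` (second derivatives are symmetric, the sign changes). -/
def StNl : Prop := ∀ (ι : Type) [Fintype ι] [Nonempty ι] (k : ℕ) (p q : Fin k → E ι)
  (G : Fin k → E ι → ℂ) (χ : E ι → ℝ) (j₀ : Fin k), (∀ j, ContDiffOn ℝ 2 (G j) {0}ᶜ) →
  ContDiff ℝ 1 χ → HasCompactSupport χ → (0 : E ι) ∉ tsupport χ →
  ∫ x : E ι, (χ x : ℂ) * (Matrix.of fun i j => Pd (p i) (q i) (G j) x).det =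
    -∫ x : E ι, G j₀ x * ((Matrix.of fun i j => Pd (p i) (q i) (G j) x).updateCol j₀
      (fun i => Pd (p i) (q i) (fun y => (χ y : ℂ)) x)).det

/-- [Dd] (EASY-MEDIUM) derivative of a determinant along a line: multilinearity in the columns
(Leibniz formula and product rule, or `ContinuousMultilinearMap.hasFDerivAt`). -/
def StDd : Prop := ∀ (k : ℕ) (A K : Matrix (Fin k) (Fin k) ℂ) (t : ℝ),
  HasDerivAt (fun s : ℝ => (A + (s : ℂ) • K).det)
    (∑ j, ((A + (t : ℂ) • K).updateCol j (fun i => K i j)).det) t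

/-- [Cr] (EASY) linear algebra: `∑_j w_j det (A with column j replaced by z) = w . (adj A z)`
(`Matrix.cramer_apply`, `cramer_eq_adjugate_mulVec`), and `adj A (A z) = det A z`, so
`lam adj A z = det A z`. -/
def StCr : Prop := ∀ (k : ℕ) (A : Matrix (Fin k) (Fin k) ℂ) (z w : Fin k → ℂ) (lam : ℂ), lam ≠ 0 →
  A.mulVec z = lam • z → ∑ j, w j * z j = 0 → ∑ j, w j * (A.updateCol j z).det = 0

/-- [Con] (MEDIUM, hypotheses `StAlg`, `StUni`, `StPot`, `StLg`, `StCx`, `StKer`, `StNl`, `StDd`, `StCr`)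
**the mass is constant**.  `A_t = a Hm lg + t Hm φ + lam`, `U_t = a lg + t φ + lam |x|^2`, `Hm U_t = A_t`
(`Hm` is linear in `u`; `StLg` last line and `<e i, e j> = δ`, `<e i, J e j> = 0`), `p t = ∫ χ det A_t`.
`p' t = ∑_j ∫ χ det (A_t, column j replaced by column j of Hm φ)` (`StDd`; differentiate under the
integral: continuous integrand with compact support away from 0).  `StNl` for the functions
`G_l = dzb l U_t`, `l ≠ j`, `G_j = dzb j φ`: this is `-∑_j ∫ dzb j φ det (A_t, column j replaced by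
d_i χ)`, `d_i χ = F' zb_i`, `χ = F(|x|^2)` (`StCx`).  `A_t zb = lam zb` (`StKer`), `∑ dzb j φ zb_j = 0`: by
`StCr` the sum of the integrands is 0.  So `p 1 = p 0`. -/
def StCon : Prop := ∀ (ι : Type) [Fintype ι] [Nonempty ι] (J : E ι → E ι) (k : ℕ)
  (e : Fin k → E ι) (a lam : ℝ) (φ : E ι → ℝ) (F : ℝ → ℝ), IsCpx J → IsUni J e → IsPot J a φ →
  0 < lam → ContDiff ℝ 1 F → HasCompactSupport F → (0 : ℝ) ∉ tsupport F →
  ∫ x : E ι, ((F (inner ℝ x x) : ℝ) : ℂ) *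
      ((a : ℂ) • Hm J e lg x + Hm J e φ x + (lam : ℂ) • (1 : Matrix (Fin k) (Fin k) ℂ)).det =
    ∫ x : E ι, ((F (inner ℝ x x) : ℝ) : ℂ) *
      ((a : ℂ) • Hm J e lg x + (lam : ℂ) • (1 : Matrix (Fin k) (Fin k) ℂ)).det

/-- [Rc] (MEDIUM, hypothesis `StUni`) real and complex determinant.  `B` symmetric, `J`-invariant,
positive definite.  In the orthonormal basis `(e j, J (e j))` the matrix of `B` is `[[P, -S], [S, P]]`,
`P_ij = B(e i, e j)` symmetric, `S_ij = B(J e i, e j) = -B(e i, J e j)` antisymmetric; over the complex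
numbers it is similar to `diag (P + i S, P - i S)` (conjugate with `[[1, 1], [-i, i]]` or row and column
operations on the blocks), so its determinant is `det M * conj (det M)`, `M = P - i S` the matrix of the
statement.  `M` is Hermitian and positive definite (`conj v . M v = B(w, w)`, `w = ∑ Re v_j e j +- ..`), so
`det M` is real and positive.  The determinant of the real matrix does not depend on the orthonormal
basis (`ei` or `(e j, J e j)`). -/
def StRc : Prop := ∀ (ι : Type) [Fintype ι] [DecidableEq ι] (J : E ι → E ι) (k : ℕ)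
  (e : Fin k → E ι) (B : E ι → E ι → ℝ), IsCpx J → IsUni J e →
  (∀ v v' w, B (v + v') w = B v w + B v' w) → (∀ (r : ℝ) v w, B (r • v) w = r * B v w) →
  (∀ v w, B v w = B w v) → (∀ v w, B (J v) (J w) = B v w) → (∀ v, v ≠ 0 → 0 < B v v) →
  (Matrix.of fun i j : Fin k => ((B (e i) (e j) : ℝ) : ℂ) + Complex.I * (B (e i) (J (e j)) : ℝ)).det =
    ((Real.sqrt (Matrix.of fun i j : ι => B (ei i) (ei j)).det : ℝ) : ℂ)

/-- [Blk] (EASY-MEDIUM, hypotheses `StAlg`, `StPot`, `StLg`, `StRc`) the determinant at a unit vector.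
`B(v, w) = kf J a φ (2 lam) x v w + 2 lam (<x,v><x,w> + <Jx,v><Jx,w>)` is symmetric, `J`-invariant,
positive definite (`IsPot.pos`); `2 (a Hm lg + Hm φ + lam)` is the matrix of `StRc` for `B` (`StLg`,
`StPot`: `lev φ (v, w) = lev φ (hor v, hor w)`; `<v, w> = <hor v, hor w> + <x,v><x,w> + <Jx,v><Jx,w>`;
`<e i, J e j> = 0`).  With `M' = ` matrix of `kd J a φ (2 lam) x` (eigenvectors `x`, `J x` with eigenvalue
1): matrix of `B` `= M' (1 + (2 lam - 1)(x x^T + Jx Jx^T))`, so `det_R B = (2 lam)^2 det M'` and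
`2^k det (..) = 2 lam kd`.  (`c = 0`: the same with `φ = 0`.) -/
def StBlk : Prop := ∀ (ι : Type) [Fintype ι] [DecidableEq ι] (J : E ι → E ι) (k : ℕ)
  (e : Fin k → E ι) (a lam : ℝ) (φ : E ι → ℝ), IsCpx J → IsUni J e → IsPot J a φ → 0 < lam →
  ∀ x : E ι, ‖x‖ = 1 →
  (2 : ℂ) ^ k * ((a : ℂ) • Hm J e lg x + Hm J e φ x + (lam : ℂ) • (1 : Matrix (Fin k) (Fin k) ℂ)).det =
    ((2 * lam * kd J a φ (2 * lam) x : ℝ) : ℂ)

/-- [Kdc] (EASY-MEDIUM, hypotheses `StAlg`, `StPot`) continuity: `kd J a φ s x` is continuous in `(s, x)`,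
`|x| = 1`, and for `φ = 0` it is `(a + s)^(card - 2)`: the matrix is `(a + s) + (1 - a - s)(x x^T + Jx Jx^T)`
(or FR `StVdF`). -/
def StKdc : Prop := ∀ (ι : Type) [Fintype ι] [DecidableEq ι] (J : E ι → E ι) (a : ℝ) (φ : E ι → ℝ),
  IsCpx J → IsPot J a φ →
  ContinuousOn (fun z : ℝ × E ι => kd J a φ z.1 z.2) {z | ‖z.2‖ = 1} ∧
  ∀ (s : ℝ) (x : E ι), 0 ≤ s → ‖x‖ = 1 →
    kd J a (fun _ => 0) s x = Real.sqrt ((a + s) ^ (Fintype.card ι - 2))

/-- [Pol] (EASY-MEDIUM) polar coordinates: `measurePreserving_homeomorphUnitSphereProd` and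
`integral_prod_mul` (model: FR/RPn use it in the Gaussian form, `claimV1a`). -/
def StPol : Prop := ∀ (ι : Type) [Fintype ι] [Nonempty ι] (ψ : ℝ → ℝ), Continuous ψ →
  (∀ r, 0 ≤ ψ r) → (∃ r, 0 < r ∧ 0 < ψ r) → HasCompactSupport ψ → ∃ κ : ℝ, 0 < κ ∧
  ∀ G : E ι → ℝ, ContinuousOn G (Metric.sphere (0 : E ι) 1) →
    ∫ x : E ι, ψ ‖x‖ * G (‖x‖⁻¹ • x) = κ * sInt G

/-- [Mass] (MEDIUM, hypotheses `StAlg`, `StUni`, `StPot`, `StLg`, `StCon`, `StBlk`, `StKdc`, `StPol`)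
**the volume of a Kähler metric**, `card ι = 2 k`.  `Hm (r x) = r⁻² Hm x` (`StPot`, `StLg`), so for `x = r ζ`,
`|ζ| = 1`: `2^k det (a Hm lg + Hm φ + lam)(x) = r^(-2k) 2 lam r^2 kd (2 lam r^2) ζ` (`StBlk` with
`lam r^2`).  `StCon` for a bump function `F ≥ 0` with support in `[1, 4]` (for `φ` and, the right side,
`StBlk` for `φ = 0`), divided by `2 lam`: `∫ F(|x|^2) |x|^(2-2k) (kd J a φ (2 lam |x|^2) (x/|x|) -
kd J a 0 (2 lam |x|^2) (x/|x|)) dx = 0` for all `lam > 0`.  Let `lam -> 0` (dominated convergence,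
`StKdc`): the same with `lam = 0`.  `StPol` with `ψ r = F(r^2) r^(2-2k)`.  And
`sqrt (a^(2k-2)) = a^(k-1)`. -/
def StMass : Prop := ∀ (ι : Type) [Fintype ι] [DecidableEq ι] [Nonempty ι] (J : E ι → E ι) (k : ℕ)
  (a : ℝ) (φ : E ι → ℝ), IsCpx J → Fintype.card ι = 2 * k → IsPot J a φ →
  sInt (kd J a φ 0) = a ^ (k - 1) * sInt (ι := ι) (fun _ => 1)

/-- [Lap] (EASY-MEDIUM, hypotheses `StAlg`, `StPot`, `StPol`) the mean of the trace.  `∑ lev (ei i, ei i) =
∑ D^2 φ (ei i, ei i)` (`J` is orthogonal: the `J (ei i)` are an orthonormal basis), `∫ F(|x|^2) ∑ D^2 φ (ei i,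
ei i) = -∫ 2 F'(|x|^2) D φ (x) x = 0` (integration by parts in each coordinate, compact support away from
0; `StPot`), and `lev (x) = |x|⁻² lev (x/|x|)`: `StPol` with `ψ r = F(r^2) r⁻²`.  `∑ lev x (hor (ei i)) (hor
(ei i)) = ∑ lev x (ei i) (ei i)` (`StPot`). -/
def StLap : Prop := ∀ (ι : Type) [Fintype ι] [DecidableEq ι] [Nonempty ι] (J : E ι → E ι) (a : ℝ)
  (φ : E ι → ℝ), IsCpx J → IsPot J a φ →
  sInt (fun x => ∑ i, lev J φ x (hor J x (ei i)) (hor J x (ei i))) = 0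

/-- [Km] (MEDIUM, hypotheses `StAlg`, `StPot`, `StLg`) the Kähler type metric is a metric with Lipschitz
coefficients and invariant quotient `kf J a φ 0`, standard horizontal spaces.  `kahler x v (J x) =
f^2 <J x, v>` (`hor J x (J x) = 0` for unit `x`).  Positive: if `<J x, v> = 0` then `hor v = v ≠ 0`
(`IsPot.pos`); else the first term is positive and the second nonnegative.  Even: `hor J (-x) = hor J x`,
`lev (-x) = lev x` (`StPot`, `r = -1`).  Lipschitz: `x -> lev x v w`, `hor J x v` are C^1 off 0, so locally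
Lipschitz on the compact sphere (`LocallyLipschitzOn.exists_lipschitzOnWith_of_compact`); products of
bounded Lipschitz functions.  Invariance: `hor J (R x) (R v) = R (hor J x v)`, `StPot`. -/
def StKm : Prop := ∀ (ι : Type) [Fintype ι] (J : E ι → E ι) (a : ℝ) (f φ : E ι → ℝ),
  IsCpx J → IsPot J a φ → IsFun f →
  (∃ K : NNReal, LipschitzOnWith K f (Metric.sphere (0 : E ι) 1)) →
  IsSubmersion (kahler J f a φ) J ∧
  (∀ x v w : E ι, ‖x‖ = 1 → quoB (kahler J f a φ) J x v w = kf J a φ 0 x v w) ∧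
  ∀ x v : E ι, ‖x‖ = 1 → inner ℝ x v = 0 → inner ℝ (J x) v = 0 →
    kahler J f a φ x v (J x) = 0

/-- [Ke] (EASY-MEDIUM, hypotheses `StAlg`, `StQm`, `StPot`, `StKm`, `StMass`, `StLap`) energy and volume
of a Kähler quotient, `card ι = 2 k`, `k ≥ 2`.  `qmat = ` the matrix of `kd` (`StKm`; `hor J x (tang x v) =
hor J x v`), so `dens = kd J a φ 0` on unit vectors and `ratio = a^(k-1)` (`StMass`, `sInt 1 > 0`).
`tr = ∑ kf (ei i, ei i) = a (card - 2) + ∑ lev (hor, hor)`, `energy = a` (`StLap`).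
`a^(2k-2) ≤ (a^(k-1))^2`. -/
def StKe : Prop := ∀ (ι : Type) [Fintype ι] [DecidableEq ι] (J : E ι → E ι) (k : ℕ) (a : ℝ)
  (f φ : E ι → ℝ), IsCpx J → Fintype.card ι = 2 * k → 2 ≤ k → IsPot J a φ → IsFun f →
  (∃ K : NNReal, LipschitzOnWith K f (Metric.sphere (0 : E ι) 1)) →
  energy (kahler J f a φ) J ^ (Fintype.card ι - 2) ≤ ratio (kahler J f a φ) J ^ 2

end Pool.Agent.Work.MP_02f065_gt.HS
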